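import Pool.Agent.Lib.MP_29e17e_pr.G.Fb
import Pool.Agent.Lib.MP_29e17e_pr.P.Ct
import Pool.Agent.Lib.MP_29e17e_pr.P.Rs
import Pool.Agent.Lib.MP_29e17e_pr.Y.Fw

namespace Pool.Agent.PERC29
end Pool.Agent.PERC29
namespace Pool.Agent.PERC29.AE
end Pool.Agent.PERC29.AE
namespace Pool.Agent.PERC29.PP
end Pool.Agent.PERC29.PP
namespace Pool.Agent.PERC29.QQ
end Pool.Agent.PERC29.QQ

set_option autoImplicit false
set_option linter.unusedSectionVars false

/-! Rows 29h-C1 .. C6: the lower bounds `GB` from the criticality of `pc`. -/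

open Finset

namespace Pool.Agent.PERC29.GU

open Pool.Agent.PERC29 Pool.Agent.PERC29.AE Pool.Agent.PERC29.QQ Pool.Agent.PERC29.PP

/-- Row C1. If `be d n pc < 1/(2d)`: `be d n p` is a continuous function of `p` (a polynomial; `Ex_hasDerivAt` gives continuity at `pc ≠ 1`), so there is `p` with `pc < p < 1` and `2 d be d n p ≤ q < 1`. By `arm_rec` `aM d N p ≤ q aM d (N - n - 1) p` for `N ≥ n + 1`, so `aM d (k (n+1)) p ≤ q^k`, hence
`theta d p = 0` (`theta_eq`, `th_le`), a contradiction. -/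
theorem be_crit (d : ℕ) (hd : 1 ≤ d) (pc : ℝ) (h0 : 0 ≤ pc) (h1 : pc < 1) (hc : ∀ p : ℝ, pc < p → p ≤ 1 → 0 < theta d p) (n : ℕ) (hn : 1 ≤ n) :
    1 / (2 * (d : ℝ)) ≤ be d n pc := by
  classical
  by_contra hcon
  rw [not_le] at hcon
  have hd0 : (0 : ℝ) < d := by exact_mod_cast hd
  have hbe0 : 0 ≤ be d n pc := Finset.sum_nonneg fun u _ => ta_nonneg h0 h1.le _ _
  have hg : 2 * (d : ℝ) * be d n pc < 1 := by
    have h2 := mul_lt_mul_of_pos_left hcon (show (0 : ℝ) < 2 * (d : ℝ) by positivity)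
    rwa [mul_one_div, div_self (by positivity)] at h2
  have hcont : ContinuousAt (fun p : ℝ => 2 * (d : ℝ) * be d n p) pc := by
    have h2 : ContinuousAt (fun p : ℝ => be d n p) pc := by
      unfold be
      refine tendsto_finsetSum _ fun u _ => ?_
      exact (Ex_hasDerivAt pc (fun ω : (boxG d (2 * n + 1)).edgeSet → Bool =>
        if u ∈ cu (gends (boxG d (2 * n + 1))) ω (ctr d n) then (1 : ℝ) else 0) h1.ne).continuousAt
    exact h2.const_mul _
  set q : ℝ := (2 * (d : ℝ) * be d n pc + 1) / 2 with hq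
  have hg0 : 0 ≤ 2 * (d : ℝ) * be d n pc := by positivity
  have hq0 : 0 ≤ q := by
    rw [hq]
    linarith
  have hq1 : q < 1 := by
    rw [hq]
    linarith
  have hgq : 2 * (d : ℝ) * be d n pc < q := by
    rw [hq]
    linarith
  have hev : ∀ᶠ p in nhdsWithin pc (Set.Ioi pc), 2 * (d : ℝ) * be d n p < q :=
    Filter.Eventually.filter_mono nhdsWithin_le_nhds (hcont.eventually (gt_mem_nhds hgq))
  obtain ⟨p, hpq, hp⟩ := (hev.and (Ioo_mem_nhdsGT h1)).exists
  have hp0 : 0 ≤ p := h0.trans hp.1.le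
  have hp1 : p ≤ 1 := hp.2.le
  have haM0 : ∀ N, 0 ≤ aM d N p := by
    intro N
    unfold aM
    refine Ex_nonneg hp0 hp1 fun ω => ?_
    split_ifs <;> norm_num
  have haM1 : aM d 0 p ≤ 1 := by
    unfold aM
    refine (Ex_mono hp0 hp1 (g := fun _ => (1 : ℝ)) fun ω => ?_).trans (le_of_eq (Ex_const _ _))
    split_ifs <;> norm_num
  have hpow : ∀ k : ℕ, aM d (k * (n + 1)) p ≤ q ^ k := by
    intro k
    induction k with
    | zero =>
      rw [Nat.zero_mul, pow_zero]
      exact haM1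
    | succ k ih =>
      have h2 := arm_rec hd hp0 hp1 ((k + 1) * (n + 1)) n (by
        rw [Nat.succ_mul]
        exact Nat.le_add_left _ _)
      have h3 : (k + 1) * (n + 1) - n - 1 = k * (n + 1) := by
        rw [Nat.succ_mul]
        omega
      rw [h3] at h2
      calc aM d ((k + 1) * (n + 1)) p ≤ 2 * d * be d n p * aM d (k * (n + 1)) p := h2
        _ ≤ q * aM d (k * (n + 1)) p := mul_le_mul_of_nonneg_right hpq.le (haM0 _)
        _ ≤ q * q ^ k := mul_le_mul_of_nonneg_left ih hq0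
        _ = q ^ (k + 1) := (pow_succ' q k).symm
  have hth : theta d p ≤ 0 := by
    refine ge_of_tendsto' (tendsto_pow_atTop_nhds_zero_of_lt_one hq0 hq1) fun k => ?_
    rw [theta_eq]
    exact (th_le hp0 hp1 (k * (n + 1))).trans (hpow k)
  exact absurd (hc p hp.1 hp1) (not_lt.2 hth)

/-- At `p = 0` no edge is open. -/
private lemma C2_ex0 {E : Type*} [Fintype E] [DecidableEq E] (f : (E → Bool) → ℝ) : Ex 0 f = f (fun _ => false) := by
  unfold Ex
  rw [Finset.sum_eq_single (fun _ => false : E → Bool)]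
  · have h1 : wt 0 (fun _ => false : E → Bool) = 1 := by simp [wt]
    rw [h1, one_mul]
  · intro ω _ hω
    obtain ⟨e, he⟩ : ∃ e, ω e = true := by
      by_contra hcon
      push Not at hcon
      exact hω (funext fun e => by simpa using hcon e)
    have h1 : wt 0 ω = 0 := by
      unfold wt
      exact Finset.prod_eq_zero (Finset.mem_univ e) (by rw [if_pos he])
    rw [h1, zero_mul]
  · intro hcon
    exact absurd (Finset.mem_univ _) hcon

/-- At `p = 1` all edges are open. -/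
private lemma C2_ex1 {E : Type*} [Fintype E] [DecidableEq E] (f : (E → Bool) → ℝ) : Ex 1 f = f (fun _ => true) := by
  unfold Ex
  rw [Finset.sum_eq_single (fun _ => true : E → Bool)]
  · have h1 : wt 1 (fun _ => true : E → Bool) = 1 := by simp [wt]
    rw [h1, one_mul]
  · intro ω _ hω
    obtain ⟨e, he⟩ : ∃ e, ω e ≠ true := by
      by_contra hcon
      push Not at hcon
      exact hω (funext fun e => hcon e)
    have h1 : wt 1 ω = 0 := by
      unfold wt
      exact Finset.prod_eq_zero (Finset.mem_univ e) (by rw [if_neg he]; norm_num)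
    rw [h1, zero_mul]
  · intro hcon
    exact absurd (Finset.mem_univ _) hcon

/-- Without open edges different points are not joined. -/
private lemma C2_ta0 {V : Type*} [Fintype V] [DecidableEq V] {E : Type*} [Fintype E] [DecidableEq E] (ends : E → Sym2 V) {x y : V}
    (hxy : x ≠ y) : ta ends 0 x y = 0 := by
  unfold ta
  rw [C2_ex0]
  apply if_neg
  rw [mem_cu]
  intro h
  rcases Relation.ReflTransGen.cases_head h with h1 | ⟨c, ⟨-, -, e, he, -⟩, -⟩
  · exact hxy h1
  · exact Bool.false_ne_true he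

/-- The points of a line. -/
private def C2_pt (d L : ℕ) (i0 : Fin d) (t : ℕ) : Fin d → Fin (L + 1) :=
  fun i => if i = i0 then ⟨min t L, by omega⟩ else ⟨0, by omega⟩

/-- If all edges are open the points of the line are joined. -/
private lemma C2_rch (d L : ℕ) (i0 : Fin d) (t : ℕ) (ht : t ≤ L) :
    Rch (gends (boxG d (L + 1))) (fun _ => true) Set.univ (C2_pt d L i0 0) (C2_pt d L i0 t) := by
  induction t with
  | zero => exact Rch.refl _
  | succ t ih =>
    refine Relation.ReflTransGen.tail (ih (by omega)) ⟨trivial, trivial, ⟨s(C2_pt d L i0 t, C2_pt d L i0 (t + 1)), ?_⟩, rfl, rfl⟩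
    rw [SimpleGraph.mem_edgeSet]
    refine ⟨i0, Or.inl ?_, fun j hj => ?_⟩
    · unfold C2_pt
      rw [if_pos rfl, if_pos rfl]
      show min t L + 1 = min (t + 1) L
      omega
    · unfold C2_pt
      rw [if_neg hj, if_neg hj]

/-- The distance of the ends of the line. -/
private lemma C2_nd (d L : ℕ) (i0 : Fin d) : L ≤ nd (C2_pt d L i0 0) (C2_pt d L i0 L) := by
  have h1 := Finset.le_sup (f := fun i => ((C2_pt d L i0 0 i : ℕ) - (C2_pt d L i0 L i : ℕ)) +
    ((C2_pt d L i0 L i : ℕ) - (C2_pt d L i0 0 i : ℕ))) (Finset.mem_univ i0)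
  refine le_trans ?_ h1
  have h2 : (C2_pt d L i0 0 i0 : ℕ) = 0 := by
    unfold C2_pt
    rw [if_pos rfl]
    show min 0 L = 0
    omega
  have h3 : (C2_pt d L i0 L i0 : ℕ) = L := by
    unfold C2_pt
    rw [if_pos rfl]
    show min L L = L
    omega
  show L ≤ ((C2_pt d L i0 0 i0 : ℕ) - (C2_pt d L i0 L i0 : ℕ)) + ((C2_pt d L i0 L i0 : ℕ) - (C2_pt d L i0 0 i0 : ℕ))
  omega

/-- Row C2. For `pc = 0`: `be d 1 0 = 0` (no edge is open: `ta .. 0 x y = 0` for `x ≠ y`), contradiction to `be_crit`. -/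
theorem pc_pos (d : ℕ) (hd : 1 ≤ d) (pc : ℝ) (h0 : 0 ≤ pc) (h1 : pc < 1) (hc : ∀ p : ℝ, pc < p → p ≤ 1 → 0 < theta d p) : 0 < pc := by
  rcases h0.lt_or_eq with h2 | h2
  · exact h2
  exfalso
  have h3 := be_crit d hd pc h0 h1 hc 1 le_rfl
  have h4 : be d 1 pc = 0 := by
    unfold be
    apply Finset.sum_eq_zero
    intro u hu
    rw [← h2]
    apply C2_ta0
    rintro rfl
    have h5 := (Finset.mem_filter.1 hu).2
    have h6 : nd (ctr d 1) (ctr d 1) = 0 := by
      unfold nd
      exact Nat.le_zero.1 (Finset.sup_le fun i _ => by simp)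
    omega
  rw [h4] at h3
  have hd0 : (0 : ℝ) < d := by exact_mod_cast (by omega : 0 < d)
  have h5 : 0 < 1 / (2 * (d : ℝ)) := by positivity
  linarith

/-- Row C2. If `pc = 1` all edges are open, `ta .. 1 x y = 1` for all `x`, `y`; take two vertices of a large box at distance `l - 1`. -/
theorem pc_lt (d : ℕ) (hd : 3 ≤ d) (C pc : ℝ) (h1 : pc ≤ 1) (hU : ∀ (l : ℕ) (x y : Fin d → Fin l), ta (gends (boxG d l)) pc x y ≤ C * fk (d - 2) x y) : pc < 1 := by
  rcases h1.lt_or_eq with h2 | h2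
  · exact h2
  exfalso
  obtain ⟨L, hL⟩ := exists_nat_gt C
  set i0 : Fin d := ⟨0, by omega⟩ with hi0
  have h3 := hU (L + 1) (C2_pt d L i0 0) (C2_pt d L i0 L)
  have h4 : ta (gends (boxG d (L + 1))) pc (C2_pt d L i0 0) (C2_pt d L i0 L) = 1 := by
    rw [h2]
    unfold ta
    rw [C2_ex1]
    exact if_pos (mem_cu.2 (C2_rch d L i0 L le_rfl))
  rw [h4] at h3
  unfold fk at h3
  have h5 : (L : ℝ) ≤ (nd (C2_pt d L i0 0) (C2_pt d L i0 L) : ℝ) := by exact_mod_cast C2_nd d L i0
  set n : ℝ := (nd (C2_pt d L i0 0) (C2_pt d L i0 L) : ℝ) with hn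
  have hL0 : (0 : ℝ) ≤ L := Nat.cast_nonneg L
  have h6 : 1 ≤ 1 + n := by linarith
  have h7 : 1 + n ≤ (1 + n) ^ (d - 2) := le_self_pow₀ h6 (by omega)
  have h8 : (0 : ℝ) < (1 + n) ^ (d - 2) := by linarith
  rw [mul_one_div, le_div_iff₀ h8, one_mul] at h3
  linarith

/-- The largest mean cluster size in the box. -/
noncomputable def Xm (d l : ℕ) (p : ℝ) : ℝ := ⨆ x : Fin d → Fin l, ∑ y, ta (gends (boxG d l)) p x y

open scoped Classical in
private theorem C3_deg {d l : ℕ} (u : Fin d → Fin l) :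
    (Finset.univ.filter (fun v : Fin d → Fin l => ∃ e, gends (boxG d l) e = s(u, v))).card ≤ 2 * d := by
  have hinj : Function.Injective (fun v : Fin d → Fin l => s(u, v)) := fun v w h => Sym2.congr_right.1 h
  have hsub : (Finset.univ.filter (fun v : Fin d → Fin l => ∃ e, gends (boxG d l) e = s(u, v))).image (fun v => s(u, v)) ⊆
      (Finset.univ.filter (fun e : (boxG d l).edgeSet => u ∈ gends (boxG d l) e)).image (gends (boxG d l)) := by
    intro z hz
    rw [Finset.mem_image] at hz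
    obtain ⟨v, hv, rfl⟩ := hz
    obtain ⟨e, he⟩ := (Finset.mem_filter.1 hv).2
    rw [Finset.mem_image]
    exact ⟨e, Finset.mem_filter.2 ⟨Finset.mem_univ _, by rw [he]; exact Sym2.mem_mk_left u v⟩, he⟩
  calc (Finset.univ.filter (fun v : Fin d → Fin l => ∃ e, gends (boxG d l) e = s(u, v))).card
      = ((Finset.univ.filter (fun v : Fin d → Fin l => ∃ e, gends (boxG d l) e = s(u, v))).image (fun v => s(u, v))).card :=
        (Finset.card_image_of_injective _ hinj).symm
    _ ≤ ((Finset.univ.filter (fun e : (boxG d l).edgeSet => u ∈ gends (boxG d l) e)).image (gends (boxG d l))).card :=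
        Finset.card_le_card hsub
    _ ≤ (Finset.univ.filter (fun e : (boxG d l).edgeSet => u ∈ gends (boxG d l) e)).card := Finset.card_image_le
    _ ≤ 2 * d := box_deg u

open scoped Classical in
private theorem C3_inner {d l : ℕ} {q : ℝ} (hq0 : 0 ≤ q) (hq1 : q ≤ 1) (x : Fin d → Fin l) (X : ℝ)
    (hX : ∀ v : Fin d → Fin l, ∑ y, ta (gends (boxG d l)) q v y ≤ X) (hX0 : 0 ≤ X) :
    ∑ y, ∑ u, ∑ v, (if ∃ e, gends (boxG d l) e = s(u, v) then
      ta (gends (boxG d l)) q x u * ta (gends (boxG d l)) q v y else 0) ≤ 2 * d * X ^ 2 := by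
  have h1 : ∀ u : Fin d → Fin l, ∑ y, ∑ v, (if ∃ e, gends (boxG d l) e = s(u, v) then
      ta (gends (boxG d l)) q x u * ta (gends (boxG d l)) q v y else 0) ≤
      (2 * d * X) * ta (gends (boxG d l)) q x u := by
    intro u
    have hu : 0 ≤ ta (gends (boxG d l)) q x u := ta_nonneg hq0 hq1 x u
    rw [Finset.sum_comm]
    have h2 : ∀ v : Fin d → Fin l, ∑ y, (if ∃ e, gends (boxG d l) e = s(u, v) then
        ta (gends (boxG d l)) q x u * ta (gends (boxG d l)) q v y else 0) ≤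
        (if ∃ e, gends (boxG d l) e = s(u, v) then ta (gends (boxG d l)) q x u * X else 0) := by
      intro v
      by_cases hv : ∃ e, gends (boxG d l) e = s(u, v)
      · simp only [if_pos hv]
        rw [← Finset.mul_sum]
        exact mul_le_mul_of_nonneg_left (hX v) hu
      · simp only [if_neg hv]
        rw [Finset.sum_const_zero]
    refine (Finset.sum_le_sum fun v _ => h2 v).trans ?_
    rw [← Finset.sum_filter, Finset.sum_const, nsmul_eq_mul]
    have h3 : (((Finset.univ.filter (fun v : Fin d → Fin l => ∃ e, gends (boxG d l) e = s(u, v))).card : ℕ) : ℝ) ≤ 2 * d := by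
      exact_mod_cast C3_deg u
    have h4 : 0 ≤ ta (gends (boxG d l)) q x u * X := mul_nonneg hu hX0
    calc (((Finset.univ.filter (fun v : Fin d → Fin l => ∃ e, gends (boxG d l) e = s(u, v))).card : ℕ) : ℝ) *
          (ta (gends (boxG d l)) q x u * X) ≤ (2 * d) * (ta (gends (boxG d l)) q x u * X) :=
          mul_le_mul_of_nonneg_right h3 h4
      _ = (2 * d * X) * ta (gends (boxG d l)) q x u := by ring
  rw [Finset.sum_comm]
  refine (Finset.sum_le_sum fun u _ => h1 u).trans ?_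
  rw [← Finset.mul_sum]
  have h5 : (0 : ℝ) ≤ 2 * d * X := by positivity
  calc (2 * d * X) * ∑ u, ta (gends (boxG d l)) q x u ≤ (2 * d * X) * X := mul_le_mul_of_nonneg_left (hX x) h5
    _ = 2 * d * X ^ 2 := by ring

/-- Row C3. `ta_diff` (in `P/Rs.lean`; `gends` is injective) summed over `y`: `∑_y (ta q x y - ta p x y) ≤ (q-p) (1-q)⁻¹ ∑_u ∑_{v ~ u} ta q x u ∑_y ta q v y ≤ (q-p) (1-q)⁻¹ 2 d (Xm q)²` (each `u` has at most `2 d` neighbours, `box_deg`). Supremum over `x` (finite; if there is no `x` then `Xm = 0`). -/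
theorem X_step (d l : ℕ) {p q : ℝ} (h0 : 0 ≤ p) (hpq : p ≤ q) (hq : q < 1) :
    Xm d l q ≤ Xm d l p + (q - p) * ((1 - q)⁻¹ * (2 * d * Xm d l q ^ 2)) := by
  classical
  rcases isEmpty_or_nonempty (Fin d → Fin l) with he | he
  · have hX : ∀ t : ℝ, Xm d l t = 0 := fun t => Real.iSup_of_isEmpty _
    rw [hX, hX]
    simp
  · have hq0 : 0 ≤ q := h0.trans hpq
    have hle : ∀ (t : ℝ) (v : Fin d → Fin l), ∑ y, ta (gends (boxG d l)) t v y ≤ Xm d l t := fun t v =>
      le_ciSup (f := fun x : Fin d → Fin l => ∑ y, ta (gends (boxG d l)) t x y) (Set.finite_range _).bddAbove v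
    have hX0 : 0 ≤ Xm d l q :=
      (Finset.sum_nonneg fun y _ => ta_nonneg hq0 hq.le _ _).trans (hle q he.some)
    refine ciSup_le fun x => ?_
    have hin := C3_inner (d := d) (l := l) hq0 hq.le x (Xm d l q) (hle q) hX0
    have h1 : ∑ y, (ta (gends (boxG d l)) q x y - ta (gends (boxG d l)) p x y) ≤
        (q - p) * ((1 - q)⁻¹ * (2 * d * Xm d l q ^ 2)) := by
      refine (Finset.sum_le_sum fun y _ => ta_diff (ends := gends (boxG d l)) Subtype.val_injective h0 hpq hq x y).trans ?_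
      rw [← Finset.mul_sum, ← Finset.mul_sum]
      have h3 : (0 : ℝ) ≤ (1 - q)⁻¹ := inv_nonneg.2 (by linarith)
      exact mul_le_mul_of_nonneg_left (mul_le_mul_of_nonneg_left hin h3) (sub_nonneg.2 hpq)
    rw [Finset.sum_sub_distrib] at h1
    have h2 := hle p x
    linarith

/-- Row C3. A finite supremum of polynomials. -/
theorem X_cont (d l : ℕ) : Continuous (fun p : ℝ => Xm d l p) := by
  rcases isEmpty_or_nonempty (Fin d → Fin l) with h | h
  · have e : (fun p : ℝ => Xm d l p) = fun _ => 0 := by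
      funext p
      exact Real.iSup_of_isEmpty _
    rw [e]
    exact continuous_const
  · have e : (fun p : ℝ => Xm d l p) = fun p => Finset.univ.sup' Finset.univ_nonempty
        (fun x : Fin d → Fin l => ∑ y, ta (gends (boxG d l)) p x y) := by
      funext p
      rw [Finset.sup'_univ_eq_ciSup]
      rfl
    rw [e]
    refine Continuous.finset_sup'_apply _ fun x _ => ?_
    refine continuous_finsetSum _ fun y _ => ?_
    exact Pool.Agent.PERC29.DZ.Ex_cont (fun ω => if y ∈ cu (gends (boxG d l)) ω x then 1 else 0)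

/-- Row C4. Suppose `Xm d l p < A`. By the intermediate value theorem (`X_cont`) there is `t ∈ [p, q]` with `Xm d l t = 2 A`; `X_step` for `p ≤ t`, `(1-t)⁻¹ ≤ (1-q)⁻¹`: `2 A ≤ Xm p + (q-p) (1-q)⁻¹ 2 d 4 A² < A + A`. -/
theorem X_low (d l : ℕ) {p q A : ℝ} (h0 : 0 ≤ p) (hpq : p ≤ q) (hq : q < 1) (hA : 0 < A) (h2 : 2 * A ≤ Xm d l q)
    (h4 : (q - p) * ((1 - q)⁻¹ * (8 * d * A)) ≤ 1) : A ≤ Xm d l p := by
  by_contra hcon
  have hlt : Xm d l p < A := not_le.1 hcon
  have hivt := intermediate_value_Icc hpq (X_cont d l).continuousOn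
  obtain ⟨t, ⟨ht1, ht2⟩, ht3⟩ := hivt ⟨(by linarith : Xm d l p ≤ 2 * A), h2⟩
  have ht3' : Xm d l t = 2 * A := ht3
  have hs := X_step d l h0 ht1 (lt_of_le_of_lt ht2 hq)
  rw [ht3'] at hs
  have hq0 : (0 : ℝ) < 1 - q := by linarith
  have ht0 : (0 : ℝ) < 1 - t := by linarith
  have h5 : (1 - t)⁻¹ ≤ (1 - q)⁻¹ := inv_anti₀ hq0 (by linarith)
  have h6 : (0 : ℝ) ≤ (1 - t)⁻¹ := (inv_pos.2 ht0).le
  have hdn : (0 : ℝ) ≤ d := Nat.cast_nonneg d
  have h7 : (t - p) * ((1 - t)⁻¹ * (2 * d * (2 * A) ^ 2)) ≤ (q - p) * ((1 - q)⁻¹ * (2 * d * (2 * A) ^ 2)) := by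
    apply mul_le_mul (by linarith)
    · exact mul_le_mul_of_nonneg_right h5 (by positivity)
    · exact mul_nonneg h6 (by positivity)
    · linarith
  have h8 : (q - p) * ((1 - q)⁻¹ * (2 * d * (2 * A) ^ 2)) = ((q - p) * ((1 - q)⁻¹ * (8 * d * A))) * A := by ring
  have h9 : ((q - p) * ((1 - q)⁻¹ * (8 * d * A))) * A ≤ 1 * A := mul_le_mul_of_nonneg_right h4 hA.le
  linarith

/-- Row C5. `x = ctr d L`: `∑_y ta x y = ∑_k ∑_{y ∈ Sp x k} ta x y ≥ ∑_{k=1}^L ∑_{y ∈ Sp x k} rs (Qs x k) x y = ∑_{k=1}^L be d k p` (`be_eq`, `rs_mono`, `rs_univ`). -/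
theorem X_pc (d L : ℕ) {b p : ℝ} (h0 : 0 ≤ p) (h1 : p ≤ 1) (hb : ∀ n : ℕ, 1 ≤ n → b ≤ be d n p) : b * L ≤ Xm d (2 * L + 1) p := by
  classical
  have hx : ∑ y, ta (gends (boxG d (2 * L + 1))) p (ctr d L) y ≤ Xm d (2 * L + 1) p :=
    le_ciSup (f := fun x : Fin d → Fin (2 * L + 1) => ∑ y, ta (gends (boxG d (2 * L + 1))) p x y)
      (Set.finite_range _).bddAbove (ctr d L)
  refine le_trans ?_ hx
  have h3 : ∀ k ∈ Icc 1 L, b ≤ ∑ y ∈ Sp (ctr d L) k, ta (gends (boxG d (2 * L + 1))) p (ctr d L) y := by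
    intro k hk
    rw [mem_Icc] at hk
    have hin : In (ctr d L) k := by
      intro i
      have h4 : ((ctr d L i : Fin (2 * L + 1)) : ℕ) = L := rfl
      rw [h4]
      omega
    refine (hb k hk.1).trans ?_
    rw [← be_eq hin p]
    refine sum_le_sum fun u _ => ?_
    rw [← rs_univ]
    exact rs_mono h0 h1 (Set.subset_univ _) _ _
  have hdis : Set.PairwiseDisjoint (↑(Icc 1 L) : Set ℕ) (fun k => Sp (ctr d L) k) := by
    intro k _ k' _ hne
    refine Finset.disjoint_left.2 fun y hy hy' => hne ?_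
    unfold Sp at hy hy'
    rw [mem_filter] at hy hy'
    exact hy.2.symm.trans hy'.2
  calc b * L = ∑ k ∈ Icc 1 L, b := by
        rw [sum_const, Nat.card_Icc, nsmul_eq_mul, Nat.add_sub_cancel]
        ring
    _ ≤ ∑ k ∈ Icc 1 L, ∑ y ∈ Sp (ctr d L) k, ta (gends (boxG d (2 * L + 1))) p (ctr d L) y := sum_le_sum h3
    _ = ∑ y ∈ (Icc 1 L).biUnion (fun k => Sp (ctr d L) k), ta (gends (boxG d (2 * L + 1))) p (ctr d L) y :=
        (sum_biUnion hdis).symm
    _ ≤ ∑ y, ta (gends (boxG d (2 * L + 1))) p (ctr d L) y :=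
        sum_le_univ_sum_of_nonneg fun y => ta_nonneg h0 h1 _ _

private theorem C6_ek {d l : ℕ} (hd : 2 ≤ d) {a : ℝ} (ha : 0 < a) (ha1 : a ≤ 1) (m : ℕ)
    (x : Fin d → Fin l) :
    ∑ y ∈ Finset.univ.filter (fun y => ¬ nd x y ≤ m), ek (d - 2) (2 * a) x y ≤
      Real.exp (-(a * m)) * ((d * 2 ^ d : ℝ) * (4 / a ^ 2)) := by
  classical
  have h1 : ∀ y ∈ Finset.univ.filter (fun y => ¬ nd x y ≤ m),
      ek (d - 2) (2 * a) x y ≤ Real.exp (-(a * m)) * ek (d - 2) a x y := by
    intro y hy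
    have h2 : ¬ nd x y ≤ m := (Finset.mem_filter.1 hy).2
    have h3 : (m : ℝ) ≤ (nd x y : ℝ) := by exact_mod_cast (by omega : m ≤ nd x y)
    unfold ek
    have h4 : Real.exp (-(2 * a * (nd x y : ℝ))) ≤
        Real.exp (-(a * m)) * Real.exp (-(a * (nd x y : ℝ))) := by
      rw [← Real.exp_add]
      apply Real.exp_le_exp.2
      have h5 := mul_le_mul_of_nonneg_left h3 ha.le
      linarith
    have h6 : 0 ≤ fk (d - 2) x y := by
      unfold fk
      positivity
    calc fk (d - 2) x y * Real.exp (-(2 * a * (nd x y : ℝ)))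
        ≤ fk (d - 2) x y * (Real.exp (-(a * m)) * Real.exp (-(a * (nd x y : ℝ)))) :=
          mul_le_mul_of_nonneg_left h4 h6
      _ = Real.exp (-(a * m)) * (fk (d - 2) x y * Real.exp (-(a * (nd x y : ℝ)))) := by ring
  calc ∑ y ∈ Finset.univ.filter (fun y => ¬ nd x y ≤ m), ek (d - 2) (2 * a) x y
      ≤ ∑ y ∈ Finset.univ.filter (fun y => ¬ nd x y ≤ m),
          Real.exp (-(a * m)) * ek (d - 2) a x y := Finset.sum_le_sum h1
    _ ≤ ∑ y, Real.exp (-(a * m)) * ek (d - 2) a x y :=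
        Finset.sum_le_sum_of_subset_of_nonneg (Finset.filter_subset _ _)
          (fun y _ _ => mul_nonneg (Real.exp_pos _).le (ek_nonneg _ _ _ _))
    _ = Real.exp (-(a * m)) * ∑ y, ek (d - 2) a x y := by rw [Finset.mul_sum]
    _ ≤ _ := mul_le_mul_of_nonneg_left (sum_ek hd ha ha1 x) (Real.exp_pos _).le

private theorem C6_self {d l : ℕ} (v : Fin d → Fin l) : nd v v = 0 := by
  unfold nd
  apply Nat.le_zero.1
  exact Finset.sup_le fun i _ => by omega

private theorem C6_one {d l m : ℕ} {p : ℝ} (h0 : 0 ≤ p) (h1 : p ≤ 1) (v : Fin d → Fin l) :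
    1 ≤ ∑ y ∈ bb v m, ta (gends (boxG d l)) p v y := by
  have h2 : v ∈ bb v m := Finset.mem_filter.2 ⟨Finset.mem_univ _, by rw [C6_self]; exact Nat.zero_le _⟩
  have h3 := Finset.single_le_sum (f := fun y => ta (gends (boxG d l)) p v y)
    (fun y _ => ta_nonneg h0 h1 v y) h2
  rw [ta_self] at h3
  exact h3

private theorem C6_emb {d l0 l m : ℕ} {p : ℝ} (h0 : 0 ≤ p) (h1 : p ≤ 1) (x : Fin d → Fin l0)
    (v : Fin d → Fin l) (hv : In v l0) :
    ∑ y ∈ bb x m, ta (gends (boxG d l0)) p x y ≤ ∑ y ∈ bb v m, ta (gends (boxG d l)) p v y := by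
  classical
  obtain ⟨φ, hφ⟩ := box_box (d := d) (l := l0) (n := l) (fun i => (v i : ℕ) - (x i : ℕ)) (by
    intro i
    have h2 := (hv i).1
    have h3 := (hv i).2
    have h4 := (x i).2
    show (v i : ℕ) - (x i : ℕ) + l0 ≤ l
    omega)
  have hx : φ x = v := by
    funext i
    apply Fin.ext
    have h2 := (hv i).1
    have h4 := (x i).2
    rw [hφ]
    show (v i : ℕ) - (x i : ℕ) + (x i : ℕ) = (v i : ℕ)
    omega
  have hnd : ∀ y, nd (φ x) (φ y) = nd x y := by
    intro y
    unfold nd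
    refine Finset.sup_congr rfl fun i _ => ?_
    rw [hφ, hφ]
    omega
  calc ∑ y ∈ bb x m, ta (gends (boxG d l0)) p x y
      ≤ ∑ y ∈ bb x m, ta (gends (boxG d l)) p v (φ y) := by
        refine Finset.sum_le_sum fun y _ => ?_
        have h2 := ta_box h0 h1 φ x y
        rw [hx] at h2
        exact h2
    _ = ∑ y ∈ (bb x m).image φ, ta (gends (boxG d l)) p v y := by
        rw [Finset.sum_image]
        intro y _ y' _ hyy
        exact φ.injective hyy
    _ ≤ _ := by
        refine Finset.sum_le_sum_of_subset_of_nonneg ?_ (fun y _ _ => ta_nonneg h0 h1 v y)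
        intro y hy
        obtain ⟨y', hy', rfl⟩ := Finset.mem_image.1 hy
        refine Finset.mem_filter.2 ⟨Finset.mem_univ _, ?_⟩
        rw [← hx, hnd]
        exact (Finset.mem_filter.1 hy').2

/-- Row C6. Constants: `κ = (1-pc)⁻¹ 8 d`, and for `s0 > 0` let `A = 1/(κ s0)`. For `L` with `b L ≥ 2 A`: `X_pc`, `X_low` (`q = pc`, `p = pc - s0`): there is `x` in the box of side `l0 = 2 L + 1` with `∑_y ta (pc - s0) x y ≥ A` (the supremum is attained). By `GH.U` the `y` with `nd x y > m` contribute at most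
`C exp (-(c/2) √s0 m) ∑_y ek (d-2) ((c/2) √s0) x y ≤ C exp (-(c/2) √s0 m) K/(c² s0)` (`sum_ek`), which is `≤ A/2` if `√s0 m = √α` with `α` a large constant: let `α` be such, `s0 = α/m²` (if `α/m² ≤ c`). So `∑_{y ∈ bb x m} ta (pc - s0) x y ≥ A/2 = m²/(2 κ α)`.
If `In v l0` in another box, the box of side `l0` can be embedded with `x` mapped to `v` (`box_box`, `ta_box`), and `ta (pc - s) ≥ ta (pc - s0)` for `s ≤ s0` (`rs_mono_p`). For the `m` with `α/m² > c`: the sum is at least `ta v v = 1 ≥ b' m²` for `b' ≤ c/α`. -/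
theorem mass_crit {d : ℕ} (C c pc : ℝ) (h : GH d C c pc) (b : ℝ) (hb0 : 0 < b) (hb : ∀ n : ℕ, 1 ≤ n → b ≤ be d n pc) :
    ∃ b' α : ℝ, 0 < b' ∧ 0 < α ∧ ∀ m : ℕ, 1 ≤ m → ∃ L0 : ℕ, ∀ (l : ℕ) (v : Fin d → Fin l) (s : ℝ), In v L0 → 0 ≤ s → s ≤ pc → s * (m : ℝ) ^ 2 ≤ α →
      b' * (m : ℝ) ^ 2 ≤ ∑ y ∈ bb v m, ta (gends (boxG d l)) (pc - s) v y := by
  classical
  have hd9 := h.d9
  have hc0 := h.c0
  have hc1 := h.c1
  have hC := h.C1
  have hp1 := h.p1
  have hcp := h.cp
  have hpc : 0 < pc := by linarith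
  have hd0 : (0 : ℝ) < d := by exact_mod_cast (by omega : 0 < d)
  have hq : 0 < 1 - pc := by linarith
  have hC0 : 0 < C := by linarith
  set D : ℝ := (d * 2 ^ d : ℝ) with hD
  have hDpos : 0 < D := by rw [hD]; positivity
  set κ : ℝ := (1 - pc)⁻¹ * (8 * d) with hκdef
  have hκ : 0 < κ := by rw [hκdef]; positivity
  set T : ℝ := 32 * κ * C * D / c ^ 2 with hTdef
  have hT : 0 < T := by rw [hTdef]; positivity
  have hexp : Real.exp (-T) ≤ 1 / T := by
    rw [Real.exp_neg, one_div]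
    apply inv_anti₀ hT
    linarith [Real.add_one_le_exp T]
  set α : ℝ := (2 * T / c) ^ 2 with hαdef
  have hα : 0 < α := by rw [hαdef]; positivity
  refine ⟨min (1 / (2 * κ * α)) (c / α), α, lt_min (by positivity) (by positivity), hα, ?_⟩
  intro m hm
  have hm0 : (0 : ℝ) < m := by exact_mod_cast hm
  by_cases hcase : α / (m : ℝ) ^ 2 ≤ c
  · -- the main case
    set s0 : ℝ := α / (m : ℝ) ^ 2 with hs0def
    have hs0 : 0 < s0 := by rw [hs0def]; positivity
    have hs0sq : s0 = (2 * T / c / m) ^ 2 := by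
      rw [hs0def, hαdef]
      ring
    have hsqrt : Real.sqrt s0 = 2 * T / c / m := by
      rw [hs0sq]
      exact Real.sqrt_sq (by positivity)
    have ha : c * Real.sqrt s0 = 2 * (T / m) := by
      rw [hsqrt]
      field_simp
    have hTm : T / m ≤ 1 := by
      have h1 : (2 * T / c / m) ^ 2 ≤ 1 := by
        rw [← hs0sq]
        linarith
      have h2 : 2 * T / c / m ≤ 1 := by
        by_contra hcon
        have h3 : 1 < 2 * T / c / m := not_le.1 hcon
        nlinarith
      have h3 : c * (2 * T / c / m) = 2 * (T / m) := by field_simp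
      have h4 : c * (2 * T / c / m) ≤ c * 1 := mul_le_mul_of_nonneg_left h2 hc0.le
      linarith
    set A : ℝ := 1 / (κ * s0) with hAdef
    have hA : 0 < A := by rw [hAdef]; positivity
    have hAval : A / 2 = 1 / (2 * κ * α) * (m : ℝ) ^ 2 := by
      rw [hAdef, hs0def]
      field_simp
    obtain ⟨L, hL⟩ := exists_nat_ge (2 * A / b)
    have hbL : 2 * A ≤ b * L := by
      have h1 := mul_le_mul_of_nonneg_left hL hb0.le
      have h2 : b * (2 * A / b) = 2 * A := by field_simp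
      linarith
    have hX1 := X_pc d L hpc.le hp1.le hb
    have hps : 0 ≤ pc - s0 := by linarith
    have hps1 : pc - s0 ≤ 1 := by linarith
    have hX2 : A ≤ Xm d (2 * L + 1) (pc - s0) := by
      refine X_low d (2 * L + 1) hps (by linarith) hp1 hA (hbL.trans hX1) ?_
      have h1 : (pc - (pc - s0)) * ((1 - pc)⁻¹ * (8 * d * A)) = κ * s0 * A := by
        rw [hκdef]
        ring
      rw [h1, hAdef, mul_one_div_cancel (by positivity)]
    obtain ⟨x, hx⟩ : ∃ x : Fin d → Fin (2 * L + 1),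
        A ≤ ∑ y, ta (gends (boxG d (2 * L + 1))) (pc - s0) x y := by
      obtain ⟨x, hx⟩ := exists_eq_ciSup_of_finite
        (f := fun x : Fin d → Fin (2 * L + 1) =>
          ∑ y, ta (gends (boxG d (2 * L + 1))) (pc - s0) x y)
      refine ⟨x, ?_⟩
      have h1 : Xm d (2 * L + 1) (pc - s0) =
          ∑ y, ta (gends (boxG d (2 * L + 1))) (pc - s0) x y := hx.symm
      rw [← h1]
      exact hX2
    -- the vertices at distance more than m
    have hfar : ∑ y ∈ Finset.univ.filter (fun y => ¬ nd x y ≤ m),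
        ta (gends (boxG d (2 * L + 1))) (pc - s0) x y ≤ A / 2 := by
      have h1 : ∑ y ∈ Finset.univ.filter (fun y => ¬ nd x y ≤ m),
          ta (gends (boxG d (2 * L + 1))) (pc - s0) x y ≤
          ∑ y ∈ Finset.univ.filter (fun y => ¬ nd x y ≤ m), C * ek (d - 2) (2 * (T / m)) x y := by
        refine Finset.sum_le_sum fun y _ => ?_
        rw [← ha]
        exact h.U (2 * L + 1) x y s0 hs0.le hcase
      have h2 := C6_ek (d := d) (by omega) (a := T / m) (by positivity) hTm m x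
      rw [← Finset.mul_sum] at h1
      have h3 : T / m * m = T := by field_simp
      rw [h3, ← hD] at h2
      have h4 : Real.exp (-T) * (D * (4 / (T / m) ^ 2)) ≤ 1 / T * (D * (4 / (T / m) ^ 2)) :=
        mul_le_mul_of_nonneg_right hexp (by positivity)
      have h5 : C * (1 / T * (D * (4 / (T / m) ^ 2))) = A / 2 := by
        have h6 : C * D * κ = T * c ^ 2 / 32 := by
          rw [hTdef]
          field_simp
        rw [hAval, hαdef]
        have hT0 : T ≠ 0 := hT.ne'
        have hk0 : κ ≠ 0 := hκ.ne'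
        have hm0' : (m : ℝ) ≠ 0 := hm0.ne'
        have hc0' : c ≠ 0 := hc0.ne'
        have h7 : C * (1 / T * (D * (4 / (T / m) ^ 2))) = (C * D * κ) * (4 * m ^ 2 / (T ^ 3 * κ)) := by
          field_simp
        rw [h7, h6]
        field_simp
        ring
      calc _ ≤ C * ∑ y ∈ Finset.univ.filter (fun y => ¬ nd x y ≤ m), ek (d - 2) (2 * (T / m)) x y := h1
        _ ≤ C * (1 / T * (D * (4 / (T / m) ^ 2))) :=
            mul_le_mul_of_nonneg_left (h2.trans h4) hC0.le
        _ = A / 2 := h5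
    have hnear : A / 2 ≤ ∑ y ∈ bb x m, ta (gends (boxG d (2 * L + 1))) (pc - s0) x y := by
      have h1 := Finset.sum_filter_add_sum_filter_not (Finset.univ : Finset (Fin d → Fin (2 * L + 1)))
        (fun y => nd x y ≤ m) (fun y => ta (gends (boxG d (2 * L + 1))) (pc - s0) x y)
      have h2 : ∑ y ∈ bb x m, ta (gends (boxG d (2 * L + 1))) (pc - s0) x y =
          ∑ y ∈ Finset.univ.filter (fun y => nd x y ≤ m),
            ta (gends (boxG d (2 * L + 1))) (pc - s0) x y := rfl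
      rw [h2]
      linarith
    refine ⟨2 * L + 1, ?_⟩
    intro l v s hv hs hsp hsm
    have hss0 : s ≤ s0 := by
      rw [hs0def, le_div_iff₀ (by positivity)]
      exact hsm
    have h1 := C6_emb (m := m) hps hps1 x v hv
    have h2 : ∑ y ∈ bb v m, ta (gends (boxG d l)) (pc - s0) v y ≤
        ∑ y ∈ bb v m, ta (gends (boxG d l)) (pc - s) v y :=
      Finset.sum_le_sum fun y _ => DZ.ta_mono_p hps (by linarith) (by linarith) v y
    have h3 : min (1 / (2 * κ * α)) (c / α) * (m : ℝ) ^ 2 ≤ A / 2 := by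
      rw [hAval]
      exact mul_le_mul_of_nonneg_right (min_le_left _ _) (by positivity)
    exact h3.trans (hnear.trans (h1.trans h2))
  · -- the small m
    refine ⟨0, ?_⟩
    intro l v s _ hs hsp _
    have h1 := C6_one (m := m) (p := pc - s) (by linarith) (by linarith) v
    refine le_trans ?_ h1
    have h2 : c < α / (m : ℝ) ^ 2 := not_le.1 hcase
    rw [lt_div_iff₀ (by positivity)] at h2
    calc min (1 / (2 * κ * α)) (c / α) * (m : ℝ) ^ 2 ≤ c / α * (m : ℝ) ^ 2 :=
          mul_le_mul_of_nonneg_right (min_le_right _ _) (by positivity)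
      _ = c * (m : ℝ) ^ 2 / α := by ring
      _ ≤ 1 := by
          rw [div_le_one hα]
          exact h2.le

/-- `GB` from the criticality of `pc`. -/
theorem GB_crit {d : ℕ} (C c pc : ℝ) (h : GH d C c pc) (hc : ∀ p : ℝ, pc < p → p ≤ 1 → 0 < theta d p) : ∃ b α : ℝ, GB d b α pc := by
  have hd := h.d9
  have h1 := be_crit d (by omega) pc h.p0.le h.p1 hc
  have hd0 : (0 : ℝ) < d := by exact_mod_cast (by omega : 0 < d)
  obtain ⟨b', α, hb', hα, hM⟩ := mass_crit C c pc h (1 / (2 * (d : ℝ))) (by positivity) h1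
  refine ⟨min 1 (min (1 / (2 * (d : ℝ))) b'), α, ⟨lt_min one_pos (lt_min (by positivity) hb'), min_le_left _ _, hα, ?_, ?_⟩⟩
  · intro n hn
    exact ((min_le_right _ _).trans (min_le_left _ _)).trans (h1 n hn)
  · intro m hm
    obtain ⟨L0, hL0⟩ := hM m hm
    refine ⟨L0, fun l v s hv hs hsp hsm => ?_⟩
    refine le_trans ?_ (hL0 l v s hv hs hsp hsm)
    exact mul_le_mul_of_nonneg_right ((min_le_right _ _).trans (min_le_right _ _)) (by positivity)
end Pool.Agent.PERC29.GU
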