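import Pool.Agent.Lib.MP_29e17e_pr.Q.Su
import Pool.Agent.Lib.MP_29e17e_pr.Y.Ar

namespace Pool.Agent.PERC29
end Pool.Agent.PERC29
namespace Pool.Agent.PERC29.AE
end Pool.Agent.PERC29.AE
namespace Pool.Agent.PERC29.QQ
end Pool.Agent.PERC29.QQ

set_option autoImplicit false
set_option linter.unusedSectionVars false

/-! Definitions for the rows 29g (the one-arm bound from the two-point bounds). -/

open Finset

namespace Pool.Agent.PERC29.GU

open Pool.Agent.PERC29 Pool.Agent.PERC29.AE Pool.Agent.PERC29.QQ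

noncomputable instance bxG (d l : ℕ) : Fintype (boxG d l).edgeSet := Fintype.ofFinite _

section gen

variable {V : Type*} [Fintype V] [DecidableEq V] {E : Type*} [Fintype E] [DecidableEq E] (ends : E → Sym2 V)

open scoped Classical in
/-- The two-point function inside `S`. -/
noncomputable def rs (S : Set V) (p : ℝ) (x y : V) : ℝ :=
  Ex p (fun ω => if y ∈ cl ends ω S x then (1 : ℝ) else 0)

open scoped Classical in
/-- The probability that `x` is joined to `Y` inside `S`. -/
noncomputable def hs (S : Set V) (p : ℝ) (x : V) (Y : Finset V) : ℝ :=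
  Ex p (fun ω => if ∃ y ∈ Y, y ∈ cl ends ω S x then (1 : ℝ) else 0)

/-- The moments of the number of vertices of `B` in the cluster of `x`. -/
noncomputable def mo (p : ℝ) (B : Finset V) (k : ℕ) (x : V) : ℝ :=
  Ex p (fun ω => ((cu ends ω x ∩ B).card : ℝ) ^ k)

/-- The sets of edges which join `x` to all `y i`, `i ∈ I`. -/
def Cn {ι : Type*} (y : ι → V) (x : V) (I : Finset ι) : Set (Finset E) :=
  {F | ∀ i ∈ I, Rch ends (fun e => decide (e ∈ F)) Set.univ x (y i)}

end gen

section box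

variable {d l : ℕ}

/-- The ball. -/
noncomputable def bb (z : Fin d → Fin l) (m : ℕ) : Finset (Fin d → Fin l) := Finset.univ.filter (fun x => nd z x ≤ m)

/-- The ball as a set. -/
def Qs (z : Fin d → Fin l) (n : ℕ) : Set (Fin d → Fin l) := {x | nd z x ≤ n}

/-- The sphere. -/
noncomputable def Sp (z : Fin d → Fin l) (n : ℕ) : Finset (Fin d → Fin l) := Finset.univ.filter (fun x => nd z x = n)

/-- The face of the cube `Qs z n` in direction `i`; `s = true` is the upper face. -/
noncomputable def Fc (z : Fin d → Fin l) (n : ℕ) (i : Fin d) (s : Bool) : Finset (Fin d → Fin l) :=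
  Finset.univ.filter (fun x => nd z x ≤ n ∧ (if s = true then (x i : ℕ) = (z i : ℕ) + n else (x i : ℕ) + n = (z i : ℕ)))

/-- The cube `Qs z n` is inside the box. -/
def In (z : Fin d → Fin l) (n : ℕ) : Prop := ∀ i, n ≤ (z i : ℕ) ∧ (z i : ℕ) + n < l

/-- The expected number of vertices of the boundary of the cube of radius `n` joined to the centre inside the cube. -/
noncomputable def be (d n : ℕ) (p : ℝ) : ℝ := ∑ u ∈ Sp (ctr d n) n, ta (gends (boxG d (2 * n + 1))) p (ctr d n) u

/-- The kernel of the moment bounds. -/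
noncomputable def hk (m : ℕ) (c x : Fin d → Fin l) : ℝ := 1 / (1 + (nd c x : ℝ) / m) ^ (d - 2)

/-- The vertex `u` of the boundary of `Qs o n` is joined to `o` inside `Qs o n`, and the cluster has many vertices in the ball of radius `m` about `u`. -/
def Irr (o : Fin d → Fin l) (n : ℕ) (u : Fin d → Fin l) (m : ℕ) (ω : (boxG d l).edgeSet → Bool) : Prop :=
  u ∈ cl (gends (boxG d l)) ω (Qs o n) o ∧
    (m : ℝ) ^ 9 < (((cl (gends (boxG d l)) ω (Qs o n) o ∩ bb u m).card : ℕ) : ℝ) ^ 2

open scoped Classical in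
/-- The expected number of such vertices. -/
noncomputable def II (o : Fin d → Fin l) (n m : ℕ) (p : ℝ) : ℝ :=
  ∑ u ∈ Sp o n, Ex p (fun ω => if Irr o n u m ω then (1 : ℝ) else 0)

open scoped Classical in
/-- The regular vertices of `A` on the boundary of `Qs o n`. -/
noncomputable def RG (m0 : ℕ) (o : Fin d → Fin l) (n : ℕ) (A : Finset (Fin d → Fin l)) : Finset (Fin d → Fin l) :=
  (A ∩ Sp o n).filter (fun u => ∀ m : ℕ, m0 ≤ m → (((A ∩ bb u m).card : ℕ) : ℝ) ^ 2 ≤ (m : ℝ) ^ 9)

end box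

/-- The hypothesis: upper bounds at and below `pc` in boxes. -/
structure GH (d : ℕ) (C c pc : ℝ) : Prop where
  d9 : 9 ≤ d
  C1 : 1 ≤ C
  c0 : 0 < c
  c1 : c ≤ 1
  cp : c ≤ pc / 2
  p1 : pc < 1
  U : ∀ (l : ℕ) (x y : Fin d → Fin l) (s : ℝ), 0 ≤ s → s ≤ c →
    ta (gends (boxG d l)) (pc - s) x y ≤ C * ek (d - 2) (c * Real.sqrt s) x y

/-- The lower bounds: for the numbers `be` and for the sums of the two-point function. -/
structure GB (d : ℕ) (b α pc : ℝ) : Prop where
  b0 : 0 < b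
  b1 : b ≤ 1
  α0 : 0 < α
  B : ∀ n : ℕ, 1 ≤ n → b ≤ be d n pc
  M : ∀ m : ℕ, 1 ≤ m → ∃ L0 : ℕ, ∀ (l : ℕ) (v : Fin d → Fin l) (s : ℝ), In v L0 → 0 ≤ s → s ≤ pc → s * (m : ℝ) ^ 2 ≤ α →
    b * (m : ℝ) ^ 2 ≤ ∑ y ∈ bb v m, ta (gends (boxG d l)) (pc - s) v y

end Pool.Agent.PERC29.GU
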