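import Pool.Agent.Lib.MP_29e17e_pr.G.Df
import Pool.Agent.Lib.MP_29e17e_pr.Z.Df

namespace Pool.Agent.PERC29
end Pool.Agent.PERC29
namespace Pool.Agent.PERC29.AE
end Pool.Agent.PERC29.AE
namespace Pool.Agent.PERC29.DZ
end Pool.Agent.PERC29.DZ
namespace Pool.Agent.PERC29.QQ
end Pool.Agent.PERC29.QQ

set_option autoImplicit false
set_option linter.unusedSectionVars false

/-! Further definitions for the rows 29g. -/

open Finset

namespace Pool.Agent.PERC29.GU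

open Pool.Agent.PERC29 Pool.Agent.PERC29.AE Pool.Agent.PERC29.QQ Pool.Agent.PERC29.DZ

/-- `a` moved by `r` in direction `i0`. -/
def shr {d l : ℕ} (i0 : Fin d) (r : ℕ) (a : Fin d → Fin l) : Fin d → Fin l := upd i0 a ((a i0 : ℕ) + r)

/-- Lower bound for the pairs of the bulk at distance at most `D`. -/
def BL (d l : ℕ) (pc D c α : ℝ) : Prop :=
  ∀ x y : Fin d → Fin l, bul x → bul y → (nd x y : ℝ) ≤ D → ∀ s : ℝ, 0 ≤ s → s ≤ pc / 2 → s * (l : ℝ) ^ 2 ≤ α →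
    c / (l : ℝ) ^ (d - 2) ≤ ta (gends (boxG d l)) (pc - s) x y

/-- Lower bound for all pairs. -/
def LP (d : ℕ) (pc : ℝ) (Λ : ℕ) (c α : ℝ) : Prop :=
  ∀ (l M : ℕ) (x y : Fin d → Fin l) (s : ℝ), 1 ≤ M → In x (Λ * M) → nd x y ≤ M → 0 ≤ s → s ≤ pc / 2 → s * (M : ℝ) ^ 2 ≤ α →
    c / (M : ℝ) ^ (d - 2) ≤ ta (gends (boxG d l)) (pc - s) x y

/-- `c f(y - x) / M^(d-2)` is a lower bound for the two-point function if the cube of radius `Λ M` about `x` is in the box. -/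
def GF (d : ℕ) (pc : ℝ) (Λ : ℕ) (c α : ℝ) (M : ℕ) (f : Zd d → ℝ) : Prop :=
  ∀ (l : ℕ) (x y : Fin d → Fin l) (s : ℝ), In x (Λ * M) → 0 ≤ s → s ≤ pc / 2 → s * (M : ℝ) ^ 2 ≤ α →
    c * f (rel x y) / (M : ℝ) ^ (d - 2) ≤ ta (gends (boxG d l)) (pc - s) x y

/-- The convolution powers of `f` restricted to the ball of radius `R`. -/
noncomputable def cvk {d : ℕ} (R : ℕ) (f : Zd d → ℝ) : ℕ → Zd d → ℝ
  | 0, z => if z = 0 then 1 else 0
  | n + 1, z => ∑ a ∈ bz R, f a * cvk R f n (z - a)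

/-- The average of `f` over `z` and its neighbours. -/
noncomputable def thk {d : ℕ} (f : Zd d → ℝ) (z : Zd d) : ℝ :=
  (f z + ∑ i, (f (z + Pi.single i 1) + f (z - Pi.single i 1))) / (2 * d + 1)

/-- The image of `f` (restricted to the ball of radius `R`) on the torus. -/
noncomputable def psh {d : ℕ} (N R : ℕ) (f : Zd d → ℝ) (x : Fin d → ZMod N) : ℝ :=
  ∑ a ∈ (bz R).filter (fun a : Zd d => (fun i => ((a i : ℤ) : ZMod N)) = x), f a

end Pool.Agent.PERC29.GU
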