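import Pool.Agent.Lib.MP_29e17e_pr.G.Df

set_option autoImplicit false
set_option linter.unusedSectionVars false

/-! Rows 29g-E1 .. E5: the comparison of `pc` and `pc - s`, and a weak one-arm bound. -/

open Finset

namespace Pool.Agent.PERC29.GU

open Pool.Agent.PERC29 Pool.Agent.PERC29.AE Pool.Agent.PERC29.QQ

section gen

variable {V : Type*} [Fintype V] [DecidableEq V] {E : Type*} [Fintype E] [DecidableEq E] {ends : E → Sym2 V}

private lemma E1_loc (x : V) (e : E) {ω ω' : E → Bool} (h : ∀ e' ≠ e, ω e' = ω' e')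
    (hn : e ∉ AE.tch ends (cu ends ω x)) : e ∉ AE.tch ends (cu ends ω' x) := by
  have h1 : cu ends ω' x = cu ends ω x := by
    refine cl_eq_dep (A := cu ends ω x) (fun e' a b h2 _ _ h5 => h e' ?_) rfl
    rintro rfl
    apply hn
    unfold AE.tch
    rw [Finset.mem_filter]
    refine ⟨Finset.mem_univ _, a, h5, ?_⟩
    rw [h2]
    exact Sym2.mem_mk_left a b
  rw [h1]
  exact hn

private lemma E1_iff (x : V) (e : E) {ω ω' : E → Bool} (h : ∀ e' ≠ e, ω e' = ω' e') :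
    (e ∈ AE.tch ends (cu ends ω x)) ↔ (e ∈ AE.tch ends (cu ends ω' x)) := by
  constructor
  · intro h1
    by_contra h2
    exact E1_loc x e (fun e' he' => (h e' he').symm) h2 h1
  · intro h1
    by_contra h2
    exact E1_loc x e h h2 h1

private lemma E1_one (p : ℝ) (x : V) (g : Bool → ℝ) (e : E) :
    Ex p (fun ω => if e ∈ AE.tch ends (cu ends ω x) then g (ω e) else 0) =
      (p * g true + (1 - p) * g false) *
        Ex p (fun ω => if e ∈ AE.tch ends (cu ends ω x) then (1 : ℝ) else 0) := by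
  have h1 : ∀ ω : E → Bool, (if e ∈ AE.tch ends (cu ends ω x) then g (ω e) else 0) =
      (g true - g false) * ((if ω e = true then (1 : ℝ) else 0) *
        (if e ∈ AE.tch ends (cu ends ω x) then (1 : ℝ) else 0)) +
      g false * (if e ∈ AE.tch ends (cu ends ω x) then (1 : ℝ) else 0) := by
    intro ω
    by_cases h2 : e ∈ AE.tch ends (cu ends ω x)
    · rw [if_pos h2, if_pos h2]
      cases h3 : ω e
      · rw [if_neg (by decide)]
        ring
      · rw [if_pos rfl]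
        ring
    · rw [if_neg h2, if_neg h2]
      ring
  have h2 : Ex p (fun ω => (if ω e = true then (1 : ℝ) else 0) *
      (if e ∈ AE.tch ends (cu ends ω x) then (1 : ℝ) else 0)) =
      p * Ex p (fun ω => if e ∈ AE.tch ends (cu ends ω x) then (1 : ℝ) else 0) := by
    apply Ex_coord
    intro ω ω' h
    by_cases h3 : e ∈ AE.tch ends (cu ends ω x)
    · rw [if_pos h3, if_pos ((E1_iff x e h).1 h3)]
    · rw [if_neg h3, if_neg (fun h4 => h3 ((E1_iff x e h).2 h4))]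
  rw [Ex_congr h1, Ex_add, Ex_mul_left, Ex_mul_left, h2]
  ring

/-- Row E1. For each `e` the event `e ∈ AE.tch ends (cu ends ω x)` does not depend on `ω e` (a path from `x` which reaches an end of `e` for the first time does not use `e`);
`Ex_indep` / `Ex_coord`. -/
theorem tch_mean {p : ℝ} (x : V) (g : Bool → ℝ) :
    Ex p (fun ω => ∑ e ∈ AE.tch ends (cu ends ω x), g (ω e)) =
      (p * g true + (1 - p) * g false) * Ex p (fun ω => ((AE.tch ends (cu ends ω x)).card : ℝ)) := by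
  have h1 : ∀ ω : E → Bool, ∑ e ∈ AE.tch ends (cu ends ω x), g (ω e) =
      ∑ e : E, (if e ∈ AE.tch ends (cu ends ω x) then g (ω e) else 0) := by
    intro ω
    rw [Finset.sum_ite_mem, Finset.univ_inter]
  have h2 : ∀ ω : E → Bool, ((AE.tch ends (cu ends ω x)).card : ℝ) =
      ∑ e : E, (if e ∈ AE.tch ends (cu ends ω x) then (1 : ℝ) else 0) := by
    intro ω
    rw [Finset.sum_ite_mem, Finset.univ_inter, Finset.sum_const, nsmul_eq_mul, mul_one]
  rw [Ex_congr h1, Ex_congr h2, Ex_sum, Ex_sum, Finset.mul_sum]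
  exact Finset.sum_congr rfl fun e _ => E1_one p x g e

lemma E2_wr_pos {p s : ℝ} (hp : 0 < p) (hs : 0 ≤ s) (hps : p + s < 1) (b : Bool) : 0 < wr p s b := by
  unfold wr
  split_ifs
  · exact div_pos (by linarith) hp
  · exact div_pos (by linarith) (by linarith)

lemma E2_cu {x : V} {ω ω' : E → Bool} (h : ∀ e ∈ AE.tch ends (cu ends ω x), ω e = ω' e) :
    cu ends ω' x = cu ends ω x := by
  have key : ∀ S : Finset V, (∀ e ∈ AE.tch ends S, ω e = ω' e) → cu ends ω x = S →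
      cu ends ω' x = S := by
    intro S hh hA
    refine cl_eq_dep (fun e' a b h2 _ _ h5 => hh e' ?_) hA
    unfold AE.tch
    rw [Finset.mem_filter]
    refine ⟨Finset.mem_univ _, a, h5, ?_⟩
    rw [h2]
    exact Sym2.mem_mk_left a b
  exact key _ h rfl

lemma E2_RN {p s : ℝ} {x : V} {ω ω' : E → Bool} (h : ∀ e ∈ AE.tch ends (cu ends ω x), ω e = ω' e) :
    RN ends p s x ω = RN ends p s x ω' := by
  unfold RN
  rw [E2_cu h]
  exact Finset.prod_congr rfl fun e he => by rw [h e he]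

lemma E2_card (Dg : ℕ) (hdeg : ∀ v, (Finset.univ.filter (fun e => v ∈ ends e)).card ≤ Dg) (x : V)
    (ω : E → Bool) : ((AE.tch ends (cu ends ω x)).card : ℝ) ≤ Dg * cz ends ω x := by
  have h1 : AE.tch ends (cu ends ω x) ⊆
      (cu ends ω x).biUnion (fun v => Finset.univ.filter (fun e => v ∈ ends e)) := by
    intro e he
    unfold AE.tch at he
    rw [Finset.mem_filter] at he
    obtain ⟨-, v, hv, hve⟩ := he
    rw [Finset.mem_biUnion]
    exact ⟨v, hv, Finset.mem_filter.2 ⟨Finset.mem_univ _, hve⟩⟩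
  have h2 : (AE.tch ends (cu ends ω x)).card ≤ (cu ends ω x).card * Dg := by
    calc (AE.tch ends (cu ends ω x)).card
        ≤ ((cu ends ω x).biUnion (fun v => Finset.univ.filter (fun e => v ∈ ends e))).card :=
          Finset.card_le_card h1
      _ ≤ ∑ v ∈ cu ends ω x, (Finset.univ.filter (fun e => v ∈ ends e)).card :=
          Finset.card_biUnion_le
      _ ≤ ∑ _v ∈ cu ends ω x, Dg := Finset.sum_le_sum fun v _ => hdeg v
      _ = (cu ends ω x).card * Dg := by rw [Finset.sum_const, smul_eq_mul]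
  have h3 : ((AE.tch ends (cu ends ω x)).card : ℝ) ≤ ((cu ends ω x).card : ℝ) * Dg := by
    exact_mod_cast h2
  unfold cz
  linarith

lemma E2_kappa {p s : ℝ} (hp : 0 < p) (hs : 0 ≤ s) (hps : p + s < 1) :
    (p + s) * Real.log (wr p s true) + (1 - (p + s)) * Real.log (wr p s false) ≤
      s ^ 2 / (p * (1 - p)) := by
  have hq : 0 < 1 - p := by linarith
  have h1 := Real.log_le_sub_one_of_pos (E2_wr_pos hp hs hps true)
  have h2 := Real.log_le_sub_one_of_pos (E2_wr_pos hp hs hps false)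
  have e1 : wr p s true = (p + s) / p := by
    unfold wr
    rw [if_pos rfl]
  have e2 : wr p s false = (1 - p - s) / (1 - p) := by
    unfold wr
    rw [if_neg (by simp)]
  have h3 : (p + s) * (wr p s true - 1) + (1 - (p + s)) * (wr p s false - 1) =
      s ^ 2 / (p * (1 - p)) := by
    rw [e1, e2]
    field_simp
    ring
  rw [← h3]
  exact add_le_add (mul_le_mul_of_nonneg_left h1 (by linarith))
    (mul_le_mul_of_nonneg_left h2 (by linarith))

/-- The entropy of the law of the cluster. -/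
lemma E2_log {p s : ℝ} (hp : 0 < p) (hs : 0 ≤ s) (hps : p + s < 1) (Dg : ℕ)
    (hdeg : ∀ v, (Finset.univ.filter (fun e => v ∈ ends e)).card ≤ Dg) (x : V) :
    Ex (p + s) (fun ω => Real.log (RN ends p s x ω)) ≤
      Dg * s ^ 2 / (p * (1 - p)) * Ex (p + s) (fun ω => cz ends ω x) := by
  have hq : 0 < 1 - p := by linarith
  have h1 : ∀ ω : E → Bool, Real.log (RN ends p s x ω) =
      ∑ e ∈ AE.tch ends (cu ends ω x), Real.log (wr p s (ω e)) := by
    intro ω
    unfold RN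
    exact Real.log_prod fun e _ => (E2_wr_pos hp hs hps (ω e)).ne'
  rw [Ex_congr h1, tch_mean (p := p + s) x (fun b => Real.log (wr p s b))]
  have hc0 : 0 ≤ Ex (p + s) (fun ω : E → Bool => ((AE.tch ends (cu ends ω x)).card : ℝ)) :=
    Ex_nonneg (by linarith) hps.le fun ω => Nat.cast_nonneg _
  have hc1 : Ex (p + s) (fun ω : E → Bool => ((AE.tch ends (cu ends ω x)).card : ℝ)) ≤
      Dg * Ex (p + s) (fun ω => cz ends ω x) := by
    rw [← Ex_mul_left]
    exact Ex_mono (by linarith) hps.le fun ω => E2_card Dg hdeg x ω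
  have hk : 0 ≤ s ^ 2 / (p * (1 - p)) := by positivity
  calc ((p + s) * Real.log (wr p s true) + (1 - (p + s)) * Real.log (wr p s false)) *
        Ex (p + s) (fun ω : E → Bool => ((AE.tch ends (cu ends ω x)).card : ℝ))
      ≤ s ^ 2 / (p * (1 - p)) *
        Ex (p + s) (fun ω : E → Bool => ((AE.tch ends (cu ends ω x)).card : ℝ)) :=
        mul_le_mul_of_nonneg_right (E2_kappa hp hs hps) hc0
    _ ≤ s ^ 2 / (p * (1 - p)) * (Dg * Ex (p + s) (fun ω => cz ends ω x)) :=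
        mul_le_mul_of_nonneg_left hc1 hk
    _ = Dg * s ^ 2 / (p * (1 - p)) * Ex (p + s) (fun ω => cz ends ω x) := by ring

/-- The squared Hellinger distance of the two laws of the cluster. -/
lemma E2_hell {p s : ℝ} (hp : 0 < p) (hs : 0 ≤ s) (hps : p + s < 1) (Dg : ℕ)
    (hdeg : ∀ v, (Finset.univ.filter (fun e => v ∈ ends e)).card ≤ Dg) (x : V) :
    Ex p (fun ω => (Real.sqrt (RN ends p s x ω) - 1) ^ 2) ≤
      Dg * s ^ 2 / (p * (1 - p)) * Ex (p + s) (fun ω => cz ends ω x) := by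
  have hp1 : p < 1 := by linarith
  have hR : ∀ ω : E → Bool, 0 < RN ends p s x ω := fun ω =>
    Finset.prod_pos fun e _ => E2_wr_pos hp hs hps (ω e)
  have hR1 : Ex p (fun ω => RN ends p s x ω) = 1 := by
    have h1 := Ex_RN (ends := ends) (s := s) hp hp1 x (fun _ => (1 : ℝ)) (fun _ _ _ => rfl)
    rw [Ex_const] at h1
    rw [h1]
    exact Ex_congr fun ω => (one_mul _).symm
  have hF : Lcx ends x (fun ω => 1 / Real.sqrt (RN ends p s x ω)) := by
    intro ω ω' h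
    show 1 / Real.sqrt (RN ends p s x ω) = 1 / Real.sqrt (RN ends p s x ω')
    rw [E2_RN h]
  have hS : Ex p (fun ω => Real.sqrt (RN ends p s x ω)) =
      Ex (p + s) (fun ω => 1 / Real.sqrt (RN ends p s x ω)) := by
    rw [Ex_RN hp hp1 x _ hF]
    refine Ex_congr fun ω => ?_
    have h1 : 0 < Real.sqrt (RN ends p s x ω) := Real.sqrt_pos.2 (hR ω)
    have h2 : Real.sqrt (RN ends p s x ω) * Real.sqrt (RN ends p s x ω) = RN ends p s x ω :=
      Real.mul_self_sqrt (hR ω).le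
    rw [div_mul_eq_mul_div, one_mul, eq_div_iff h1.ne']
    exact h2
  have hL : 1 - 1 / 2 * Ex (p + s) (fun ω => Real.log (RN ends p s x ω)) ≤
      Ex (p + s) (fun ω => 1 / Real.sqrt (RN ends p s x ω)) := by
    have h1 : Ex (p + s) (fun ω : E → Bool => 1 + (-(1 / 2)) * Real.log (RN ends p s x ω)) ≤
        Ex (p + s) (fun ω => 1 / Real.sqrt (RN ends p s x ω)) := by
      refine Ex_mono (by linarith) hps.le fun ω => ?_
      have h2 : 0 < Real.sqrt (RN ends p s x ω) := Real.sqrt_pos.2 (hR ω)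
      have h3 := Real.log_le_sub_one_of_pos (one_div_pos.2 h2)
      have h4 : Real.log (1 / Real.sqrt (RN ends p s x ω)) =
          -(1 / 2) * Real.log (RN ends p s x ω) := by
        rw [one_div, Real.log_inv, Real.log_sqrt (hR ω).le]
        ring
      rw [h4] at h3
      linarith
    rw [Ex_add, Ex_const, Ex_mul_left] at h1
    linarith
  have hE : Ex p (fun ω => (Real.sqrt (RN ends p s x ω) - 1) ^ 2) =
      Ex p (fun ω => RN ends p s x ω) + (-2) * Ex p (fun ω => Real.sqrt (RN ends p s x ω)) + 1 := by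
    have h1 : ∀ ω : E → Bool, (Real.sqrt (RN ends p s x ω) - 1) ^ 2 =
        (RN ends p s x ω + (-2) * Real.sqrt (RN ends p s x ω)) + 1 := by
      intro ω
      have h2 : Real.sqrt (RN ends p s x ω) ^ 2 = RN ends p s x ω := Real.sq_sqrt (hR ω).le
      nlinarith [h2]
    rw [Ex_congr h1, Ex_add, Ex_add, Ex_mul_left, Ex_const]
  have hlog := E2_log (ends := ends) hp hs hps Dg hdeg x
  rw [hE, hR1, hS]
  linarith

open scoped Classical in
/-- Row E2. Let `R = RN ends p s x`. `R ≤ 2 + 2 (√R - 1)²`, so `Ex (p+s) 1_A = Ex p (1_A R) ≤ 2 Ex p 1_A + 2 Ex p (√R - 1)²` (`Ex_RN`), and `Ex p (√R - 1)² = 2 - 2 Ex p √R`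
(`Ex p R = 1`: `Ex_RN` with `F = 1`), `Ex p √R = Ex p (R * (1/√R)) = Ex (p+s) (1/√R) ≥ 1 - (1/2) Ex (p+s) (log R)` (`Ex_RN`, `1/√R` is local; `exp (-t) ≥ 1 - t`), and
`Ex (p+s) (log R) = Ex (p+s) (∑_{e ∈ tch} log (wr p s (ω e))) = κ Ex (p+s) (card tch)` by `tch_mean` at `p + s`, with
`κ = (p+s) log ((p+s)/p) + (1-p-s) log ((1-p-s)/(1-p)) ≤ (p+s) s/p - (1-p-s) s/(1-p) = s²/(p (1-p))` (`log t ≤ t - 1`), `card tch ≤ Dg cz`. -/
theorem entropic {p s : ℝ} (hp : 0 < p) (hs : 0 ≤ s) (hps : p + s < 1) (Dg : ℕ)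
    (hdeg : ∀ v, (Finset.univ.filter (fun e => v ∈ ends e)).card ≤ Dg) (x : V) (A : (E → Bool) → Prop)
    (hA : Lcx ends x (fun ω => if A ω then (1 : ℝ) else 0)) :
    Ex (p + s) (fun ω => if A ω then (1 : ℝ) else 0) ≤ 2 * Ex p (fun ω => if A ω then (1 : ℝ) else 0) +
      2 * (Dg * s ^ 2 / (p * (1 - p))) * Ex (p + s) (fun ω => cz ends ω x) := by
  have hp1 : p < 1 := by linarith
  have hR : ∀ ω : E → Bool, 0 < RN ends p s x ω := fun ω =>
    Finset.prod_pos fun e _ => E2_wr_pos hp hs hps (ω e)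
  have hH := E2_hell (ends := ends) hp hs hps Dg hdeg x
  have h1 : Ex p (fun ω => (if A ω then (1 : ℝ) else 0) * RN ends p s x ω) ≤
      Ex p (fun ω => 2 * (if A ω then (1 : ℝ) else 0) +
        2 * (Real.sqrt (RN ends p s x ω) - 1) ^ 2) := by
    refine Ex_mono hp.le hp1.le fun ω => ?_
    have h2 : Real.sqrt (RN ends p s x ω) ^ 2 = RN ends p s x ω := Real.sq_sqrt (hR ω).le
    by_cases h : A ω
    · simp only [if_pos h]
      nlinarith [sq_nonneg (Real.sqrt (RN ends p s x ω) - 2)]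
    · simp only [if_neg h]
      nlinarith [sq_nonneg (Real.sqrt (RN ends p s x ω) - 1)]
  rw [Ex_add, Ex_mul_left, Ex_mul_left] at h1
  rw [Ex_RN hp hp1 x _ hA]
  refine h1.trans (add_le_add_right ?_ _)
  calc 2 * Ex p (fun ω => (Real.sqrt (RN ends p s x ω) - 1) ^ 2)
      ≤ 2 * (Dg * s ^ 2 / (p * (1 - p)) * Ex (p + s) (fun ω => cz ends ω x)) := by linarith
    _ = 2 * (Dg * s ^ 2 / (p * (1 - p))) * Ex (p + s) (fun ω => cz ends ω x) := by ring

end gen

variable {d : ℕ}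

private theorem E3_cu {V : Type*} [Fintype V] [DecidableEq V] {E : Type*} [Fintype E] [DecidableEq E] {ends : E → Sym2 V}
    {x : V} {ω ω' : E → Bool} (h : ∀ e ∈ AE.tch ends (cu ends ω x), ω e = ω' e) : cu ends ω' x = cu ends ω x := by
  have h2 : cl ends ω' Set.univ x = cu ends ω x := by
    refine cl_eq_dep (ω := ω) ?_ rfl
    intro e a b he _ _ ha
    refine h e ?_
    unfold AE.tch
    rw [Finset.mem_filter]
    exact ⟨Finset.mem_univ _, a, ha, by rw [he]; exact Sym2.mem_mk_left a b⟩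
  exact h2

/-- Row E3. `entropic` for the box, `x` the centre, `Dg = 2 d` (`box_deg`), `p = pc - s ≥ pc/2`, `1 - p ≥ 1 - pc`; `Ex pc (cz) = ∑_y ta ctr y ≤ C ∑ fk ≤ K N²` (`ta_sum`, `sum_f`, `GH.U` at `s = 0`). The event
`arm d N` is a function of the cluster of the centre. -/
theorem arm_ent (d : ℕ) (C c pc : ℝ) (h : GH d C c pc) : ∃ K : ℝ, 1 ≤ K ∧ ∀ (N : ℕ) (s : ℝ), 1 ≤ N → 0 ≤ s → s ≤ c →
    aM d N pc ≤ 2 * aM d N (pc - s) + K * s ^ 2 * (N : ℝ) ^ 2 := by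
  classical
  have hd9 := h.d9
  have hC1 := h.C1
  have hc0 := h.c0
  have hcp := h.cp
  have hp1 := h.p1
  have hB : 0 < pc / 2 * (1 - pc) := mul_pos (by linarith) (by linarith)
  obtain ⟨K0, hK0⟩ : ∃ K0 : ℝ, K0 = 2 * (((2 * d : ℕ) : ℝ) / (pc / 2 * (1 - pc))) * (C * ((d * 2 ^ d : ℝ) * 9)) := ⟨_, rfl⟩
  have hK0n : 0 ≤ K0 := by
    rw [hK0]
    have h1 : 0 ≤ ((2 * d : ℕ) : ℝ) / (pc / 2 * (1 - pc)) := div_nonneg (Nat.cast_nonneg _) hB.le
    have h2 : 0 ≤ C * ((d * 2 ^ d : ℝ) * 9) := mul_nonneg (by linarith) (by positivity)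
    exact mul_nonneg (mul_nonneg (by norm_num) h1) h2
  refine ⟨K0 + 1, by linarith, fun N s hN hs hsc => ?_⟩
  have hps : 0 < pc - s := by linarith
  have hN1 : (1 : ℝ) ≤ N := by exact_mod_cast hN
  have hL : Lcx (gends (boxG d (2 * N + 1))) (ctr d N)
      (fun ω : (boxG d (2 * N + 1)).edgeSet → Bool => if arm d N ω then (1 : ℝ) else 0) := by
    intro ω ω' hω
    have h1 := E3_cu hω
    have h2 : arm d N ω' ↔ arm d N ω := by
      unfold arm
      rw [h1]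
    by_cases h3 : arm d N ω
    · have h4 := h2.2 h3
      simp only [h3, h4]
    · have h4 : ¬ arm d N ω' := fun h4 => h3 (h2.1 h4)
      simp only [h3, h4]
  have hEnt := entropic (ends := gends (boxG d (2 * N + 1))) (p := pc - s) (s := s) hps hs (by linarith) (2 * d)
    (fun v => box_deg v) (ctr d N) (fun ω => arm d N ω) hL
  rw [sub_add_cancel] at hEnt
  have hcz : Ex pc (fun ω : (boxG d (2 * N + 1)).edgeSet → Bool => cz (gends (boxG d (2 * N + 1))) ω (ctr d N)) ≤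
      C * ((d * 2 ^ d : ℝ) * 9) * (N : ℝ) ^ 2 := by
    rw [← ta_sum]
    have h1 : ∀ y ∈ (Finset.univ : Finset (Fin d → Fin (2 * N + 1))),
        ta (gends (boxG d (2 * N + 1))) pc (ctr d N) y ≤ C * fk (d - 2) (ctr d N) y := by
      intro y _
      have h2 := h.U (2 * N + 1) (ctr d N) y 0 le_rfl hc0.le
      unfold ek at h2
      rw [sub_zero, Real.sqrt_zero, mul_zero, zero_mul, neg_zero, Real.exp_zero, mul_one] at h2
      exact h2
    have h3 := sum_f (by omega : 2 ≤ d) (ctr d N)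
    have h4 : (((2 * N + 1 : ℕ) : ℝ)) ^ 2 ≤ 9 * (N : ℝ) ^ 2 := by
      have h5 : (((2 * N + 1 : ℕ) : ℝ)) ≤ 3 * N := by
        push_cast
        linarith
      have h6 : (0 : ℝ) ≤ ((2 * N + 1 : ℕ) : ℝ) := Nat.cast_nonneg _
      nlinarith
    calc ∑ y, ta (gends (boxG d (2 * N + 1))) pc (ctr d N) y
        ≤ ∑ y, C * fk (d - 2) (ctr d N) y := Finset.sum_le_sum h1
      _ = C * ∑ y, fk (d - 2) (ctr d N) y := by rw [Finset.mul_sum]
      _ ≤ C * ((d * 2 ^ d : ℝ) * (((2 * N + 1 : ℕ) : ℝ)) ^ 2) := mul_le_mul_of_nonneg_left h3 (by linarith)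
      _ ≤ C * ((d * 2 ^ d : ℝ) * (9 * (N : ℝ) ^ 2)) :=
          mul_le_mul_of_nonneg_left (mul_le_mul_of_nonneg_left h4 (by positivity)) (by linarith)
      _ = C * ((d * 2 ^ d : ℝ) * 9) * (N : ℝ) ^ 2 := by ring
  have hA : pc / 2 * (1 - pc) ≤ (pc - s) * (1 - (pc - s)) :=
    mul_le_mul (by linarith) (by linarith) (by linarith) (by linarith)
  have hdiv : ((2 * d : ℕ) : ℝ) * s ^ 2 / ((pc - s) * (1 - (pc - s))) ≤
      ((2 * d : ℕ) : ℝ) / (pc / 2 * (1 - pc)) * s ^ 2 := by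
    rw [div_mul_eq_mul_div]
    exact div_le_div_of_nonneg_left (by positivity) hB hA
  have hcz0 : 0 ≤ Ex pc (fun ω : (boxG d (2 * N + 1)).edgeSet → Bool =>
      cz (gends (boxG d (2 * N + 1))) ω (ctr d N)) :=
    Ex_nonneg (by linarith) hp1.le fun ω => cz_nonneg ω _
  have hfin : 2 * (((2 * d : ℕ) : ℝ) * s ^ 2 / ((pc - s) * (1 - (pc - s)))) *
      Ex pc (fun ω : (boxG d (2 * N + 1)).edgeSet → Bool => cz (gends (boxG d (2 * N + 1))) ω (ctr d N)) ≤
      K0 * s ^ 2 * (N : ℝ) ^ 2 := by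
    have h1 : 0 ≤ ((2 * d : ℕ) : ℝ) / (pc / 2 * (1 - pc)) * s ^ 2 :=
      mul_nonneg (div_nonneg (Nat.cast_nonneg _) hB.le) (sq_nonneg _)
    calc _ ≤ 2 * (((2 * d : ℕ) : ℝ) / (pc / 2 * (1 - pc)) * s ^ 2) * (C * ((d * 2 ^ d : ℝ) * 9) * (N : ℝ) ^ 2) :=
          mul_le_mul (mul_le_mul_of_nonneg_left hdiv (by norm_num)) hcz hcz0 (mul_nonneg (by norm_num) h1)
      _ = K0 * s ^ 2 * (N : ℝ) ^ 2 := by
          rw [hK0]
          ring
  have h0 : 0 ≤ 1 * s ^ 2 * (N : ℝ) ^ 2 := by positivity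
  calc aM d N pc ≤ 2 * aM d N (pc - s) + 2 * (((2 * d : ℕ) : ℝ) * s ^ 2 / ((pc - s) * (1 - (pc - s)))) *
      Ex pc (fun ω : (boxG d (2 * N + 1)).edgeSet → Bool => cz (gends (boxG d (2 * N + 1))) ω (ctr d N)) := hEnt
    _ ≤ 2 * aM d N (pc - s) + K0 * s ^ 2 * (N : ℝ) ^ 2 := by linarith
    _ ≤ 2 * aM d N (pc - s) + (K0 + 1) * s ^ 2 * (N : ℝ) ^ 2 := by linarith

private lemma E4_nd {N : ℕ} {u : Fin d → Fin (2 * N + 1)} (hu : u ∈ bdy d (2 * N + 1)) :
    nd (ctr d N) u = N := by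
  obtain ⟨i, hi⟩ := (Finset.mem_filter.1 hu).2
  have hc : ∀ j, (ctr d N j : ℕ) = N := fun _ => rfl
  apply le_antisymm
  · unfold nd
    refine Finset.sup_le fun j _ => ?_
    have h1 := (u j).isLt
    rw [hc j]
    omega
  · have h2 : ((ctr d N i : ℕ) - (u i : ℕ)) + ((u i : ℕ) - (ctr d N i : ℕ)) ≤ nd (ctr d N) u :=
      Finset.le_sup (f := fun i => ((ctr d N i : ℕ) - (u i : ℕ)) + ((u i : ℕ) - (ctr d N i : ℕ)))
        (Finset.mem_univ i)
    rw [hc i] at h2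
    omega

private lemma E4_union (d N : ℕ) {p : ℝ} (h0 : 0 ≤ p) (h1 : p ≤ 1) :
    aM d N p ≤ ∑ u ∈ bdy d (2 * N + 1), ta (gends (boxG d (2 * N + 1))) p (ctr d N) u := by
  unfold aM ta
  rw [← Ex_sum]
  refine Ex_mono h0 h1 fun ω => ?_
  have hnn : ∀ u ∈ bdy d (2 * N + 1),
      (0 : ℝ) ≤ (if u ∈ cu (gends (boxG d (2 * N + 1))) ω (ctr d N) then (1 : ℝ) else 0) := by
    intro u _
    split_ifs <;> norm_num
  by_cases ha : arm d N ω
  · rw [if_pos ha]
    obtain ⟨u, hu1, hu2⟩ := Finset.not_disjoint_iff.1 ha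
    have h2 := Finset.single_le_sum hnn hu2
    rw [if_pos hu1] at h2
    exact h2
  · rw [if_neg ha]
    exact Finset.sum_nonneg hnn

/-- The one-arm probability below `pc`: union bound over the boundary, at most `d 2^d (N+1)^(d-1)` vertices `u`, all with
`nd ctr u = N`. -/
theorem arm_exp (d : ℕ) (C c pc : ℝ) (h : GH d C c pc) : ∃ K : ℝ, 1 ≤ K ∧ ∀ (N : ℕ) (s : ℝ), 1 ≤ N → 0 ≤ s → s ≤ c →
    aM d N (pc - s) ≤ K * N * Real.exp (-(c * Real.sqrt s * N)) := by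
  have hd : 1 ≤ d := le_trans (by norm_num) h.d9
  have hC := h.C1
  have hc0 := h.c0
  have hcp := h.cp
  have hp1 := h.p1
  have hD : (1 : ℝ) ≤ (d : ℝ) * 2 ^ d := by
    have h1 : 1 ≤ d * 2 ^ d := Nat.mul_pos hd (by positivity)
    exact_mod_cast h1
  refine ⟨2 * (d * 2 ^ d * C), ?_, fun N s hN hs0 hsc => ?_⟩
  · have h1 : 1 ≤ (d : ℝ) * 2 ^ d * C := one_le_mul_of_one_le_of_one_le hD hC
    linarith
  have hN1 : (1 : ℝ) ≤ (N : ℝ) := by exact_mod_cast hN
  have hu : ∀ u ∈ bdy d (2 * N + 1), ta (gends (boxG d (2 * N + 1))) (pc - s) (ctr d N) u ≤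
      C * (1 / (1 + (N : ℝ)) ^ (d - 2) * Real.exp (-(c * Real.sqrt s * N))) := by
    intro u hu
    have h2 := h.U (2 * N + 1) (ctr d N) u s hs0 hsc
    unfold ek fk at h2
    rw [E4_nd hu] at h2
    exact h2
  have hcard : ((bdy d (2 * N + 1)).card : ℝ) ≤ d * 2 ^ d * ((N : ℝ) + 1) ^ (d - 1) := by
    have h3 : bdy d (2 * N + 1) ⊆ Finset.univ.filter (fun y => nd (ctr d N) y = N) := fun u hu =>
      Finset.mem_filter.2 ⟨Finset.mem_univ _, E4_nd hu⟩
    have h4 := (Finset.card_le_card h3).trans (shell hd (ctr d N) N)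
    exact_mod_cast h4
  have hd1 : d - 1 = (d - 2) + 1 := by
    have := h.d9
    omega
  set X : ℝ := Real.exp (-(c * Real.sqrt s * N)) with hX
  have hX0 : 0 < X := Real.exp_pos _
  have hY : (1 + (N : ℝ)) ^ (d - 2) ≠ 0 := by positivity
  calc aM d N (pc - s) ≤ ∑ u ∈ bdy d (2 * N + 1), ta (gends (boxG d (2 * N + 1))) (pc - s) (ctr d N) u :=
        E4_union d N (by linarith) (by linarith)
    _ ≤ ∑ _u ∈ bdy d (2 * N + 1), C * (1 / (1 + (N : ℝ)) ^ (d - 2) * X) := Finset.sum_le_sum hu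
    _ = ((bdy d (2 * N + 1)).card : ℝ) * (C * (1 / (1 + (N : ℝ)) ^ (d - 2) * X)) := by
        rw [Finset.sum_const, nsmul_eq_mul]
    _ ≤ (d * 2 ^ d * ((N : ℝ) + 1) ^ (d - 1)) * (C * (1 / (1 + (N : ℝ)) ^ (d - 2) * X)) :=
        mul_le_mul_of_nonneg_right hcard (by positivity)
    _ = d * 2 ^ d * C * ((N : ℝ) + 1) * X := by
        rw [hd1, pow_succ, add_comm (N : ℝ) 1]
        field_simp
    _ ≤ d * 2 ^ d * C * (2 * N) * X := by
        refine mul_le_mul_of_nonneg_right (mul_le_mul_of_nonneg_left ?_ (by positivity)) hX0.le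
        linarith
    _ = 2 * (d * 2 ^ d * C) * N * X := by ring

/-- Row E5. `arm_ent`, `arm_exp` with `s = c / N^(3/2)` (`N^(3/2) = N √N`): `s² N² = c² / N`, `c √s N = c^(3/2) N^(1/4)` and `N² exp (-a N^(1/4))` is bounded. -/
theorem arm_weak (d : ℕ) (C c pc : ℝ) (h : GH d C c pc) : ∃ K : ℝ, 1 ≤ K ∧ ∀ N : ℕ, 1 ≤ N → aM d N pc ≤ K / N := by
  obtain ⟨K1, hK1, h1⟩ := arm_ent d C c pc h
  obtain ⟨K2, hK2, h2⟩ := arm_exp d C c pc h
  have hc := h.c0
  refine ⟨2 * (K2 * (40320 / c ^ 12)) + K1 * c ^ 2 + 1, ?_, ?_⟩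
  · have e1 : 0 ≤ K2 * (40320 / c ^ 12) := mul_nonneg (by linarith) (by positivity)
    have e2 : 0 ≤ K1 * c ^ 2 := mul_nonneg (by linarith) (by positivity)
    linarith
  intro N hN
  have hN1 : (1 : ℝ) ≤ (N : ℝ) := by exact_mod_cast hN
  have hN0 : (0 : ℝ) < (N : ℝ) := by linarith
  have hr1 : 1 ≤ Real.sqrt (N : ℝ) := Real.one_le_sqrt.mpr hN1
  have hrr : Real.sqrt (N : ℝ) ^ 2 = N := Real.sq_sqrt hN0.le
  have hD1 : 1 ≤ (N : ℝ) * Real.sqrt (N : ℝ) := by nlinarith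
  have hD0 : 0 < (N : ℝ) * Real.sqrt (N : ℝ) := by linarith
  obtain ⟨s, hsdef⟩ : ∃ s : ℝ, s = c / ((N : ℝ) * Real.sqrt (N : ℝ)) := ⟨_, rfl⟩
  have hs0 : 0 < s := by rw [hsdef]; exact div_pos hc hD0
  have hsc : s ≤ c := by
    rw [hsdef]
    exact div_le_self hc.le hD1
  have hs2 : s ^ 2 = c ^ 2 / (N : ℝ) ^ 3 := by
    rw [hsdef, div_pow, mul_pow, hrr]
    congr 1
  have hw0 : 0 < c * Real.sqrt s * N := mul_pos (mul_pos hc (Real.sqrt_pos.mpr hs0)) hN0
  have hw8 : (c * Real.sqrt s * N) ^ 8 = c ^ 12 * (N : ℝ) ^ 2 := by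
    have e1 : Real.sqrt s ^ 2 = s := Real.sq_sqrt hs0.le
    have e2 : (c * Real.sqrt s * N) ^ 8 = c ^ 8 * ((Real.sqrt s ^ 2) ^ 2) ^ 2 * (N : ℝ) ^ 8 := by ring
    rw [e2, e1, hs2]
    field_simp
  have hexp : Real.exp (-(c * Real.sqrt s * N)) ≤ 40320 / (c ^ 12 * (N : ℝ) ^ 2) := by
    have e1 := Real.pow_div_factorial_le_exp (c * Real.sqrt s * N) hw0.le 8
    rw [hw8] at e1
    have e3 : ((Nat.factorial 8 : ℕ) : ℝ) = 40320 := by norm_num [Nat.factorial]
    rw [e3] at e1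
    have e4 : 0 < c ^ 12 * (N : ℝ) ^ 2 / 40320 := by positivity
    rw [Real.exp_neg]
    calc (Real.exp (c * Real.sqrt s * N))⁻¹ ≤ (c ^ 12 * (N : ℝ) ^ 2 / 40320)⁻¹ := inv_anti₀ e4 e1
      _ = 40320 / (c ^ 12 * (N : ℝ) ^ 2) := by rw [inv_div]
  have a1 := h1 N s hN hs0.le hsc
  have a2 := h2 N s hN hs0.le hsc
  have a3 : K2 * N * Real.exp (-(c * Real.sqrt s * N)) ≤ K2 * (40320 / c ^ 12) / N := by
    calc K2 * N * Real.exp (-(c * Real.sqrt s * N)) ≤ K2 * N * (40320 / (c ^ 12 * (N : ℝ) ^ 2)) :=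
          mul_le_mul_of_nonneg_left hexp (mul_nonneg (by linarith) hN0.le)
      _ = K2 * (40320 / c ^ 12) / N := by field_simp
  have a4 : K1 * s ^ 2 * (N : ℝ) ^ 2 = K1 * c ^ 2 / N := by
    rw [hs2]
    field_simp
  have a5 : (2 * (K2 * (40320 / c ^ 12)) + K1 * c ^ 2 + 1) / (N : ℝ) =
      2 * (K2 * (40320 / c ^ 12) / N) + K1 * c ^ 2 / N + 1 / N := by ring
  have a6 : 0 ≤ 1 / (N : ℝ) := by positivity
  rw [a5]
  linarith
end Pool.Agent.PERC29.GU
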