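import Pool.Agent.Lib.MP_29e17e_pr.G.Rv

set_option autoImplicit false
set_option linter.unusedSectionVars false

/-! Rows 29g-F1, F2: the one-arm bound. -/

open Finset

namespace Pool.Agent.PERC29.GU

open Pool.Agent.PERC29 Pool.Agent.PERC29.AE Pool.Agent.PERC29.QQ

variable {d : ℕ}

open scoped Classical in
private lemma F1_deg {l : ℕ} (z : Fin d → Fin l) :
    ∑ x : Fin d → Fin l, (if (boxG d l).Adj z x then (1 : ℝ) else 0) ≤ 2 * d := by
  have h1 : ∀ x : {x // (boxG d l).Adj z x}, ∃ q : Fin d × Bool,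
      ((q.2 = true ∧ (x.1 q.1 : ℕ) + 1 = z q.1) ∨ (q.2 = false ∧ (z q.1 : ℕ) + 1 = x.1 q.1)) ∧
        ∀ j, j ≠ q.1 → x.1 j = z j := by
    rintro ⟨x, i, h | h, hj⟩
    · exact ⟨(i, false), Or.inr ⟨rfl, h⟩, fun j hji => (hj j hji).symm⟩
    · exact ⟨(i, true), Or.inl ⟨rfl, h⟩, fun j hji => (hj j hji).symm⟩
  choose f hf using h1
  have hinj : Function.Injective f := by
    intro x y hxy
    have hx := hf x
    have hy := hf y
    rw [← hxy] at hy
    apply Subtype.ext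
    funext j
    by_cases hj : j = (f x).1
    · subst hj
      apply Fin.ext
      rcases hx.1 with a | a
      · rcases hy.1 with b | b
        · have := a.2
          have := b.2
          omega
        · have hc := a.1
          rw [b.1] at hc
          exact absurd hc (by decide)
      · rcases hy.1 with b | b
        · have hc := b.1
          rw [a.1] at hc
          exact absurd hc (by decide)
        · have := a.2
          have := b.2
          omega
    · rw [hx.2 j hj, hy.2 j hj]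
  have h2 := Fintype.card_le_of_injective f hinj
  rw [Fintype.card_subtype, Fintype.card_prod, Fintype.card_fin, Fintype.card_bool] at h2
  rw [Finset.sum_boole]
  have h3 : (((Finset.univ.filter (fun x => (boxG d l).Adj z x)).card : ℕ) : ℝ) ≤ ((d * 2 : ℕ) : ℝ) := by
    exact_mod_cast h2
  rw [Nat.cast_mul, Nat.cast_ofNat] at h3
  linarith

private lemma F1_nd {l : ℕ} {u v : Fin d → Fin l} (h : (boxG d l).Adj u v) : nd u v ≤ 1 := by
  obtain ⟨i, hi, hj⟩ := h
  unfold nd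
  refine Finset.sup_le fun k _ => ?_
  by_cases hk : k = i
  · subst hk
    omega
  · rw [hj k hk]
    omega

private lemma F1_co {l : ℕ} (x y : Fin d → Fin l) (i : Fin d) :
    ((x i : ℕ) - (y i : ℕ)) + ((y i : ℕ) - (x i : ℕ)) ≤ nd x y :=
  Finset.le_sup (f := fun i => ((x i : ℕ) - (y i : ℕ)) + ((y i : ℕ) - (x i : ℕ)))
    (Finset.mem_univ i)

private lemma F1_self {l : ℕ} (x : Fin d → Fin l) : nd x x = 0 := by
  unfold nd
  refine Nat.le_zero.1 (Finset.sup_le fun k _ => ?_)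
  omega

private lemma F1_adj {l : ℕ} {u w : Fin d → Fin l} (h : ∃ e, gends (boxG d l) e = s(u, w)) : (boxG d l).Adj u w := by
  obtain ⟨e, he⟩ := h
  have h1 := e.2
  have h2 : (e : Sym2 (Fin d → Fin l)) = s(u, w) := he
  rw [h2] at h1
  exact (SimpleGraph.mem_edgeSet _).1 h1

private lemma F1_bdy {N : ℕ} {y : Fin d → Fin (2 * N + 1)} (hy : y ∈ bdy d (2 * N + 1)) : N ≤ nd (ctr d N) y := by
  obtain ⟨i, hi⟩ := (Finset.mem_filter.1 hy).2
  have h1 := F1_co (ctr d N) y i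
  have h2 : ((ctr d N) i : ℕ) = N := rfl
  omega

private lemma F1_hs (p : ℝ) (N : ℕ) : aM d N p = hs (gends (boxG d (2 * N + 1))) Set.univ p (ctr d N) (bdy d (2 * N + 1)) := by
  classical
  unfold aM hs
  refine Ex_congr fun ω => ?_
  have h : arm d N ω ↔ ∃ y ∈ bdy d (2 * N + 1), y ∈ cl (gends (boxG d (2 * N + 1))) ω Set.univ (ctr d N) := by
    unfold arm cu
    rw [Finset.not_disjoint_iff]
    exact ⟨fun ⟨a, h1, h2⟩ => ⟨a, h2, h1⟩, fun ⟨a, h1, h2⟩ => ⟨a, h2, h1⟩⟩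
  by_cases h1 : arm d N ω
  · rw [if_pos h1, if_pos (h.1 h1)]
  · rw [if_neg h1, if_neg (fun h2 => h1 (h.2 h2))]

private lemma F1_out {N n : ℕ} (hn : n + 1 ≤ N) {w : Fin d → Fin (2 * N + 1)} (hw : nd (ctr d N) w ≤ n + 1) :
    In w (N - n - 1) ∧ ∀ y ∈ bdy d (2 * N + 1), N - n - 1 ≤ nd w y := by
  constructor
  · intro i
    have h1 := F1_co (ctr d N) w i
    have h2 : ((ctr d N) i : ℕ) = N := rfl
    omega
  · intro y hy
    have h1 := F1_bdy hy
    have h2 := nd_tri (ctr d N) w y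
    omega

private lemma F1_in {N n : ℕ} (hn : n + 1 ≤ N) : In (ctr d N) n := by
  intro i
  have h2 : ((ctr d N) i : ℕ) = N := rfl
  omega

/-- Row F1. `aM d N p = hs ends univ p ctr (bdy d (2N+1))`. `simon` in the box of side `2 N + 1` with `S = Qs ctr n`: the neighbours `w ∉ S` of `u ∈ S` have `nd ctr w = n + 1` and `u ∈ Sp ctr n`, at most `2 d` for each `u`; every vertex of the boundary has distance `≥ N - n - 1` from `w`: `arm_loc`. `be_eq`. -/
theorem arm_rec (hd : 1 ≤ d) {p : ℝ} (h0 : 0 ≤ p) (h1 : p ≤ 1) (N n : ℕ) (hn : n + 1 ≤ N) : aM d N p ≤ 2 * d * be d n p * aM d (N - n - 1) p := by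
  classical
  have hR : 0 ≤ aM d (N - n - 1) p := by
    rw [F1_hs]
    exact hs_nonneg h0 h1 _ _ _
  have hs1 := simon (ends := gends (boxG d (2 * N + 1))) h0 h1 (Qs (ctr d N) n) (ctr d N)
    (show nd (ctr d N) (ctr d N) ≤ n by rw [F1_self]; exact Nat.zero_le n) (bdy d (2 * N + 1))
    (fun y hy hq => by
      have h2 := F1_bdy hy
      have h3 : nd (ctr d N) y ≤ n := hq
      omega)
  rw [← F1_hs] at hs1
  refine hs1.trans ?_
  have hu : ∀ u : Fin d → Fin (2 * N + 1), (∑ w, (if u ∈ Qs (ctr d N) n ∧ w ∉ Qs (ctr d N) n ∧ ∃ e, gends (boxG d (2 * N + 1)) e = s(u, w) then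
      rs (gends (boxG d (2 * N + 1))) (Qs (ctr d N) n) p (ctr d N) u * hs (gends (boxG d (2 * N + 1))) Set.univ p w (bdy d (2 * N + 1)) else 0)) ≤
      if u ∈ Sp (ctr d N) n then rs (gends (boxG d (2 * N + 1))) (Qs (ctr d N) n) p (ctr d N) u * (2 * d * aM d (N - n - 1) p) else 0 := by
    intro u
    have hrs := rs_nonneg (ends := gends (boxG d (2 * N + 1))) h0 h1 (Qs (ctr d N) n) (ctr d N) u
    have key : ∀ w, (u ∈ Qs (ctr d N) n ∧ w ∉ Qs (ctr d N) n ∧ ∃ e, gends (boxG d (2 * N + 1)) e = s(u, w)) →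
        (boxG d (2 * N + 1)).Adj u w ∧ nd (ctr d N) u = n ∧ nd (ctr d N) w = n + 1 := by
      rintro w ⟨ha, hb, hc⟩
      have hadj := F1_adj hc
      have h2 := F1_nd hadj
      have h3 := nd_tri (ctr d N) u w
      have h4 : nd (ctr d N) u ≤ n := ha
      have h5 : ¬ nd (ctr d N) w ≤ n := hb
      exact ⟨hadj, by omega, by omega⟩
    by_cases hup : u ∈ Sp (ctr d N) n
    · rw [if_pos hup]
      calc (∑ w, (if u ∈ Qs (ctr d N) n ∧ w ∉ Qs (ctr d N) n ∧ ∃ e, gends (boxG d (2 * N + 1)) e = s(u, w) then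
          rs (gends (boxG d (2 * N + 1))) (Qs (ctr d N) n) p (ctr d N) u * hs (gends (boxG d (2 * N + 1))) Set.univ p w (bdy d (2 * N + 1)) else 0))
          ≤ ∑ w, (rs (gends (boxG d (2 * N + 1))) (Qs (ctr d N) n) p (ctr d N) u * aM d (N - n - 1) p) * (if (boxG d (2 * N + 1)).Adj u w then (1 : ℝ) else 0) := by
            refine Finset.sum_le_sum fun w _ => ?_
            by_cases hc : u ∈ Qs (ctr d N) n ∧ w ∉ Qs (ctr d N) n ∧ ∃ e, gends (boxG d (2 * N + 1)) e = s(u, w)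
            · obtain ⟨k1, k2, k3⟩ := key w hc
              rw [if_pos hc, if_pos k1, mul_one]
              obtain ⟨m1, m2⟩ := F1_out hn (le_of_eq k3)
              exact mul_le_mul_of_nonneg_left (arm_loc hd h0 h1 Set.univ w (N - n - 1) m1 _ m2) hrs
            · rw [if_neg hc]
              refine mul_nonneg (mul_nonneg hrs hR) ?_
              split_ifs <;> norm_num
        _ = (rs (gends (boxG d (2 * N + 1))) (Qs (ctr d N) n) p (ctr d N) u * aM d (N - n - 1) p) * ∑ w, (if (boxG d (2 * N + 1)).Adj u w then (1 : ℝ) else 0) := by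
            rw [Finset.mul_sum]
        _ ≤ (rs (gends (boxG d (2 * N + 1))) (Qs (ctr d N) n) p (ctr d N) u * aM d (N - n - 1) p) * (2 * d) :=
            mul_le_mul_of_nonneg_left (F1_deg u) (mul_nonneg hrs hR)
        _ = rs (gends (boxG d (2 * N + 1))) (Qs (ctr d N) n) p (ctr d N) u * (2 * d * aM d (N - n - 1) p) := by ring
    · rw [if_neg hup]
      refine le_of_eq (Finset.sum_eq_zero fun w _ => ?_)
      refine if_neg fun hc => hup ?_
      exact Finset.mem_filter.2 ⟨Finset.mem_univ _, (key w hc).2.1⟩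
  refine (Finset.sum_le_sum fun u _ => hu u).trans ?_
  rw [← Finset.sum_filter, Finset.filter_mem_eq_inter, Finset.univ_inter, ← Finset.sum_mul, be_eq (F1_in hn)]
  exact le_of_eq (by ring)

private lemma F1_mono {E : Type*} [Fintype E] [DecidableEq E] {p p' : ℝ} (h0 : 0 ≤ p) (hpp : p ≤ p') (h1 : p' ≤ 1) (f : (E → Bool) → ℝ)
    (hf : ∀ ω ω' : E → Bool, (∀ e, ω e = true → ω' e = true) → f ω ≤ f ω') : Ex p f ≤ Ex p' f := by
  rcases eq_or_lt_of_le (hpp.trans h1) with hp | hp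
  · have : p' = p := le_antisymm (by rw [hp]; exact h1) hpp
    rw [this]
  · have hq : 0 < 1 - p := by linarith
    have hs0 : 0 ≤ (p' - p) / (1 - p) := div_nonneg (by linarith) hq.le
    have hs1 : (p' - p) / (1 - p) ≤ 1 := by
      rw [div_le_one hq]
      linarith
    have he : p' = 1 - (1 - p) * (1 - (p' - p) / (1 - p)) := by
      field_simp
      ring
    rw [he, Ex_orc]
    refine Ex_mono h0 hp.le fun ω => ?_
    calc f ω = Ex ((p' - p) / (1 - p)) (fun _ : E → Bool => f ω) := (Ex_const _ _).symm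
      _ ≤ Ex ((p' - p) / (1 - p)) (fun ω' => f (orc ω ω')) := by
        refine Ex_mono hs0 hs1 fun ω' => hf _ _ fun e h => ?_
        simp [orc, h]

/-- Row F1. -/
theorem aM_mono_p {p q : ℝ} (h0 : 0 ≤ p) (hpq : p ≤ q) (h1 : q ≤ 1) (N : ℕ) : aM d N p ≤ aM d N q := by
  classical
  unfold aM
  have key : ∀ ω ω' : (boxG d (2 * N + 1)).edgeSet → Bool, (∀ e, ω e = true → ω' e = true) →
      (if arm d N ω then (1 : ℝ) else 0) ≤ if arm d N ω' then (1 : ℝ) else 0 := by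
    intro ω ω' h
    by_cases ha : arm d N ω
    · have hb : arm d N ω' := by
        unfold arm at ha ⊢
        rw [Finset.not_disjoint_iff] at ha ⊢
        obtain ⟨a, h2, h3⟩ := ha
        exact ⟨a, mem_cu.2 ((mem_cu.1 h2).mono h (Set.subset_univ _)), h3⟩
      rw [if_pos ha, if_pos hb]
    · rw [if_neg ha]
      split_ifs <;> norm_num
  exact F1_mono h0 hpq h1 _ key

private lemma F2_le_one {p : ℝ} (h0 : 0 ≤ p) (h1 : p ≤ 1) (N : ℕ) : aM d N p ≤ 1 := by
  unfold aM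
  refine (Ex_mono h0 h1 (g := fun _ => (1 : ℝ)) fun ω => ?_).trans (le_of_eq (Ex_const p 1))
  split_ifs
  · exact le_rfl
  · norm_num

private lemma F2_nonneg {p : ℝ} (h0 : 0 ≤ p) (h1 : p ≤ 1) (N : ℕ) : 0 ≤ aM d N p := by
  unfold aM
  refine Ex_nonneg h0 h1 fun ω => ?_
  split_ifs
  · norm_num
  · exact le_rfl

/-- Let `n = N/2` (rounded down) and `s = κ/n²` with `κ` from `be_sub` for `δ = 1/(64 d)`. For large `N`: `aM N pc ≤ 2 aM N (pc - s) + K s² N²` (`arm_ent`), `aM N (pc - s) ≤ 2 d δ aM (N - n - 1) pc` (`arm_rec`, `aM_mono_p`),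
`N - n - 1 ≥ 3 N / 8`; strong induction gives `aM N pc ≤ M/N²` with `M` large. -/
theorem arm_fin (C c pc b α : ℝ) (h : GH d C c pc) (g : GB d b α pc) : ∃ K : ℝ, 1 ≤ K ∧ ∀ N : ℕ, 1 ≤ N → aM d N pc ≤ K / (N : ℝ) ^ 2 := by
  have hd1 : 1 ≤ d := by
    have := h.d9
    omega
  have hd0 : (0 : ℝ) < d := by exact_mod_cast hd1
  have hc0 := h.c0
  have hcp := h.cp
  have hp1 := h.p1
  have hpc0 : 0 ≤ pc := by linarith
  obtain ⟨K1, hK1, hent⟩ := arm_ent d C c pc h
  obtain ⟨κ, n1, hκ, hn1, hbe⟩ := be_sub C c pc b α h g (1 / (64 * d)) (by positivity)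
  obtain ⟨n2, hn2⟩ := exists_nat_ge (κ / c)
  obtain ⟨N0, hN0⟩ : ∃ N0 : ℕ, N0 = 2 * n1 + 2 * n2 + 8 := ⟨_, rfl⟩
  obtain ⟨M, hM⟩ : ∃ M : ℝ, M = (N0 : ℝ) ^ 2 + 146 * K1 * κ ^ 2 := ⟨_, rfl⟩
  have hN0r : (8 : ℝ) ≤ N0 := by exact_mod_cast (by omega : 8 ≤ N0)
  have hA : 0 ≤ 146 * K1 * κ ^ 2 := by positivity
  refine ⟨M, ?_, ?_⟩
  · rw [hM]
    have h1 : (1 : ℝ) ≤ (N0 : ℝ) ^ 2 := one_le_pow₀ (by linarith)
    linarith
  intro N
  induction N using Nat.strong_induction_on with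
  | _ N ih =>
    intro hN
    have hNr : (0 : ℝ) < N := by exact_mod_cast hN
    by_cases hsm : N < N0
    · refine (F2_le_one hpc0 hp1.le N).trans ?_
      rw [le_div_iff₀ (by positivity), one_mul, hM]
      have h1 : (N : ℝ) ≤ N0 := by exact_mod_cast hsm.le
      have h2 : (N : ℝ) ^ 2 ≤ (N0 : ℝ) ^ 2 := pow_le_pow_left₀ hNr.le h1 2
      linarith
    · obtain ⟨n, hn⟩ : ∃ n : ℕ, n = N / 2 := ⟨_, rfl⟩
      have hnn1 : n1 ≤ n := by omega
      have hnn2 : n2 ≤ n := by omega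
      have hn0 : 1 ≤ n := by omega
      have hnr : (1 : ℝ) ≤ n := by exact_mod_cast hn0
      have hnr0 : (0 : ℝ) < n := by linarith
      obtain ⟨s, hs⟩ : ∃ s : ℝ, s = κ / (n : ℝ) ^ 2 := ⟨_, rfl⟩
      have hs0 : 0 ≤ s := by
        rw [hs]
        positivity
      have hsc : s ≤ c := by
        rw [hs, div_le_iff₀ (by positivity)]
        have h1 : κ ≤ (n2 : ℝ) * c := (div_le_iff₀ hc0).1 hn2
        have h2 : (n2 : ℝ) ≤ n := by exact_mod_cast hnn2
        have h3 : (n : ℝ) ≤ (n : ℝ) ^ 2 := le_self_pow₀ hnr two_ne_zero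
        have h4 : (n2 : ℝ) * c ≤ (n : ℝ) ^ 2 * c := mul_le_mul_of_nonneg_right (h2.trans h3) hc0.le
        linarith
      have hps0 : 0 ≤ pc - s := by linarith
      have hps1 : pc - s ≤ 1 := by linarith
      have e1 := hent N s hN hs0 hsc
      have e2 : be d n (pc - s) ≤ 1 / (64 * d) := by
        rw [hs]
        exact hbe n hnn1
      obtain ⟨m, hm⟩ : ∃ m : ℕ, m = N - n - 1 := ⟨_, rfl⟩
      have e3 : aM d N (pc - s) ≤ 2 * d * be d n (pc - s) * aM d m (pc - s) := by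
        rw [hm]
        exact arm_rec hd1 hps0 hps1 N n (by omega)
      have e4 : aM d m (pc - s) ≤ aM d m pc := aM_mono_p hps0 (by linarith) hp1.le m
      have e5 := ih m (by omega) (by omega)
      have e6 : 0 ≤ aM d m (pc - s) := F2_nonneg hps0 hps1 m
      have e7 : 2 * d * be d n (pc - s) ≤ 1 / 32 := by
        calc 2 * d * be d n (pc - s) ≤ 2 * d * (1 / (64 * d)) :=
              mul_le_mul_of_nonneg_left e2 (by positivity)
          _ = 1 / 32 := by
              field_simp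
              norm_num
      have e8 : aM d N (pc - s) ≤ 1 / 32 * aM d m pc :=
        e3.trans ((mul_le_mul_of_nonneg_right e7 e6).trans
          (mul_le_mul_of_nonneg_left e4 (by norm_num)))
      have hm8 : 3 * N ≤ 8 * m := by omega
      have hm8r : 3 * (N : ℝ) ≤ 8 * m := by exact_mod_cast hm8
      have hm0 : (0 : ℝ) < m := by linarith
      have hM0 : 0 ≤ M := by
        rw [hM]
        positivity
      have e9 : M / (m : ℝ) ^ 2 ≤ M * (64 / 9) / (N : ℝ) ^ 2 := by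
        rw [div_le_div_iff₀ (by positivity) (by positivity)]
        have h1 : 9 * (N : ℝ) ^ 2 ≤ 64 * (m : ℝ) ^ 2 := by
          calc 9 * (N : ℝ) ^ 2 = (3 * (N : ℝ)) ^ 2 := by ring
            _ ≤ (8 * (m : ℝ)) ^ 2 := pow_le_pow_left₀ (by positivity) hm8r 2
            _ = 64 * (m : ℝ) ^ 2 := by ring
        have h2 : M * (9 * (N : ℝ) ^ 2) ≤ M * (64 * (m : ℝ) ^ 2) := mul_le_mul_of_nonneg_left h1 hM0
        linarith
      have hn3 : N ≤ 3 * n := by omega
      have hn3r : (N : ℝ) ≤ 3 * n := by exact_mod_cast hn3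
      have e10 : s ^ 2 * (N : ℝ) ^ 2 ≤ 81 * κ ^ 2 / (N : ℝ) ^ 2 := by
        rw [hs, le_div_iff₀ (by positivity)]
        have h1 : (N : ℝ) ^ 4 ≤ 81 * (n : ℝ) ^ 4 := by
          calc (N : ℝ) ^ 4 ≤ (3 * (n : ℝ)) ^ 4 := pow_le_pow_left₀ hNr.le hn3r 4
            _ = 81 * (n : ℝ) ^ 4 := by ring
        calc (κ / (n : ℝ) ^ 2) ^ 2 * (N : ℝ) ^ 2 * (N : ℝ) ^ 2 = κ ^ 2 / (n : ℝ) ^ 4 * (N : ℝ) ^ 4 := by
              field_simp
          _ ≤ κ ^ 2 / (n : ℝ) ^ 4 * (81 * (n : ℝ) ^ 4) := mul_le_mul_of_nonneg_left h1 (by positivity)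
          _ = 81 * κ ^ 2 := by field_simp
      have e11 : K1 * s ^ 2 * (N : ℝ) ^ 2 ≤ K1 * (81 * κ ^ 2 / (N : ℝ) ^ 2) := by
        rw [mul_assoc]
        exact mul_le_mul_of_nonneg_left e10 (by linarith)
      have e12 : aM d N pc ≤ 1 / 16 * (M * (64 / 9) / (N : ℝ) ^ 2) + K1 * (81 * κ ^ 2 / (N : ℝ) ^ 2) := by
        linarith
      refine e12.trans ?_
      rw [le_div_iff₀ (by positivity)]
      have e13 : (1 / 16 * (M * (64 / 9) / (N : ℝ) ^ 2) + K1 * (81 * κ ^ 2 / (N : ℝ) ^ 2)) * (N : ℝ) ^ 2 =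
          4 / 9 * M + 81 * (K1 * κ ^ 2) := by
        field_simp
        ring
      rw [e13, hM]
      have hB := sq_nonneg (N0 : ℝ)
      linarith
end Pool.Agent.PERC29.GU
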