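import Pool.Agent.Lib.MP_29e17e_pr.G.Nu
import Pool.Agent.Lib.MP_29e17e_pr.G.Dg

set_option autoImplicit false
set_option linter.unusedSectionVars false

/-! Rows 29g-N5 .. N9: from the lower bound `LP` to all pairs of the bulk. -/

open Finset

namespace Pool.Agent.PERC29.GU

open Pool.Agent.PERC29 Pool.Agent.PERC29.AE Pool.Agent.PERC29.QQ Pool.Agent.PERC29.DZ

variable {d : ℕ}

private lemma N5_nonneg (k : ℕ) {l : ℕ} (u v : Fin d → Fin l) : 0 ≤ fk k u v := by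
  unfold fk
  positivity

private lemma N5_le (k : ℕ) {l : ℕ} (u v : Fin d → Fin l) {D : ℕ} (hD : 1 ≤ D) (h : D ≤ 16 * (1 + nd u v)) :
    fk k u v ≤ (16 : ℝ) ^ k / (D : ℝ) ^ k := by
  have hD0 : (0 : ℝ) < D := by exact_mod_cast hD
  unfold fk
  rw [div_le_div_iff₀ (by positivity) (by positivity), one_mul, ← mul_pow]
  refine pow_le_pow_left₀ hD0.le ?_ k
  exact_mod_cast h

private lemma N5_img (hd : 2 ≤ d) {l : ℕ} (W : Finset (Fin d → Fin l)) (sh : (Fin d → Fin l) → (Fin d → Fin l))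
    (hW : Set.InjOn sh W) (w : Fin d → Fin l) :
    ∑ a ∈ W, fk (d - 2) w (sh a) ≤ (d * 2 ^ d : ℝ) * (l : ℝ) ^ 2 := by
  classical
  rw [← Finset.sum_image (f := fun u => fk (d - 2) w u) (g := sh) hW]
  refine le_trans ?_ (sum_f hd w)
  exact Finset.sum_le_sum_of_subset_of_nonneg (Finset.subset_univ _) fun u _ _ => N5_nonneg _ _ _

private lemma N5_shift (hd : 9 ≤ d) {l : ℕ} (W : Finset (Fin d → Fin l)) (sh : (Fin d → Fin l) → (Fin d → Fin l))
    (hW : Set.InjOn sh W) (r : ℕ) (hr : ∀ a ∈ W, nd a (sh a) = r) (w : Fin d → Fin l) :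
    ∑ a ∈ W, fk (d - 2) w (sh a) * fk (d - 4) w a ≤ (d * 2 ^ d : ℝ) * (6 / Real.sqrt ((r : ℝ) + 1)) := by
  classical
  have : Nonempty (Fin d → Fin l) := ⟨w⟩
  set g := Function.invFunOn sh (W : Set (Fin d → Fin l)) with hg
  have hgl : ∀ a ∈ W, g (sh a) = a := fun a ha => hW.leftInvOn_invFunOn (Finset.mem_coe.2 ha)
  have h := shift_f hd w (W.image sh) g (by
    intro u hu v hv huv
    obtain ⟨a, ha, rfl⟩ := Finset.mem_image.1 (Finset.mem_coe.1 hu)
    obtain ⟨b, hb, rfl⟩ := Finset.mem_image.1 (Finset.mem_coe.1 hv)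
    rw [hgl a ha, hgl b hb] at huv
    rw [huv]) r (by
    intro u hu
    obtain ⟨a, ha, rfl⟩ := Finset.mem_image.1 hu
    rw [hgl a ha, nd_symm, hr a ha])
  rw [Finset.sum_image hW] at h
  refine le_trans (le_of_eq ?_) h
  refine Finset.sum_congr rfl fun a ha => ?_
  rw [hgl a ha]

/-- Row N5. Write `f = fk (d-2)`, `D = nd x y`, `H z w = f z w * ∑_{a ∈ W} f z a * f w (sh a)`; the left side is `∑_{z,w} f x z * f y w * H z w`. (1) `∑_w H z w ≤ C4 ∑_{a ∈ W} f z a * fk (d-4) z (sh a) ≤ K/√r` (`conv_f` for the sum over `w`, `shift_f`), and `∑_z H z w ≤ K/√r` in the same way (with `W.image sh` and the inverse map in `shift_f`).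
(2) If `4 nd z w ≤ D` then `nd x z ≥ 3D/8` or `nd y w ≥ 3D/8`; in the first case `f x z ≤ K/D^(d-2)`, sum over `z` of `H`, then `∑_w f y w ≤ K l²` (`sum_f`): total `K l²/D^(d-2)/√r`; the second case in the same way. (3) If `4 nd z w > D`: `f z w ≤ K/D^(d-2)` and for every `a`: `nd z a + nd w (sh a) ≥ D/4 - r ≥ 3D/16`, so
one of the factors `f z a`, `f w (sh a)` is at most `K/D^(d-2)` and the sum over `a` of the other one is at most `K l²` (`sum_f`, injectivity): `H z w ≤ K l²/D^(2(d-2))`, and `∑_{z,w} f x z * f y w ≤ K l⁴`. -/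
theorem err_box (d : ℕ) (hd : 9 ≤ d) : ∃ K : ℝ, 1 ≤ K ∧ ∀ (l r : ℕ) (W : Finset (Fin d → Fin l)) (sh : (Fin d → Fin l) → (Fin d → Fin l)) (x y : Fin d → Fin l),
    Set.InjOn sh W → (∀ a ∈ W, nd a (sh a) = r) → 1 ≤ r → 16 * r ≤ nd x y →
    ∑ a ∈ W, ∑ z, ∑ w, fk (d - 2) x z * fk (d - 2) z a * fk (d - 2) z w * fk (d - 2) y w * fk (d - 2) w (sh a) ≤
      K * ((l : ℝ) ^ 2 / (nd x y : ℝ) ^ (d - 2) / Real.sqrt r + (l : ℝ) ^ 6 / (nd x y : ℝ) ^ (2 * d - 4)) := by
  classical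
  set K1 : ℝ := (d * 2 ^ d : ℝ) with hK1
  have hK1n : 0 ≤ K1 := by positivity
  have hC4 : 0 ≤ C4 d := by
    unfold C4
    positivity
  set c : ℝ := (16 : ℝ) ^ (d - 2) with hc
  have hc0 : 0 ≤ c := by positivity
  set K2 : ℝ := C4 d * (K1 * 6) with hK2
  have hK2n : 0 ≤ K2 := by positivity
  refine ⟨2 * c * K1 * K2 + 2 * c ^ 2 * K1 ^ 3 + 1, by
    have : 0 ≤ 2 * c * K1 * K2 := by positivity
    have : 0 ≤ 2 * c ^ 2 * K1 ^ 3 := by positivity
    linarith, ?_⟩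
  intro l r W sh x y hW hr hr1 hD
  set D : ℕ := nd x y with hDdef
  have hD1 : 1 ≤ D := by omega
  have hD0 : (0 : ℝ) < D := by exact_mod_cast hD1
  have hr0 : (0 : ℝ) < r := by exact_mod_cast hr1
  have hsr : 0 < Real.sqrt r := Real.sqrt_pos.2 hr0
  have hsr1 : 6 / Real.sqrt ((r : ℝ) + 1) ≤ 6 / Real.sqrt r := by
    refine div_le_div_of_nonneg_left (by norm_num) hsr ?_
    exact Real.sqrt_le_sqrt (by linarith)
  have hl2 : (0 : ℝ) ≤ (l : ℝ) ^ 2 := by positivity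
  -- the functions
  set f : (Fin d → Fin l) → (Fin d → Fin l) → ℝ := fk (d - 2) with hf
  have f0 : ∀ u v, 0 ≤ f u v := fun u v => N5_nonneg _ _ _
  have fs : ∀ u v, f u v = f v u := by
    intro u v
    simp only [hf, fk, nd_symm u v]
  set h : (Fin d → Fin l) → (Fin d → Fin l) → ℝ := fun z w => ∑ a ∈ W, f z a * f w (sh a) with hh
  have h0 : ∀ z w, 0 ≤ h z w := fun z w => Finset.sum_nonneg fun a _ => mul_nonneg (f0 _ _) (f0 _ _)
  set H : (Fin d → Fin l) → (Fin d → Fin l) → ℝ := fun z w => f z w * h z w with hH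
  have H0 : ∀ z w, 0 ≤ H z w := fun z w => mul_nonneg (f0 _ _) (h0 _ _)
  have hL : ∑ a ∈ W, ∑ z, ∑ w, f x z * f z a * f z w * f y w * f w (sh a) = ∑ z, ∑ w, f x z * f y w * H z w := by
    rw [Finset.sum_comm]
    refine Finset.sum_congr rfl fun z _ => ?_
    rw [Finset.sum_comm]
    refine Finset.sum_congr rfl fun w _ => ?_
    simp only [hH, hh, Finset.mul_sum]
    refine Finset.sum_congr rfl fun a _ => ?_
    ring
  rw [hL]
  -- (1)
  have hrow : ∀ z, ∑ w, H z w ≤ K2 / Real.sqrt r := by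
    intro z
    have e : ∑ w, H z w = ∑ a ∈ W, f z a * ∑ w, f z w * f w (sh a) := by
      simp only [hH, hh, Finset.mul_sum]
      rw [Finset.sum_comm]
      refine Finset.sum_congr rfl fun a _ => Finset.sum_congr rfl fun w _ => ?_
      ring
    rw [e]
    calc ∑ a ∈ W, f z a * ∑ w, f z w * f w (sh a) ≤ ∑ a ∈ W, f z a * (C4 d * fk (d - 4) z (sh a)) :=
          Finset.sum_le_sum fun a _ => mul_le_mul_of_nonneg_left (conv_f (by omega) z (sh a)) (f0 _ _)
      _ = C4 d * ∑ a ∈ W, fk (d - 2) z a * fk (d - 4) z (sh a) := by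
          rw [Finset.mul_sum]
          refine Finset.sum_congr rfl fun a _ => ?_
          simp only [hf]
          ring
      _ ≤ C4 d * (K1 * (6 / Real.sqrt ((r : ℝ) + 1))) := mul_le_mul_of_nonneg_left (shift_f hd z W sh hW r hr) hC4
      _ ≤ C4 d * (K1 * (6 / Real.sqrt r)) :=
          mul_le_mul_of_nonneg_left (mul_le_mul_of_nonneg_left hsr1 hK1n) hC4
      _ = K2 / Real.sqrt r := by
          rw [hK2]
          ring
  have hcol : ∀ w, ∑ z, H z w ≤ K2 / Real.sqrt r := by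
    intro w
    have e : ∑ z, H z w = ∑ a ∈ W, f w (sh a) * ∑ z, f w z * f z a := by
      simp only [hH, hh, Finset.mul_sum]
      rw [Finset.sum_comm]
      refine Finset.sum_congr rfl fun a _ => Finset.sum_congr rfl fun z _ => ?_
      rw [fs w z]
      ring
    rw [e]
    calc ∑ a ∈ W, f w (sh a) * ∑ z, f w z * f z a ≤ ∑ a ∈ W, f w (sh a) * (C4 d * fk (d - 4) w a) :=
          Finset.sum_le_sum fun a _ => mul_le_mul_of_nonneg_left (conv_f (by omega) w a) (f0 _ _)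
      _ = C4 d * ∑ a ∈ W, fk (d - 2) w (sh a) * fk (d - 4) w a := by
          rw [Finset.mul_sum]
          refine Finset.sum_congr rfl fun a _ => ?_
          simp only [hf]
          ring
      _ ≤ C4 d * (K1 * (6 / Real.sqrt ((r : ℝ) + 1))) := mul_le_mul_of_nonneg_left (N5_shift hd W sh hW r hr w) hC4
      _ ≤ C4 d * (K1 * (6 / Real.sqrt r)) :=
          mul_le_mul_of_nonneg_left (mul_le_mul_of_nonneg_left hsr1 hK1n) hC4
      _ = K2 / Real.sqrt r := by
          rw [hK2]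
          ring
  have hsx : ∑ z, f x z ≤ K1 * (l : ℝ) ^ 2 := sum_f (by omega) x
  have hsy : ∑ w, f y w ≤ K1 * (l : ℝ) ^ 2 := sum_f (by omega) y
  set E : ℝ := c / (D : ℝ) ^ (d - 2) with hE
  have hE0 : 0 ≤ E := by positivity
  have fle : ∀ u v : Fin d → Fin l, D ≤ 16 * (1 + nd u v) → f u v ≤ E := fun u v huv => N5_le (d - 2) u v hD1 huv
  set G : ℝ := E * (E * (K1 * (l : ℝ) ^ 2 + K1 * (l : ℝ) ^ 2)) with hG
  have hG0 : 0 ≤ G := by positivity
  -- (2), (3)
  have hpt : ∀ z w : Fin d → Fin l, f x z * f y w * H z w ≤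
      E * (f y w * H z w) + E * (f x z * H z w) + f x z * f y w * G := by
    intro z w
    have t1 := nd_tri x z y
    have t2 := nd_tri z w y
    have s1 := nd_symm w y
    have hfx := f0 x z
    have hfy := f0 y w
    have hHn := H0 z w
    have p1 : 0 ≤ E * (f y w * H z w) := by positivity
    have p2 : 0 ≤ E * (f x z * H z w) := by positivity
    have p3 : 0 ≤ f x z * f y w * G := by positivity
    by_cases c3 : D < 4 * nd z w
    · have hh' : h z w ≤ E * (K1 * (l : ℝ) ^ 2 + K1 * (l : ℝ) ^ 2) := by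
        calc h z w ≤ ∑ a ∈ W, E * (f z a + f w (sh a)) := by
              refine Finset.sum_le_sum fun a ha => ?_
              have t3 := nd_tri z a w
              have t4 := nd_tri a (sh a) w
              have s2 := nd_symm (sh a) w
              have s3 := hr a ha
              have q1 := f0 z a
              have q2 := f0 w (sh a)
              by_cases c4 : D ≤ 16 * (1 + nd z a)
              · have := mul_le_mul_of_nonneg_right (fle z a c4) q2
                have := mul_nonneg hE0 q1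
                nlinarith
              · have c5 : D ≤ 16 * (1 + nd w (sh a)) := by omega
                have := mul_le_mul_of_nonneg_left (fle w (sh a) c5) q1
                have := mul_nonneg hE0 q2
                nlinarith
          _ = E * (∑ a ∈ W, f z a + ∑ a ∈ W, f w (sh a)) := by
              rw [← Finset.mul_sum, Finset.sum_add_distrib]
          _ ≤ E * (K1 * (l : ℝ) ^ 2 + K1 * (l : ℝ) ^ 2) := by
              refine mul_le_mul_of_nonneg_left (add_le_add ?_ ?_) hE0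
              · refine le_trans ?_ (sum_f (by omega : 2 ≤ d) z)
                exact Finset.sum_le_sum_of_subset_of_nonneg (Finset.subset_univ _) fun u _ _ => f0 _ _
              · exact N5_img (by omega) W sh hW w
      have hHG : H z w ≤ G := by
        have hzw : f z w ≤ E := fle z w (by omega)
        exact mul_le_mul hzw hh' (h0 z w) hE0
      have := mul_le_mul_of_nonneg_left hHG (mul_nonneg hfx hfy)
      linarith
    · by_cases c1 : D ≤ 16 * (1 + nd x z)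
      · have := mul_le_mul_of_nonneg_right (fle x z c1) (mul_nonneg hfy hHn)
        have e : f x z * f y w * H z w = f x z * (f y w * H z w) := by ring
        rw [e]
        linarith
      · have c2 : D ≤ 16 * (1 + nd y w) := by omega
        have := mul_le_mul_of_nonneg_right (fle y w c2) (mul_nonneg hfx hHn)
        have e : f x z * f y w * H z w = f y w * (f x z * H z w) := by ring
        rw [e]
        linarith
  have hK2r : 0 ≤ K2 / Real.sqrt r := by positivity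
  have hA : ∑ z, ∑ w, E * (f y w * H z w) ≤ E * (K1 * (l : ℝ) ^ 2 * (K2 / Real.sqrt r)) := by
    rw [Finset.sum_comm]
    calc ∑ w, ∑ z, E * (f y w * H z w) = E * ∑ w, f y w * ∑ z, H z w := by
          simp only [Finset.mul_sum]
      _ ≤ E * ∑ w, f y w * (K2 / Real.sqrt r) :=
          mul_le_mul_of_nonneg_left (Finset.sum_le_sum fun w _ => mul_le_mul_of_nonneg_left (hcol w) (f0 _ _)) hE0
      _ = E * ((∑ w, f y w) * (K2 / Real.sqrt r)) := by rw [Finset.sum_mul]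
      _ ≤ E * (K1 * (l : ℝ) ^ 2 * (K2 / Real.sqrt r)) :=
          mul_le_mul_of_nonneg_left (mul_le_mul_of_nonneg_right hsy hK2r) hE0
  have hB : ∑ z, ∑ w, E * (f x z * H z w) ≤ E * (K1 * (l : ℝ) ^ 2 * (K2 / Real.sqrt r)) := by
    calc ∑ z, ∑ w, E * (f x z * H z w) = E * ∑ z, f x z * ∑ w, H z w := by
          simp only [Finset.mul_sum]
      _ ≤ E * ∑ z, f x z * (K2 / Real.sqrt r) :=
          mul_le_mul_of_nonneg_left (Finset.sum_le_sum fun z _ => mul_le_mul_of_nonneg_left (hrow z) (f0 _ _)) hE0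
      _ = E * ((∑ z, f x z) * (K2 / Real.sqrt r)) := by rw [Finset.sum_mul]
      _ ≤ E * (K1 * (l : ℝ) ^ 2 * (K2 / Real.sqrt r)) :=
          mul_le_mul_of_nonneg_left (mul_le_mul_of_nonneg_right hsx hK2r) hE0
  have hC : ∑ z, ∑ w, f x z * f y w * G ≤ (K1 * (l : ℝ) ^ 2) * (K1 * (l : ℝ) ^ 2) * G := by
    have e : ∑ z, ∑ w, f x z * f y w * G = (∑ z, f x z) * (∑ w, f y w) * G := by
      rw [Finset.sum_mul_sum, Finset.sum_mul]
      refine Finset.sum_congr rfl fun z _ => ?_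
      rw [Finset.sum_mul]
    rw [e]
    refine mul_le_mul_of_nonneg_right ?_ hG0
    exact mul_le_mul hsx hsy (Finset.sum_nonneg fun w _ => f0 _ _) (by positivity)
  have hpow : (D : ℝ) ^ (2 * d - 4) = (D : ℝ) ^ (d - 2) * (D : ℝ) ^ (d - 2) := by
    rw [← pow_add]
    congr 1
    omega
  calc ∑ z, ∑ w, f x z * f y w * H z w ≤
        ∑ z, ∑ w, (E * (f y w * H z w) + E * (f x z * H z w) + f x z * f y w * G) :=
        Finset.sum_le_sum fun z _ => Finset.sum_le_sum fun w _ => hpt z w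
    _ = ∑ z, ∑ w, E * (f y w * H z w) + ∑ z, ∑ w, E * (f x z * H z w) + ∑ z, ∑ w, f x z * f y w * G := by
        simp only [Finset.sum_add_distrib]
    _ ≤ E * (K1 * (l : ℝ) ^ 2 * (K2 / Real.sqrt r)) + E * (K1 * (l : ℝ) ^ 2 * (K2 / Real.sqrt r)) +
          (K1 * (l : ℝ) ^ 2) * (K1 * (l : ℝ) ^ 2) * G := add_le_add (add_le_add hA hB) hC
    _ = 2 * c * K1 * K2 * ((l : ℝ) ^ 2 / (D : ℝ) ^ (d - 2) / Real.sqrt r) +
          2 * c ^ 2 * K1 ^ 3 * ((l : ℝ) ^ 6 / (D : ℝ) ^ (2 * d - 4)) := by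
        rw [hG, hE, hpow]
        field_simp
        ring
    _ ≤ _ := by
        have q1 : 0 ≤ (l : ℝ) ^ 2 / (D : ℝ) ^ (d - 2) / Real.sqrt r := by positivity
        have q2 : 0 ≤ (l : ℝ) ^ 6 / (D : ℝ) ^ (2 * d - 4) := by positivity
        have q3 : 0 ≤ 2 * c * K1 * K2 := by positivity
        have q4 : 0 ≤ 2 * c ^ 2 * K1 ^ 3 := by positivity
        generalize (l : ℝ) ^ 2 / (D : ℝ) ^ (d - 2) / Real.sqrt r = A at q1 ⊢
        generalize (l : ℝ) ^ 6 / (D : ℝ) ^ (2 * d - 4) = B at q2 ⊢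
        generalize 2 * c * K1 * K2 = P at q3 ⊢
        generalize 2 * c ^ 2 * K1 ^ 3 = Q at q4 ⊢
        nlinarith [mul_nonneg q3 q2, mul_nonneg q4 q1]

lemma N7_val (i0 : Fin d) {l : ℕ} (a : Fin d → Fin l) (k : ℕ) (h : k < l) : ((upd i0 a k i0 : Fin l) : ℕ) = k :=
  B7_upd_same i0 a k h

lemma N7_self (i0 : Fin d) {l : ℕ} (a : Fin d → Fin l) : upd i0 a (a i0 : ℕ) = a := by
  funext j
  by_cases hj : j = i0
  · subst hj
    apply Fin.ext
    exact B7_upd_same j a _ (a j).2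
  · exact B7_upd_ne i0 a _ j hj

lemma N7_nd (i0 : Fin d) {l r : ℕ} (a : Fin d → Fin l) (h : (a i0 : ℕ) + r < l) : nd a (shr i0 r a) = r := by
  unfold nd shr
  apply le_antisymm
  · apply Finset.sup_le
    intro i _
    by_cases hi : i = i0
    · subst hi
      simp only [upd, dif_pos h, Function.update_self]
      omega
    · simp only [upd, dif_pos h, Function.update_of_ne hi]
      omega
  · have h2 := Finset.le_sup (f := fun i => ((a i : ℕ) - (upd i0 a ((a i0 : ℕ) + r) i : ℕ)) +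
      ((upd i0 a ((a i0 : ℕ) + r) i : ℕ) - (a i : ℕ))) (Finset.mem_univ i0)
    refine le_trans ?_ h2
    simp only [upd, dif_pos h, Function.update_self]
    omega

lemma N7_edge (i0 : Fin d) {l r : ℕ} (a : Fin d → Fin l) (h : (a i0 : ℕ) + r < l) (j : ℕ) (hj : j < r) :
    ∃ e : (boxG d l).edgeSet, gends (boxG d l) e = s(upd i0 a ((a i0 : ℕ) + j), upd i0 a ((a i0 : ℕ) + (j + 1))) := by
  have hadj : (boxG d l).Adj (upd i0 a ((a i0 : ℕ) + j)) (upd i0 a ((a i0 : ℕ) + (j + 1))) := by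
    refine ⟨i0, Or.inl ?_, fun k hk => ?_⟩
    · rw [B7_upd_same _ _ _ (by omega), B7_upd_same _ _ _ (by omega)]
      omega
    · rw [B7_upd_ne _ _ _ _ hk, B7_upd_ne _ _ _ _ hk]
  exact ⟨⟨s(upd i0 a ((a i0 : ℕ) + j), upd i0 a ((a i0 : ℕ) + (j + 1))), hadj⟩, rfl⟩

/-- Row N7a. The straight paths of `r` edges in direction `i0` from the vertices `a` with room. -/
theorem paths (i0 : Fin d) (l r : ℕ) (hr : 1 ≤ r) : ∃ F : (Fin d → Fin l) → Finset (boxG d l).edgeSet,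
    (∀ a : Fin d → Fin l, (a i0 : ℕ) + r < l → F a ∈ Pth (gends (boxG d l)) a (shr i0 r a) ∧ (F a).card ≤ r ∧ nd a (shr i0 r a) = r) ∧
    (∀ (A : Finset (Fin d → Fin l)) (e : (boxG d l).edgeSet), (∀ a ∈ A, (a i0 : ℕ) + r < l) → (A.filter (fun a => e ∈ F a)).card ≤ 2 * r + 1) ∧
    (∀ A : Finset (Fin d → Fin l), (∀ a ∈ A, (a i0 : ℕ) + r < l) → Set.InjOn (shr i0 r) (A : Set (Fin d → Fin l))) := by
  classical
  refine ⟨fun a => Finset.univ.filter (fun e : (boxG d l).edgeSet =>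
    ∃ j, j < r ∧ gends (boxG d l) e = s(upd i0 a ((a i0 : ℕ) + j), upd i0 a ((a i0 : ℕ) + (j + 1)))), ?_, ?_, ?_⟩
  · intro a ha
    refine ⟨?_, ?_, N7_nd i0 a ha⟩
    · have key : ∀ k : ℕ, k ≤ r → Rch (gends (boxG d l)) (fun e => decide (e ∈ Finset.univ.filter
          (fun e : (boxG d l).edgeSet => ∃ j, j < r ∧ gends (boxG d l) e =
            s(upd i0 a ((a i0 : ℕ) + j), upd i0 a ((a i0 : ℕ) + (j + 1)))))) Set.univ a
          (upd i0 a ((a i0 : ℕ) + k)) := by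
        intro k
        induction k with
        | zero =>
          intro _
          rw [add_zero, N7_self]
          exact Relation.ReflTransGen.refl
        | succ k ih =>
          intro hk
          refine Relation.ReflTransGen.tail (ih (by omega)) ?_
          obtain ⟨e, he⟩ := N7_edge i0 a ha k (by omega)
          refine ⟨Set.mem_univ _, Set.mem_univ _, e, ?_, he⟩
          rw [decide_eq_true_iff, Finset.mem_filter]
          exact ⟨Finset.mem_univ _, k, by omega, he⟩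
      exact key r le_rfl
    · have hsub : (Finset.univ.filter (fun e : (boxG d l).edgeSet => ∃ j, j < r ∧ gends (boxG d l) e =
          s(upd i0 a ((a i0 : ℕ) + j), upd i0 a ((a i0 : ℕ) + (j + 1))))).image Subtype.val ⊆
          (Finset.range r).image (fun j => s(upd i0 a ((a i0 : ℕ) + j), upd i0 a ((a i0 : ℕ) + (j + 1)))) := by
        intro z hz
        obtain ⟨e, he, rfl⟩ := Finset.mem_image.1 hz
        obtain ⟨-, j, hj, hje⟩ := Finset.mem_filter.1 he
        exact Finset.mem_image.2 ⟨j, Finset.mem_range.2 hj, hje.symm⟩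
      have h1 := Finset.card_le_card hsub
      rw [Finset.card_image_of_injective _ Subtype.val_injective] at h1
      refine h1.trans (Finset.card_image_le.trans ?_)
      rw [Finset.card_range]
  · intro A e hA
    obtain ⟨v, w, hvw⟩ : ∃ v w, gends (boxG d l) e = s(v, w) := by
      induction h : gends (boxG d l) e using Sym2.ind with
      | _ v w => exact ⟨v, w, rfl⟩
    have key : ∀ a ∈ A, (∃ j, j < r ∧ gends (boxG d l) e =
        s(upd i0 a ((a i0 : ℕ) + j), upd i0 a ((a i0 : ℕ) + (j + 1)))) →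
        (∀ k, k ≠ i0 → a k = v k) ∧ (a i0 : ℕ) ≤ (v i0 : ℕ) ∧ (v i0 : ℕ) ≤ (a i0 : ℕ) + r := by
      rintro a ha ⟨j, hj, hje⟩
      have hl := hA a ha
      obtain ⟨j', hj', hv⟩ : ∃ j', j' ≤ r ∧ v = upd i0 a ((a i0 : ℕ) + j') := by
        rw [hvw] at hje
        rcases Sym2.eq_iff.1 hje with ⟨h1, -⟩ | ⟨h1, -⟩
        · exact ⟨j, by omega, h1⟩
        · exact ⟨j + 1, by omega, h1⟩
      subst hv
      refine ⟨fun k hk => (B7_upd_ne _ _ _ _ hk).symm, ?_, ?_⟩ <;>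
        rw [B7_upd_same _ _ _ (by omega)] <;> omega
    have hc : (A.filter (fun a => e ∈ Finset.univ.filter (fun e : (boxG d l).edgeSet =>
        ∃ j, j < r ∧ gends (boxG d l) e = s(upd i0 a ((a i0 : ℕ) + j), upd i0 a ((a i0 : ℕ) + (j + 1)))))).card ≤
        (Finset.Icc ((v i0 : ℕ) - r) (v i0 : ℕ)).card := by
      apply Finset.card_le_card_of_injOn (fun a => (a i0 : ℕ))
      · intro a ha
        obtain ⟨ha1, ha2⟩ := Finset.mem_filter.1 (Finset.mem_coe.1 ha)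
        have h1 := key a ha1 (Finset.mem_filter.1 ha2).2
        have h2 : (v i0 : ℕ) - r ≤ (a i0 : ℕ) ∧ (a i0 : ℕ) ≤ (v i0 : ℕ) := by omega
        exact Finset.mem_coe.2 (Finset.mem_Icc.2 h2)
      · intro a ha b hb hab
        obtain ⟨ha1, ha2⟩ := Finset.mem_filter.1 (Finset.mem_coe.1 ha)
        obtain ⟨hb1, hb2⟩ := Finset.mem_filter.1 (Finset.mem_coe.1 hb)
        have h1 := key a ha1 (Finset.mem_filter.1 ha2).2
        have h2 := key b hb1 (Finset.mem_filter.1 hb2).2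
        funext k
        by_cases hk : k = i0
        · subst hk
          exact Fin.ext hab
        · rw [h1.1 k hk, h2.1 k hk]
    have hc2 : (Finset.Icc ((v i0 : ℕ) - r) (v i0 : ℕ)).card ≤ 2 * r + 1 := by
      rw [Nat.card_Icc]
      omega
    exact hc.trans hc2
  · intro A hA a ha b hb hab
    have ha' := hA a (Finset.mem_coe.1 ha)
    have hb' := hA b (Finset.mem_coe.1 hb)
    simp only [shr, upd, dif_pos ha', dif_pos hb'] at hab
    funext i
    by_cases hi : i = i0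
    · subst hi
      have h1 := congrFun hab i
      rw [Function.update_self, Function.update_self] at h1
      have h2 := congrArg Fin.val h1
      simp only at h2
      exact Fin.ext (by omega)
    · have h1 := congrFun hab i
      rwa [Function.update_of_ne hi, Function.update_of_ne hi] at h1

private lemma N6_le {l : ℕ} (x y : Fin d → Fin l) (i : Fin d) :
    ((x i : ℕ) - (y i : ℕ)) + ((y i : ℕ) - (x i : ℕ)) ≤ nd x y :=
  Finset.le_sup (f := fun i => ((x i : ℕ) - (y i : ℕ)) + ((y i : ℕ) - (x i : ℕ)))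
    (Finset.mem_univ i)

private lemma N6_sup {l : ℕ} (x y : Fin d → Fin l) (K : ℕ)
    (h : ∀ i, 2 * (((x i : ℕ) - (y i : ℕ)) + ((y i : ℕ) - (x i : ℕ))) ≤ K) : 2 * nd x y ≤ K := by
  have h1 : nd x y ≤ K / 2 := by
    unfold nd
    refine Finset.sup_le fun i _ => ?_
    have := h i
    omega
  omega

/-- the start of the interval of the allowed values -/
private def N6_st (l r ρ m : ℕ) : ℕ := if 2 * m ≤ l then m else m + 1 - (r + (ρ + 1) / 2)

private lemma N6_st_spec {l r ρ m j : ℕ} (hr : 1 ≤ r) (hrρ : 4 * r ≤ ρ) (hρ : 8 * ρ ≤ l)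
    (h1 : l ≤ 4 * m) (h2 : 4 * m ≤ 3 * l) (hj : j < (ρ + 1) / 2) :
    l ≤ 4 * (N6_st l r ρ m + j) ∧ 4 * (N6_st l r ρ m + j + r) ≤ 3 * l ∧
      (N6_st l r ρ m + j) ≤ m + ρ ∧ m ≤ (N6_st l r ρ m + j) + ρ := by
  unfold N6_st
  split_ifs with h
  · omega
  · omega

/-- Row N7b. Let `m i = (x i + y i) / 2` (rounded down), a vertex of `bul`. `W` is the set of `a` with `|a i - m i| ≤ ρ` and `l ≤ 4 a i`, `4 a i ≤ 3 l` for all `i`, and `4 (a i0 + r) ≤ 3 l`. In each direction there are at least `ρ - r - 1` choices of `a i` (as `m i` is between `l/4` and `3l/4` and `ρ ≤ l/8`), `≥ ρ/2`. -/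
theorem mid_set (i0 : Fin d) (l r ρ : ℕ) (hr : 1 ≤ r) (hrρ : 4 * r ≤ ρ) (hρ : 8 * ρ ≤ l) (x y : Fin d → Fin l) (hx : bul x) (hy : bul y) :
    ∃ W : Finset (Fin d → Fin l), (∀ a ∈ W, bul a ∧ bul (shr i0 r a) ∧ (a i0 : ℕ) + r < l ∧ 2 * nd x a ≤ nd x y + 1 + 2 * ρ ∧
      2 * nd y (shr i0 r a) ≤ nd x y + 1 + 2 * ρ + 2 * r) ∧ ρ ^ d ≤ 2 ^ d * W.card := by
  classical
  have hm : ∀ i, l ≤ 4 * (((x i : ℕ) + (y i : ℕ)) / 2) ∧ 4 * (((x i : ℕ) + (y i : ℕ)) / 2) ≤ 3 * l := by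
    intro i
    have h1 := hx i
    have h2 := hy i
    omega
  have hsp := fun (i : Fin d) (j : Fin ((ρ + 1) / 2)) =>
    N6_st_spec (l := l) (r := r) (ρ := ρ) hr hrρ hρ (hm i).1 (hm i).2 j.2
  have hlt : ∀ (i : Fin d) (j : Fin ((ρ + 1) / 2)),
      N6_st l r ρ (((x i : ℕ) + (y i : ℕ)) / 2) + (j : ℕ) < l := by
    intro i j
    have h1 := hsp i j
    omega
  let F : (Fin d → Fin ((ρ + 1) / 2)) → (Fin d → Fin l) := fun t i =>
    ⟨N6_st l r ρ (((x i : ℕ) + (y i : ℕ)) / 2) + (t i : ℕ), hlt i (t i)⟩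
  have hFv : ∀ (t : Fin d → Fin ((ρ + 1) / 2)) (i : Fin d),
      ((F t i : Fin l) : ℕ) = N6_st l r ρ (((x i : ℕ) + (y i : ℕ)) / 2) + (t i : ℕ) := fun _ _ => rfl
  have hF : Function.Injective F := by
    intro t u htu
    funext i
    have h1 : ((F t i : Fin l) : ℕ) = ((F u i : Fin l) : ℕ) := by rw [htu]
    rw [hFv, hFv] at h1
    exact Fin.ext (by omega)
  refine ⟨Finset.univ.image F, ?_, ?_⟩
  · intro a ha
    obtain ⟨t, -, rfl⟩ := Finset.mem_image.1 ha
    have hv : ∀ i, l ≤ 4 * ((F t i : Fin l) : ℕ) ∧ 4 * (((F t i : Fin l) : ℕ) + r) ≤ 3 * l ∧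
        ((F t i : Fin l) : ℕ) ≤ ((x i : ℕ) + (y i : ℕ)) / 2 + ρ ∧
        ((x i : ℕ) + (y i : ℕ)) / 2 ≤ ((F t i : Fin l) : ℕ) + ρ := by
      intro i
      rw [hFv]
      exact hsp i (t i)
    have hr0 : ((F t i0 : Fin l) : ℕ) + r < l := by
      have h1 := hv i0
      omega
    have hsh0 : ((shr i0 r (F t) i0 : Fin l) : ℕ) = ((F t i0 : Fin l) : ℕ) + r :=
      B7_upd_same i0 (F t) _ hr0
    have hsh : ∀ j, j ≠ i0 → ((shr i0 r (F t) j : Fin l) : ℕ) = ((F t j : Fin l) : ℕ) := by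
      intro j hj
      unfold shr
      rw [B7_upd_ne i0 (F t) _ j hj]
    have hsv : ∀ j, ((F t j : Fin l) : ℕ) ≤ ((shr i0 r (F t) j : Fin l) : ℕ) ∧
        ((shr i0 r (F t) j : Fin l) : ℕ) ≤ ((F t j : Fin l) : ℕ) + r := by
      intro j
      by_cases hj : j = i0
      · subst hj
        rw [hsh0]
        omega
      · rw [hsh j hj]
        omega
    refine ⟨fun i => ?_, fun i => ?_, hr0, ?_, ?_⟩
    · have h1 := hv i
      omega
    · have h1 := hv i
      have h2 := hsv i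
      omega
    · refine N6_sup _ _ _ fun i => ?_
      have h1 := hv i
      have h2 := N6_le x y i
      omega
    · refine N6_sup _ _ _ fun i => ?_
      have h1 := hv i
      have h2 := N6_le x y i
      have h3 := hsv i
      omega
  · rw [Finset.card_image_of_injective _ hF, Finset.card_univ, Fintype.card_fun, Fintype.card_fin,
      Fintype.card_fin, ← mul_pow]
    exact Nat.pow_le_pow_left (by omega) d

private lemma N8_err (C K θ L r' D' : ℝ) (d : ℕ) (hd : 9 ≤ d) (hC : 1 ≤ C) (hK : 1 ≤ K) (hθ : 0 < θ) (hθ1 : θ ≤ 1) (hL : 1 ≤ L)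
    (hr : 0 < r') (hD : θ * L ≤ D') :
    C ^ 5 * (K * (L ^ 2 / D' ^ (d - 2) / r' + L ^ 6 / D' ^ (2 * d - 4))) ≤
      C ^ 5 * K / θ ^ (2 * d - 4) * (1 / r' + 1 / L) / L ^ (d - 4) := by
  have hL0 : 0 < L := by linarith
  have hθL : 0 < θ * L := mul_pos hθ hL0
  have hD0 : 0 < D' := lt_of_lt_of_le hθL hD
  have a1 : L ^ 2 / D' ^ (d - 2) ≤ 1 / θ ^ (2 * d - 4) / L ^ (d - 4) := by
    have b1 : (θ * L) ^ (d - 2) ≤ D' ^ (d - 2) := pow_le_pow_left₀ hθL.le hD _
    have b2 : θ ^ (2 * d - 4) ≤ θ ^ (d - 2) := pow_le_pow_of_le_one hθ.le hθ1 (by omega)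
    have b3 : L ^ (d - 2) = L ^ (d - 4) * L ^ 2 := by
      rw [← pow_add]
      congr 1
      omega
    calc L ^ 2 / D' ^ (d - 2) ≤ L ^ 2 / (θ * L) ^ (d - 2) :=
          div_le_div_of_nonneg_left (by positivity) (by positivity) b1
      _ = 1 / θ ^ (d - 2) / L ^ (d - 4) := by
          rw [mul_pow, b3]
          field_simp
      _ ≤ 1 / θ ^ (2 * d - 4) / L ^ (d - 4) := by
          apply div_le_div_of_nonneg_right _ (by positivity)
          exact one_div_le_one_div_of_le (by positivity) b2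
  have a2 : L ^ 6 / D' ^ (2 * d - 4) ≤ 1 / θ ^ (2 * d - 4) / L ^ (d - 4) * (1 / L) := by
    have b1 : (θ * L) ^ (2 * d - 4) ≤ D' ^ (2 * d - 4) := pow_le_pow_left₀ hθL.le hD _
    have b3 : L ^ (2 * d - 4) = L ^ (d - 4) * L ^ (d - 6) * L ^ 6 := by
      rw [← pow_add, ← pow_add]
      congr 1
      omega
    have b4 : L ≤ L ^ (d - 6) := by
      calc L = L ^ 1 := (pow_one L).symm
        _ ≤ L ^ (d - 6) := pow_le_pow_right₀ hL (by omega)
    calc L ^ 6 / D' ^ (2 * d - 4) ≤ L ^ 6 / (θ * L) ^ (2 * d - 4) :=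
          div_le_div_of_nonneg_left (by positivity) (by positivity) b1
      _ = 1 / θ ^ (2 * d - 4) / L ^ (d - 4) * (1 / L ^ (d - 6)) := by
          rw [mul_pow, b3]
          field_simp
      _ ≤ 1 / θ ^ (2 * d - 4) / L ^ (d - 4) * (1 / L) := by
          apply mul_le_mul_of_nonneg_left _ (by positivity)
          exact one_div_le_one_div_of_le hL0 b4
  have a3 : L ^ 2 / D' ^ (d - 2) / r' ≤ 1 / θ ^ (2 * d - 4) / L ^ (d - 4) * (1 / r') := by
    rw [div_eq_mul_one_div (L ^ 2 / D' ^ (d - 2)) r']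
    exact mul_le_mul_of_nonneg_right a1 (by positivity)
  calc C ^ 5 * (K * (L ^ 2 / D' ^ (d - 2) / r' + L ^ 6 / D' ^ (2 * d - 4)))
      ≤ C ^ 5 * (K * (1 / θ ^ (2 * d - 4) / L ^ (d - 4) * (1 / r') +
          1 / θ ^ (2 * d - 4) / L ^ (d - 4) * (1 / L))) := by
        apply mul_le_mul_of_nonneg_left _ (by positivity)
        apply mul_le_mul_of_nonneg_left (add_le_add a3 a2) (by positivity)
    _ = C ^ 5 * K / θ ^ (2 * d - 4) * (1 / r' + 1 / L) / L ^ (d - 4) := by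
        ring

private lemma N8_sum (C : ℝ) {l : ℕ} {q : ℝ} (h0 : 0 ≤ q) (h1 : q ≤ 1) (hC : 1 ≤ C)
    (hU : ∀ x y : Fin d → Fin l, ta (gends (boxG d l)) q x y ≤ C * fk (d - 2) x y)
    (W : Finset (Fin d → Fin l)) (sh : (Fin d → Fin l) → (Fin d → Fin l)) (x y : Fin d → Fin l) :
    ∑ a ∈ W, ∑ z, ∑ w, ta (gends (boxG d l)) q x z * ta (gends (boxG d l)) q z a * ta (gends (boxG d l)) q z w *
        ta (gends (boxG d l)) q y w * ta (gends (boxG d l)) q w (sh a) ≤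
      C ^ 5 * ∑ a ∈ W, ∑ z, ∑ w, fk (d - 2) x z * fk (d - 2) z a * fk (d - 2) z w * fk (d - 2) y w * fk (d - 2) w (sh a) := by
  have hf0 : ∀ u v : Fin d → Fin l, 0 ≤ fk (d - 2) u v := by
    intro u v
    unfold fk
    positivity
  have ht0 : ∀ u v : Fin d → Fin l, 0 ≤ ta (gends (boxG d l)) q u v := fun u v => ta_nonneg h0 h1 u v
  rw [Finset.mul_sum]
  refine Finset.sum_le_sum fun a _ => ?_
  rw [Finset.mul_sum]
  refine Finset.sum_le_sum fun z _ => ?_
  rw [Finset.mul_sum]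
  refine Finset.sum_le_sum fun w _ => ?_
  have hm : ∀ {t1 t2 f1 f2 : ℝ}, t1 ≤ f1 → t2 ≤ f2 → 0 ≤ t2 → 0 ≤ f1 → t1 * t2 ≤ f1 * f2 :=
    fun a1 a2 a3 a4 => mul_le_mul a1 a2 a3 a4
  have g1 := hm (hU x z) (hU z a) (ht0 z a) (mul_nonneg (by linarith) (hf0 x z))
  have g2 := hm g1 (hU z w) (ht0 z w) (mul_nonneg (mul_nonneg (by linarith) (hf0 x z)) (mul_nonneg (by linarith) (hf0 z a)))
  have g3 := hm g2 (hU y w) (ht0 y w) (mul_nonneg (mul_nonneg (mul_nonneg (by linarith) (hf0 x z)) (mul_nonneg (by linarith) (hf0 z a)))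
    (mul_nonneg (by linarith) (hf0 z w)))
  have g4 := hm g3 (hU w (sh a)) (ht0 w (sh a)) (mul_nonneg (mul_nonneg (mul_nonneg (mul_nonneg (by linarith) (hf0 x z)) (mul_nonneg (by linarith) (hf0 z a)))
    (mul_nonneg (by linarith) (hf0 z w))) (mul_nonneg (by linarith) (hf0 y w)))
  refine g4.trans (le_of_eq ?_)
  ring

private lemma N8_main (θ c1 L : ℝ) (d N ρ : ℕ) (hd : 9 ≤ d) (hθ : 0 < θ) (hc1 : 0 < c1) (hL : 1 ≤ L)
    (hρ : θ * L / 32 ≤ (ρ : ℝ)) (hN : ρ ^ d ≤ 2 ^ d * N) :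
    (θ / 64) ^ d * c1 ^ 2 / L ^ (d - 4) ≤ N * (c1 / L ^ (d - 2)) ^ 2 := by
  have hL0 : 0 < L := by linarith
  have h1 : (θ * L / 32) ^ d ≤ 2 ^ d * (N : ℝ) := by
    refine (pow_le_pow_left₀ (by positivity) hρ d).trans ?_
    exact_mod_cast hN
  have h2 : (θ * L / 64) ^ d ≤ (N : ℝ) := by
    have e1 : (θ * L / 32) ^ d = 2 ^ d * (θ * L / 64) ^ d := by
      rw [← mul_pow]
      congr 1
      ring
    rw [e1] at h1
    exact le_of_mul_le_mul_left h1 (by positivity)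
  have e2 : L ^ (d - 2) * L ^ (d - 2) = L ^ (d - 4) * L ^ d := by
    rw [← pow_add, ← pow_add]
    congr 1
    omega
  have e3 : (θ / 64) ^ d * c1 ^ 2 / L ^ (d - 4) = (θ * L / 64) ^ d * (c1 / L ^ (d - 2)) ^ 2 := by
    have e4 : (c1 / L ^ (d - 2)) ^ 2 = c1 ^ 2 / (L ^ (d - 4) * L ^ d) := by
      rw [div_pow, pow_two (L ^ (d - 2)), e2]
    have e5 : (θ * L / 64) ^ d = (θ / 64) ^ d * L ^ d := by
      rw [← mul_pow]
      congr 1
      ring
    rw [e4, e5]
    field_simp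
  rw [e3]
  exact mul_le_mul_of_nonneg_right h2 (by positivity)

/-- Row N8. Pairs with `nd x y ≤ D`: the hypothesis (`α1/2 ≤ α1`). Let `D < nd x y ≤ 3D/2`, `s l² ≤ α1/2`, `q = pc - s`, `p = q - κ` with `κ = α1/(2 l²)` (for `l ≥ l0`: `s + κ ≤ pc/2` since `s + κ ≤ α1/l²`), `ρ = D/16` (rounded down; `D ≥ θ l`, `D ≤ l` as `D < nd x y`), `i0 = 0`, `r` a constant to be chosen. `conv_low` (`μ = 2r+1`, `paths`) with `A = W` of `mid_set`:
for `a ∈ W`: `nd x a`, `nd y (shr a) ≤ 3D/4 + 1 + D/16 + r ≤ D`, so `ta p x a`, `ta p y (shr a) ≥ c1/l^(d-2)` (hypothesis for `s + κ`): main sum `≥ (ρ/2)^d c1²/l^(2d-4) ≥ c' l^(4-d)`; the error: `GH.U0`, `err_box`: `≤ K (l²/D^(d-2)/√r + l⁶/D^(2d-4)) ≤ K' (1/√r + l^(6-d)) l^(4-d)`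
with `K'` depending on `θ`. Choose `r`, then `l0`, such that the error is at most half of the main sum. Result: `≥ (α1/(2 l²)) ((pc/2)^r/(2r+1)) (c'/2) l^(4-d)`. -/
theorem step_low (C c pc : ℝ) (h : GH d C c pc) (θ c1 α1 : ℝ) (hθ : 0 < θ) (hθ1 : θ ≤ 1) (hc1 : 0 < c1) (hα1 : 0 < α1) :
    ∃ (c2 : ℝ) (l0 : ℕ), 0 < c2 ∧ ∀ (l : ℕ) (D : ℝ), l0 ≤ l → θ * l ≤ D → BL d l pc D c1 α1 → BL d l pc (3 / 2 * D) c2 (α1 / 2) := by
  have hd := h.d9
  have hC1 := h.C1
  have hc0 := h.c0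
  have hcp := h.cp
  have hp1 := h.p1
  have hpc0 := h.p0
  obtain ⟨K, hK1, hK⟩ := err_box d hd
  set c' : ℝ := (θ / 64) ^ d * c1 ^ 2 with hc'
  have hc'0 : 0 < c' := by positivity
  set K' : ℝ := C ^ 5 * K / θ ^ (2 * d - 4) with hK'
  have hK'0 : 0 < K' := by positivity
  obtain ⟨r0, hr0⟩ := exists_nat_gt ((4 * K' / c') ^ 2)
  set r : ℕ := r0 + 1 with hr
  have hr1 : 1 ≤ r := by omega
  have hrr : (1 : ℝ) ≤ r := by exact_mod_cast hr1
  have hsr0 : 0 < Real.sqrt r := Real.sqrt_pos.2 (by linarith)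
  have hsr : 4 * K' / c' ≤ Real.sqrt r := by
    apply Real.le_sqrt_of_sq_le
    have h1 : (r : ℝ) = r0 + 1 := by rw [hr]; push_cast; ring
    linarith
  obtain ⟨l0, hl0⟩ := exists_nat_gt (128 * r / θ + α1 / c + 4 * K' / c' + 1)
  have hc2 : 0 < α1 / 2 * ((pc / 2) ^ r / ((2 * r + 1 : ℕ) : ℝ)) * (c' / 2) := by positivity
  refine ⟨min c1 (α1 / 2 * ((pc / 2) ^ r / ((2 * r + 1 : ℕ) : ℝ)) * (c' / 2)), l0, lt_min hc1 hc2, ?_⟩
  intro l D hl hD hBL x y hx hy hxy s hs0 hs1 hs2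
  have hL : (l0 : ℝ) ≤ (l : ℝ) := by exact_mod_cast hl
  have t1 : 0 < 128 * r / θ := by positivity
  have t2 : 0 < α1 / c := by positivity
  have t3 : 0 < 4 * K' / c' := by positivity
  have hL1 : (1 : ℝ) ≤ (l : ℝ) := by linarith
  have hL0 : (0 : ℝ) < (l : ℝ) := by linarith
  have u1 : 128 * r / θ ≤ (l : ℝ) := by linarith
  have u2 : α1 / c ≤ (l : ℝ) := by linarith
  have u3 : 4 * K' / c' ≤ (l : ℝ) := by linarith
  have hθl : 128 * (r : ℝ) ≤ θ * l := by
    rw [div_le_iff₀ hθ] at u1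
    linarith
  have hDr : 128 * (r : ℝ) ≤ D := hθl.trans hD
  have hlsq : (l : ℝ) ≤ (l : ℝ) ^ 2 := by nlinarith
  have hαc : α1 ≤ c * (l : ℝ) ^ 2 := by
    rw [div_le_iff₀ hc0] at u2
    nlinarith
  by_cases hcase : (nd x y : ℝ) ≤ D
  · refine le_trans ?_ (hBL x y hx hy hcase s hs0 hs1 (by linarith))
    exact div_le_div_of_nonneg_right (min_le_left _ _) (by positivity)
  push Not at hcase
  have hndl : nd x y < l := nd_lt x y (by
    have : (0 : ℝ) < (l : ℝ) := hL0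
    have h2 : 0 < l := by exact_mod_cast this
    omega)
  have hndl' : (nd x y : ℝ) ≤ (l : ℝ) := by exact_mod_cast hndl.le
  set κ : ℝ := α1 / (2 * (l : ℝ) ^ 2) with hκ
  have hκ0 : 0 < κ := by positivity
  have hκl : κ * (l : ℝ) ^ 2 = α1 / 2 := by
    rw [hκ]
    field_simp
  have hsκ : (s + κ) * (l : ℝ) ^ 2 ≤ α1 := by
    rw [add_mul, hκl]
    linarith
  have hl2 : (0 : ℝ) < (l : ℝ) ^ 2 := by positivity
  have hsκc : s + κ ≤ c := le_of_mul_le_mul_right (hsκ.trans hαc) hl2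
  have hsc : s ≤ c := by linarith
  set q : ℝ := pc - s with hq
  set p : ℝ := pc - (s + κ) with hp
  have hqp : q - p = κ := by rw [hq, hp]; ring
  have hppc : pc / 2 ≤ p := by rw [hp]; linarith
  have hp0 : 0 < p := by linarith
  have hpq : p ≤ q := by linarith
  have hq1 : q < 1 := by rw [hq]; linarith
  -- the radius
  set ρ : ℕ := ⌊D / 16⌋₊ with hρ
  have hD0 : 0 ≤ D / 16 := by linarith
  have hρle : (ρ : ℝ) ≤ D / 16 := Nat.floor_le hD0
  have hρge : D / 16 < (ρ : ℝ) + 1 := Nat.lt_floor_add_one _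
  have hρ4 : (4 : ℝ) * r ≤ (ρ : ℝ) := by linarith
  have hρ4' : 4 * r ≤ ρ := by exact_mod_cast hρ4
  have hρ8 : (8 : ℝ) * (ρ : ℝ) ≤ (l : ℝ) := by linarith
  have hρ8' : 8 * ρ ≤ l := by exact_mod_cast hρ8
  have hρ32 : θ * l / 32 ≤ (ρ : ℝ) := by linarith
  set i0 : Fin d := ⟨0, by omega⟩ with hi0
  obtain ⟨W, hW, hWc⟩ := mid_set i0 l r ρ hr1 hρ4' hρ8' x y hx hy
  obtain ⟨F, hF1, hF2, hF3⟩ := paths i0 l r hr1
  have hroom : ∀ a ∈ W, (a i0 : ℕ) + r < l := fun a ha => (hW a ha).2.2.1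
  have hconv := conv_low (ends := gends (boxG d l)) hp0 hpq hq1 x y W (shr i0 r) F r (2 * r + 1) (by omega)
    (fun a ha => (hF1 a (hroom a ha)).1) (fun a ha => (hF1 a (hroom a ha)).2.1) (fun e => hF2 W e hroom)
  rw [hqp] at hconv
  -- the main sum
  have hmain : c' / (l : ℝ) ^ (d - 4) ≤
      ∑ a ∈ W, ta (gends (boxG d l)) p x a * ta (gends (boxG d l)) p y (shr i0 r a) := by
    refine (N8_main θ c1 l d W.card ρ hd hθ hc1 hL1 hρ32 hWc).trans ?_
    rw [← nsmul_eq_mul]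
    apply Finset.card_nsmul_le_sum
    intro a ha
    obtain ⟨w1, w2, _, w4, w5⟩ := hW a ha
    have w4' : 2 * (nd x a : ℝ) ≤ nd x y + 1 + 2 * ρ := by exact_mod_cast w4
    have w5' : 2 * (nd y (shr i0 r a) : ℝ) ≤ nd x y + 1 + 2 * ρ + 2 * r := by exact_mod_cast w5
    have v1 := hBL x a hx w1 (by linarith) (s + κ) (by linarith) (by linarith) hsκ
    have v2 := hBL y (shr i0 r a) hy w2 (by linarith) (s + κ) (by linarith) (by linarith) hsκ
    rw [pow_two]
    exact mul_le_mul v1 v2 (by positivity) (le_trans (by positivity) v1)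
  -- the error
  have herr : ∑ a ∈ W, ∑ z, ∑ w, ta (gends (boxG d l)) q x z * ta (gends (boxG d l)) q z a * ta (gends (boxG d l)) q z w *
      ta (gends (boxG d l)) q y w * ta (gends (boxG d l)) q w (shr i0 r a) ≤ (c' / 2) / (l : ℝ) ^ (d - 4) := by
    refine (N8_sum C (by linarith) hq1.le hC1 (fun u v => h.U0 l u v s hs0 hsc) W (shr i0 r) x y).trans ?_
    have w1 := hK l r W (shr i0 r) x y (hF3 W hroom) (fun a ha => (hF1 a (hroom a ha)).2.2) hr1 (by
      have : (16 : ℝ) * r ≤ (nd x y : ℝ) := by linarith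
      exact_mod_cast this)
    refine (mul_le_mul_of_nonneg_left w1 (by positivity)).trans ?_
    refine (N8_err C K θ l (Real.sqrt r) (nd x y) d hd hC1 hK1 hθ hθ1 hL1 hsr0 (by linarith)).trans ?_
    apply div_le_div_of_nonneg_right _ (by positivity)
    rw [← hK']
    have w2 : K' * (1 / Real.sqrt r) ≤ c' / 4 := by
      rw [mul_one_div, div_le_iff₀ hsr0]
      rw [div_le_iff₀ hc'0] at hsr
      linarith
    have w3 : K' * (1 / (l : ℝ)) ≤ c' / 4 := by
      rw [mul_one_div, div_le_iff₀ hL0]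
      rw [div_le_iff₀ hc'0] at u3
      linarith
    rw [mul_add]
    linarith
  -- the conclusion
  have hfin : (c' / 2) / (l : ℝ) ^ (d - 4) ≤ ∑ a ∈ W, ta (gends (boxG d l)) p x a * ta (gends (boxG d l)) p y (shr i0 r a) -
      ∑ a ∈ W, ∑ z, ∑ w, ta (gends (boxG d l)) q x z * ta (gends (boxG d l)) q z a * ta (gends (boxG d l)) q z w *
      ta (gends (boxG d l)) q y w * ta (gends (boxG d l)) q w (shr i0 r a) := by
    have e1 : c' / (l : ℝ) ^ (d - 4) - (c' / 2) / (l : ℝ) ^ (d - 4) = (c' / 2) / (l : ℝ) ^ (d - 4) := by ring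
    linarith
  have hcoef : (pc / 2) ^ r / ((2 * r + 1 : ℕ) : ℝ) ≤ p ^ r / ((2 * r + 1 : ℕ) : ℝ) := by
    apply div_le_div_of_nonneg_right _ (by positivity)
    exact pow_le_pow_left₀ (by positivity) hppc r
  have hpow : (l : ℝ) ^ (d - 2) = (l : ℝ) ^ 2 * (l : ℝ) ^ (d - 4) := by
    rw [← pow_add]
    congr 1
    omega
  refine le_trans ?_ hconv
  calc min c1 (α1 / 2 * ((pc / 2) ^ r / ((2 * r + 1 : ℕ) : ℝ)) * (c' / 2)) / (l : ℝ) ^ (d - 2)
      ≤ (α1 / 2 * ((pc / 2) ^ r / ((2 * r + 1 : ℕ) : ℝ)) * (c' / 2)) / (l : ℝ) ^ (d - 2) :=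
        div_le_div_of_nonneg_right (min_le_right _ _) (by positivity)
    _ = κ * ((pc / 2) ^ r / ((2 * r + 1 : ℕ) : ℝ) * ((c' / 2) / (l : ℝ) ^ (d - 4))) := by
        rw [hpow, hκ]
        field_simp
    _ ≤ κ * (p ^ r / ((2 * r + 1 : ℕ) : ℝ) * _) := by
        apply mul_le_mul_of_nonneg_left _ hκ0.le
        exact mul_le_mul hcoef hfin (by positivity) (by positivity)

private theorem N9_edge {l : ℕ} {p : ℝ} (h0 : 0 ≤ p) (h1 : p ≤ 1) {x y : Fin d → Fin l} (h : (boxG d l).Adj x y) :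
    p ≤ ta (gends (boxG d l)) p x y := by
  obtain ⟨e, he⟩ : ∃ e : (boxG d l).edgeSet, gends (boxG d l) e = s(x, y) := ⟨⟨s(x, y), h⟩, rfl⟩
  have hc := Ex_coord p e (fun _ : (boxG d l).edgeSet → Bool => (1 : ℝ)) (fun _ _ _ => rfl)
  rw [Ex_const, mul_one] at hc
  have hle : Ex p (fun ω : (boxG d l).edgeSet → Bool => (if ω e = true then (1 : ℝ) else 0) * 1) ≤
      ta (gends (boxG d l)) p x y := by
    refine Ex_mono h0 h1 fun ω => ?_
    by_cases h2 : ω e = true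
    · have h3 : y ∈ cu (gends (boxG d l)) ω x := by
        rw [mem_cu]
        exact Relation.ReflTransGen.single ⟨trivial, trivial, e, h2, he⟩
      rw [if_pos h2, if_pos h3, one_mul]
    · rw [if_neg h2, zero_mul]
      split_ifs <;> norm_num
  rw [hc] at hle
  exact hle

private theorem N9_mul {l : ℕ} {p : ℝ} (h0 : 0 ≤ p) (h1 : p ≤ 1) (x y z : Fin d → Fin l) :
    ta (gends (boxG d l)) p x y * ta (gends (boxG d l)) p y z ≤ ta (gends (boxG d l)) p x z := by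
  have h := rs_mul (ends := gends (boxG d l)) h0 h1 Set.univ x y z
  rw [rs_univ, rs_univ, rs_univ] at h
  exact h

private theorem N9_path {l : ℕ} {p : ℝ} (h0 : 0 ≤ p) (h1 : p ≤ 1) (n : ℕ) : ∀ x y : Fin d → Fin l,
    ∑ i, (((x i : ℕ) - (y i : ℕ)) + ((y i : ℕ) - (x i : ℕ))) = n → p ^ n ≤ ta (gends (boxG d l)) p x y := by
  induction n with
  | zero =>
    intro x y h
    have hxy : x = y := by
      funext i
      have h2 := (Finset.sum_eq_zero_iff.1 h) i (Finset.mem_univ i)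
      exact Fin.ext (by omega)
    rw [hxy, ta_self, pow_zero]
  | succ n ih =>
    intro x y h
    obtain ⟨i, hi⟩ : ∃ i, x i ≠ y i := by
      by_contra hcon
      push Not at hcon
      have : ∑ i, (((x i : ℕ) - (y i : ℕ)) + ((y i : ℕ) - (x i : ℕ))) = 0 := by
        refine Finset.sum_eq_zero fun i _ => ?_
        rw [hcon i]
        omega
      omega
    have hi' : (x i : ℕ) ≠ (y i : ℕ) := fun h2 => hi (Fin.ext h2)
    obtain ⟨c, hc1, hc2⟩ : ∃ c : Fin l, ((x i : ℕ) + 1 = (c : ℕ) ∨ (c : ℕ) + 1 = (x i : ℕ)) ∧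
        ((c : ℕ) - (y i : ℕ)) + ((y i : ℕ) - (c : ℕ)) + 1 = ((x i : ℕ) - (y i : ℕ)) + ((y i : ℕ) - (x i : ℕ)) := by
      have hx := (x i).isLt
      have hy := (y i).isLt
      rcases Nat.lt_or_gt_of_ne hi' with h2 | h2
      · refine ⟨⟨(x i : ℕ) + 1, by omega⟩, Or.inl rfl, ?_⟩
        show ((x i : ℕ) + 1 - (y i : ℕ)) + ((y i : ℕ) - ((x i : ℕ) + 1)) + 1 = _
        omega
      · refine ⟨⟨(x i : ℕ) - 1, by omega⟩, Or.inr ?_, ?_⟩
        · show (x i : ℕ) - 1 + 1 = (x i : ℕ)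
          omega
        · show ((x i : ℕ) - 1 - (y i : ℕ)) + ((y i : ℕ) - ((x i : ℕ) - 1)) + 1 = _
          omega
    have hadj : (boxG d l).Adj x (Function.update x i c) := by
      refine ⟨i, ?_, fun j hj => ?_⟩
      · rw [Function.update_self]
        exact hc1
      · rw [Function.update_of_ne hj]
    have hsum : ∑ j, (((Function.update x i c j : ℕ) - (y j : ℕ)) + ((y j : ℕ) - (Function.update x i c j : ℕ))) = n := by
      rw [← Finset.add_sum_erase _ _ (Finset.mem_univ i)] at h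
      rw [← Finset.add_sum_erase _ _ (Finset.mem_univ i), Function.update_self]
      have h2 : ∑ j ∈ Finset.univ.erase i, (((Function.update x i c j : ℕ) - (y j : ℕ)) +
          ((y j : ℕ) - (Function.update x i c j : ℕ))) =
          ∑ j ∈ Finset.univ.erase i, (((x j : ℕ) - (y j : ℕ)) + ((y j : ℕ) - (x j : ℕ))) := by
        refine Finset.sum_congr rfl fun j hj => ?_
        rw [Function.update_of_ne (Finset.ne_of_mem_erase hj)]
      rw [h2]
      omega
    calc p ^ (n + 1) = p * p ^ n := by ring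
      _ ≤ ta (gends (boxG d l)) p x (Function.update x i c) * ta (gends (boxG d l)) p (Function.update x i c) y :=
          mul_le_mul (N9_edge h0 h1 hadj) (ih _ _ hsum) (pow_nonneg h0 n) (ta_nonneg h0 h1 _ _)
      _ ≤ ta (gends (boxG d l)) p x y := N9_mul h0 h1 _ _ _

/-- Row N9a. A path of at most `nd`-many steps in each coordinate and Harris: `rs_mul` for `Set.univ` (`rs_univ`), one edge has probability `p` (`ta_edge` in `P/Nr.lean`; or directly). -/
theorem ta_pos (d l : ℕ) {p : ℝ} (h0 : 0 ≤ p) (h1 : p ≤ 1) (x y : Fin d → Fin l) : p ^ (d * nd x y) ≤ ta (gends (boxG d l)) p x y := by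
  refine (pow_le_pow_of_le_one h0 h1 ?_).trans (N9_path h0 h1 _ x y rfl)
  have h2 : ∑ i, (((x i : ℕ) - (y i : ℕ)) + ((y i : ℕ) - (x i : ℕ))) ≤ ∑ _i : Fin d, nd x y :=
    Finset.sum_le_sum fun i _ =>
      Finset.le_sup (f := fun i => ((x i : ℕ) - (y i : ℕ)) + ((y i : ℕ) - (x i : ℕ))) (Finset.mem_univ i)
  rw [Finset.sum_const, Finset.card_univ, Fintype.card_fin, smul_eq_mul] at h2
  exact h2

/-- Row N9b. For `l ≥ 8 Λ + 8`: `M = (l/4)/Λ` (rounded down, `Λ M ≤ l/4`; take `M` with `Λ M + 1 ≤ l/4`): `LP` gives `BL d l pc M c1 (α1 l²/M²)`, in particular `BL d l pc (θ l) c1' α1` with `θ = 1/(8 Λ)`; `step_low` `J` times with `(3/2)^J θ ≥ 1` (the thresholds: maximum): `BL d l pc l c2 α2` for `l ≥ l0`; `s = 0`.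
For `l < l0`: `ta_pos` (`nd x y ≤ l`). -/
theorem bulk_low (C c pc : ℝ) (h : GH d C c pc) (Λ : ℕ) (c1 α1 : ℝ) (hΛ : 1 ≤ Λ) (hc1 : 0 < c1) (hα1 : 0 < α1) (hP : LP d pc Λ c1 α1) :
    ∃ c0 : ℝ, 0 < c0 ∧ ∀ (l : ℕ) (x y : Fin d → Fin l), bul x → bul y → c0 / (l : ℝ) ^ (d - 2) ≤ ta (gends (boxG d l)) pc x y := by
  have hpc0 : 0 < pc := by
    have h1 := h.c0
    have h2 := h.cp
    linarith
  have hpc1 : pc ≤ 1 := h.p1.le
  have hΛr : (1 : ℝ) ≤ (Λ : ℝ) := by exact_mod_cast hΛ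
  set θ : ℝ := 1 / (8 * (Λ : ℝ)) with hθdef
  have hθ : 0 < θ := by rw [hθdef]; positivity
  have hθ1 : θ ≤ 1 := by
    rw [hθdef, div_le_one (by positivity)]
    linarith
  have hbase : ∀ l : ℕ, 8 * Λ + 8 ≤ l → BL d l pc (θ * (l : ℝ)) c1 α1 := by
    intro l hl x y hx hy hD s hs0 hs1 hs2
    obtain ⟨M, hM⟩ : ∃ M : ℕ, M = (l / 4 - 1) / Λ := ⟨_, rfl⟩
    have hMΛ : Λ * M ≤ l / 4 - 1 := by rw [hM]; exact Nat.mul_div_le _ _
    have hMΛ' : l / 4 - 1 < Λ * M + Λ := by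
      have h1 := Nat.lt_mul_div_succ (l / 4 - 1) (show 0 < Λ by omega)
      rw [← hM] at h1
      calc l / 4 - 1 < Λ * (M + 1) := h1
        _ = Λ * M + Λ := by ring
    have hM2 : 2 ≤ M := by
      rw [hM, Nat.le_div_iff_mul_le (show 0 < Λ by omega)]
      omega
    have hM8 : l ≤ 8 * (Λ * M) := by
      have h2 : Λ * 2 ≤ Λ * M := Nat.mul_le_mul_left _ hM2
      omega
    have hMl : M ≤ l := by
      have h2 : 1 * M ≤ Λ * M := Nat.mul_le_mul_right _ hΛ
      omega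
    have hMr : (M : ℝ) ≤ (l : ℝ) := by exact_mod_cast hMl
    have hM0 : (0 : ℝ) < (M : ℝ) := by
      have : 0 < M := by omega
      exact_mod_cast this
    have hl0 : (0 : ℝ) < (l : ℝ) := lt_of_lt_of_le hM0 hMr
    have hIn : In x (Λ * M) := by
      intro i
      have h1 := (hx i).1
      have h2 := (hx i).2
      constructor
      · omega
      · omega
    have hnd : nd x y ≤ M := by
      have h1 : θ * (l : ℝ) ≤ (M : ℝ) := by
        rw [hθdef, div_mul_eq_mul_div, one_mul, div_le_iff₀ (by positivity)]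
        have h2 : (l : ℝ) ≤ 8 * ((Λ : ℝ) * (M : ℝ)) := by exact_mod_cast hM8
        linarith
      have h3 : (nd x y : ℝ) ≤ (M : ℝ) := hD.trans h1
      exact_mod_cast h3
    have hsM : s * (M : ℝ) ^ 2 ≤ α1 := by
      refine le_trans ?_ hs2
      apply mul_le_mul_of_nonneg_left _ hs0
      exact pow_le_pow_left₀ hM0.le hMr 2
    refine le_trans ?_ (hP l M x y s (by omega) hIn hnd hs0 hs1 hsM)
    apply div_le_div_of_nonneg_left hc1.le (by positivity)
    exact pow_le_pow_left₀ hM0.le hMr _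
  have hiter : ∀ j : ℕ, ∃ (c2 α2 : ℝ) (l0 : ℕ), 0 < c2 ∧ 0 < α2 ∧
      ∀ l : ℕ, l0 ≤ l → BL d l pc ((3 / 2 : ℝ) ^ j * (θ * (l : ℝ))) c2 α2 := by
    intro j
    induction j with
    | zero =>
      refine ⟨c1, α1, 8 * Λ + 8, hc1, hα1, ?_⟩
      intro l hl
      rw [pow_zero, one_mul]
      exact hbase l hl
    | succ j ih =>
      obtain ⟨c2, α2, l0, hc2, hα2, hB⟩ := ih
      obtain ⟨c3, l1, hc3, hstep⟩ := step_low C c pc h θ c2 α2 hθ hθ1 hc2 hα2
      refine ⟨c3, α2 / 2, max l0 l1, hc3, by positivity, ?_⟩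
      intro l hl
      have h1 : l0 ≤ l := le_trans (le_max_left _ _) hl
      have h2 : l1 ≤ l := le_trans (le_max_right _ _) hl
      have h3 : θ * (l : ℝ) ≤ (3 / 2 : ℝ) ^ j * (θ * (l : ℝ)) := by
        have h4 : (1 : ℝ) ≤ (3 / 2 : ℝ) ^ j := one_le_pow₀ (by norm_num)
        have h5 : 0 ≤ θ * (l : ℝ) := by positivity
        nlinarith
      have h6 := hstep l _ h2 h3 (hB l h1)
      have h7 : (3 / 2 : ℝ) ^ (j + 1) * (θ * (l : ℝ)) = 3 / 2 * ((3 / 2 : ℝ) ^ j * (θ * (l : ℝ))) := by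
        rw [pow_succ]; ring
      rw [h7]
      exact h6
  obtain ⟨J, hJ⟩ := pow_unbounded_of_one_lt (1 / θ) (show (1 : ℝ) < 3 / 2 by norm_num)
  obtain ⟨c2, α2, l0, hc2, hα2, hB⟩ := hiter J
  have hndl : ∀ (l : ℕ) (x y : Fin d → Fin l), nd x y ≤ l := by
    intro l x y
    unfold nd
    apply Finset.sup_le
    intro i _
    have h1 := (x i).2
    have h2 := (y i).2
    omega
  refine ⟨min c2 (pc ^ (d * l0)), lt_min hc2 (pow_pos hpc0 _), ?_⟩
  intro l x y hx hy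
  have hd := h.d9
  have hl1 : 1 ≤ l := by
    have h1 := (x ⟨0, by omega⟩).2
    omega
  have hl1r : (1 : ℝ) ≤ (l : ℝ) := by exact_mod_cast hl1
  have hlp : (1 : ℝ) ≤ (l : ℝ) ^ (d - 2) := one_le_pow₀ hl1r
  rcases le_or_gt l0 l with hl | hl
  · have h1 : (nd x y : ℝ) ≤ (3 / 2 : ℝ) ^ J * (θ * (l : ℝ)) := by
      have h2 : (nd x y : ℝ) ≤ (l : ℝ) := by exact_mod_cast hndl l x y
      have h3 : (1 : ℝ) ≤ (3 / 2 : ℝ) ^ J * θ := by
        have h4 := hJ.le
        rw [div_le_iff₀ hθ] at h4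
        exact h4
      nlinarith
    have h5 := hB l hl x y hx hy h1 0 le_rfl (by positivity) (by simpa using hα2.le)
    rw [sub_zero] at h5
    refine le_trans ?_ h5
    exact div_le_div_of_nonneg_right (min_le_left _ _) (by positivity)
  · refine le_trans ?_ (ta_pos d l hpc0.le hpc1 x y)
    have h1 : min c2 (pc ^ (d * l0)) / (l : ℝ) ^ (d - 2) ≤ min c2 (pc ^ (d * l0)) :=
      div_le_self (le_min hc2.le (pow_pos hpc0 _).le) hlp
    refine h1.trans ((min_le_right _ _).trans ?_)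
    apply pow_le_pow_of_le_one hpc0.le hpc1
    exact Nat.mul_le_mul_left _ ((hndl l x y).trans hl.le)
end Pool.Agent.PERC29.GU
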