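import Pool.Agent.Lib.MP_29e17e_pr.G.Fo
import Pool.Agent.Lib.MP_29e17e_pr.G.Lw

namespace Pool.Agent.PERC29
end Pool.Agent.PERC29
namespace Pool.Agent.PERC29.AE
end Pool.Agent.PERC29.AE
namespace Pool.Agent.PERC29.DZ
end Pool.Agent.PERC29.DZ
namespace Pool.Agent.PERC29.QQ
end Pool.Agent.PERC29.QQ

set_option autoImplicit false
set_option linter.unusedSectionVars false

/-! Rows 29h-I1 .. I7: the lower bound `LP`. -/

open Finset

namespace Pool.Agent.PERC29.GU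

open Pool.Agent.PERC29 Pool.Agent.PERC29.AE Pool.Agent.PERC29.QQ Pool.Agent.PERC29.DZ

section gen

variable {V : Type*} [Fintype V] [DecidableEq V] {E : Type*} [Fintype E] [DecidableEq E] {ends : E → Sym2 V}

open scoped Classical in
private theorem I1_pt (ω : E → Bool) (S : Set V) (o y : V) (ho : o ∈ S) :
    (if y ∈ cl ends ω Set.univ o then (1 : ℝ) else 0) ≤ (if y ∈ cl ends ω S o then (1 : ℝ) else 0) +
      ∑ u, ∑ w, (if u ∈ S ∧ w ∉ S ∧ ∃ e, ends e = s(u, w) then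
        (if u ∈ cl ends ω S o then (1 : ℝ) else 0) *
          (if y ∈ cl ends ω ((cl ends ω S o : Finset V) : Set V)ᶜ w then (1 : ℝ) else 0) else 0) := by
  set F : V → V → ℝ := fun u w => (if u ∈ S ∧ w ∉ S ∧ ∃ e, ends e = s(u, w) then
        (if u ∈ cl ends ω S o then (1 : ℝ) else 0) *
          (if y ∈ cl ends ω ((cl ends ω S o : Finset V) : Set V)ᶜ w then (1 : ℝ) else 0) else 0) with hF
  have hnn : ∀ u w, 0 ≤ F u w := by
    intro u w
    simp only [hF]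
    split_ifs <;> norm_num
  have hsum : 0 ≤ ∑ u, ∑ w, F u w := Finset.sum_nonneg fun u _ => Finset.sum_nonneg fun w _ => hnn u w
  by_cases h : y ∈ cl ends ω Set.univ o
  · rw [if_pos h]
    rw [mem_cl] at h
    rcases exit_decomp ho h with h1 | ⟨e, x, z, h1, h2, h3, h4, h5⟩
    · rw [if_pos (mem_cl.2 h1)]
      linarith
    · have hset : {w | ¬ Rch ends ω S o w} = ((cl ends ω S o : Finset V) : Set V)ᶜ := by
        ext w
        simp only [Set.mem_compl_iff, Finset.mem_coe, mem_cl]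
        rfl
      rw [hset] at h5
      have hone : F x z = 1 := by
        simp only [hF]
        rw [if_pos ⟨h2.mem' ho, h3, e, h1⟩, if_pos (mem_cl.2 h2), if_pos (mem_cl.2 h5), one_mul]
      have hle : (1 : ℝ) ≤ ∑ u, ∑ w, F u w := by
        calc (1 : ℝ) = F x z := hone.symm
          _ ≤ ∑ w, F x w := Finset.single_le_sum (f := fun w => F x w) (fun w _ => hnn x w) (Finset.mem_univ z)
          _ ≤ ∑ u, ∑ w, F u w := Finset.single_le_sum (f := fun u => ∑ w, F u w)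
              (fun u _ => Finset.sum_nonneg fun w _ => hnn u w) (Finset.mem_univ x)
      have h6 : (0 : ℝ) ≤ (if y ∈ cl ends ω S o then (1 : ℝ) else 0) := by split_ifs <;> norm_num
      linarith
  · rw [if_neg h]
    have h6 : (0 : ℝ) ≤ (if y ∈ cl ends ω S o then (1 : ℝ) else 0) := by split_ifs <;> norm_num
    linarith

open scoped Classical in
private theorem I1_fac {p : ℝ} (h0 : 0 ≤ p) (h1 : p ≤ 1) (S : Set V) (o y u w : V) :
    Ex p (fun ω => (if u ∈ cl ends ω S o then (1 : ℝ) else 0) *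
        (if y ∈ cl ends ω ((cl ends ω S o : Finset V) : Set V)ᶜ w then (1 : ℝ) else 0)) ≤
      rs ends S p o u * ta ends p w y := by
  have hdec : ∀ ω : E → Bool, (if u ∈ cl ends ω S o then (1 : ℝ) else 0) *
        (if y ∈ cl ends ω ((cl ends ω S o : Finset V) : Set V)ᶜ w then (1 : ℝ) else 0) =
      ∑ A : Finset V, (if cl ends ω S o = A then (1 : ℝ) else 0) * ((if u ∈ A then (1 : ℝ) else 0) *
        (if y ∈ cl ends ω ((A : Finset V) : Set V)ᶜ w then (1 : ℝ) else 0)) := by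
    intro ω
    rw [Finset.sum_eq_single (cl ends ω S o)]
    · rw [if_pos rfl, one_mul]
    · intro A _ hA
      rw [if_neg (Ne.symm hA), zero_mul]
    · intro h
      exact absurd (Finset.mem_univ _) h
  have hdec2 : ∀ ω : E → Bool, (if u ∈ cl ends ω S o then (1 : ℝ) else 0) =
      ∑ A : Finset V, (if u ∈ A then (1 : ℝ) else 0) * (if cl ends ω S o = A then (1 : ℝ) else 0) := by
    intro ω
    rw [Finset.sum_eq_single (cl ends ω S o)]
    · rw [if_pos rfl, mul_one]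
    · intro A _ hA
      rw [if_neg (Ne.symm hA), mul_zero]
    · intro h
      exact absurd (Finset.mem_univ _) h
  have hrs : rs ends S p o u = ∑ A : Finset V, (if u ∈ A then (1 : ℝ) else 0) *
      Ex p (fun ω => if cl ends ω S o = A then (1 : ℝ) else 0) := by
    unfold rs
    rw [Ex_congr hdec2, Ex_sum]
    exact Finset.sum_congr rfl fun A _ => Ex_mul_left _ _ _
  rw [Ex_congr hdec, Ex_sum, hrs, Finset.sum_mul]
  refine Finset.sum_le_sum fun A _ => ?_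
  set D : Set E := {e' | ∃ a b, ends e' = s(a, b) ∧ a ∈ S ∧ b ∈ S ∧ a ∈ A} with hD
  rw [Ex_indep p D (fun ω => if cl ends ω S o = A then (1 : ℝ) else 0)]
  · rw [Ex_mul_left]
    have hle : Ex p (fun ω => if y ∈ cl ends ω ((A : Finset V) : Set V)ᶜ w then (1 : ℝ) else 0) ≤
        ta ends p w y := by
      rw [← rs_univ]
      exact rs_mono h0 h1 (Set.subset_univ _) w y
    have hn1 : 0 ≤ Ex p (fun ω => if cl ends ω S o = A then (1 : ℝ) else 0) :=
      Ex_nonneg h0 h1 fun ω => by split_ifs <;> norm_num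
    have hn2 : (0 : ℝ) ≤ (if u ∈ A then (1 : ℝ) else 0) := by split_ifs <;> norm_num
    calc _ = ((if u ∈ A then (1 : ℝ) else 0) * Ex p (fun ω => if cl ends ω S o = A then (1 : ℝ) else 0)) *
          Ex p (fun ω => if y ∈ cl ends ω ((A : Finset V) : Set V)ᶜ w then (1 : ℝ) else 0) := by ring
      _ ≤ _ := mul_le_mul_of_nonneg_left hle (mul_nonneg hn2 hn1)
  · intro ω ω' h
    have key : ∀ ω ω' : E → Bool, (∀ e ∈ D, ω e = ω' e) → cl ends ω S o = A →
        cl ends ω' S o = A := by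
      intro ω ω' h hA
      exact cl_eq_dep (fun e' a b h2 h3 h4 h5 => h e' ⟨a, b, h2, h3, h4, h5⟩) hA
    by_cases hc : cl ends ω S o = A
    · rw [if_pos hc, if_pos (key ω ω' h hc)]
    · rw [if_neg hc, if_neg]
      intro hc'
      exact hc (key ω' ω (fun e he => (h e he).symm) hc')
  · intro ω ω' h
    have hcl : cl ends ω ((A : Finset V) : Set V)ᶜ w = cl ends ω' ((A : Finset V) : Set V)ᶜ w := by
      apply cl_dep
      intro e' a b h2 h3 h4
      apply h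
      rintro ⟨a', b', h5, _, _, h8⟩
      rw [h2] at h5
      rcases Sym2.eq_iff.1 h5 with ⟨rfl, rfl⟩ | ⟨rfl, rfl⟩
      · exact h3 h8
      · exact h4 h8
    rw [hcl]

open scoped Classical in
/-- Row I1. Like `simon` in `G/Sm.lean` (`exit_decomp`), for a vertex `y` of `S`. -/
theorem simon_in {p : ℝ} (h0 : 0 ≤ p) (h1 : p ≤ 1) (S : Set V) (o y : V) (ho : o ∈ S) :
    ta ends p o y ≤ rs ends S p o y +
      ∑ u, ∑ w, (if u ∈ S ∧ w ∉ S ∧ ∃ e, ends e = s(u, w) then rs ends S p o u * ta ends p w y else 0) := by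
  have e1 : ta ends p o y = Ex p (fun ω => if y ∈ cl ends ω Set.univ o then (1 : ℝ) else 0) := by
    rw [← rs_univ]
    rfl
  rw [e1]
  refine (Ex_mono h0 h1 fun ω => I1_pt ω S o y ho).trans ?_
  rw [Ex_add]
  refine add_le_add le_rfl ?_
  rw [Ex_sum]
  refine Finset.sum_le_sum fun u _ => ?_
  rw [Ex_sum]
  refine Finset.sum_le_sum fun w _ => ?_
  by_cases hc : u ∈ S ∧ w ∉ S ∧ ∃ e, ends e = s(u, w)
  · simp only [if_pos hc]
    exact I1_fac h0 h1 S o y u w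
  · simp only [if_neg hc]
    exact (Ex_const p 0).le

end gen

variable {d : ℕ}

private lemma I2_self {l : ℕ} (x : Fin d → Fin l) : nd x x = 0 := by
  unfold nd
  refine Nat.le_zero.1 (Finset.sup_le fun i _ => ?_)
  omega

private lemma I2_le {l : ℕ} (x y : Fin d → Fin l) (i : Fin d) :
    ((x i : ℕ) - (y i : ℕ)) + ((y i : ℕ) - (x i : ℕ)) ≤ nd x y :=
  Finset.le_sup (f := fun i => ((x i : ℕ) - (y i : ℕ)) + ((y i : ℕ) - (x i : ℕ)))
    (Finset.mem_univ i)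

private lemma I2_many {l : ℕ} (a : Fin l) (k : ℕ) :
    (Finset.univ.filter (fun v : Fin l => ((a : ℕ) - (v : ℕ)) + ((v : ℕ) - (a : ℕ)) ≤ k)).card ≤
      2 * k + 1 := by
  have h1 : ((Finset.univ.filter
      (fun v : Fin l => ((a : ℕ) - (v : ℕ)) + ((v : ℕ) - (a : ℕ)) ≤ k)).image (fun v : Fin l => (v : ℕ))) ⊆
      Finset.Icc ((a : ℕ) - k) ((a : ℕ) + k) := by
    intro m hm
    obtain ⟨v, hv, rfl⟩ := Finset.mem_image.1 hm
    rw [Finset.mem_filter] at hv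
    rw [Finset.mem_Icc]
    omega
  have h2 := Finset.card_le_card h1
  rw [Finset.card_image_of_injective _ Fin.val_injective, Nat.card_Icc] at h2
  omega

private lemma I2_ball {l : ℕ} (u : Fin d → Fin l) (k : ℕ) : (bb u k).card ≤ (2 * k + 1) ^ d := by
  have hsub : bb u k ⊆ Fintype.piFinset (fun i =>
      Finset.univ.filter (fun v : Fin l => ((u i : ℕ) - (v : ℕ)) + ((v : ℕ) - (u i : ℕ)) ≤ k)) := by
    intro z hz
    unfold bb at hz
    rw [Finset.mem_filter] at hz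
    rw [Fintype.mem_piFinset]
    intro i
    rw [Finset.mem_filter]
    exact ⟨Finset.mem_univ _, (I2_le u z i).trans hz.2⟩
  refine (Finset.card_le_card hsub).trans ?_
  rw [Fintype.card_piFinset]
  refine (Finset.prod_le_pow_card _ _ (2 * k + 1) fun i _ => I2_many (u i) k).trans ?_
  rw [Finset.card_univ, Fintype.card_fin]

private lemma I2_adj {l : ℕ} {u w : Fin d → Fin l} (h : ∃ e, gends (boxG d l) e = s(u, w)) : nd u w = 1 := by
  obtain ⟨e, he⟩ := h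
  have h1 : (boxG d l).Adj u w := by
    rw [← SimpleGraph.mem_edgeSet, ← he]
    exact e.2
  obtain ⟨i, hi, hj⟩ := h1
  refine le_antisymm ?_ ?_
  · unfold nd
    refine Finset.sup_le fun k _ => ?_
    by_cases hk : k = i
    · subst hk
      omega
    · rw [hj k hk]
      omega
  · have h2 := I2_le u w i
    omega

/-- The sum over a ball inside the cube does not depend on the position of the cube. -/
private lemma I2_tr {l n M : ℕ} {v : Fin d → Fin l} (hv : In v n) (hM : M ≤ n) (p : ℝ) :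
    ∑ y ∈ bb v M, rs (gends (boxG d l)) (Qs v n) p v y =
      ∑ y ∈ bb (ctr d n) M, ta (gends (boxG d (2 * n + 1))) p (ctr d n) y := by
  obtain ⟨φ, hctr, hc, hr, hta⟩ := rs_tr hv
  have hnd : ∀ x, nd v (φ x) = nd (ctr d n) x := by
    intro x
    refine Finset.sup_congr rfl fun i _ => ?_
    have h1 := hc x i
    have h2 : ((ctr d n i : Fin (2 * n + 1)) : ℕ) = n := rfl
    omega
  have hS : bb v M = (bb (ctr d n) M).map φ.toEmbedding := by
    ext w
    unfold bb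
    rw [Finset.mem_filter, Finset.mem_map]
    constructor
    · rintro ⟨-, hw⟩
      have h1 : w ∈ Set.range φ := by
        rw [hr]
        exact hw.trans hM
      obtain ⟨x, rfl⟩ := h1
      refine ⟨x, Finset.mem_filter.2 ⟨Finset.mem_univ _, ?_⟩, rfl⟩
      rw [← hnd]
      exact hw
    · rintro ⟨x, hx, rfl⟩
      refine ⟨Finset.mem_univ _, ?_⟩
      exact (hnd x).le.trans (Finset.mem_filter.1 hx).2
  rw [hS, Finset.sum_map]
  refine Finset.sum_congr rfl fun u _ => ?_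
  have h1 := hta p (ctr d n) u
  rw [hctr] at h1
  exact h1

open scoped Classical in
/-- The sum over the boundary edges of the cube. -/
private lemma I2_sum {l n : ℕ} {o y : Fin d → Fin l} (hd : 1 ≤ d) (ho : In o n)
    {p K : ℝ} (h0 : 0 ≤ p) (h1 : p ≤ 1) (hK : 0 ≤ K)
    (hta : ∀ w : Fin d → Fin l, nd o w = n + 1 → ta (gends (boxG d l)) p w y ≤ K) :
    ta (gends (boxG d l)) p o y ≤ rs (gends (boxG d l)) (Qs o n) p o y +
      ((d * 2 ^ d * (1 + 1) ^ (d - 1) : ℕ) : ℝ) * K * be d n p := by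
  have hoS : o ∈ Qs o n := by
    change nd o o ≤ n
    rw [I2_self]
    exact Nat.zero_le _
  refine (simon_in (ends := gends (boxG d l)) h0 h1 (Qs o n) o y hoS).trans (add_le_add le_rfl ?_)
  have hrow : ∀ u : Fin d → Fin l, ∑ w, (if u ∈ Qs o n ∧ w ∉ Qs o n ∧ ∃ e, gends (boxG d l) e = s(u, w) then
      rs (gends (boxG d l)) (Qs o n) p o u * ta (gends (boxG d l)) p w y else 0) ≤
      if u ∈ Sp o n then ((d * 2 ^ d * (1 + 1) ^ (d - 1) : ℕ) : ℝ) * K * rs (gends (boxG d l)) (Qs o n) p o u else 0 := by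
    intro u
    have hr := rs_nonneg (ends := gends (boxG d l)) h0 h1 (Qs o n) o u
    by_cases hu : u ∈ Sp o n
    · rw [if_pos hu]
      calc _ ≤ ∑ w, (if nd u w = 1 then rs (gends (boxG d l)) (Qs o n) p o u * K else 0) := by
            refine Finset.sum_le_sum fun w _ => ?_
            by_cases hc : u ∈ Qs o n ∧ w ∉ Qs o n ∧ ∃ e, gends (boxG d l) e = s(u, w)
            · rw [if_pos hc, if_pos (I2_adj hc.2.2)]
              refine mul_le_mul_of_nonneg_left (hta w ?_) hr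
              have h2 := nd_tri o u w
              have h4 := I2_adj hc.2.2
              have h5 : nd o u = n := (Finset.mem_filter.1 hu).2
              have h6 : ¬ nd o w ≤ n := hc.2.1
              omega
            · rw [if_neg hc]
              split_ifs
              · exact mul_nonneg hr hK
              · exact le_rfl
        _ = ((Finset.univ.filter (fun w => nd u w = 1)).card : ℝ) * (rs (gends (boxG d l)) (Qs o n) p o u * K) := by
            rw [← Finset.sum_filter, Finset.sum_const, nsmul_eq_mul]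
        _ ≤ ((d * 2 ^ d * (1 + 1) ^ (d - 1) : ℕ) : ℝ) * (rs (gends (boxG d l)) (Qs o n) p o u * K) := by
            refine mul_le_mul_of_nonneg_right ?_ (mul_nonneg hr hK)
            have h6 := shell hd u 1
            have h7 : (Finset.univ.filter (fun w => nd u w = 1)).card ≤ d * 2 ^ d * (1 + 1) ^ (d - 1) := by
              refine le_trans (le_of_eq (congrArg Finset.card (Finset.ext fun w => ?_))) h6
              simp only [Finset.mem_filter]
            exact_mod_cast h7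
        _ = _ := by ring
    · rw [if_neg hu]
      refine le_of_eq (Finset.sum_eq_zero fun w _ => ?_)
      refine if_neg ?_
      rintro ⟨h2, h3, h4⟩
      apply hu
      have h5 := I2_adj h4
      have h6 := nd_tri o u w
      have h7 : nd o u ≤ n := h2
      have h8 : ¬ nd o w ≤ n := h3
      exact Finset.mem_filter.2 ⟨Finset.mem_univ _, by omega⟩
  refine (Finset.sum_le_sum fun u _ => hrow u).trans (le_of_eq ?_)
  rw [← be_eq ho p, Finset.mul_sum, Finset.sum_ite_mem, Finset.univ_inter]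

private lemma I2_ctr {n L : ℕ} (h : n ≤ L) : In (ctr d L) n := by
  intro i
  have h1 : ((ctr d L i : Fin (2 * L + 1)) : ℕ) = L := rfl
  omega

private lemma I2_be {n : ℕ} {p q : ℝ} (h0 : 0 ≤ p) (hpq : p ≤ q) (h1 : q ≤ 1) : be d n p ≤ be d n q := by
  rw [← be_eq (I2_ctr (d := d) (le_refl n)) p, ← be_eq (I2_ctr (d := d) (le_refl n)) q]
  exact Finset.sum_le_sum fun u _ => rs_mono_p h0 hpq h1 _ _ _

private lemma I2_num {q D C K b M : ℝ} {d : ℕ} (hd : 3 ≤ d) (hq : 1 ≤ q) (hD : 0 ≤ D) (hC : 0 ≤ C)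
    (hK : 0 ≤ K) (hb : 0 < b) (hM : 0 < M) (hA : 2 * 3 ^ d * K * D * C / b ≤ q) :
    (3 * M) ^ d * (D * (C / (q * M) ^ (d - 2)) * K) ≤ b / 2 * M ^ 2 := by
  obtain ⟨e, rfl⟩ : ∃ e, d = e + 2 := ⟨d - 2, by omega⟩
  have he : e + 2 - 2 = e := by omega
  rw [he]
  have hq0 : 0 < q := by linarith
  have hqe : q ≤ q ^ e := le_self_pow₀ hq (by omega)
  have h1 : (3 * M) ^ (e + 2) * (D * (C / (q * M) ^ e) * K) = 3 ^ (e + 2) * K * D * C / q ^ e * M ^ 2 := by
    rw [mul_pow, mul_pow]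
    have h2 : M ^ (e + 2) = M ^ e * M ^ 2 := pow_add M e 2
    rw [h2]
    have h3 : M ^ e ≠ 0 := by positivity
    have h4 : q ^ e ≠ 0 := by positivity
    field_simp
  rw [h1]
  refine mul_le_mul_of_nonneg_right ?_ (by positivity)
  rw [div_le_iff₀ hb] at hA
  have h5 : 3 ^ (e + 2) * K * D * C / q ^ e ≤ 3 ^ (e + 2) * K * D * C / q :=
    div_le_div_of_nonneg_left (by positivity) hq0 hqe
  refine h5.trans ?_
  rw [div_le_iff₀ hq0]
  linarith

/-- The mass of a ball in the cube: compare with a large box (`GB.M`), the error is a sum over the boundary edges of the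
cube (`simon_in`), at most `K 2 d C (3M)^d/((Λ-1) M)^(d-2) ≤ (b/2) M²` for `Λ` large; the sum is the same in every box with `In v (Λ M)`. -/
theorem rs_mass (C c pc b α : ℝ) (h : GH d C c pc) (g : GB d b α pc) : ∃ Λ : ℕ, 2 ≤ Λ ∧ ∀ (l M : ℕ) (v : Fin d → Fin l) (s : ℝ), 1 ≤ M → In v (Λ * M) → 0 ≤ s → s ≤ c →
    s * (M : ℝ) ^ 2 ≤ α → b / 2 * (M : ℝ) ^ 2 ≤ ∑ y ∈ bb v M, rs (gends (boxG d l)) (Qs v (Λ * M)) (pc - s) v y := by
  obtain ⟨K, hK1, hK⟩ := be_bdd C c pc b α h g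
  obtain ⟨D, hD⟩ : ∃ D : ℝ, D = ((d * 2 ^ d * (1 + 1) ^ (d - 1) : ℕ) : ℝ) := ⟨_, rfl⟩
  have hD0 : 0 ≤ D := by rw [hD]; positivity
  have hb := g.b0
  have hC := h.C1
  have hc0 := h.c0
  have hcp := h.cp
  have hp1 := h.p1
  have hd9 := h.d9
  have hd : 1 ≤ d := by omega
  obtain ⟨Λ, hΛ⟩ : ∃ Λ : ℕ, Λ = ⌈2 * 3 ^ d * K * D * C / b⌉₊ + 2 := ⟨_, rfl⟩
  have hΛA : 2 * 3 ^ d * K * D * C / b ≤ (Λ : ℝ) - 1 := by
    have h1 := Nat.le_ceil (2 * 3 ^ d * K * D * C / b)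
    rw [hΛ]
    push_cast
    linarith
  have hΛ2 : 2 ≤ Λ := by omega
  have hΛ2' : (2 : ℝ) ≤ (Λ : ℝ) := by exact_mod_cast hΛ2
  refine ⟨Λ, hΛ2, fun l M v s hM hv hs0 hsc hsα => ?_⟩
  have hM1 : (1 : ℝ) ≤ (M : ℝ) := by exact_mod_cast hM
  have hM0 : (0 : ℝ) < (M : ℝ) := by linarith
  have hMΛ : M ≤ Λ * M := Nat.le_mul_of_pos_left M (by omega)
  have hp0 : 0 ≤ pc - s := by linarith
  have hp1' : pc - s ≤ 1 := by linarith
  obtain ⟨L0, hL0⟩ := g.M M hM
  obtain ⟨L, hL⟩ : ∃ L : ℕ, L = Λ * M + L0 := ⟨_, rfl⟩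
  have hIn1 : In (ctr d L) (Λ * M) := I2_ctr (by omega)
  have hIn2 : In (ctr d L) L0 := I2_ctr (by omega)
  have hmass := hL0 (2 * L + 1) (ctr d L) s hIn2 hs0 (by linarith) hsα
  rw [I2_tr hv hMΛ, ← I2_tr hIn1 hMΛ]
  have hbe : be d (Λ * M) (pc - s) ≤ K :=
    (I2_be hp0 (by linarith) hp1.le).trans (hK (Λ * M) (hM.trans hMΛ))
  have hbe0 : 0 ≤ be d (Λ * M) (pc - s) := by
    rw [← be_eq hIn1 (pc - s)]
    exact Finset.sum_nonneg fun u _ => rs_nonneg hp0 hp1' _ _ _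
  have hq : (1 : ℝ) ≤ (Λ : ℝ) - 1 := by linarith
  have hqM : 0 < ((Λ : ℝ) - 1) * M := mul_pos (by linarith) hM0
  have hpt : ∀ y ∈ bb (ctr d L) M, ta (gends (boxG d (2 * L + 1))) (pc - s) (ctr d L) y ≤
      rs (gends (boxG d (2 * L + 1))) (Qs (ctr d L) (Λ * M)) (pc - s) (ctr d L) y +
        D * (C / (((Λ : ℝ) - 1) * M) ^ (d - 2)) * K := by
    intro y hy
    have hy' : nd (ctr d L) y ≤ M := (Finset.mem_filter.1 hy).2
    refine (I2_sum (y := y) hd hIn1 hp0 hp1' (K := C / (((Λ : ℝ) - 1) * M) ^ (d - 2)) (by positivity)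
      fun w hw => ?_).trans (add_le_add le_rfl ?_)
    · refine (h.U0 (2 * L + 1) w y s hs0 hsc).trans ?_
      unfold fk
      rw [mul_one_div]
      refine div_le_div_of_nonneg_left (by linarith) (by positivity) (pow_le_pow_left₀ hqM.le ?_ _)
      have h2 := nd_tri (ctr d L) y w
      rw [nd_symm y w] at h2
      have h3 : Λ * M ≤ M + (1 + nd w y) := by omega
      have h4 : (Λ : ℝ) * M ≤ M + (1 + (nd w y : ℝ)) := by exact_mod_cast h3
      linarith
    · rw [← hD]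
      exact mul_le_mul_of_nonneg_left hbe (by positivity)
  have hsum := Finset.sum_le_sum hpt
  rw [Finset.sum_add_distrib, Finset.sum_const, nsmul_eq_mul] at hsum
  have hcard : ((bb (ctr d L) M).card : ℝ) ≤ (3 * (M : ℝ)) ^ d := by
    have h1 := I2_ball (ctr d L) M
    have h2 : (((bb (ctr d L) M).card : ℕ) : ℝ) ≤ (((2 * M + 1) ^ d : ℕ) : ℝ) := by exact_mod_cast h1
    refine h2.trans ?_
    push_cast
    exact pow_le_pow_left₀ (by positivity) (by linarith) d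
  have herr : ((bb (ctr d L) M).card : ℝ) * (D * (C / (((Λ : ℝ) - 1) * M) ^ (d - 2)) * K) ≤ b / 2 * (M : ℝ) ^ 2 := by
    refine (mul_le_mul_of_nonneg_right hcard (by positivity)).trans ?_
    exact I2_num (by omega) hq hD0 (by linarith) (by linarith) hb hM0 hΛA
  have hfin := hmass.trans hsum
  linarith

private lemma I3_nd {l : ℕ} (v y : Fin d → Fin l) : nz (rel v y) = nd v y := by
  have h := nz_rel v v y
  have h0 : rel v v = (0 : Zd d) := by
    funext i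
    simp only [rel, Pi.zero_apply, sub_self]
  rw [h0, zero_sub, nz_neg] at h
  exact h

private lemma I3_emb {l n : ℕ} {x y : Fin d → Fin l} (hx : In x n) {p : ℝ} (h0 : 0 ≤ p) (h1 : p ≤ 1)
    (w : Fin d → Fin (2 * n + 1)) (hw : rel (ctr d n) w = rel x y) :
    ta (gends (boxG d (2 * n + 1))) p (ctr d n) w ≤ ta (gends (boxG d l)) p x y := by
  obtain ⟨φ, hctr, hc, hr, hta⟩ := rs_tr hx
  have hy : φ w = y := by
    funext i
    apply Fin.ext
    have e1 := congrFun hw i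
    have e2 := hc w i
    have e3 : ((ctr d n i : Fin (2 * n + 1)) : ℕ) = n := rfl
    simp only [rel] at e1
    rw [e3] at e1
    omega
  have e := hta p (ctr d n) w
  rw [hctr, hy] at e
  calc ta (gends (boxG d (2 * n + 1))) p (ctr d n) w = rs (gends (boxG d l)) (Qs x n) p x y := e.symm
    _ ≤ rs (gends (boxG d l)) Set.univ p x y := rs_mono h0 h1 (Set.subset_univ _) x y
    _ = ta (gends (boxG d l)) p x y := rs_univ p x y

private lemma I3_symm {l : ℕ} (p : ℝ) (x y : Fin d → Fin l) :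
    ta (gends (boxG d l)) p x y = ta (gends (boxG d l)) p y x := by
  have h1 := rs_symm (ends := gends (boxG d l)) p Set.univ x y
  rw [rs_univ, rs_univ] at h1
  exact h1

private lemma I3_card {l : ℕ} (v : Fin d → Fin l) (M : ℕ) (hM : 1 ≤ M) :
    ((bb v M).card : ℝ) ≤ 3 ^ d * (M : ℝ) ^ d := by
  have h1 : (bb v M).card ≤ (bz M : Finset (Zd d)).card := by
    refine Finset.card_le_card_of_injOn (rel v) ?_ ((rel_inj v).injOn)
    intro y hy
    have hy' : nd v y ≤ M := (Finset.mem_filter.1 hy).2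
    show rel v y ∈ (bz M : Finset (Zd d))
    rw [mem_bz, I3_nd]
    exact hy'
  have h2 : (bz M : Finset (Zd d)).card = (2 * M + 1) ^ d := by
    rw [← card_bv (0 : Zd d) M]
    congr 1
    unfold bz bv
    simp
  rw [h2] at h1
  have h3 : ((bb v M).card : ℝ) ≤ (2 * (M : ℝ) + 1) ^ d := by exact_mod_cast h1
  refine h3.trans ?_
  rw [← mul_pow]
  have hM' : (1 : ℝ) ≤ M := by exact_mod_cast hM
  exact pow_le_pow_left₀ (by positivity) (by linarith) d

/-- Row I3. `α' = min α c`-like (so that `s M² ≤ α'` implies `s ≤ c ≤ pc/2`; for `M ≥ 1`: `s ≤ s M² ≤ α' ≤ c`). Let `s1 = α'/M²` and `T z = ta (pc - s1) v (v + z)` in the box of side `2 Λ M + 1`, `v` its centre, `Λ` of `rs_mass`: `∑_{z ∈ bz M} T z ≥ (b/2) M²` (`rs_tr`), `T z ≤ C/(1 + nz z)^(d-2)` (`GH.U0`), `T (-z) = T z` (the point reflection is an automorphism of the box).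
Let `η` be small with `∑_{nz z ≤ η M} T z ≤ (b/8) M²` for `M ≥ M1` (`near_f`). Let `f` be the indicator of the `z` with `nz z ≤ M` and `T z ≥ c1/M^(d-2)`, `c1 ≤ (b/8)/3^d`: `(b/2 - b/8 - b/8) M² ≤ (∑ f) C/(η M)^(d-2)`. `GF`: if `f (rel x y) = 1`, embed the box with the centre mapped to `x` (`box_box`, `ta_box` or `rs_tr`, `rs_mono`), monotonicity in the parameter.
(Instead of the point reflection: replace `f` by the symmetrized indicator `f z = 1` or `f (-z) = 1` and `Λ` by `Λ + 1`; `ta x y = ta y x`, `In y (Λ M)` as `nd x y ≤ M`.)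
For `M < M1`: `f` the indicator of `nz z ≤ M`, `ta_pos`. -/
theorem dens (C c pc b α : ℝ) (h : GH d C c pc) (g : GB d b α pc) : ∃ (Λ : ℕ) (a c1 α' : ℝ), 2 ≤ Λ ∧ 0 < a ∧ 0 < c1 ∧ 0 < α' ∧ ∀ M : ℕ, 1 ≤ M → ∃ f : Zd d → ℝ,
    (∀ z, 0 ≤ f z ∧ f z ≤ 1) ∧ (∀ z, f (-z) = f z) ∧ (∀ z, M < nz z → f z = 0) ∧ a * (M : ℝ) ^ d ≤ ∑ z ∈ bz M, f z ∧ GF d pc Λ c1 α' M f := by
  classical
  obtain ⟨Λ, hΛ, hm⟩ := rs_mass C c pc b α h g
  have hb0 := g.b0
  have hb1 := g.b1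
  have hC1 := h.C1
  have d9 := h.d9
  have hc0 := h.c0
  have hcp := h.cp
  have hp0 : 0 < pc := h.p0
  have hp1 := h.p1
  obtain ⟨K0, hK0⟩ : ∃ K0 : ℝ, K0 = (d * 2 ^ d : ℝ) := ⟨_, rfl⟩
  have hK01 : 1 ≤ K0 := by
    rw [hK0]
    have h1 : (1 : ℝ) ≤ d := by exact_mod_cast (by omega : 1 ≤ d)
    have h2 : (1 : ℝ) ≤ 2 ^ d := one_le_pow₀ (by norm_num)
    nlinarith
  obtain ⟨η, hη⟩ : ∃ η : ℝ, η = b / (32 * K0 * C) := ⟨_, rfl⟩
  have hKC : 0 < 32 * K0 * C := by positivity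
  have hη0 : 0 < η := by rw [hη]; positivity
  have hη1 : η ≤ 1 := by
    rw [hη, div_le_one hKC]
    nlinarith
  have hηb : 32 * K0 * C * η = b := by
    rw [hη]; field_simp
  have h3d : (0 : ℝ) < 8 * 3 ^ d := by positivity
  refine ⟨Λ + 1, b / 4 * η ^ (d - 2) / C, b / (8 * 3 ^ d), min α c, by omega, by positivity,
    by positivity, lt_min g.α0 h.c0, ?_⟩
  intro M hM
  have hM' : (1 : ℝ) ≤ M := by exact_mod_cast hM
  have hM0 : (0 : ℝ) < M := by linarith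
  have hMM : (1 : ℝ) ≤ (M : ℝ) ^ 2 := one_le_pow₀ hM'
  obtain ⟨s1, hs1⟩ : ∃ s1 : ℝ, s1 = min α c / (M : ℝ) ^ 2 := ⟨_, rfl⟩
  have hmin0 : 0 < min α c := lt_min g.α0 h.c0
  have hs10 : 0 ≤ s1 := by rw [hs1]; positivity
  have hs1M : s1 * (M : ℝ) ^ 2 = min α c := by
    rw [hs1]; field_simp
  have hs1c : s1 ≤ c := by
    have h1 : s1 * 1 ≤ s1 * (M : ℝ) ^ 2 := mul_le_mul_of_nonneg_left hMM hs10
    have h2 : min α c ≤ c := min_le_right _ _
    linarith
  obtain ⟨v, hv⟩ : ∃ v : Fin d → Fin (2 * (Λ * M) + 1), v = ctr d (Λ * M) := ⟨_, rfl⟩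
  have hIn : In v (Λ * M) := by
    intro i
    have e3 : ((v i : Fin (2 * (Λ * M) + 1)) : ℕ) = Λ * M := by rw [hv]; rfl
    rw [e3]
    constructor
    · exact le_rfl
    · omega
  have hsum := hm (2 * (Λ * M) + 1) M v s1 hM hIn hs10 hs1c (by rw [hs1M]; exact min_le_left _ _)
  set Rf : (Fin d → Fin (2 * (Λ * M) + 1)) → ℝ := fun y =>
    rs (gends (boxG d (2 * (Λ * M) + 1))) (Qs v (Λ * M)) (pc - s1) v y with hRf
  have hq0 : 0 ≤ pc - s1 := by linarith
  have hq1 : pc - s1 ≤ 1 := by linarith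
  have hRta : ∀ y, Rf y ≤ ta (gends (boxG d (2 * (Λ * M) + 1))) (pc - s1) v y := by
    intro y
    calc Rf y ≤ rs (gends (boxG d (2 * (Λ * M) + 1))) Set.univ (pc - s1) v y :=
          rs_mono hq0 hq1 (Set.subset_univ _) v y
      _ = ta (gends (boxG d (2 * (Λ * M) + 1))) (pc - s1) v y := rs_univ _ v y
  have hRU : ∀ y, Rf y ≤ C * fk (d - 2) v y := fun y =>
    (hRta y).trans (h.U0 _ v y s1 hs10 hs1c)
  obtain ⟨F, hF⟩ : ∃ F : Finset (Fin d → Fin (2 * (Λ * M) + 1)),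
      F = (bb v M).filter (fun y => b / (8 * 3 ^ d) / (M : ℝ) ^ (d - 2) ≤ Rf y) := ⟨_, rfl⟩
  have hFM : ∀ y ∈ F, nd v y ≤ M := by
    intro y hy
    rw [hF, Finset.mem_filter] at hy
    exact (Finset.mem_filter.1 hy.1).2
  have hFR : ∀ y ∈ F, b / (8 * 3 ^ d) / (M : ℝ) ^ (d - 2) ≤ Rf y := by
    intro y hy
    rw [hF, Finset.mem_filter] at hy
    exact hy.2
  -- the number of elements of `F`
  obtain ⟨R, hR⟩ : ∃ R : ℕ, R = ⌊η * (M : ℝ)⌋₊ := ⟨_, rfl⟩
  have hR1 : (R : ℝ) ≤ η * M := by rw [hR]; exact Nat.floor_le (by positivity)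
  have hR2 : η * M < (R : ℝ) + 1 := by rw [hR]; exact Nat.lt_floor_add_one _
  have hηM : 0 < η * (M : ℝ) := by positivity
  have hpt : ∀ y ∈ bb v M, Rf y ≤ C * (if 1 + nd v y ≤ 2 * R then fk (d - 2) v y else 0) +
      ((if y ∈ F then C / (η * M) ^ (d - 2) else 0) + b / (8 * 3 ^ d) / (M : ℝ) ^ (d - 2)) := by
    intro y hy
    have hnn : 0 ≤ b / (8 * 3 ^ d) / (M : ℝ) ^ (d - 2) := by positivity
    have hnn2 : 0 ≤ (if y ∈ F then C / (η * (M : ℝ)) ^ (d - 2) else 0) := by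
      split_ifs
      · positivity
      · exact le_rfl
    by_cases h1 : 1 + nd v y ≤ 2 * R
    · rw [if_pos h1]
      have := hRU y
      linarith
    · rw [if_neg h1, mul_zero, zero_add]
      by_cases h2 : y ∈ F
      · rw [if_pos h2]
        have h3 : C * fk (d - 2) v y ≤ C / (η * M) ^ (d - 2) := by
          unfold fk
          rw [mul_one_div]
          refine div_le_div_of_nonneg_left (by linarith) (by positivity) ?_
          refine pow_le_pow_left₀ hηM.le ?_ _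
          have h4 : R + 1 ≤ 1 + nd v y := by omega
          have h5 : ((R : ℝ) + 1) ≤ 1 + (nd v y : ℝ) := by exact_mod_cast h4
          linarith
        have := hRU y
        linarith
      · rw [if_neg h2, zero_add]
        have h3 : ¬ b / (8 * 3 ^ d) / (M : ℝ) ^ (d - 2) ≤ Rf y := by
          intro h4
          apply h2
          rw [hF, Finset.mem_filter]
          exact ⟨hy, h4⟩
        push Not at h3
        exact h3.le
  have hFsub : F ⊆ bb v M := by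
    rw [hF]; exact Finset.filter_subset _ _
  have hcard : b / 4 * η ^ (d - 2) / C * (M : ℝ) ^ d ≤ (F.card : ℝ) := by
    have h1 : b / 2 * (M : ℝ) ^ 2 ≤ ∑ y ∈ bb v M, (C * (if 1 + nd v y ≤ 2 * R then fk (d - 2) v y else 0) +
      ((if y ∈ F then C / (η * M) ^ (d - 2) else 0) + b / (8 * 3 ^ d) / (M : ℝ) ^ (d - 2))) :=
      hsum.trans (Finset.sum_le_sum hpt)
    rw [Finset.sum_add_distrib, Finset.sum_add_distrib, ← Finset.mul_sum] at h1
    have h2 : ∑ y ∈ bb v M, (if 1 + nd v y ≤ 2 * R then fk (d - 2) v y else 0) ≤ K0 * (4 * (R : ℝ) ^ 2) := by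
      have h3 := near_f (by omega : 2 ≤ d) v R
      rw [hK0]
      refine le_trans (Finset.sum_le_sum_of_subset_of_nonneg (Finset.subset_univ _) ?_) h3
      intro y _ _
      split_ifs
      · unfold fk; positivity
      · exact le_rfl
    have h4 : C * ∑ y ∈ bb v M, (if 1 + nd v y ≤ 2 * R then fk (d - 2) v y else 0) ≤ b / 8 * (M : ℝ) ^ 2 := by
      have h5 : (R : ℝ) ^ 2 ≤ η * (M : ℝ) ^ 2 := by
        have h6 : (R : ℝ) ^ 2 ≤ (η * M) ^ 2 := pow_le_pow_left₀ (by positivity) hR1 2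
        have h7 : (η * (M : ℝ)) ^ 2 ≤ η * (M : ℝ) ^ 2 := by
          have h8 : 0 ≤ η * (M : ℝ) ^ 2 * (1 - η) := by
            have : 0 ≤ 1 - η := by linarith
            positivity
          nlinarith
        linarith
      have h9 : K0 * (4 * (R : ℝ) ^ 2) ≤ K0 * (4 * (η * (M : ℝ) ^ 2)) :=
        mul_le_mul_of_nonneg_left (by linarith) (by linarith)
      calc C * ∑ y ∈ bb v M, (if 1 + nd v y ≤ 2 * R then fk (d - 2) v y else 0) ≤
          C * (K0 * (4 * (η * (M : ℝ) ^ 2))) := mul_le_mul_of_nonneg_left (h2.trans h9) (by linarith)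
        _ = 32 * K0 * C * η / 8 * (M : ℝ) ^ 2 := by ring
        _ = b / 8 * (M : ℝ) ^ 2 := by rw [hηb]
    have h10 : ∑ y ∈ bb v M, (if y ∈ F then C / (η * (M : ℝ)) ^ (d - 2) else 0) =
        (F.card : ℝ) * (C / (η * M) ^ (d - 2)) := by
      rw [← Finset.sum_filter, Finset.sum_const, nsmul_eq_mul]
      congr 2
      congr 1
      ext y
      rw [Finset.mem_filter]
      exact ⟨fun hy => hy.2, fun hy => ⟨hFsub hy, hy⟩⟩
    have hMd : (M : ℝ) ^ d = (M : ℝ) ^ (d - 2) * (M : ℝ) ^ 2 := by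
      rw [← pow_add]
      congr 1
      omega
    have h11 : ∑ y ∈ bb v M, b / (8 * 3 ^ d) / (M : ℝ) ^ (d - 2) ≤ b / 8 * (M : ℝ) ^ 2 := by
      rw [Finset.sum_const, nsmul_eq_mul]
      have h12 := I3_card v M hM
      calc ((bb v M).card : ℝ) * (b / (8 * 3 ^ d) / (M : ℝ) ^ (d - 2)) ≤
          (3 ^ d * (M : ℝ) ^ d) * (b / (8 * 3 ^ d) / (M : ℝ) ^ (d - 2)) :=
            mul_le_mul_of_nonneg_right h12 (by positivity)
        _ = b / 8 * (M : ℝ) ^ 2 := by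
            rw [hMd]
            field_simp
    rw [h10] at h1
    have h13 : b / 4 * (M : ℝ) ^ 2 ≤ (F.card : ℝ) * (C / (η * M) ^ (d - 2)) := by linarith
    have h14 : b / 4 * η ^ (d - 2) / C * (M : ℝ) ^ d = (b / 4 * (M : ℝ) ^ 2) * ((η * M) ^ (d - 2) / C) := by
      rw [hMd, mul_pow]
      ring
    rw [h14]
    have h15 : (F.card : ℝ) = ((F.card : ℝ) * (C / (η * M) ^ (d - 2))) * ((η * M) ^ (d - 2) / C) := by
      have h16 : (η * (M : ℝ)) ^ (d - 2) ≠ 0 := by positivity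
      have h17 : C ≠ 0 := by linarith
      field_simp
    rw [h15]
    exact mul_le_mul_of_nonneg_right h13 (by positivity)
  -- the function
  refine ⟨fun z => if ∃ y ∈ F, rel v y = z ∨ rel v y = -z then 1 else 0, ?_, ?_, ?_, ?_, ?_⟩
  · intro z
    show 0 ≤ (if ∃ y ∈ F, rel v y = z ∨ rel v y = -z then (1 : ℝ) else 0) ∧
      (if ∃ y ∈ F, rel v y = z ∨ rel v y = -z then (1 : ℝ) else 0) ≤ 1
    split_ifs <;> norm_num
  · intro z
    show (if ∃ y ∈ F, rel v y = -z ∨ rel v y = - -z then (1 : ℝ) else 0) =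
      (if ∃ y ∈ F, rel v y = z ∨ rel v y = -z then (1 : ℝ) else 0)
    rw [neg_neg]
    by_cases h1 : ∃ y ∈ F, rel v y = z ∨ rel v y = -z
    · rw [if_pos h1, if_pos]
      obtain ⟨y, hy, h2⟩ := h1
      exact ⟨y, hy, h2.symm⟩
    · rw [if_neg h1, if_neg]
      rintro ⟨y, hy, h2⟩
      exact h1 ⟨y, hy, h2.symm⟩
  · intro z hz
    show (if ∃ y ∈ F, rel v y = z ∨ rel v y = -z then (1 : ℝ) else 0) = 0
    rw [if_neg]
    rintro ⟨y, hy, h2⟩
    have h3 := hFM y hy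
    rw [← I3_nd] at h3
    rcases h2 with h2 | h2
    · rw [h2] at h3
      omega
    · rw [h2, nz_neg] at h3
      omega
  · refine hcard.trans ?_
    show (F.card : ℝ) ≤ ∑ z ∈ bz M, (if ∃ y ∈ F, rel v y = z ∨ rel v y = -z then (1 : ℝ) else 0)
    rw [Finset.sum_boole]
    have h1 : F.card ≤ ((bz M : Finset (Zd d)).filter (fun z => ∃ y ∈ F, rel v y = z ∨ rel v y = -z)).card := by
      refine Finset.card_le_card_of_injOn (rel v) ?_ ((rel_inj v).injOn)
      intro y hy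
      show rel v y ∈ ((bz M : Finset (Zd d)).filter (fun z => ∃ y ∈ F, rel v y = z ∨ rel v y = -z))
      rw [Finset.mem_filter, mem_bz, I3_nd]
      exact ⟨hFM y hy, y, hy, Or.inl rfl⟩
    exact_mod_cast h1
  · intro l x y s hx hs0 hs2 hsM
    show b / (8 * 3 ^ d) * (if ∃ w ∈ F, rel v w = rel x y ∨ rel v w = -rel x y then (1 : ℝ) else 0) /
      (M : ℝ) ^ (d - 2) ≤ ta (gends (boxG d l)) (pc - s) x y
    have hr0 : 0 ≤ pc - s := by linarith
    have hr1 : pc - s ≤ 1 := by linarith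
    by_cases h1 : ∃ w ∈ F, rel v w = rel x y ∨ rel v w = -rel x y
    · rw [if_pos h1, mul_one]
      obtain ⟨w, hw, h2⟩ := h1
      have hss : s ≤ s1 := by
        rw [hs1, le_div_iff₀ (by positivity)]
        exact hsM
      have h3 : b / (8 * 3 ^ d) / (M : ℝ) ^ (d - 2) ≤
          ta (gends (boxG d (2 * (Λ * M) + 1))) (pc - s) v w := by
        refine (hFR w hw).trans ((hRta w).trans ?_)
        have h4 := rs_mono_p (ends := gends (boxG d (2 * (Λ * M) + 1))) hq0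
          (by linarith : pc - s1 ≤ pc - s) hr1 Set.univ v w
        rw [rs_univ, rs_univ] at h4
        exact h4
      have hxi : ∀ i, Λ * M + M ≤ (x i : ℕ) ∧ (x i : ℕ) + (Λ * M + M) < l := by
        intro i
        have h5 := hx i
        have h6 : (Λ + 1) * M = Λ * M + M := by ring
        rw [h6] at h5
        exact h5
      rcases h2 with h2 | h2
      · have hxI : In x (Λ * M) := by
          intro i
          have h5 := hxi i
          constructor <;> omega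
        rw [hv] at h2 h3
        exact h3.trans (I3_emb hxI hr0 hr1 w h2)
      · have hxy : nd x y ≤ M := by
          have h5 := hFM w hw
          rw [← I3_nd, h2, nz_neg, I3_nd] at h5
          exact h5
        have hyI : In y (Λ * M) := by
          intro i
          have h5 := hxi i
          have h6 : ((x i : ℕ) - (y i : ℕ)) + ((y i : ℕ) - (x i : ℕ)) ≤ M :=
            (Finset.le_sup (f := fun i => ((x i : ℕ) - (y i : ℕ)) + ((y i : ℕ) - (x i : ℕ)))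
              (Finset.mem_univ i)).trans hxy
          constructor <;> omega
        have h7 : rel v w = rel y x := by
          rw [h2]
          funext i
          simp only [rel, Pi.neg_apply]
          ring
        rw [hv] at h7 h3
        have h8 := h3.trans (I3_emb hyI hr0 hr1 w h7)
        exact h8.trans (I3_symm (pc - s) y x).le
    · rw [if_neg h1, mul_zero, zero_div]
      exact ta_nonneg hr0 hr1 x y

private lemma I4_single (i : Fin d) : nz (Pi.single i (1 : ℤ) : Zd d) ≤ 1 := by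
  unfold nz
  apply Finset.sup_le
  intro j _
  by_cases h : j = i
  · subst h
    rw [Pi.single_eq_same]
    simp
  · rw [Pi.single_eq_of_ne h, Int.natAbs_zero]
    exact Nat.zero_le _

private lemma I4_key (C c pc : ℝ) (h : GH d C c pc) (Λ M : ℕ) (c1 α : ℝ) (f : Zd d → ℝ) (hf : ∀ z, 0 ≤ f z)
    (hs : ∀ z, M < nz z → f z = 0) (hΛ : 2 ≤ Λ) (hc1 : 0 ≤ c1) (hG : GF d pc Λ c1 α M f)
    (l : ℕ) (x y : Fin d → Fin l) (s : ℝ) (hI : In x (Λ * M)) (h0 : 0 ≤ s) (h1 : s ≤ pc / 2)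
    (h2 : s * (M : ℝ) ^ 2 ≤ α) (z' : Zd d) (hz : nz (z' - rel x y) ≤ 1) :
    c1 * (pc / 2) ^ d * f z' / (M : ℝ) ^ (d - 2) ≤ ta (gends (boxG d l)) (pc - s) x y := by
  have hc := h.c0
  have hcp := h.cp
  have hp1 := h.p1
  have hq0 : 0 ≤ pc - s := by linarith
  have hq1 : pc - s ≤ 1 := by linarith
  by_cases hf0 : f z' = 0
  · rw [hf0, mul_zero, zero_div]
    exact ta_nonneg hq0 hq1 x y
  have hzM : nz z' ≤ M := by
    by_contra hcon
    exact hf0 (hs z' (by omega))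
  have hcoord : ∀ i, (z' i).natAbs ≤ M := fun i =>
    (Finset.le_sup (f := fun i => (z' i).natAbs) (Finset.mem_univ i)).trans hzM
  have hΛM : M ≤ Λ * M := Nat.le_mul_of_pos_left M (by omega)
  have hb : ∀ i, 0 ≤ ((x i : ℕ) : ℤ) + z' i ∧ ((x i : ℕ) : ℤ) + z' i < l := by
    intro i
    have h3 := hI i
    have h4 := hcoord i
    omega
  set y' : Fin d → Fin l := fun i => ⟨(((x i : ℕ) : ℤ) + z' i).toNat, by
    have := hb i
    omega⟩ with hy'
  have hrel : rel x y' = z' := by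
    funext i
    have := hb i
    simp only [rel, hy']
    omega
  have hnd : nd y' y ≤ 1 := by
    rw [← nz_rel x, hrel]
    exact hz
  have h5 : c1 * f z' / (M : ℝ) ^ (d - 2) ≤ ta (gends (boxG d l)) (pc - s) x y' := by
    have := hG l x y' s hI h0 h1 h2
    rwa [hrel] at this
  have h6 : (pc / 2) ^ d ≤ ta (gends (boxG d l)) (pc - s) y' y := by
    refine le_trans ?_ (ta_pos d l hq0 hq1 y' y)
    calc (pc / 2) ^ d ≤ (pc - s) ^ d := pow_le_pow_left₀ (by linarith) (by linarith) d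
      _ ≤ (pc - s) ^ (d * nd y' y) := by
        refine pow_le_pow_of_le_one hq0 hq1 ?_
        calc d * nd y' y ≤ d * 1 := Nat.mul_le_mul_left d hnd
          _ = d := Nat.mul_one d
  have h7 := rs_mul (ends := gends (boxG d l)) hq0 hq1 Set.univ x y' y
  rw [rs_univ, rs_univ, rs_univ] at h7
  refine le_trans ?_ h7
  have h8 : c1 * (pc / 2) ^ d * f z' / (M : ℝ) ^ (d - 2) = (c1 * f z' / (M : ℝ) ^ (d - 2)) * (pc / 2) ^ d := by
    ring
  rw [h8]
  refine mul_le_mul h5 h6 (pow_nonneg (by linarith) _) (ta_nonneg hq0 hq1 x y')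

/-- Row I4. Let `z = rel x y`. For each of the `2 d + 1` points `z'` (`z` and its neighbours) with `f z' ≠ 0` one has `nz z' ≤ M`, so `z' = rel x y'` with a vertex `y'` of the box (`In x (Λ M)`), `y' = y` or `y'` a neighbour of `y`: `ta x y ≥ ta x y' ta y' y ≥ (c1 f z'/M^(d-2)) (pc - s)` (`rs_mul`, `rs_univ`, `ta_pos` with `nd = 1` or directly), `pc - s ≥ pc/2`, `pc ≤ 1`. Average.
The vertex `y` has `nz z ≤ M + 1` otherwise `thk f z = 0`. -/
theorem GF_thk (C c pc : ℝ) (h : GH d C c pc) (Λ M : ℕ) (c1 α : ℝ) (f : Zd d → ℝ) (hf : ∀ z, 0 ≤ f z) (hs : ∀ z, M < nz z → f z = 0) (hΛ : 2 ≤ Λ) (hM : 1 ≤ M)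
    (hc1 : 0 ≤ c1) (hG : GF d pc Λ c1 α M f) : GF d pc Λ (c1 * (pc / 2) ^ d) α M (thk f) := by
  intro l x y s hI h0 h1 h2
  have key := I4_key C c pc h Λ M c1 α f hf hs hΛ hc1 hG l x y s hI h0 h1 h2
  set t := ta (gends (boxG d l)) (pc - s) x y with ht
  set z := rel x y with hz
  set K : ℝ := c1 * (pc / 2) ^ d / (M : ℝ) ^ (d - 2) with hK
  have k0 : K * f z ≤ t := by
    have h3 := key z (by rw [sub_self, nz_zero]; omega)
    calc K * f z = c1 * (pc / 2) ^ d * f z / (M : ℝ) ^ (d - 2) := by rw [hK]; ring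
      _ ≤ t := h3
  have k1 : ∀ i, K * f (z + Pi.single i 1) ≤ t := by
    intro i
    have h3 := key (z + Pi.single i 1) (by rw [add_sub_cancel_left]; exact I4_single i)
    calc K * f (z + Pi.single i 1) = c1 * (pc / 2) ^ d * f (z + Pi.single i 1) / (M : ℝ) ^ (d - 2) := by
          rw [hK]; ring
      _ ≤ t := h3
  have k2 : ∀ i, K * f (z - Pi.single i 1) ≤ t := by
    intro i
    have h3 := key (z - Pi.single i 1) (by
      have h4 : z - Pi.single i 1 - z = -(Pi.single i 1 : Zd d) := by abel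
      rw [h4, nz_neg]
      exact I4_single i)
    calc K * f (z - Pi.single i 1) = c1 * (pc / 2) ^ d * f (z - Pi.single i 1) / (M : ℝ) ^ (d - 2) := by
          rw [hK]; ring
      _ ≤ t := h3
  have h9 : K * (f z + ∑ i, (f (z + Pi.single i 1) + f (z - Pi.single i 1))) ≤ (2 * d + 1) * t := by
    rw [mul_add, Finset.mul_sum]
    have h10 : ∑ i : Fin d, K * (f (z + Pi.single i 1) + f (z - Pi.single i 1)) ≤ ∑ _i : Fin d, 2 * t := by
      refine Finset.sum_le_sum fun i _ => ?_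
      rw [mul_add]
      linarith [k1 i, k2 i]
    rw [Finset.sum_const, Finset.card_univ, Fintype.card_fin, nsmul_eq_mul] at h10
    linarith
  have hd0 : (0 : ℝ) < 2 * d + 1 := by positivity
  have h11 : c1 * (pc / 2) ^ d * thk f z / (M : ℝ) ^ (d - 2) =
      K * (f z + ∑ i, (f (z + Pi.single i 1) + f (z - Pi.single i 1))) / (2 * d + 1) := by
    unfold thk
    rw [hK]
    ring
  rw [h11, div_le_iff₀ hd0]
  linarith

private theorem I5_symm {l : ℕ} (p : ℝ) (x y : Fin d → Fin l) : ta (gends (boxG d l)) p x y = ta (gends (boxG d l)) p y x := by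
  unfold ta
  refine Ex_congr fun ω => ?_
  exact if_congr cu_symm rfl rfl

private theorem I5_nz {l : ℕ} (x y : Fin d → Fin l) : nz (rel x y) = nd x y := by
  have h := nz_rel x y x
  have h0 : rel x x = 0 := by
    funext i
    simp [rel]
  rw [h0, sub_zero] at h
  rw [h, nd_symm]

private theorem I5_le (z : Zd d) (k : ℕ) : nz z ≤ k ↔ ∀ i, -(k : ℤ) ≤ z i ∧ z i ≤ (k : ℤ) := by
  unfold nz
  rw [Finset.sup_le_iff]
  constructor
  · intro h i
    have h1 := h i (Finset.mem_univ i)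
    omega
  · intro h i _
    have h1 := h i
    omega

private theorem I5_rel {l : ℕ} (i0 : Fin d) (r : ℕ) (x y a : Fin d → Fin l) (h : (a i0 : ℕ) + r < l) :
    rel x a = rel x y - Pi.single i0 (r : ℤ) - rel (shr i0 r a) y := by
  funext j
  simp only [Pi.sub_apply, rel]
  by_cases hj : j = i0
  · subst hj
    have h1 : ((shr j r a j : Fin l) : ℕ) = (a j : ℕ) + r := B7_upd_same j a _ h
    rw [h1, Pi.single_eq_same]
    push_cast
    ring
  · have h1 : shr i0 r a j = a j := B7_upd_ne i0 a _ j hj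
    rw [h1, Pi.single_eq_of_ne hj]
    ring

private theorem I5_ctr {n : ℕ} (a : Fin d → Fin (2 * n + 1)) (i : Fin d) : rel (ctr d n) a i = ((a i : ℕ) : ℤ) - (n : ℤ) := rfl

private theorem I5_mainsum {n : ℕ} (i0 : Fin d) (r R B : ℕ) (y : Fin d → Fin (2 * n + 1)) (f g : Zd d → ℝ)
    (hf : ∀ z, R < nz z → f z = 0) (hR : R + r ≤ n) (W : Finset (Fin d → Fin (2 * n + 1)))
    (hW : ∀ a, a ∈ W ↔ nd (ctr d n) a ≤ R ∧ nd y (shr i0 r a) ≤ B) :
    ∑ b ∈ bz B, g b * f (rel (ctr d n) y - Pi.single i0 (r : ℤ) - b) =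
      ∑ a ∈ W, f (rel (ctr d n) a) * g (rel (shr i0 r a) y) := by
  classical
  have room : ∀ a : Fin d → Fin (2 * n + 1), nd (ctr d n) a ≤ R → (a i0 : ℕ) + r < 2 * n + 1 := by
    intro a ha
    rw [← I5_nz, I5_le] at ha
    have h1 := ha i0
    rw [I5_ctr] at h1
    omega
  have hinj : Set.InjOn (fun a => rel (shr i0 r a) y) (W : Set (Fin d → Fin (2 * n + 1))) := by
    intro a ha b hb hab
    have hab' : rel (shr i0 r a) y = rel (shr i0 r b) y := hab
    apply rel_inj (ctr d n)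
    rw [I5_rel i0 r (ctr d n) y a (room a ((hW a).1 ha).1), I5_rel i0 r (ctr d n) y b (room b ((hW b).1 hb).1), hab']
  have h1 : ∑ a ∈ W, f (rel (ctr d n) a) * g (rel (shr i0 r a) y) =
      ∑ b ∈ W.image (fun a => rel (shr i0 r a) y), g b * f (rel (ctr d n) y - Pi.single i0 (r : ℤ) - b) := by
    rw [Finset.sum_image hinj]
    refine Finset.sum_congr rfl fun a ha => ?_
    rw [← I5_rel i0 r (ctr d n) y a (room a ((hW a).1 ha).1), mul_comm]
  rw [h1]
  symm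
  refine Finset.sum_subset ?_ ?_
  · intro b hb
    obtain ⟨a, ha, rfl⟩ := Finset.mem_image.1 hb
    rw [mem_bz]
    show nz (rel (shr i0 r a) y) ≤ B
    rw [I5_nz, nd_symm]
    exact ((hW a).1 ha).2
  · intro b hb hbn
    by_cases hz : R < nz (rel (ctr d n) y - Pi.single i0 (r : ℤ) - b)
    · rw [hf _ hz, mul_zero]
    exfalso
    push Not at hz
    apply hbn
    set t : Zd d := rel (ctr d n) y - Pi.single i0 (r : ℤ) - b with ht
    have hz' := (I5_le t R).1 hz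
    set a : Fin d → Fin (2 * n + 1) := fun i => ⟨((n : ℤ) + t i).toNat, by have := hz' i; omega⟩ with ha
    have hra : rel (ctr d n) a = t := by
      funext i
      rw [I5_ctr]
      have h2 := hz' i
      have h3 : ((a i : Fin (2 * n + 1)) : ℕ) = ((n : ℤ) + t i).toNat := rfl
      rw [h3]
      omega
    have hna : nd (ctr d n) a ≤ R := by
      rw [← I5_nz, hra]
      exact hz
    have hb' : rel (shr i0 r a) y = b := by
      have h4 := I5_rel i0 r (ctr d n) y a (room a hna)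
      rw [hra, ht] at h4
      exact (sub_right_injective h4).symm
    rw [Finset.mem_image]
    refine ⟨a, (hW a).2 ⟨hna, ?_⟩, hb'⟩
    rw [nd_symm, ← I5_nz, hb']
    exact (mem_bz B b).1 hb

private theorem I5_sum (C : ℝ) {l : ℕ} {q : ℝ} (h0 : 0 ≤ q) (h1 : q ≤ 1) (hC : 1 ≤ C)
    (hU : ∀ x y : Fin d → Fin l, ta (gends (boxG d l)) q x y ≤ C * fk (d - 2) x y)
    (W : Finset (Fin d → Fin l)) (sh : (Fin d → Fin l) → (Fin d → Fin l)) (x y : Fin d → Fin l) :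
    ∑ a ∈ W, ∑ z, ∑ w, ta (gends (boxG d l)) q x z * ta (gends (boxG d l)) q z a * ta (gends (boxG d l)) q z w *
        ta (gends (boxG d l)) q y w * ta (gends (boxG d l)) q w (sh a) ≤
      C ^ 5 * ∑ a ∈ W, ∑ z, ∑ w, fk (d - 2) x z * fk (d - 2) z a * fk (d - 2) z w * fk (d - 2) y w * fk (d - 2) w (sh a) := by
  have hf0 : ∀ u v : Fin d → Fin l, 0 ≤ fk (d - 2) u v := by
    intro u v
    unfold fk
    positivity
  have ht0 : ∀ u v : Fin d → Fin l, 0 ≤ ta (gends (boxG d l)) q u v := fun u v => ta_nonneg h0 h1 u v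
  rw [Finset.mul_sum]
  refine Finset.sum_le_sum fun a _ => ?_
  rw [Finset.mul_sum]
  refine Finset.sum_le_sum fun z _ => ?_
  rw [Finset.mul_sum]
  refine Finset.sum_le_sum fun w _ => ?_
  have hm : ∀ {t1 t2 f1 f2 : ℝ}, t1 ≤ f1 → t2 ≤ f2 → 0 ≤ t2 → 0 ≤ f1 → t1 * t2 ≤ f1 * f2 :=
    fun a1 a2 a3 a4 => mul_le_mul a1 a2 a3 a4
  have hC0 : 0 ≤ C := by linarith
  have g1 := hm (hU x z) (hU z a) (ht0 z a) (mul_nonneg hC0 (hf0 x z))
  have g2 := hm g1 (hU z w) (ht0 z w) (mul_nonneg (mul_nonneg hC0 (hf0 x z)) (mul_nonneg hC0 (hf0 z a)))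
  have g3 := hm g2 (hU y w) (ht0 y w) (mul_nonneg (mul_nonneg (mul_nonneg hC0 (hf0 x z)) (mul_nonneg hC0 (hf0 z a)))
    (mul_nonneg hC0 (hf0 z w)))
  have g4 := hm g3 (hU w (sh a)) (ht0 w (sh a)) (mul_nonneg (mul_nonneg (mul_nonneg (mul_nonneg hC0 (hf0 x z)) (mul_nonneg hC0 (hf0 z a)))
    (mul_nonneg hC0 (hf0 z w))) (mul_nonneg hC0 (hf0 y w)))
  refine g4.trans (le_of_eq ?_)
  ring

private theorem I5_err (L δ M D l sr : ℝ) (d : ℕ) (hd : 9 ≤ d) (hL : 1 ≤ L) (hδ : 0 < δ) (hδ1 : δ ≤ 1) (hM : 1 ≤ M) (hl0 : 0 ≤ l) (hl : l ≤ L * M)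
    (hD : δ * M ≤ D) (hsr : 0 < sr) :
    l ^ 2 / D ^ (d - 2) / sr + l ^ 6 / D ^ (2 * d - 4) ≤ L ^ 6 / (δ ^ (d - 2)) ^ 2 * (M ^ 2 / M ^ (d - 2)) * (1 / sr + 1 / M) := by
  have hM0 : 0 < M := by linarith
  have hδM : 0 < δ * M := by positivity
  have hD0 : 0 < D := by linarith
  set Q : ℝ := δ ^ (d - 2) with hQ
  set P : ℝ := M ^ (d - 2) with hP
  have hQ0 : 0 < Q := by positivity
  have hP0 : 0 < P := by positivity
  have hQ1 : Q ≤ 1 := pow_le_one₀ hδ.le hδ1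
  have hQP : Q * P ≤ D ^ (d - 2) := by
    rw [hQ, hP, ← mul_pow]
    exact pow_le_pow_left₀ hδM.le hD _
  have hDD : D ^ (2 * d - 4) = (D ^ (d - 2)) ^ 2 := by
    rw [← pow_mul]
    congr 1
    omega
  have hP5 : M ^ 5 ≤ P := pow_le_pow_right₀ hM (by omega)
  have hl2 : l ^ 2 ≤ (L * M) ^ 2 := pow_le_pow_left₀ hl0 hl 2
  have hl6 : l ^ 6 ≤ (L * M) ^ 6 := pow_le_pow_left₀ hl0 hl 6
  have h1 : l ^ 2 / D ^ (d - 2) ≤ L ^ 6 / Q ^ 2 * (M ^ 2 / P) := by
    have e1 : l ^ 2 / D ^ (d - 2) ≤ (L * M) ^ 2 / (Q * P) := div_le_div₀ (by positivity) hl2 (by positivity) hQP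
    have e2 : (L * M) ^ 2 / (Q * P) = L ^ 2 / Q * (M ^ 2 / P) := by
      field_simp
    rw [e2] at e1
    refine e1.trans (mul_le_mul_of_nonneg_right ?_ (by positivity))
    refine div_le_div₀ (by positivity) (pow_le_pow_right₀ hL (by omega)) (by positivity) ?_
    rw [pow_two]
    exact mul_le_of_le_one_right hQ0.le hQ1
  have h2 : l ^ 6 / D ^ (2 * d - 4) ≤ L ^ 6 / Q ^ 2 * (M ^ 2 / P) * (1 / M) := by
    rw [hDD]
    have e1 : l ^ 6 / (D ^ (d - 2)) ^ 2 ≤ (L * M) ^ 6 / (Q * P) ^ 2 :=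
      div_le_div₀ (by positivity) hl6 (by positivity) (pow_le_pow_left₀ (by positivity) hQP 2)
    have e2 : (L * M) ^ 6 / (Q * P) ^ 2 = L ^ 6 / Q ^ 2 * (M ^ 2 / P) * (M ^ 4 / P) := by
      field_simp
    rw [e2] at e1
    refine e1.trans (mul_le_mul_of_nonneg_left ?_ (by positivity))
    rw [div_le_div_iff₀ hP0 hM0]
    calc M ^ 4 * M = M ^ 5 := by ring
      _ ≤ 1 * P := by rw [one_mul]; exact hP5
  have h3 : l ^ 2 / D ^ (d - 2) / sr ≤ L ^ 6 / Q ^ 2 * (M ^ 2 / P) * (1 / sr) := by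
    rw [mul_one_div]
    exact div_le_div_of_nonneg_right h1 hsr.le
  calc _ ≤ L ^ 6 / Q ^ 2 * (M ^ 2 / P) * (1 / sr) + L ^ 6 / Q ^ 2 * (M ^ 2 / P) * (1 / M) := add_le_add h3 h2
    _ = _ := by ring

private theorem I5_fin (α3 c12 ε S M P T sr X E pr pl μ : ℝ) (hα3 : 0 < α3) (hc : 0 < c12) (hM : 0 < M) (hP : 0 < P) (hsr : 0 < sr)
    (hT1 : T / sr ≤ c12 * ε / 2) (hT2 : T / M ≤ c12 * ε / 2)
    (hX : c12 / P ^ 2 * S ≤ X) (hE : E ≤ T * (M ^ 2 / P) * (1 / sr + 1 / M)) (hpl : 0 ≤ pl) (hpr : pl ≤ pr) (hμ : 0 < μ)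
    (hS : 0 ≤ S / (M ^ 2 * P) - ε) :
    α3 * (pl / μ) * c12 * (S / (M ^ 2 * P) - ε) / P ≤ α3 / M ^ 2 * (pr / μ * (X - E)) := by
  have hu : 0 < M ^ 2 / P := by positivity
  have h1 : E ≤ (M ^ 2 / P) * (c12 * ε) := by
    have e1 : T * (M ^ 2 / P) * (1 / sr + 1 / M) = (M ^ 2 / P) * (T / sr + T / M) := by ring
    rw [e1] at hE
    refine hE.trans (mul_le_mul_of_nonneg_left ?_ hu.le)
    linarith
  have h2 : c12 * (M ^ 2 / P) * (S / (M ^ 2 * P) - ε) ≤ X - E := by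
    have e2 : c12 * (M ^ 2 / P) * (S / (M ^ 2 * P)) = c12 / P ^ 2 * S := by
      field_simp
    have e3 : c12 * (M ^ 2 / P) * (S / (M ^ 2 * P) - ε) = c12 / P ^ 2 * S - (M ^ 2 / P) * (c12 * ε) := by
      rw [mul_sub, e2]
      ring
    rw [e3]
    linarith
  have h3 : 0 ≤ c12 * (M ^ 2 / P) * (S / (M ^ 2 * P) - ε) := by positivity
  have h4 : pl / μ ≤ pr / μ := div_le_div_of_nonneg_right hpr hμ.le
  have h5 : pl / μ * (c12 * (M ^ 2 / P) * (S / (M ^ 2 * P) - ε)) ≤ pr / μ * (X - E) :=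
    mul_le_mul h4 h2 h3 (div_nonneg (hpl.trans hpr) hμ.le)
  have h6 : α3 * (pl / μ) * c12 * (S / (M ^ 2 * P) - ε) / P =
      α3 / M ^ 2 * (pl / μ * (c12 * (M ^ 2 / P) * (S / (M ^ 2 * P) - ε))) := by
    generalize S / (M ^ 2 * P) - ε = v
    field_simp
  rw [h6]
  exact mul_le_mul_of_nonneg_left h5 (by positivity)

private theorem I5_core (C c pc K : ℝ) (h : GH d C c pc) (hK1 : 1 ≤ K)
    (hK : ∀ (l r : ℕ) (W : Finset (Fin d → Fin l)) (sh : (Fin d → Fin l) → (Fin d → Fin l)) (x y : Fin d → Fin l),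
      Set.InjOn sh W → (∀ a ∈ W, nd a (sh a) = r) → 1 ≤ r → 16 * r ≤ nd x y →
      ∑ a ∈ W, ∑ z, ∑ w, fk (d - 2) x z * fk (d - 2) z a * fk (d - 2) z w * fk (d - 2) y w * fk (d - 2) w (sh a) ≤
        K * ((l : ℝ) ^ 2 / (nd x y : ℝ) ^ (d - 2) / Real.sqrt r + (l : ℝ) ^ 6 / (nd x y : ℝ) ^ (2 * d - 4)))
    (i0 : Fin d) (Λ1 Λ2 A : ℕ) (c1 c2 α1 α2 α3 δ ε : ℝ) (hc1 : 0 < c1) (hc2 : 0 < c2) (hα3 : 0 < α3)
    (h31 : 2 * α3 ≤ α1) (h32 : 2 * α3 ≤ α2) (hδ : 0 < δ) (hδ1 : δ ≤ 1) (r M n : ℕ) (hr : 1 ≤ r) (hn : n = (A + Λ1 + Λ2 + 4) * M)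
    (hM : 1 ≤ M) (hrM : 16 * (r : ℝ) ≤ δ * M) (hαM : 2 * α3 ≤ c * (M : ℝ) ^ 2)
    (hT1 : C ^ 5 * K * ((2 * ((A + Λ1 + Λ2 + 4 : ℕ) : ℝ) + 1) ^ 6 / (δ ^ (d - 2)) ^ 2) / Real.sqrt r ≤ c1 * c2 * ε / 2)
    (hT2 : C ^ 5 * K * ((2 * ((A + Λ1 + Λ2 + 4 : ℕ) : ℝ) + 1) ^ 6 / (δ ^ (d - 2)) ^ 2) / M ≤ c1 * c2 * ε / 2)
    (f g : Zd d → ℝ) (hf0 : ∀ z, 0 ≤ f z) (hg0 : ∀ z, 0 ≤ g z) (hfs : ∀ z, A * M < nz z → f z = 0)
    (hF : GF d pc Λ1 c1 α1 M f) (hG : GF d pc Λ2 c2 α2 M g)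
    (y : Fin d → Fin (2 * n + 1)) (s : ℝ) (hs0 : 0 ≤ s) (hs2 : s * (M : ℝ) ^ 2 ≤ α3) (hD : δ * M ≤ (nd (ctr d n) y : ℝ))
    (hS : 0 ≤ (∑ b ∈ bz (M + 1), g b * f (rel (ctr d n) y - Pi.single i0 (r : ℤ) - b)) / (M : ℝ) ^ d - ε) :
    α3 * ((pc / 2) ^ r / ((2 * r + 1 : ℕ) : ℝ)) * (c1 * c2) *
      ((∑ b ∈ bz (M + 1), g b * f (rel (ctr d n) y - Pi.single i0 (r : ℤ) - b)) / (M : ℝ) ^ d - ε) / (M : ℝ) ^ (d - 2) ≤
      ta (gends (boxG d (2 * n + 1))) (pc - s) (ctr d n) y := by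
  classical
  have hd := h.d9
  have hC1 := h.C1
  have hc0 := h.c0
  have hcp := h.cp
  have hp1 := h.p1
  have hpc0 := h.p0
  have hM1 : (1 : ℝ) ≤ (M : ℝ) := by exact_mod_cast hM
  have hM0 : (0 : ℝ) < (M : ℝ) := by linarith
  have hM2 : (0 : ℝ) < (M : ℝ) ^ 2 := by positivity
  have hrr : (1 : ℝ) ≤ r := by exact_mod_cast hr
  have hsr0 : 0 < Real.sqrt r := Real.sqrt_pos.2 (by linarith)
  have hrM' : r + 1 ≤ M := by
    have h1 : (16 : ℝ) * r ≤ M := hrM.trans (by nlinarith)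
    have h2 : 16 * r ≤ M := by exact_mod_cast h1
    omega
  have hAM : A * M + r + 1 ≤ n := by
    rw [hn]
    nlinarith
  have hA1 : A * M + r + 1 + Λ1 * M ≤ n := by
    rw [hn]
    nlinarith
  have hA2 : A * M + r + 1 + Λ2 * M ≤ n := by
    rw [hn]
    nlinarith
  have hκl : α3 / (M : ℝ) ^ 2 * (M : ℝ) ^ 2 = α3 := div_mul_cancel₀ _ hM2.ne'
  have hκ0 : 0 < α3 / (M : ℝ) ^ 2 := by positivity
  set κ : ℝ := α3 / (M : ℝ) ^ 2 with hκ
  have hsκ : (s + κ) * (M : ℝ) ^ 2 ≤ 2 * α3 := by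
    rw [add_mul, hκl]
    linarith
  have hsκc : s + κ ≤ c := le_of_mul_le_mul_right (hsκ.trans hαM) hM2
  have hsc : s ≤ c := by linarith
  set q : ℝ := pc - s with hq
  set p : ℝ := pc - (s + κ) with hp
  have hqp : q - p = κ := by rw [hq, hp]; ring
  have hppc : pc / 2 ≤ p := by rw [hp]; linarith
  have hp0 : 0 < p := by linarith
  have hpq : p ≤ q := by linarith
  have hq1 : q < 1 := by rw [hq]; linarith
  obtain ⟨F, hF1, hF2, hF3⟩ := paths i0 (2 * n + 1) r hr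
  set W : Finset (Fin d → Fin (2 * n + 1)) := Finset.univ.filter (fun a => nd (ctr d n) a ≤ A * M ∧ nd y (shr i0 r a) ≤ M + 1) with hWdef
  have hW : ∀ a, a ∈ W ↔ nd (ctr d n) a ≤ A * M ∧ nd y (shr i0 r a) ≤ M + 1 := by
    intro a
    rw [hWdef, Finset.mem_filter]
    simp
  have hcoord : ∀ a ∈ W, ∀ i, n ≤ (a i : ℕ) + A * M ∧ (a i : ℕ) ≤ n + A * M := by
    intro a ha i
    have h1 := ((hW a).1 ha).1
    rw [← I5_nz, I5_le] at h1
    have h2 := h1 i
    rw [I5_ctr] at h2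
    push_cast at h2
    omega
  have hroom : ∀ a ∈ W, (a i0 : ℕ) + r < 2 * n + 1 := by
    intro a ha
    have h1 := hcoord a ha i0
    omega
  have hconv := conv_low (ends := gends (boxG d (2 * n + 1))) hp0 hpq hq1 (ctr d n) y W (shr i0 r) F r (2 * r + 1) (by omega)
    (fun a ha => (hF1 a (hroom a ha)).1) (fun a ha => (hF1 a (hroom a ha)).2.1) (fun e => hF2 W e hroom)
  rw [hqp] at hconv
  refine le_trans ?_ hconv
  have hMd : (M : ℝ) ^ d = (M : ℝ) ^ 2 * (M : ℝ) ^ (d - 2) := by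
    rw [← pow_add]
    congr 1
    omega
  rw [hMd] at hS ⊢
  -- the main sum
  have hmain : c1 * c2 / ((M : ℝ) ^ (d - 2)) ^ 2 * (∑ b ∈ bz (M + 1), g b * f (rel (ctr d n) y - Pi.single i0 (r : ℤ) - b)) ≤
      ∑ a ∈ W, ta (gends (boxG d (2 * n + 1))) p (ctr d n) a * ta (gends (boxG d (2 * n + 1))) p y (shr i0 r a) := by
    rw [I5_mainsum i0 r (A * M) (M + 1) y f g hfs (by omega) W hW, Finset.mul_sum]
    refine Finset.sum_le_sum fun a ha => ?_
    have hin1 : In (ctr d n) (Λ1 * M) := by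
      intro i
      have h1 : ((ctr d n i : Fin (2 * n + 1)) : ℕ) = n := rfl
      rw [h1]
      omega
    have hin2 : In (shr i0 r a) (Λ2 * M) := by
      intro i
      have h1 := hcoord a ha i
      by_cases hi : i = i0
      · subst hi
        have h2 : ((shr i r a i : Fin (2 * n + 1)) : ℕ) = (a i : ℕ) + r := B7_upd_same i a _ (hroom a ha)
        rw [h2]
        omega
      · have h2 : shr i0 r a i = a i := B7_upd_ne i0 a _ i hi
        rw [h2]
        omega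
    have v1 := hF (2 * n + 1) (ctr d n) a (s + κ) hin1 (by linarith) (by linarith) (hsκ.trans h31)
    have v2 := hG (2 * n + 1) (shr i0 r a) y (s + κ) hin2 (by linarith) (by linarith) (hsκ.trans h32)
    rw [I5_symm] at v2
    have v3 : 0 ≤ c2 * g (rel (shr i0 r a) y) / (M : ℝ) ^ (d - 2) := by
      have := hg0 (rel (shr i0 r a) y)
      positivity
    have v4 : 0 ≤ ta (gends (boxG d (2 * n + 1))) p (ctr d n) a := ta_nonneg hp0.le (by linarith) _ _
    refine le_trans (le_of_eq ?_) (mul_le_mul v1 v2 v3 v4)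
    have hP0 : (M : ℝ) ^ (d - 2) ≠ 0 := by positivity
    field_simp
  -- the error
  have herr : ∑ a ∈ W, ∑ z, ∑ w, ta (gends (boxG d (2 * n + 1))) q (ctr d n) z * ta (gends (boxG d (2 * n + 1))) q z a *
      ta (gends (boxG d (2 * n + 1))) q z w * ta (gends (boxG d (2 * n + 1))) q y w * ta (gends (boxG d (2 * n + 1))) q w (shr i0 r a) ≤
      C ^ 5 * K * ((2 * ((A + Λ1 + Λ2 + 4 : ℕ) : ℝ) + 1) ^ 6 / (δ ^ (d - 2)) ^ 2) * ((M : ℝ) ^ 2 / (M : ℝ) ^ (d - 2)) * (1 / Real.sqrt r + 1 / M) := by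
    refine (I5_sum C (by linarith) hq1.le hC1 (fun u v => h.U0 (2 * n + 1) u v s hs0 hsc) W (shr i0 r) (ctr d n) y).trans ?_
    have w1 := hK (2 * n + 1) r W (shr i0 r) (ctr d n) y (hF3 W hroom) (fun a ha => (hF1 a (hroom a ha)).2.2) hr (by
      have : (16 : ℝ) * r ≤ (nd (ctr d n) y : ℝ) := by linarith
      exact_mod_cast this)
    have hC5 : 0 ≤ C ^ 5 := by positivity
    refine (mul_le_mul_of_nonneg_left w1 hC5).trans ?_
    have hl : (((2 * n + 1 : ℕ) : ℕ) : ℝ) ≤ (2 * ((A + Λ1 + Λ2 + 4 : ℕ) : ℝ) + 1) * M := by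
      rw [hn]
      push_cast
      nlinarith
    have w2 := I5_err (2 * ((A + Λ1 + Λ2 + 4 : ℕ) : ℝ) + 1) δ M (nd (ctr d n) y) ((2 * n + 1 : ℕ) : ℝ) (Real.sqrt r) d hd
      (by
        have : (0 : ℝ) ≤ ((A + Λ1 + Λ2 + 4 : ℕ) : ℝ) := Nat.cast_nonneg _
        linarith) hδ hδ1 hM1 (Nat.cast_nonneg _) hl hD hsr0
    have hCK : 0 ≤ C ^ 5 * K := by positivity
    calc C ^ 5 * (K * ((((2 * n + 1 : ℕ) : ℕ) : ℝ) ^ 2 / (nd (ctr d n) y : ℝ) ^ (d - 2) / Real.sqrt r +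
          (((2 * n + 1 : ℕ) : ℕ) : ℝ) ^ 6 / (nd (ctr d n) y : ℝ) ^ (2 * d - 4)))
        = C ^ 5 * K * ((((2 * n + 1 : ℕ) : ℕ) : ℝ) ^ 2 / (nd (ctr d n) y : ℝ) ^ (d - 2) / Real.sqrt r +
          (((2 * n + 1 : ℕ) : ℕ) : ℝ) ^ 6 / (nd (ctr d n) y : ℝ) ^ (2 * d - 4)) := by ring
      _ ≤ C ^ 5 * K * ((2 * ((A + Λ1 + Λ2 + 4 : ℕ) : ℝ) + 1) ^ 6 / (δ ^ (d - 2)) ^ 2 * ((M : ℝ) ^ 2 / (M : ℝ) ^ (d - 2)) *
          (1 / Real.sqrt r + 1 / M)) := mul_le_mul_of_nonneg_left w2 hCK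
      _ = _ := by ring
  have hμ0 : (0 : ℝ) < ((2 * r + 1 : ℕ) : ℝ) := by positivity
  exact I5_fin α3 (c1 * c2) ε _ M ((M : ℝ) ^ (d - 2)) _ (Real.sqrt r) _ _ (p ^ r) ((pc / 2) ^ r) _ hα3 (by positivity) hM0 (by positivity) hsr0
    hT1 hT2 hmain herr (by positivity) (pow_le_pow_left₀ (by positivity) hppc r) hμ0 hS

/-- Row I5. `Λ3 = A + Λ1 + Λ2 + 4`, `α3 = min α1 α2 / 2`. Let `z = rel x y`, `δ M ≤ nz z`; if the sum over `b` is not `0` then `nz z ≤ A M + M + 1 + r ≤ (A + 2) M` (`M0 ≥ r + 1`). Replace the box by the sub-box of side `l' = 2 Λ3 M + 1` with centre `x` (`box_box`, `ta_box`). `q = pc - s`, `p = q - α3/M²` (`(s + α3/M²) M² ≤ min α1 α2`, `s + α3/M² ≤ 2 α3/M² ≤ min c (pc/2)` for `M ≥ M0`).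
`conv_low` with `μ = 2 r + 1`, `paths i0`, `A = W` the set of the `a` with `nd x a ≤ A M`, `nd y (shr i0 r a) ≤ M + 1` (there is room): `ta p x a ≥ c1 f (rel x a)/M^(d-2)`, `ta p y (shr a) = ta p (shr a) y ≥ c2 g (rel (shr a) y)/M^(d-2)` (`In x (Λ1 M)`, `In (shr a) (Λ2 M)` in the sub-box); with `b = rel (shr a) y` one has `rel x a = z - r e - b`, so the main sum is at least
`c1 c2 M^(4-2d) ∑_{b ∈ bz (M+1)} g b f (z - r e - b)` (terms with `z - r e - b` outside `bz (A M)` vanish). The error (`GH.U0` for `q`, `err_box` with `16 r ≤ δ M ≤ nd x y`): `≤ C⁵ K (l'²/(δ M)^(d-2)/√r + l'⁶/(δ M)^(2d-4)) ≤ K' (1/√r + M^(6-d)) M^(4-d)`, `K'` independent of `r`. Choose `r` with `K'/√r ≤ c1 c2 ε/2`, then `M0`.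
So `ta q x y ≥ (α3/M²) ((pc/2)^r/(2r+1)) c1 c2 M^(4-d) (sum/M^d - ε)`. If the value of the new function is `0` there is nothing to prove. -/
theorem GF_conv (C c pc : ℝ) (h : GH d C c pc) (i0 : Fin d) (Λ1 Λ2 A : ℕ) (c1 c2 α1 α2 δ ε : ℝ) (hc1 : 0 < c1) (hc2 : 0 < c2) (hα1 : 0 < α1) (hα2 : 0 < α2) (hδ : 0 < δ) (hδ1 : δ ≤ 1) (hε : 0 < ε) :
    ∃ (c3 α3 : ℝ) (r Λ3 M0 : ℕ), 0 < c3 ∧ 0 < α3 ∧ ∀ (M : ℕ) (f g : Zd d → ℝ), M0 ≤ M → (∀ z, 0 ≤ f z) → (∀ z, 0 ≤ g z) → (∀ z, A * M < nz z → f z = 0) →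
      GF d pc Λ1 c1 α1 M f → GF d pc Λ2 c2 α2 M g →
      GF d pc Λ3 c3 α3 M (fun z => if δ * M ≤ nz z then max 0 ((∑ b ∈ bz (M + 1), g b * f (z - Pi.single i0 (r : ℤ) - b)) / (M : ℝ) ^ d - ε) else 0) := by
  have hd := h.d9
  have hC1 := h.C1
  have hc0 := h.c0
  have hcp := h.cp
  have hp1 := h.p1
  have hpc0 := h.p0
  obtain ⟨K, hK1, hK⟩ := err_box d hd
  obtain ⟨T, hT⟩ : ∃ T : ℝ, T = C ^ 5 * K * ((2 * ((A + Λ1 + Λ2 + 4 : ℕ) : ℝ) + 1) ^ 6 / (δ ^ (d - 2)) ^ 2) := ⟨_, rfl⟩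
  have hT0 : 0 < T := by
    rw [hT]
    positivity
  have hη0 : 0 < c1 * c2 * ε / 2 := by positivity
  obtain ⟨r, hr1, hr0⟩ : ∃ r : ℕ, 1 ≤ r ∧ (T / (c1 * c2 * ε / 2)) ^ 2 ≤ r := by
    obtain ⟨r0, hr0⟩ := exists_nat_gt ((T / (c1 * c2 * ε / 2)) ^ 2)
    refine ⟨r0 + 1, by omega, ?_⟩
    push_cast
    linarith
  have hrr : (1 : ℝ) ≤ r := by exact_mod_cast hr1
  have hsr0 : 0 < Real.sqrt r := Real.sqrt_pos.2 (by linarith)
  have hsr : T / (c1 * c2 * ε / 2) ≤ Real.sqrt r := by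
    exact Real.le_sqrt_of_sq_le hr0
  obtain ⟨α3, hα30, h31, h32⟩ : ∃ α3 : ℝ, 0 < α3 ∧ 2 * α3 ≤ α1 ∧ 2 * α3 ≤ α2 := by
    refine ⟨min α1 α2 / 2, ?_, ?_, ?_⟩
    · have := lt_min hα1 hα2
      linarith
    · have := min_le_left α1 α2
      linarith
    · have := min_le_right α1 α2
      linarith
  obtain ⟨M0, hM0⟩ := exists_nat_gt (16 * r / δ + 2 * α3 / c + T / (c1 * c2 * ε / 2) + 1)
  have t1 : 0 < 16 * r / δ := by positivity
  have t2 : 0 < 2 * α3 / c := by positivity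
  have t3 : 0 < T / (c1 * c2 * ε / 2) := by positivity
  refine ⟨α3 * ((pc / 2) ^ r / ((2 * r + 1 : ℕ) : ℝ)) * (c1 * c2), α3, r, A + Λ1 + Λ2 + 4, M0, by positivity, hα30, ?_⟩
  intro M f g hMM hf0 hg0 hfs hF hG l x y s hx hs0 hs1 hs2
  have hMr : (M0 : ℝ) ≤ (M : ℝ) := by exact_mod_cast hMM
  have hM1 : (1 : ℝ) ≤ (M : ℝ) := by linarith
  have hM1' : 1 ≤ M := by exact_mod_cast hM1
  have hMpos : (0 : ℝ) < (M : ℝ) := by linarith
  have hrM : 16 * (r : ℝ) ≤ δ * M := by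
    have u1 : 16 * r / δ ≤ (M : ℝ) := by linarith
    rw [div_le_iff₀ hδ] at u1
    linarith
  have hαM : 2 * α3 ≤ c * (M : ℝ) ^ 2 := by
    have u2 : 2 * α3 / c ≤ (M : ℝ) := by linarith
    rw [div_le_iff₀ hc0] at u2
    nlinarith
  have hT1 : T / Real.sqrt r ≤ c1 * c2 * ε / 2 := by
    rw [div_le_iff₀ hsr0]
    rw [div_le_iff₀ hη0] at hsr
    linarith
  have hT2 : T / M ≤ c1 * c2 * ε / 2 := by
    have u3 : T / (c1 * c2 * ε / 2) ≤ (M : ℝ) := by linarith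
    rw [div_le_iff₀ hMpos]
    rw [div_le_iff₀ hη0] at u3
    linarith
  have hta : 0 ≤ ta (gends (boxG d l)) (pc - s) x y := ta_nonneg (by linarith) (by linarith) x y
  beta_reduce
  by_cases hD : δ * M ≤ (nz (rel x y) : ℝ)
  swap
  · rw [if_neg hD, mul_zero, zero_div]
    exact hta
  rw [if_pos hD]
  by_cases hS : (∑ b ∈ bz (M + 1), g b * f (rel x y - Pi.single i0 (r : ℤ) - b)) / (M : ℝ) ^ d - ε ≤ 0
  · rw [max_eq_left hS, mul_zero, zero_div]
    exact hta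
  push Not at hS
  rw [max_eq_right hS.le]
  have hrM' : r + 1 ≤ M := by
    have h1 : (16 : ℝ) * r ≤ M := hrM.trans (by nlinarith)
    have h2 : 16 * r ≤ M := by exact_mod_cast h1
    omega
  have hSne : (∑ b ∈ bz (M + 1), g b * f (rel x y - Pi.single i0 (r : ℤ) - b)) ≠ 0 := by
    intro h0
    rw [h0, zero_div] at hS
    linarith
  obtain ⟨b, hb, hb0⟩ := Finset.exists_ne_zero_of_sum_ne_zero hSne
  have hzb : nz (rel x y - Pi.single i0 (r : ℤ) - b) ≤ A * M := by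
    by_contra hc
    apply hb0
    rw [hfs _ (by omega), mul_zero]
  have hny : nd x y ≤ (A + Λ1 + Λ2 + 4) * M := by
    rw [mem_bz] at hb
    have e1 : rel x y = (rel x y - Pi.single i0 (r : ℤ) - b) + (Pi.single i0 (r : ℤ) + b) := by abel
    have e2 := nz_add (rel x y - Pi.single i0 (r : ℤ) - b) (Pi.single i0 (r : ℤ) + b)
    rw [← e1] at e2
    have e3 := nz_add (Pi.single i0 (r : ℤ) : Zd d) b
    have e4 : nz (Pi.single i0 (r : ℤ) : Zd d) ≤ r := by
      rw [I5_le]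
      intro i
      by_cases hi : i = i0
      · subst hi
        rw [Pi.single_eq_same]
        omega
      · rw [Pi.single_eq_of_ne hi]
        omega
    rw [I5_nz] at e2
    nlinarith
  obtain ⟨φ, hφc, hφi, hφr, hφt⟩ := rs_tr hx
  have hyr : y ∈ Set.range φ := by
    rw [hφr]
    exact hny
  obtain ⟨y', rfl⟩ := hyr
  have hrel : rel x (φ y') = rel (ctr d ((A + Λ1 + Λ2 + 4) * M)) y' := by
    funext i
    rw [I5_ctr]
    have h1 := hφi y' i
    show (((φ y' i : Fin l) : ℕ) : ℤ) - ((x i : ℕ) : ℤ) = _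
    omega
  rw [hrel] at hD hS ⊢
  rw [I5_nz] at hD
  rw [hT] at hT1 hT2
  have hcore := I5_core C c pc K h hK1 hK i0 Λ1 Λ2 A c1 c2 α1 α2 α3 δ ε hc1 hc2 hα30 h31 h32 hδ hδ1 r M ((A + Λ1 + Λ2 + 4) * M) hr1 rfl hM1' hrM hαM
    hT1 hT2 f g hf0 hg0 hfs hF hG y' s hs0 hs2 hD hS.le
  refine hcore.trans ?_
  rw [← hφt (pc - s), hφc, ← rs_univ]
  exact rs_mono (by linarith) (by linarith) (Set.subset_univ _) _ _

private lemma I6_one (R : ℕ) (f : Zd d → ℝ) (hf : ∀ z, 0 ≤ f z) (z : Zd d) : cvk R f 1 z ≤ f z := by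
  have h1 : cvk R f 1 z = ∑ a ∈ bz R, f a * (if z - a = 0 then (1 : ℝ) else 0) := rfl
  rw [h1]
  by_cases hz : z ∈ (bz R : Finset (Zd d))
  · rw [Finset.sum_eq_single_of_mem z hz]
    · rw [sub_self, if_pos rfl, mul_one]
    · intro b _ hb
      rw [if_neg, mul_zero]
      intro h
      exact hb (sub_eq_zero.1 h).symm
  · rw [Finset.sum_eq_zero]
    · exact hf z
    · intro b hb
      rw [if_neg, mul_zero]
      intro h
      exact hz (by rw [sub_eq_zero.1 h]; exact hb)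

private lemma I6_sum (M : ℕ) (hM : 1 ≤ M) (f : Zd d → ℝ) (hf : ∀ z, 0 ≤ f z ∧ f z ≤ 1) :
    ∑ a ∈ bz (M + 1), f a ≤ (5 : ℝ) ^ d * (M : ℝ) ^ d := by
  have h1 : ∑ a ∈ (bz (M + 1) : Finset (Zd d)), f a ≤ ∑ _a ∈ (bz (M + 1) : Finset (Zd d)), (1 : ℝ) :=
    Finset.sum_le_sum fun a _ => (hf a).2
  rw [Finset.sum_const, nsmul_eq_mul, mul_one] at h1
  have h2 : (bz (M + 1) : Finset (Zd d)) = bv 0 (M + 1) := by
    ext x
    rw [mem_bz, mem_bv, sub_zero]
  have h3 : (bz (M + 1) : Finset (Zd d)).card = (2 * (M + 1) + 1) ^ d := by rw [h2, card_bv]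
  rw [h3] at h1
  have hM' : (1 : ℝ) ≤ M := by exact_mod_cast hM
  refine h1.trans ?_
  rw [← mul_pow]
  push_cast
  refine pow_le_pow_left₀ (by positivity) ?_ d
  linarith

private lemma I6_near (M : ℕ) (δ : ℝ) (h1 : 1 ≤ δ * M) (S : Finset (Zd d)) (v : Zd d) (f : Zd d → ℝ)
    (hf : ∀ z, 0 ≤ f z ∧ f z ≤ 1) (K : ℝ) (hK : 0 ≤ K) :
    ∑ a ∈ S, f a * (if (nz (v - a) : ℝ) < δ * M then K else 0) ≤ (3 * δ * M) ^ d * K := by
  set R : ℕ := ⌊δ * M⌋₊ with hR
  have hR1 : (R : ℝ) ≤ δ * M := Nat.floor_le (by linarith)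
  have h2 : ∑ a ∈ S, f a * (if (nz (v - a) : ℝ) < δ * M then K else 0) ≤
      ∑ a ∈ S, (if a ∈ bv v R then K else 0) := by
    refine Finset.sum_le_sum fun a _ => ?_
    by_cases h3 : (nz (v - a) : ℝ) < δ * M
    · have h4 : nz (v - a) ≤ R := Nat.le_floor h3.le
      have h5 : a ∈ bv v R := by
        rw [mem_bv, nz_sub]
        exact h4
      rw [if_pos h3, if_pos h5]
      exact mul_le_of_le_one_left hK (hf a).2
    · rw [if_neg h3, mul_zero]
      split_ifs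
      · exact hK
      · exact le_rfl
  have h3 : ∑ a ∈ S, (if a ∈ bv v R then K else 0) ≤ ∑ _a ∈ bv v R, K := by
    rw [← Finset.sum_filter]
    refine Finset.sum_le_sum_of_subset_of_nonneg ?_ (fun _ _ _ => hK)
    intro a ha
    exact (Finset.mem_filter.1 ha).2
  refine (h2.trans h3).trans ?_
  rw [Finset.sum_const, card_bv, nsmul_eq_mul]
  refine mul_le_mul_of_nonneg_right ?_ hK
  push_cast
  refine pow_le_pow_left₀ (by positivity) ?_ d
  linarith

private lemma I6_triv (M : ℕ) (hM : 1 ≤ M) (f : Zd d → ℝ) (hf : ∀ z, 0 ≤ f z ∧ f z ≤ 1) (n : ℕ) :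
    ∀ z, cvk (M + 1) f (n + 1) z ≤ ((5 : ℝ) ^ d * (M : ℝ) ^ d) ^ n := by
  induction n with
  | zero =>
    intro z
    rw [pow_zero]
    exact (I6_one (M + 1) f (fun z => (hf z).1) z).trans (hf z).2
  | succ n ih =>
    intro z
    have h1 : cvk (M + 1) f (n + 1 + 1) z = ∑ a ∈ bz (M + 1), f a * cvk (M + 1) f (n + 1) (z - a) := rfl
    rw [h1]
    calc ∑ a ∈ bz (M + 1), f a * cvk (M + 1) f (n + 1) (z - a)
        ≤ ∑ a ∈ bz (M + 1), f a * ((5 : ℝ) ^ d * (M : ℝ) ^ d) ^ n :=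
          Finset.sum_le_sum fun a _ => mul_le_mul_of_nonneg_left (ih _) (hf a).1
      _ = (∑ a ∈ bz (M + 1), f a) * ((5 : ℝ) ^ d * (M : ℝ) ^ d) ^ n := by rw [Finset.sum_mul]
      _ ≤ ((5 : ℝ) ^ d * (M : ℝ) ^ d) * ((5 : ℝ) ^ d * (M : ℝ) ^ d) ^ n :=
          mul_le_mul_of_nonneg_right (I6_sum M hM f hf) (by positivity)
      _ = ((5 : ℝ) ^ d * (M : ℝ) ^ d) ^ (n + 1) := by ring

private lemma I6_single (i : Fin d) (k : ℕ) : nz (Pi.single i (k : ℤ) : Zd d) ≤ k := by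
  unfold nz
  apply Finset.sup_le
  intro j _
  by_cases h : j = i
  · subst h
    rw [Pi.single_eq_same, Int.natAbs_natCast]
  · rw [Pi.single_eq_of_ne h, Int.natAbs_zero]
    exact Nat.zero_le _

/-- Row I6. Induction on `k`. `k = 1`: `T = f`, `ρ = 0`, `cvk (M+1) f 1 z = f z` or `0`. Step: `GF_conv` with `A = 2 k`, `f := T`, `g := f`; `T' z` the new function, `ρ' = ρ + r`. Let `B = 5^d`: `∑_{bz (M+1)} f ≤ (2M+3)^d ≤ B M^d`, so `cvk (M+1) f k z ≤ B^(k-1) M^((k-1)d)` for `k ≥ 1`. For `nz z ≥ δ M`: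
`cvk (k+1) (z - ρ' e)/M^(kd) = M^(-d) ∑_b f b cvk k (z - r e - b - ρ e)/M^((k-1)d) ≤ M^(-d) ∑_b f b (T (z - r e - b) + E_k + B^k 1[nz (z - r e - b) < δ M]) ≤ T' z + ε + B E_k + B^k (3 δ)^d` (`δ M ≥ 1`), `E_k = (2B)^k ((3δ)^d + ε)`. For `nz z < δ M` use the trivial bound. Support: `2 k M + M + 1 + r ≤ 2 (k+1) M`. -/
theorem iter (C c pc : ℝ) (h : GH d C c pc) (i0 : Fin d) (Λ : ℕ) (c1 α δ ε : ℝ) (hc1 : 0 < c1) (hα : 0 < α) (hδ : 0 < δ) (hδ1 : δ ≤ 1) (hε : 0 < ε) (k : ℕ) (hk : 1 ≤ k) :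
    ∃ (ck αk : ℝ) (ρ Λk M0 : ℕ), 0 < ck ∧ 0 < αk ∧ ∀ (M : ℕ) (f : Zd d → ℝ), M0 ≤ M → (∀ z, 0 ≤ f z ∧ f z ≤ 1) → (∀ z, M + 1 < nz z → f z = 0) → GF d pc Λ c1 α M f →
      ∃ T : Zd d → ℝ, (∀ z, 0 ≤ T z) ∧ (∀ z, 2 * k * M < nz z → T z = 0) ∧ GF d pc Λk ck αk M T ∧
        ∀ z : Zd d, cvk (M + 1) f k (z - Pi.single i0 (ρ : ℤ)) / (M : ℝ) ^ ((k - 1) * d) ≤
          T z + (2 * 5 ^ d) ^ k * ((3 * δ) ^ d + ε) + (if (nz z : ℝ) < δ * M then (5 : ℝ) ^ (d * k) else 0) := by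
  induction k, hk using Nat.le_induction with
  | base =>
    refine ⟨c1, α, 0, Λ, 1, hc1, hα, ?_⟩
    intro M f hM hf hs hG
    refine ⟨f, fun z => (hf z).1, ?_, hG, ?_⟩
    · intro z hz
      exact hs z (by omega)
    · intro z
      have h1 : (z - Pi.single i0 ((0 : ℕ) : ℤ) : Zd d) = z := by
        rw [Nat.cast_zero, Pi.single_zero, sub_zero]
      rw [h1, Nat.sub_self, Nat.zero_mul, pow_zero, div_one]
      have h2 := I6_one (M + 1) f (fun z => (hf z).1) z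
      have h3 : (0 : ℝ) ≤ (2 * 5 ^ d) ^ 1 * ((3 * δ) ^ d + ε) := by positivity
      have h4 : (0 : ℝ) ≤ (if (nz z : ℝ) < δ * M then (5 : ℝ) ^ (d * 1) else 0) := by
        split_ifs
        · positivity
        · exact le_rfl
      linarith
  | succ k hk ih =>
    obtain ⟨ck, αk, ρ, Λk, M0, hck, hαk, H⟩ := ih
    obtain ⟨c3, α3, r, Λ3, M0', hc3, hα3, H3⟩ :=
      GF_conv C c pc h i0 Λk Λ (2 * k) ck c1 αk α δ ε hck hc1 hαk hα hδ hδ1 hε
    obtain ⟨M1, hM1⟩ := exists_nat_ge (1 / δ)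
    refine ⟨c3, α3, ρ + r, Λ3, max (max M0 M0') (max (r + 1) M1), hc3, hα3, ?_⟩
    intro M f hM hf hs hG
    have hMa : M0 ≤ M := le_trans (le_trans (le_max_left _ _) (le_max_left _ _)) hM
    have hMb : M0' ≤ M := le_trans (le_trans (le_max_right _ _) (le_max_left _ _)) hM
    have hMc : r + 1 ≤ M := le_trans (le_trans (le_max_left _ _) (le_max_right _ _)) hM
    have hMd : M1 ≤ M := le_trans (le_trans (le_max_right _ _) (le_max_right _ _)) hM
    have hM' : 1 ≤ M := by omega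
    have hMr : (1 : ℝ) ≤ M := by exact_mod_cast hM'
    have hM0 : (0 : ℝ) < M := by linarith
    have hδM : 1 ≤ δ * M := by
      have h1 : (M1 : ℝ) ≤ M := by exact_mod_cast hMd
      have h2 : 1 / δ ≤ M := hM1.trans h1
      rw [div_le_iff₀ hδ] at h2
      linarith
    obtain ⟨T, hT0, hTs, hTG, hTi⟩ := H M f hMa hf hs hG
    have hG3 := H3 M T f hMb hT0 (fun z => (hf z).1) hTs hTG hG
    refine ⟨_, ?_, ?_, hG3, ?_⟩
    · intro z
      split_ifs
      · exact le_max_left _ _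
      · exact le_rfl
    · intro z hz
      have h1 : ∑ b ∈ bz (M + 1), f b * T (z - Pi.single i0 (r : ℤ) - b) = 0 := by
        refine Finset.sum_eq_zero fun b hb => ?_
        rw [mem_bz] at hb
        rw [hTs, mul_zero]
        by_contra hcon
        have h2 : z = (z - Pi.single i0 (r : ℤ) - b) + (b + Pi.single i0 (r : ℤ)) := by abel
        have h3 := nz_add (z - Pi.single i0 (r : ℤ) - b) (b + Pi.single i0 (r : ℤ))
        rw [← h2] at h3
        have h4 := nz_add b (Pi.single i0 (r : ℤ))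
        have h5 := I6_single i0 r
        have h6 : 2 * (k + 1) * M = 2 * k * M + 2 * M := by ring
        omega
      rw [h1, zero_div, zero_sub, max_eq_left (by linarith)]
      split_ifs <;> rfl
    · intro z
      have hk1 : (k + 1 - 1) * d = (k - 1) * d + d := by
        obtain ⟨n, rfl⟩ : ∃ n, k = n + 1 := ⟨k - 1, by omega⟩
        simp only [Nat.add_sub_cancel]
        ring
      have hX : (0 : ℝ) ≤ (3 * δ) ^ d + ε := by positivity
      set E : ℝ := (2 * 5 ^ d) ^ k * ((3 * δ) ^ d + ε) with hE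
      have hE0 : 0 ≤ E := by positivity
      by_cases hz : δ * M ≤ nz z
      · rw [if_pos hz, if_neg (not_lt.2 hz), add_zero]
        have e1 : ∀ a : Zd d, z - Pi.single i0 ((ρ + r : ℕ) : ℤ) - a =
            (z - Pi.single i0 (r : ℤ) - a) - Pi.single i0 (ρ : ℤ) := by
          intro a
          rw [Nat.cast_add, Pi.single_add]
          abel
        have e2 : cvk (M + 1) f (k + 1) (z - Pi.single i0 ((ρ + r : ℕ) : ℤ)) =
            ∑ a ∈ bz (M + 1), f a * cvk (M + 1) f k ((z - Pi.single i0 (r : ℤ) - a) - Pi.single i0 (ρ : ℤ)) := by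
          have e3 : cvk (M + 1) f (k + 1) (z - Pi.single i0 ((ρ + r : ℕ) : ℤ)) =
            ∑ a ∈ bz (M + 1), f a * cvk (M + 1) f k (z - Pi.single i0 ((ρ + r : ℕ) : ℤ) - a) := rfl
          rw [e3]
          exact Finset.sum_congr rfl fun a _ => by rw [e1]
        rw [e2, hk1, pow_add]
        have hP : (0 : ℝ) < (M : ℝ) ^ ((k - 1) * d) := by positivity
        have hD : (0 : ℝ) < (M : ℝ) ^ d := by positivity
        have e4 : (∑ a ∈ bz (M + 1), f a * cvk (M + 1) f k ((z - Pi.single i0 (r : ℤ) - a) - Pi.single i0 (ρ : ℤ))) /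
            ((M : ℝ) ^ ((k - 1) * d) * (M : ℝ) ^ d) =
            (∑ a ∈ bz (M + 1), f a * (cvk (M + 1) f k ((z - Pi.single i0 (r : ℤ) - a) - Pi.single i0 (ρ : ℤ)) /
              (M : ℝ) ^ ((k - 1) * d))) / (M : ℝ) ^ d := by
          rw [← div_div, Finset.sum_div]
          congr 1
          exact Finset.sum_congr rfl fun a _ => by rw [mul_div_assoc]
        rw [e4]
        have e5 : ∑ a ∈ bz (M + 1), f a * (cvk (M + 1) f k ((z - Pi.single i0 (r : ℤ) - a) - Pi.single i0 (ρ : ℤ)) /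
              (M : ℝ) ^ ((k - 1) * d)) ≤
            ∑ b ∈ bz (M + 1), f b * T (z - Pi.single i0 (r : ℤ) - b) + E * ((5 : ℝ) ^ d * (M : ℝ) ^ d) +
              (3 * δ * M) ^ d * (5 : ℝ) ^ (d * k) := by
          have e6 : ∀ a ∈ (bz (M + 1) : Finset (Zd d)),
              f a * (cvk (M + 1) f k ((z - Pi.single i0 (r : ℤ) - a) - Pi.single i0 (ρ : ℤ)) /
                (M : ℝ) ^ ((k - 1) * d)) ≤
              f a * T (z - Pi.single i0 (r : ℤ) - a) + f a * E +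
                f a * (if (nz (z - Pi.single i0 (r : ℤ) - a) : ℝ) < δ * M then (5 : ℝ) ^ (d * k) else 0) := by
            intro a _
            have e7 := mul_le_mul_of_nonneg_left (hTi (z - Pi.single i0 (r : ℤ) - a)) (hf a).1
            rw [mul_add, mul_add] at e7
            exact e7
          refine (Finset.sum_le_sum e6).trans ?_
          rw [Finset.sum_add_distrib, Finset.sum_add_distrib, ← Finset.sum_mul]
          have e8 := I6_sum M hM' f hf
          have e9 := I6_near M δ hδM (bz (M + 1)) (z - Pi.single i0 (r : ℤ)) f hf ((5 : ℝ) ^ (d * k)) (by positivity)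
          have e10 : (∑ a ∈ bz (M + 1), f a) * E ≤ E * ((5 : ℝ) ^ d * (M : ℝ) ^ d) := by
            rw [mul_comm]
            exact mul_le_mul_of_nonneg_left e8 hE0
          linarith
        have e11 := div_le_div_of_nonneg_right e5 hD.le
        refine e11.trans ?_
        rw [add_div, add_div]
        have e12 : E * ((5 : ℝ) ^ d * (M : ℝ) ^ d) / (M : ℝ) ^ d = E * 5 ^ d := by
          field_simp
        have e13 : (3 * δ * M) ^ d * (5 : ℝ) ^ (d * k) / (M : ℝ) ^ d = (3 * δ) ^ d * (5 : ℝ) ^ (d * k) := by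
          rw [mul_pow (3 * δ) (M : ℝ) d]
          field_simp
        rw [e12, e13]
        have e14 : (∑ b ∈ bz (M + 1), f b * T (z - Pi.single i0 (r : ℤ) - b)) / (M : ℝ) ^ d ≤
            max 0 ((∑ b ∈ bz (M + 1), f b * T (z - Pi.single i0 (r : ℤ) - b)) / (M : ℝ) ^ d - ε) + ε := by
          have := le_max_right (0 : ℝ) ((∑ b ∈ bz (M + 1), f b * T (z - Pi.single i0 (r : ℤ) - b)) / (M : ℝ) ^ d - ε)
          linarith
        have hB : (1 : ℝ) ≤ 5 ^ d := one_le_pow₀ (by norm_num)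
        have e15 : (2 * (5 : ℝ) ^ d) ^ (k + 1) * ((3 * δ) ^ d + ε) = E * 5 ^ d + E * 5 ^ d := by
          rw [hE]
          ring
        have e16 : (5 : ℝ) ^ (d * k) ≤ (2 * 5 ^ d) ^ k := by
          rw [pow_mul]
          exact pow_le_pow_left₀ (by positivity) (by linarith) k
        have e17 : (1 : ℝ) ≤ (2 * 5 ^ d) ^ k := one_le_pow₀ (by linarith)
        have e18 : ε + (3 * δ) ^ d * (5 : ℝ) ^ (d * k) ≤ E := by
          rw [hE]
          have h3 : (0 : ℝ) ≤ (3 * δ) ^ d := by positivity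
          nlinarith [mul_le_mul_of_nonneg_left e16 h3, mul_le_mul_of_nonneg_left e17 hε.le]
        have e19 : E ≤ E * 5 ^ d := le_mul_of_one_le_right hE0 hB
        linarith
      · rw [if_neg hz, if_pos (not_le.1 hz), zero_add]
        have h1 : cvk (M + 1) f (k + 1) (z - Pi.single i0 ((ρ + r : ℕ) : ℤ)) ≤ ((5 : ℝ) ^ d * (M : ℝ) ^ d) ^ k :=
          I6_triv M hM' f hf k _
        have h2 : (k + 1 - 1) * d = d * k := by
          rw [Nat.add_sub_cancel, Nat.mul_comm]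
        rw [h2]
        have hP : (0 : ℝ) < (M : ℝ) ^ (d * k) := by positivity
        have h3 : cvk (M + 1) f (k + 1) (z - Pi.single i0 ((ρ + r : ℕ) : ℤ)) / (M : ℝ) ^ (d * k) ≤ (5 : ℝ) ^ (d * k) := by
          rw [div_le_iff₀ hP]
          refine h1.trans (le_of_eq ?_)
          rw [mul_pow, ← pow_mul, ← pow_mul]
        have h4 : (5 : ℝ) ^ (d * k) ≤ (5 : ℝ) ^ (d * (k + 1)) :=
          pow_le_pow_right₀ (by norm_num) (Nat.mul_le_mul_left d (Nat.le_succ k))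
        have h5 : (0 : ℝ) ≤ (2 * 5 ^ d) ^ (k + 1) * ((3 * δ) ^ d + ε) := by positivity
        linarith

private lemma I7_single (i : Fin d) (k : ℕ) : nz (Pi.single i (k : ℤ) : Zd d) ≤ k := by
  unfold nz
  apply Finset.sup_le
  intro j _
  by_cases hj : j = i
  · subst hj
    rw [Pi.single_eq_same]
    simp
  · rw [Pi.single_eq_of_ne hj]
    simp

private lemma I7_rel {l : ℕ} (x y : Fin d → Fin l) : nz (rel x y) = nd x y := by
  have h := nz_rel x y x
  have h0 : rel x x = (0 : Zd d) := by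
    funext i
    unfold rel
    simp
  rw [h0, sub_zero] at h
  rw [h, nd_symm]

private lemma I7_thk (f : Zd d → ℝ) (hf : ∀ z, 0 ≤ f z ∧ f z ≤ 1) (z : Zd d) :
    0 ≤ thk f z ∧ thk f z ≤ 1 := by
  have hd : (0 : ℝ) < 2 * (d : ℝ) + 1 := by positivity
  unfold thk
  refine ⟨?_, ?_⟩
  · apply div_nonneg _ hd.le
    exact add_nonneg (hf z).1 (Finset.sum_nonneg fun i _ => add_nonneg (hf _).1 (hf _).1)
  · rw [div_le_one hd]
    have h1 : ∑ i : Fin d, (f (z + Pi.single i 1) + f (z - Pi.single i 1)) ≤ ∑ _i : Fin d, (2 : ℝ) :=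
      Finset.sum_le_sum fun i _ => by
        have h2 := (hf (z + Pi.single i 1)).2
        have h3 := (hf (z - Pi.single i 1)).2
        linarith
    rw [Finset.sum_const, Finset.card_univ, Fintype.card_fin, nsmul_eq_mul] at h1
    have h4 := (hf z).2
    linarith

private lemma I7_thk0 (f : Zd d → ℝ) (M : ℕ) (hs : ∀ z, M < nz z → f z = 0) (z : Zd d)
    (hz : M + 1 < nz z) : thk f z = 0 := by
  unfold thk
  have h1 : f z = 0 := hs z (Nat.lt_of_succ_lt hz)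
  have h2 : ∀ i : Fin d, f (z + Pi.single i 1) + f (z - Pi.single i 1) = 0 := by
    intro i
    have h3 : nz (Pi.single i 1 : Zd d) ≤ 1 := by
      have h := I7_single i 1
      simpa using h
    have h4 : nz z ≤ nz (z + Pi.single i 1) + nz (Pi.single i 1 : Zd d) := by
      have h := nz_add (z + Pi.single i 1) (-(Pi.single i 1 : Zd d))
      rw [add_neg_cancel_right, nz_neg] at h
      exact h
    have h5 : nz z ≤ nz (z - Pi.single i 1) + nz (Pi.single i 1 : Zd d) := by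
      have h := nz_add (z - Pi.single i 1) (Pi.single i 1 : Zd d)
      rw [sub_add_cancel] at h
      exact h
    rw [hs (z + Pi.single i 1) (by omega), hs (z - Pi.single i 1) (by omega), add_zero]
  rw [h1, Finset.sum_eq_zero (fun i _ => h2 i), add_zero, zero_div]

/-- Row I7. `dens`, `GF_thk`: `f1 = thk f` has values in `[0,1]`, vanishes for `nz z > M + 1`. `four` for `a`: `k`, `c'`, and `δ`, `ε` with `(2 5^d)^k ((3δ)^d + ε) ≤ c'/2`; `iter`: for `M` large and `M ≤ nz z ≤ 2 M`: `nz (z - ρ e) ≤ 3 M`, so `c' ≤ T z + c'/2`. Hence `ta (pc - s) x y ≥ ck (c'/2)/M^(d-2)` if `M ≤ nd x y ≤ 2 M`, `In x (Λk M)`, `s M² ≤ αk`, `M ≥ M2`.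
`LP`: let `D = nd x y ≤ M`. If `D ≥ M2`: the above with `M' = D` (`s D² ≤ s M²`, `In x (Λk D)`). If `D < M2`: `ta_pos`, `pc - s ≥ pc/2`. -/
theorem LP_of (C c pc b α : ℝ) (h : GH d C c pc) (g : GB d b α pc) : ∃ (Λ : ℕ) (c1 α1 : ℝ), 1 ≤ Λ ∧ 0 < c1 ∧ 0 < α1 ∧ LP d pc Λ c1 α1 := by
  obtain ⟨Λ, a, c1, α', hΛ, ha, hc1, hα', Hd⟩ := dens C c pc b α h g
  have hd : 1 ≤ d := le_trans (by norm_num) h.d9
  obtain ⟨k, c', M0, hk, hc', H4⟩ := four hd a ha
  have hpc : 0 < pc := by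
    have h1 := h.c0
    have h2 := h.cp
    linarith
  have hpc1 := h.p1
  obtain ⟨B, hB⟩ : ∃ B : ℝ, B = (2 * 5 ^ d) ^ k := ⟨_, rfl⟩
  have hB0 : 0 < B := by
    rw [hB]
    positivity
  obtain ⟨ε, hε⟩ : ∃ ε : ℝ, ε = c' / (4 * B) := ⟨_, rfl⟩
  have hε0 : 0 < ε := by
    rw [hε]
    positivity
  have hBε : B * ε = c' / 4 := by
    rw [hε]
    field_simp
  obtain ⟨δ, hδ⟩ : ∃ δ : ℝ, δ = min 1 ε / 3 := ⟨_, rfl⟩
  have hδ0 : 0 < δ := by
    rw [hδ]
    exact div_pos (lt_min one_pos hε0) (by norm_num)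
  have h3δ : 3 * δ = min 1 ε := by
    rw [hδ]
    ring
  have h3δ1 : 3 * δ ≤ 1 := by
    rw [h3δ]
    exact min_le_left _ _
  have h3δε : 3 * δ ≤ ε := by
    rw [h3δ]
    exact min_le_right _ _
  have hδ1 : δ ≤ 1 := by linarith
  have hδd : (3 * δ) ^ d ≤ ε := by
    have h1 : (3 * δ) ^ d ≤ (3 * δ) ^ 1 := pow_le_pow_of_le_one (by linarith) h3δ1 hd
    rw [pow_one] at h1
    exact h1.trans h3δε
  have hBs : B * ((3 * δ) ^ d + ε) ≤ c' / 2 := by
    have h1 : B * ((3 * δ) ^ d + ε) ≤ B * (ε + ε) :=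
      mul_le_mul_of_nonneg_left (by linarith) hB0.le
    have h2 : B * (ε + ε) = c' / 2 := by
      rw [mul_add, hBε]
      ring
    linarith
  have hc1' : 0 < c1 * (pc / 2) ^ d := by positivity
  obtain ⟨ck, αk, ρ, Λk, M1, hck, hαk, Hi⟩ :=
    iter C c pc h ⟨0, hd⟩ Λ (c1 * (pc / 2) ^ d) α' δ ε hc1' hα' hδ0 hδ1 hε0 k hk
  obtain ⟨M2, hM2⟩ : ∃ M2 : ℕ, M2 = M0 + M1 + ρ + 1 := ⟨_, rfl⟩
  have key : ∀ (l M : ℕ) (x y : Fin d → Fin l) (s : ℝ), M2 ≤ M → In x (Λk * M) → nd x y = M → 0 ≤ s →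
      s ≤ pc / 2 → s * (M : ℝ) ^ 2 ≤ αk →
      ck * (c' / 2) / (M : ℝ) ^ (d - 2) ≤ ta (gends (boxG d l)) (pc - s) x y := by
    intro l M x y s hM hx hxy hs hs2 hsM
    have hM1 : 1 ≤ M := by omega
    have hM0 : (0 : ℝ) < (M : ℝ) := by exact_mod_cast hM1
    obtain ⟨f, hf, hfe, hf0, hfs, hG⟩ := Hd M hM1
    have hG1 := GF_thk C c pc h Λ M c1 α' f (fun z => (hf z).1) hf0 hΛ hM1 hc1.le hG
    obtain ⟨T, hT0, hTs, hGT, hT⟩ := Hi M (thk f) (by omega) (I7_thk f hf)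
      (fun z hz => I7_thk0 f M hf0 z hz) hG1
    have hnz : nz (rel x y) = M := by rw [I7_rel, hxy]
    have h1 : nz (rel x y - Pi.single (⟨0, hd⟩ : Fin d) (ρ : ℤ)) ≤ 3 * M := by
      have h2 := nz_add (rel x y) (-(Pi.single (⟨0, hd⟩ : Fin d) (ρ : ℤ) : Zd d))
      rw [nz_neg, ← sub_eq_add_neg] at h2
      have h3 := I7_single (⟨0, hd⟩ : Fin d) ρ
      omega
    have h2 := H4 M f (by omega) hf hfe hf0 hfs _ h1
    have h3 := hT (rel x y)
    have h4 : ¬ ((nz (rel x y) : ℝ) < δ * M) := by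
      rw [hnz, not_lt]
      have := mul_le_mul_of_nonneg_right hδ1 hM0.le
      linarith
    rw [if_neg h4, add_zero, ← hB] at h3
    have h5 : c' ≤ cvk (M + 1) (thk f) k (rel x y - Pi.single (⟨0, hd⟩ : Fin d) (ρ : ℤ)) / (M : ℝ) ^ ((k - 1) * d) := by
      rw [le_div_iff₀ (pow_pos hM0 _)]
      exact h2
    have h6 : c' / 2 ≤ T (rel x y) := by linarith
    refine le_trans ?_ (hGT l x y s hx hs hs2 hsM)
    exact div_le_div_of_nonneg_right (mul_le_mul_of_nonneg_left h6 hck.le) (pow_nonneg hM0.le _)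
  have hpow : 0 < (pc / 2) ^ (d * M2) := by positivity
  refine ⟨Λk + 1, min (ck * (c' / 2)) ((pc / 2) ^ (d * M2)), αk, by omega,
    lt_min (by positivity) hpow, hαk, ?_⟩
  intro l M x y s hM hx hxy hs hs2 hsM
  have hMr : (1 : ℝ) ≤ (M : ℝ) := by exact_mod_cast hM
  have hM0 : (0 : ℝ) < (M : ℝ) := by linarith
  have hMp : (0 : ℝ) < (M : ℝ) ^ (d - 2) := pow_pos hM0 _
  rcases Nat.lt_or_ge (nd x y) M2 with hD | hD
  · have h1 := ta_pos d l (p := pc - s) (by linarith) (by linarith) x y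
    refine le_trans ?_ h1
    have h2 : min (ck * (c' / 2)) ((pc / 2) ^ (d * M2)) / (M : ℝ) ^ (d - 2) ≤ (pc / 2) ^ (d * M2) := by
      refine le_trans (div_le_self (le_min (by positivity) hpow.le) (one_le_pow₀ hMr)) (min_le_right _ _)
    refine h2.trans ?_
    refine (pow_le_pow_of_le_one (by positivity) (by linarith) (Nat.mul_le_mul_left d hD.le)).trans ?_
    exact pow_le_pow_left₀ (by positivity) (by linarith) _
  · have hD1 : 1 ≤ nd x y := by omega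
    have hDr : (1 : ℝ) ≤ ((nd x y : ℕ) : ℝ) := by exact_mod_cast hD1
    have hDM : ((nd x y : ℕ) : ℝ) ≤ (M : ℝ) := by exact_mod_cast hxy
    have hin : In x (Λk * nd x y) := by
      intro i
      have h1 := hx i
      have h2 : Λk * nd x y ≤ (Λk + 1) * M := Nat.mul_le_mul (by omega) hxy
      omega
    have hsq : ((nd x y : ℕ) : ℝ) ^ 2 ≤ (M : ℝ) ^ 2 := pow_le_pow_left₀ (by linarith) hDM 2
    have h1 := key l (nd x y) x y s hD hin rfl hs hs2
      ((mul_le_mul_of_nonneg_left hsq hs).trans hsM)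
    refine le_trans ?_ h1
    have h2 : min (ck * (c' / 2)) ((pc / 2) ^ (d * M2)) / (M : ℝ) ^ (d - 2) ≤ ck * (c' / 2) / (M : ℝ) ^ (d - 2) :=
      div_le_div_of_nonneg_right (min_le_left _ _) hMp.le
    refine h2.trans ?_
    exact div_le_div_of_nonneg_left (by positivity) (pow_pos (by linarith) _)
      (pow_le_pow_left₀ (by linarith) hDM _)
end Pool.Agent.PERC29.GU
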