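import Pool.Agent.Lib.MP_29e17e_pr.P.Fn
import Pool.Agent.Lib.MP_29e17e_pr.G.It
import Pool.Agent.Lib.MP_29e17e_pr.G.Cr

set_option autoImplicit false
set_option linter.unusedSectionVars false

/-! Assembly: the hypotheses (L) and (B) removed, `pc` the critical point of `ℤ^d`. -/

open Finset Filter Topology

namespace Pool.Agent.PERC29.GU

open Pool.Agent.PERC29 Pool.Agent.PERC29.AE Pool.Agent.PERC29.OB Pool.Agent.PERC29.QQ Pool.Agent.PERC29.DZ Pool.Agent.PERC29.PP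

/-- The final theorem: the giant component of the torus above the critical window, from upper bounds at and below `p_c`. -/
theorem finalU (d : ℕ) (C c₀ pc : ℝ) (hd : 11 ≤ d) (hc₀ : 0 < c₀) (hpc : pc = sSup {p : ℝ | 0 ≤ p ∧ p ≤ 1 ∧ theta d p = 0})
    (hU : ∀ (l : ℕ) (x y : Fin d → Fin l) (s : ℝ), 0 ≤ s → s ≤ c₀ →
      tau (boxG d l) (pc - s) x y ≤
        C / (1 + (nd x y : ℝ)) ^ (d - 2) * Real.exp (-(c₀ * Real.sqrt s * (nd x y : ℝ)))) :
    IsGreatest {p : ℝ | 0 ≤ p ∧ p ≤ 1 ∧ theta d p = 0} pc ∧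
    ∃ c : ℝ, 0 < c ∧ HasDerivWithinAt (fun e : ℝ => theta d (pc * (1 + e))) c (Set.Ici 0) 0 ∧
      ∀ lam : ℝ, 0 < lam → ∀ pT : ℕ → ℝ,
        (∀ᶠ n : ℕ in atTop, 0 ≤ pT n ∧ pT n ≤ 1 ∧
          chi (torG d (n + 3)) (pT n) 0 = lam * (((n : ℝ) + 3) ^ d) ^ ((1 : ℝ) / 3)) →
        ∀ ε : ℕ → ℝ, Tendsto ε atTop (𝓝 0) →
          Tendsto (fun n : ℕ => ε n * (((n : ℝ) + 3) ^ d) ^ ((1 : ℝ) / 3)) atTop atTop → ∀ δ : ℝ, 0 < δ →
          Tendsto (fun n : ℕ => prob (torG d (n + 3)) (pT n * (1 + ε n)) (fun ω =>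
            δ * ε n * ((n : ℝ) + 3) ^ d <
              |(maxCluster (torG d (n + 3)) ω : ℝ) - c * ε n * ((n : ℝ) + 3) ^ d|)) atTop (𝓝 0) ∧
          Tendsto (fun n : ℕ => prob (torG d (n + 3)) (pT n * (1 + ε n)) (fun ω => ∃ x y,
            ¬ (openGraph (torG d (n + 3)) ω).Reachable x y ∧
            δ * ε n * ((n : ℝ) + 3) ^ d < (clusterSize (torG d (n + 3)) ω x : ℝ) ∧
            δ * ε n * ((n : ℝ) + 3) ^ d < (clusterSize (torG d (n + 3)) ω y : ℝ))) atTop (𝓝 0) := by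
  have hpc0 : 0 ≤ pc := by
    rw [hpc]
    exact Real.sSup_nonneg (fun p hp => hp.1)
  have hpc1 : pc ≤ 1 := by
    rw [hpc]
    exact Real.sSup_le (fun p hp => hp.2.1) zero_le_one
  have hcr : ∀ p : ℝ, pc < p → p ≤ 1 → 0 < theta d p := by
    intro p hp hp1
    have hp0 : 0 ≤ p := hpc0.trans hp.le
    have h1 : theta d p ≠ 0 := by
      intro h
      have h2 : p ≤ sSup {p : ℝ | 0 ≤ p ∧ p ≤ 1 ∧ theta d p = 0} :=
        le_csSup ⟨1, fun q hq => hq.2.1⟩ ⟨hp0, hp1, h⟩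
      rw [← hpc] at h2
      exact absurd h2 (not_le.mpr hp)
    have h2 : 0 ≤ theta d p := by
      classical
      rw [theta_eq]
      unfold th
      apply Real.iInf_nonneg
      intro M
      unfold aM
      exact Ex_nonneg hp0 hp1 fun ω => by split_ifs <;> norm_num
    exact lt_of_le_of_ne h2 (Ne.symm h1)
  obtain ⟨C1, hC1d⟩ : ∃ C1, C1 = max C 1 := ⟨_, rfl⟩
  have hC11 : 1 ≤ C1 := by rw [hC1d]; exact le_max_right _ _
  have hCC1 : C ≤ C1 := by rw [hC1d]; exact le_max_left _ _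
  have hU0 : ∀ (l : ℕ) (x y : Fin d → Fin l), ta (gends (boxG d l)) pc x y ≤ C1 * fk (d - 2) x y := by
    intro l x y
    have h := hU l x y 0 le_rfl hc₀.le
    rw [Real.sqrt_zero, mul_zero, zero_mul, neg_zero, Real.exp_zero, mul_one, sub_zero, tau_eq] at h
    refine h.trans ?_
    unfold fk
    rw [mul_one_div]
    exact div_le_div_of_nonneg_right hCC1 (by positivity)
  have h1 : pc < 1 := pc_lt d (by omega) C1 pc hpc1 hU0
  have h0 : 0 < pc := pc_pos d (by omega) pc hpc0 h1 hcr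
  obtain ⟨c, hcd⟩ : ∃ c, c = min c₀ (min 1 (pc / 2)) := ⟨_, rfl⟩
  have hc0 : 0 < c := by rw [hcd]; exact lt_min hc₀ (lt_min one_pos (by linarith))
  have hcc : c ≤ c₀ := by rw [hcd]; exact min_le_left _ _
  have hc1 : c ≤ 1 := by rw [hcd]; exact (min_le_right _ _).trans (min_le_left _ _)
  have hcp : c ≤ pc / 2 := by rw [hcd]; exact (min_le_right _ _).trans (min_le_right _ _)
  have hG : GH d C1 c pc := by
    refine ⟨by omega, hC11, hc0, hc1, hcp, h1, ?_⟩
    intro l x y s hs hsc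
    have h := hU l x y s hs (hsc.trans hcc)
    rw [tau_eq] at h
    refine h.trans ?_
    unfold ek fk
    rw [← mul_assoc, mul_one_div]
    apply mul_le_mul (div_le_div_of_nonneg_right hCC1 (by positivity)) _ (Real.exp_pos _).le (by positivity)
    apply Real.exp_le_exp.mpr
    apply neg_le_neg
    apply mul_le_mul_of_nonneg_right _ (by positivity)
    exact mul_le_mul_of_nonneg_right hcc (Real.sqrt_nonneg s)
  obtain ⟨b, α, g⟩ := GB_crit C1 c pc hG hcr
  obtain ⟨K, hK1, hK⟩ := arm_fin C1 c pc b α hG g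
  obtain ⟨Λ, c1, α1, hΛ, hc1', hα1, hP⟩ := LP_of C1 c pc b α hG g
  obtain ⟨cb, hcb, hL0⟩ := bulk_low C1 c pc hG Λ c1 α1 hΛ hc1' hα1 hP
  obtain ⟨C', hC'd⟩ : ∃ C', C' = max C K := ⟨_, rfl⟩
  have hCC' : C ≤ C' := by rw [hC'd]; exact le_max_left _ _
  have hKC' : K ≤ C' := by rw [hC'd]; exact le_max_right _ _
  obtain ⟨c', hc'd⟩ : ∃ c', c' = min c₀ cb := ⟨_, rfl⟩
  have hc'0 : 0 < c' := by rw [hc'd]; exact lt_min hc₀ hcb
  have hc'c : c' ≤ c₀ := by rw [hc'd]; exact min_le_left _ _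
  have hc'b : c' ≤ cb := by rw [hc'd]; exact min_le_right _ _
  refine finalW d C' c' pc hd hc'0 h0 h1 ?_ ?_ ?_
  · intro l x y s hs hsc
    refine (hU l x y s hs (hsc.trans hc'c)).trans ?_
    have hC'0 : 0 ≤ C' := by linarith
    apply mul_le_mul (div_le_div_of_nonneg_right hCC' (by positivity)) _ (Real.exp_pos _).le (by positivity)
    apply Real.exp_le_exp.mpr
    apply neg_le_neg
    apply mul_le_mul_of_nonneg_right _ (by positivity)
    exact mul_le_mul_of_nonneg_right hc'c (Real.sqrt_nonneg s)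
  · intro l x y hx hy
    rw [tau_eq]
    refine le_trans ?_ (hL0 l x y hx hy)
    exact div_le_div_of_nonneg_right hc'b (by positivity)
  · intro N hN
    rw [arm_eq]
    refine (hK N hN).trans ?_
    exact div_le_div_of_nonneg_right hKC' (by positivity)

end Pool.Agent.PERC29.GU
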