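import Pool.Agent.Lib.MP_29e17e_pr.G.Dg
import Pool.Agent.Lib.MP_29e17e_pr.Z.Un

namespace Pool.Agent.PERC29
end Pool.Agent.PERC29
namespace Pool.Agent.PERC29.AE
end Pool.Agent.PERC29.AE
namespace Pool.Agent.PERC29.DZ
end Pool.Agent.PERC29.DZ
namespace Pool.Agent.PERC29.QQ
end Pool.Agent.PERC29.QQ

set_option autoImplicit false
set_option linter.unusedSectionVars false

/-! Rows 29h-O1 .. O10: convolution powers of a function of positive density. -/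

open Finset

namespace Pool.Agent.PERC29.GU

open Pool.Agent.PERC29 Pool.Agent.PERC29.AE Pool.Agent.PERC29.QQ Pool.Agent.PERC29.DZ

variable {d : ℕ}

/-- The class of a point of the lattice. -/
def cst (N : ℕ) (z : Zd d) : Fin d → ZMod N := fun i => ((z i : ℤ) : ZMod N)

/-- The pushforward of an even function is even. -/
theorem psh_even (N R : ℕ) (f : Zd d → ℝ) (hf : ∀ z, f (-z) = f z) (x : Fin d → ZMod N) : psh N R f (-x) = psh N R f x := by
  have key : ∀ y : Fin d → ZMod N, ∀ a ∈ (bz R).filter (fun a : Zd d => (fun i => ((a i : ℤ) : ZMod N)) = y),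
      -a ∈ (bz R).filter (fun a : Zd d => (fun i => ((a i : ℤ) : ZMod N)) = -y) := by
    intro y a ha
    rw [Finset.mem_filter, mem_bz] at ha ⊢
    refine ⟨by rw [nz_neg]; exact ha.1, ?_⟩
    funext i
    have h1 : ((a i : ℤ) : ZMod N) = y i := congrFun ha.2 i
    rw [Pi.neg_apply, Pi.neg_apply, Int.cast_neg, h1]
  unfold psh
  refine Finset.sum_nbij' (fun a => -a) (fun a => -a) ?_ ?_ ?_ ?_ ?_
  · intro a ha
    have h1 := key (-x) a ha
    rwa [neg_neg] at h1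
  · intro a ha
    exact key x a ha
  · intro a _
    exact neg_neg a
  · intro a _
    exact neg_neg a
  · intro a _
    exact (hf a).symm

theorem psh_sum (N R : ℕ) [NeZero N] (f : Zd d → ℝ) (g : (Fin d → ZMod N) → ℝ) : ∑ x, psh N R f x * g x = ∑ a ∈ bz R, f a * g (cst N a) := by
  rw [← Finset.sum_fiberwise (bz R) (cst N) (fun a => f a * g (cst N a))]
  refine Finset.sum_congr rfl fun x _ => ?_
  unfold psh
  rw [Finset.sum_mul]
  refine Finset.sum_congr rfl fun a ha => ?_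
  have h1 : cst N a = x := (Finset.mem_filter.1 ha).2
  rw [h1]

private theorem O2_le {z : Zd d} (i : Fin d) : (z i).natAbs ≤ nz z :=
  Finset.le_sup (f := fun i => (z i).natAbs) (Finset.mem_univ i)

private theorem O2_sub {R : ℕ} {z a : Zd d} (ha : a ∈ bz R) : nz (z - a) ≤ nz z + R := by
  refine Finset.sup_le fun i _ => ?_
  have h1 := O2_le (z := z) i
  have h2 := Finset.mem_Icc.mp ha
  have h3 := h2.1 i
  have h4 := h2.2 i
  simp only [Pi.sub_apply]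
  simp only at h3 h4
  omega

private theorem O2_zero (N : ℕ) (z : Zd d) (h : nz z < N) : cst N z = 0 ↔ z = 0 := by
  constructor
  · intro h0
    funext i
    have h1 : ((z i : ℤ) : ZMod N) = 0 := congrFun h0 i
    rw [ZMod.intCast_zmod_eq_zero_iff_dvd] at h1
    have h2 := O2_le (z := z) i
    exact Int.eq_zero_of_abs_lt_dvd h1 (by rw [Int.abs_eq_natAbs]; omega)
  · rintro rfl
    funext i
    simp [cst]

private theorem O2_cst (N : ℕ) (z a : Zd d) : cst N z - cst N a = cst N (z - a) := by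
  funext i
  simp [cst]

/-- Row O2. Induction on `n`: `cp h (n+1) x = ∑_y cp h n y * h (x - y) = ∑_u h u * cp h n (x - u) = ∑_{a ∈ bz R} f a * cp h n (x - cst a)` (`psh_sum`), `cst` is additive, `nz (z - a) ≤ nz z + R`; for `n = 0`: `cst N z = 0` iff `z = 0` as `nz z < N`. -/
theorem cp_eq (N R : ℕ) [NeZero N] (f : Zd d → ℝ) (n : ℕ) (z : Zd d) (h : n * R + nz z < N) : cp (psh N R f) n (cst N z) = cvk R f n z := by
  induction n generalizing z with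
  | zero =>
    simp only [cp, cvk]
    have h1 := O2_zero N z (by omega)
    by_cases hz : z = 0
    · rw [if_pos hz, if_pos (h1.mpr hz)]
    · rw [if_neg hz, if_neg (fun hc => hz (h1.mp hc))]
  | succ n ih =>
    simp only [cp, cvk]
    have h1 : ∑ y, cp (psh N R f) n y * psh N R f (cst N z - y) =
        ∑ u, psh N R f u * cp (psh N R f) n (cst N z - u) := by
      refine Fintype.sum_equiv (Equiv.subLeft (cst N z)) _ _ fun y => ?_
      rw [Equiv.subLeft_apply, sub_sub_cancel, mul_comm]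
    rw [h1, psh_sum N R f (fun u => cp (psh N R f) n (cst N z - u))]
    refine Finset.sum_congr rfl fun a ha => ?_
    have h2 := O2_sub (z := z) ha
    have h3 : n * R + nz (z - a) < N := by
      have h4 : (n + 1) * R = n * R + R := by ring
      omega
    rw [O2_cst, ih (z - a) h3]

theorem O3_ft {V : Type} [AddCommGroup V] [Fintype V] [DecidableEq V] (h : V → ℝ) (heven : ∀ x, h (-x) = h x)
    (χ : AddChar V ℂ) : ∑ x, (h x : ℂ) * χ x = (ft h χ : ℂ) := by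
  have h1 : ∑ x, (h x : ℂ) * χ x = ∑ x, (h x : ℂ) * (starRingEnd ℂ) (χ x) := by
    rw [← Equiv.sum_comp (Equiv.neg V)]
    refine Finset.sum_congr rfl fun x _ => ?_
    rw [Equiv.neg_apply, heven, AddChar.map_neg_eq_conj]
  have h2 : (2 : ℂ) * ∑ x, (h x : ℂ) * χ x = 2 * (ft h χ : ℂ) := by
    rw [two_mul]
    nth_rewrite 2 [h1]
    rw [← Finset.sum_add_distrib, ft, Complex.ofReal_sum, Finset.mul_sum]
    refine Finset.sum_congr rfl fun x _ => ?_
    rw [← mul_add, Complex.add_conj, Complex.ofReal_mul]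
    push_cast
    ring
  exact mul_left_cancel₀ two_ne_zero h2

theorem O3_cp {V : Type} [AddCommGroup V] [Fintype V] [DecidableEq V] (h : V → ℝ) (χ : AddChar V ℂ) (n : ℕ) :
    ∑ x, (cp h n x : ℂ) * χ x = (∑ x, (h x : ℂ) * χ x) ^ n := by
  induction n with
  | zero =>
    simp only [cp, pow_zero]
    rw [Finset.sum_eq_single (0 : V)]
    · simp
    · intro b _ hb
      simp [hb]
    · intro h0
      exact absurd (Finset.mem_univ _) h0
  | succ n ih =>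
    simp only [cp]
    rw [pow_succ, ← ih, Finset.sum_mul_sum]
    calc ∑ x, ((∑ y, cp h n y * h (x - y) : ℝ) : ℂ) * χ x
        = ∑ x, ∑ y, (cp h n y : ℂ) * (h (x - y) : ℂ) * χ x := by
          refine Finset.sum_congr rfl fun x _ => ?_
          push_cast
          rw [Finset.sum_mul]
      _ = ∑ y, ∑ x, (cp h n y : ℂ) * (h (x - y) : ℂ) * χ x := Finset.sum_comm
      _ = _ := by
          refine Finset.sum_congr rfl fun y _ => ?_
          rw [← Equiv.sum_comp (Equiv.addRight y)]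
          refine Finset.sum_congr rfl fun x _ => ?_
          rw [Equiv.coe_addRight, add_sub_cancel_right, AddChar.map_add_eq_mul]
          ring

/-- Row O3. Compare `ft_pow` in `U/Fo.lean` (the case `z = 0`). -/
theorem cp_inv {V : Type} [AddCommGroup V] [Fintype V] [DecidableEq V] (h : V → ℝ) (heven : ∀ x, h (-x) = h x) (n : ℕ) (z : V) :
    (Fintype.card V : ℝ) * cp h n z = ∑ χ : AddChar V ℂ, ft h χ ^ n * (χ z).re := by
  have key : ∑ χ : AddChar V ℂ, ((ft h χ ^ n : ℝ) : ℂ) * χ (-z) = (((Fintype.card V : ℝ) * cp h n z : ℝ) : ℂ) := by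
    calc ∑ χ : AddChar V ℂ, ((ft h χ ^ n : ℝ) : ℂ) * χ (-z)
        = ∑ χ : AddChar V ℂ, ∑ x, (cp h n x : ℂ) * χ (x - z) := by
          refine Finset.sum_congr rfl fun χ _ => ?_
          rw [Complex.ofReal_pow, ← O3_ft h heven, ← O3_cp, Finset.sum_mul]
          refine Finset.sum_congr rfl fun x _ => ?_
          rw [sub_eq_add_neg, AddChar.map_add_eq_mul, mul_assoc]
      _ = ∑ x, ∑ χ : AddChar V ℂ, (cp h n x : ℂ) * χ (x - z) := Finset.sum_comm
      _ = ∑ x, (cp h n x : ℂ) * (if x - z = 0 then (Fintype.card V : ℂ) else 0) := by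
          refine Finset.sum_congr rfl fun x _ => ?_
          rw [← Finset.mul_sum, AddChar.sum_apply_eq_ite]
      _ = _ := by
          rw [Finset.sum_eq_single z]
          · rw [if_pos (sub_self z), mul_comm]
            push_cast
            rfl
          · intro b _ hb
            rw [if_neg (sub_ne_zero.2 hb), mul_zero]
          · intro h0
            exact absurd (Finset.mem_univ _) h0
  have h2 := congrArg Complex.re key
  rw [Complex.ofReal_re, Complex.re_sum] at h2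
  rw [← h2]
  refine Finset.sum_congr rfl fun χ _ => ?_
  rw [Complex.re_ofReal_mul, AddChar.map_neg_eq_conj, Complex.conj_re]

/-- The transform of the uniform distribution on the origin and its neighbours. -/
noncomputable def muh (N : ℕ) (χ : AddChar (Fin d → ZMod N) ℂ) : ℝ := (1 + 2 * ∑ i : Fin d, (χ (Pi.single i 1)).re) / (2 * d + 1)

private theorem O4_single (i : Fin d) : nz (Pi.single i 1 : Zd d) ≤ 1 := by
  unfold nz
  refine Finset.sup_le fun j _ => ?_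
  by_cases h : j = i
  · subst h; simp
  · simp [Pi.single_eq_of_ne h]

private theorem O4_shift (M : ℕ) (f : Zd d → ℝ) (hf : ∀ z, M < nz z → f z = 0) (e : Zd d) (he : nz e ≤ 1) (g : Zd d → ℝ) :
    ∑ a ∈ bz (M + 1), f (a + e) * g a = ∑ b ∈ bz M, f b * g (b - e) := by
  symm
  have h1 : ∑ b ∈ bz M, f b * g (b - e) = ∑ a ∈ (bz M).image (fun b => b - e), f (a + e) * g a := by
    rw [Finset.sum_image]
    · refine Finset.sum_congr rfl fun b _ => by rw [sub_add_cancel]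
    · intro x _ y _ hxy
      exact sub_left_injective hxy
  rw [h1]
  refine Finset.sum_subset ?_ ?_
  · intro a ha
    rw [Finset.mem_image] at ha
    obtain ⟨b, hb, rfl⟩ := ha
    rw [mem_bz] at hb ⊢
    have h2 := nz_add b (-e)
    rw [nz_neg, ← sub_eq_add_neg] at h2
    omega
  · intro a _ ha
    have h3 : M < nz (a + e) := by
      by_contra hc
      apply ha
      rw [Finset.mem_image]
      exact ⟨a + e, (mem_bz _ _).2 (by omega), by rw [add_sub_cancel_right]⟩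
    rw [hf _ h3, zero_mul]

private theorem O4_gen (M : ℕ) (f : Zd d → ℝ) (hf : ∀ z, M < nz z → f z = 0) (g : Zd d → ℝ) (m : ℝ)
    (hg : ∀ b, g b + ∑ i : Fin d, (g (b - Pi.single i 1) + g (b + Pi.single i 1)) = m * g b) :
    ∑ a ∈ bz (M + 1), thk f a * g a = m / (2 * d + 1) * ∑ b ∈ bz M, f b * g b := by
  have h0 : ∑ a ∈ bz (M + 1), f a * g a = ∑ b ∈ bz M, f b * g b := by
    have h := O4_shift M f hf 0 (by rw [nz_zero]; omega) g
    simpa using h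
  have h1 : ∀ i : Fin d, ∑ a ∈ bz (M + 1), f (a + Pi.single i 1) * g a = ∑ b ∈ bz M, f b * g (b - Pi.single i 1) :=
    fun i => O4_shift M f hf _ (O4_single i) g
  have h2 : ∀ i : Fin d, ∑ a ∈ bz (M + 1), f (a - Pi.single i 1) * g a = ∑ b ∈ bz M, f b * g (b + Pi.single i 1) := by
    intro i
    have h := O4_shift M f hf (-Pi.single i 1) (by rw [nz_neg]; exact O4_single i) g
    simpa [sub_eq_add_neg] using h
  have h3 : ∑ a ∈ bz (M + 1), thk f a * g a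
      = (∑ a ∈ bz (M + 1), f a * g a + ∑ i : Fin d, (∑ a ∈ bz (M + 1), f (a + Pi.single i 1) * g a + ∑ a ∈ bz (M + 1), f (a - Pi.single i 1) * g a)) / (2 * d + 1) := by
    have h4 : ∀ a : Zd d, thk f a * g a
        = (f a * g a + ∑ i : Fin d, (f (a + Pi.single i 1) * g a + f (a - Pi.single i 1) * g a)) / (2 * d + 1) := by
      intro a
      unfold thk
      rw [div_mul_eq_mul_div, add_mul, Finset.sum_mul]
      simp only [add_mul]
    rw [Finset.sum_congr rfl fun a _ => h4 a, ← Finset.sum_div, Finset.sum_add_distrib, Finset.sum_comm]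
    simp only [Finset.sum_add_distrib]
  rw [h3, h0]
  simp only [h1, h2]
  have h5 : ∑ b ∈ bz M, f b * g b + ∑ i : Fin d, (∑ b ∈ bz M, f b * g (b - Pi.single i 1) + ∑ b ∈ bz M, f b * g (b + Pi.single i 1))
      = m * ∑ b ∈ bz M, f b * g b := by
    have h6 : ∑ i : Fin d, (∑ b ∈ bz M, f b * g (b - Pi.single i 1) + ∑ b ∈ bz M, f b * g (b + Pi.single i 1))
        = ∑ b ∈ bz M, ∑ i : Fin d, (f b * g (b - Pi.single i 1) + f b * g (b + Pi.single i 1)) := by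
      rw [Finset.sum_comm]
      simp only [Finset.sum_add_distrib]
    rw [h6, ← Finset.sum_add_distrib, Finset.mul_sum]
    refine Finset.sum_congr rfl fun b _ => ?_
    have h7 : m * (f b * g b) = f b * (m * g b) := by ring
    rw [h7, ← hg b, mul_add, Finset.mul_sum]
    congr 1
    refine Finset.sum_congr rfl fun i _ => ?_
    ring
  rw [h5]
  ring

private theorem O4_cst_add (N : ℕ) (x y : Zd d) : cst N (x + y) = cst N x + cst N y := by
  funext i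
  simp [cst]

private theorem O4_cst_neg (N : ℕ) (x : Zd d) : cst N (-x) = -cst N x := by
  funext i
  simp [cst]

private theorem O4_cst_single (N : ℕ) (i : Fin d) : cst N (Pi.single i 1 : Zd d) = Pi.single i 1 := by
  funext j
  unfold cst
  by_cases h : j = i
  · subst h; simp
  · rw [Pi.single_eq_of_ne h, Pi.single_eq_of_ne h, Int.cast_zero]

private theorem O4_char (N : ℕ) [NeZero N] (χ : AddChar (Fin d → ZMod N) ℂ) (b : Zd d) (i : Fin d) :
    (χ (cst N (b - Pi.single i 1))).re + (χ (cst N (b + Pi.single i 1))).re = 2 * (χ (Pi.single i 1)).re * (χ (cst N b)).re := by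
  rw [sub_eq_add_neg, O4_cst_add, O4_cst_add, O4_cst_neg, O4_cst_single, AddChar.map_add_eq_mul, AddChar.map_add_eq_mul, AddChar.map_neg_eq_conj]
  simp only [Complex.mul_re, Complex.conj_re, Complex.conj_im]
  ring

/-- Row O4. `ft (psh ..) χ = ∑_{a ∈ bz (M+1)} thk f a (χ (cst a)).re` (`psh_sum`); shift the sums (the support of `f` is in `bz M`); `(χ (b - e)).re + (χ (b + e)).re = 2 (χ e).re (χ b).re`. -/
theorem ft_thk (N M : ℕ) [NeZero N] (f : Zd d → ℝ) (hf : ∀ z, M < nz z → f z = 0) (χ : AddChar (Fin d → ZMod N) ℂ) :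
    ft (psh N (M + 1) (thk f)) χ = muh N χ * ∑ a ∈ bz M, f a * (χ (cst N a)).re := by
  unfold ft
  rw [psh_sum N (M + 1) (thk f) (fun x => (χ x).re)]
  unfold muh
  refine O4_gen M f hf (fun a => (χ (cst N a)).re) (1 + 2 * ∑ i : Fin d, (χ (Pi.single i 1)).re) fun b => ?_
  show (χ (cst N b)).re + ∑ i : Fin d, ((χ (cst N (b - Pi.single i 1))).re + (χ (cst N (b + Pi.single i 1))).re) = _
  rw [Finset.sum_congr rfl fun i _ => O4_char N χ b i, ← Finset.sum_mul, ← Finset.mul_sum]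
  ring

/-- Row O4. -/
theorem thk_sum (M : ℕ) (f : Zd d → ℝ) (hf : ∀ z, M < nz z → f z = 0) : ∑ a ∈ bz (M + 1), thk f a = ∑ a ∈ bz M, f a := by
  have h := O4_gen M f hf (fun _ => 1) (2 * d + 1) (fun b => by
    simp only [Finset.sum_const, Finset.card_univ, Fintype.card_fin, nsmul_eq_mul, mul_one]
    ring)
  simp only [mul_one] at h
  rw [h, div_self (by positivity), one_mul]

/-- The character `x ↦ exp (2 π √-1 (∑ k_i x_i) / N)`. -/
private noncomputable def O5_chr (d N : ℕ) [NeZero N] (k : Fin d → ℕ) : AddChar (Fin d → ZMod N) ℂ :=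
  (ZMod.stdAddChar (N := N)).compAddMonoidHom
    { toFun := fun x => ∑ i, ((k i : ℕ) : ZMod N) * x i
      map_zero' := by simp
      map_add' := fun x y => by
        rw [← Finset.sum_add_distrib]
        exact Finset.sum_congr rfl fun i _ => by rw [Pi.add_apply, mul_add] }

private lemma O5_val (d N : ℕ) [NeZero N] (k : Fin d → ℕ) (i : Fin d) :
    O5_chr d N k (Pi.single i 1) = ZMod.stdAddChar (N := N) ((k i : ℕ) : ZMod N) := by
  unfold O5_chr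
  rw [AddChar.compAddMonoidHom_apply]
  congr 1
  show ∑ j, ((k j : ℕ) : ZMod N) * (Pi.single i (1 : ZMod N) : Fin d → ZMod N) j = _
  rw [Finset.sum_eq_single i]
  · rw [Pi.single_eq_same, mul_one]
  · intro j _ hj
    rw [Pi.single_eq_of_ne hj, mul_zero]
  · intro h
    exact absurd (Finset.mem_univ _) h

private lemma O5_norm (N : ℕ) [NeZero N] (k : ℕ) : ‖1 - ZMod.stdAddChar (N := N) ((k : ℕ) : ZMod N)‖ ≤ 2 * Real.pi * k / N := by
  have h1 := ZMod.stdAddChar_coe (N := N) (k : ℤ)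
  have h2 : (((k : ℤ) : ℤ) : ZMod N) = ((k : ℕ) : ZMod N) := by push_cast; rfl
  rw [h2] at h1
  rw [h1, norm_sub_rev]
  have h3 : (2 * (Real.pi : ℂ) * Complex.I * ((k : ℤ) : ℂ) / (N : ℂ)) = Complex.I * ((2 * Real.pi * k / N : ℝ) : ℂ) := by
    push_cast
    ring
  rw [h3]
  refine (Real.norm_exp_I_mul_ofReal_sub_one_le).trans (le_of_eq ?_)
  rw [Real.norm_eq_abs, abs_of_nonneg]
  have := Real.pi_pos
  positivity

private lemma O5_inj (d N m : ℕ) [NeZero N] (hm : m < N) (k k' : Fin d → ℕ) (hk : ∀ i, k i ≤ m) (hk' : ∀ i, k' i ≤ m)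
    (h : O5_chr d N k = O5_chr d N k') : k = k' := by
  funext i
  have h1 : O5_chr d N k (Pi.single i 1) = O5_chr d N k' (Pi.single i 1) := by rw [h]
  rw [O5_val, O5_val] at h1
  have h2 := ZMod.injective_stdAddChar (N := N) h1
  rw [ZMod.natCast_eq_natCast_iff'] at h2
  rwa [Nat.mod_eq_of_lt ((hk i).trans_lt hm), Nat.mod_eq_of_lt ((hk' i).trans_lt hm)] at h2

/-- Row O5. The characters `x ↦ ∏ i, exp (2 π √-1 k_i x_i / N)` (`ZMod.stdAddChar`, for example `∏ i` of `ZMod.stdAddChar (k i * x i)`) with `0 ≤ k i ≤ τ N / 7`: they are distinct (values at `Pi.single i 1`; `k i < N`), and `‖1 - exp (2 π √-1 k / N)‖ ≤ 2 π k / N ≤ τ`. -/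
theorem low_char (d N : ℕ) [NeZero N] (τ : ℝ) (hτ : 0 < τ) (hτ1 : τ ≤ 1) : ∃ S : Finset (AddChar (Fin d → ZMod N) ℂ), (τ * N / 7) ^ d ≤ (S.card : ℝ) ∧
    ∀ χ ∈ S, ∀ i : Fin d, ‖1 - χ (Pi.single i 1)‖ ≤ τ := by
  classical
  have hN : (0 : ℝ) < N := by exact_mod_cast Nat.pos_of_ne_zero (NeZero.ne N)
  set m : ℕ := ⌊τ * N / 7⌋₊ with hmdef
  have hx0 : 0 ≤ τ * N / 7 := by positivity
  have hm1 : (m : ℝ) ≤ τ * N / 7 := Nat.floor_le hx0
  have hm2 : τ * N / 7 < (m : ℝ) + 1 := Nat.lt_floor_add_one _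
  have hmN : m < N := by
    have h1 : (m : ℝ) < N := by
      have : τ * N ≤ 1 * N := mul_le_mul_of_nonneg_right hτ1 hN.le
      linarith
    exact_mod_cast h1
  refine ⟨(Finset.univ : Finset (Fin d → Fin (m + 1))).image (fun k => O5_chr d N (fun i => (k i : ℕ))), ?_, ?_⟩
  · rw [Finset.card_image_of_injective]
    · have h1 : (Finset.univ : Finset (Fin d → Fin (m + 1))).card = (m + 1) ^ d := by simp
      rw [h1]
      push_cast
      exact pow_le_pow_left₀ hx0 hm2.le d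
    · intro k k' h
      have h1 := O5_inj d N m hmN _ _ (fun i => Nat.lt_succ_iff.1 (k i).isLt) (fun i => Nat.lt_succ_iff.1 (k' i).isLt) h
      funext i
      exact Fin.ext (congrFun h1 i)
  · intro χ hχ i
    obtain ⟨k, -, rfl⟩ := Finset.mem_image.1 hχ
    rw [O5_val]
    refine (O5_norm N _).trans ?_
    have h1 : ((k i : ℕ) : ℝ) ≤ m := by exact_mod_cast Nat.lt_succ_iff.1 (k i).isLt
    have h2 : ((k i : ℕ) : ℝ) ≤ τ * N / 7 := h1.trans hm1
    have h3 : Real.pi < 3.15 := Real.pi_lt_d2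
    have h4 : 0 < Real.pi := Real.pi_pos
    rw [div_le_iff₀ hN]
    calc 2 * Real.pi * ((k i : ℕ) : ℝ) ≤ 2 * Real.pi * (τ * N / 7) := by gcongr
      _ = (2 * Real.pi / 7) * (τ * N) := by ring
      _ ≤ 1 * (τ * N) := by
          apply mul_le_mul_of_nonneg_right _ (by positivity)
          linarith
      _ = τ * N := one_mul _

private theorem O6_add {V : Type*} [AddCommGroup V] [Finite V] (χ : AddChar V ℂ) (x y : V) :
    ‖1 - χ (x + y)‖ ≤ ‖1 - χ x‖ + ‖1 - χ y‖ := by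
  have h1 : 1 - χ (x + y) = (1 - χ x) + χ x * (1 - χ y) := by
    rw [AddChar.map_add_eq_mul]
    ring
  rw [h1]
  refine (norm_add_le _ _).trans ?_
  rw [norm_mul, AddChar.norm_apply, one_mul]

private theorem O6_neg {V : Type*} [AddCommGroup V] [Finite V] (χ : AddChar V ℂ) (x : V) :
    ‖1 - χ (-x)‖ = ‖1 - χ x‖ := by
  have h1 : χ (-x) * χ x = 1 := by
    rw [← AddChar.map_add_eq_mul, neg_add_cancel, AddChar.map_zero_eq_one]
  have h2 : 1 - χ (-x) = χ (-x) * (-(1 - χ x)) := by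
    have h3 : χ (-x) * (-(1 - χ x)) = χ (-x) * χ x - χ (-x) := by ring
    rw [h3, h1]
  rw [h2, norm_mul, AddChar.norm_apply, one_mul, norm_neg]

private theorem O6_nat {V : Type*} [AddCommGroup V] [Finite V] (χ : AddChar V ℂ) (x : V) (n : ℕ) :
    ‖1 - χ (n • x)‖ ≤ n * ‖1 - χ x‖ := by
  induction n with
  | zero => simp
  | succ n ih =>
    rw [succ_nsmul]
    refine (O6_add χ _ _).trans ?_
    push_cast
    linarith

private theorem O6_int {V : Type*} [AddCommGroup V] [Finite V] (χ : AddChar V ℂ) (x : V) (n : ℤ) :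
    ‖1 - χ (n • x)‖ ≤ (n.natAbs : ℝ) * ‖1 - χ x‖ := by
  rcases Int.natAbs_eq n with h | h
  · have h1 : n • x = n.natAbs • x := by
      conv_lhs => rw [h]
      exact natCast_zsmul x _
    rw [h1]
    exact O6_nat χ x _
  · have h1 : n • x = -(n.natAbs • x) := by
      conv_lhs => rw [h]
      rw [neg_smul, natCast_zsmul]
    rw [h1, O6_neg]
    exact O6_nat χ x _

private theorem O6_sum {V ι : Type*} [AddCommGroup V] [Finite V] (χ : AddChar V ℂ) (s : Finset ι)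
    (f : ι → V) : ‖1 - χ (∑ i ∈ s, f i)‖ ≤ ∑ i ∈ s, ‖1 - χ (f i)‖ := by
  classical
  induction s using Finset.induction_on with
  | empty => simp
  | insert a s ha ih =>
    rw [Finset.sum_insert ha, Finset.sum_insert ha]
    exact (O6_add χ _ _).trans (by linarith)

private theorem O6_cst (N : ℕ) (z : Zd d) :
    cst N z = ∑ i, (z i : ℤ) • (Pi.single i (1 : ZMod N) : Fin d → ZMod N) := by
  funext j
  rw [Finset.sum_apply, Finset.sum_eq_single j]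
  · simp [cst]
  · intro i _ hij
    rw [Pi.smul_apply, Pi.single_eq_of_ne (Ne.symm hij), smul_zero]
  · intro hj
    exact absurd (Finset.mem_univ j) hj

/-- Row O6. `cst N z = ∑ i, z i • Pi.single i 1`, `‖χ‖ = 1`, `‖1 - a b‖ ≤ ‖1 - a‖ + ‖1 - b‖` for unit `a`, `b`. -/
theorem char_near (N : ℕ) [NeZero N] (χ : AddChar (Fin d → ZMod N) ℂ) (τ : ℝ) (hτ : 0 ≤ τ) (h : ∀ i : Fin d, ‖1 - χ (Pi.single i 1)‖ ≤ τ) (z : Zd d) :
    ‖1 - χ (cst N z)‖ ≤ d * τ * nz z := by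
  rw [O6_cst]
  refine (O6_sum χ _ _).trans ?_
  have h1 : ∀ i ∈ (Finset.univ : Finset (Fin d)),
      ‖1 - χ ((z i : ℤ) • (Pi.single i (1 : ZMod N) : Fin d → ZMod N))‖ ≤ τ * nz z := by
    intro i _
    refine (O6_int χ _ _).trans ?_
    have h2 : ((z i).natAbs : ℝ) ≤ nz z := by
      have h3 : (z i).natAbs ≤ nz z := Finset.le_sup (f := fun i => (z i).natAbs) (Finset.mem_univ i)
      exact_mod_cast h3
    have h4 := h i
    calc ((z i).natAbs : ℝ) * ‖1 - χ (Pi.single i (1 : ZMod N))‖ ≤ (nz z : ℝ) * τ :=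
          mul_le_mul h2 h4 (norm_nonneg _) (Nat.cast_nonneg _)
      _ = τ * nz z := mul_comm _ _
  refine (Finset.sum_le_sum h1).trans ?_
  rw [Finset.sum_const, Finset.card_univ, Fintype.card_fin, nsmul_eq_mul, mul_assoc]

theorem O7_card (S : Finset ℤ) (L : ℝ) (hL : 0 ≤ L) (h : ∀ i ∈ S, ∀ j ∈ S, i ≤ j → ((j - i : ℤ) : ℝ) ≤ L) : (S.card : ℝ) ≤ L + 1 := by
  rcases S.eq_empty_or_nonempty with h0 | h0
  · subst h0
    simp
    linarith
  · have h1 : S ⊆ Finset.Icc (S.min' h0) (S.max' h0) := by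
      intro x hx
      rw [Finset.mem_Icc]
      exact ⟨S.min'_le x hx, S.le_max' x hx⟩
    have h2 := Finset.card_le_card h1
    rw [Int.card_Icc] at h2
    have h3 : S.min' h0 ≤ S.max' h0 := S.min'_le _ (S.max'_mem h0)
    have h4 := h _ (S.min'_mem h0) _ (S.max'_mem h0) h3
    have h5 : (S.card : ℤ) ≤ S.max' h0 + 1 - S.min' h0 := by omega
    have h6 : ((S.card : ℤ) : ℝ) ≤ ((S.max' h0 + 1 - S.min' h0 : ℤ) : ℝ) := by exact_mod_cast h5
    push_cast at h6 h4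
    linarith

theorem O7_block (M b : ℕ) (hb : 0 < b) (C : ℝ) (S : Finset ℤ) (hS : S ⊆ Finset.Icc (-(2 * (M : ℤ))) (2 * (M : ℤ)))
    (h : ∀ k : ℤ, ((S.filter (fun j => (j + 2 * (M : ℤ)) / (b : ℤ) = k)).card : ℝ) ≤ C) (hC : 0 ≤ C) :
    (S.card : ℝ) ≤ (4 * (M : ℝ) / b + 1) * C := by
  have hb' : (0 : ℤ) < (b : ℤ) := by exact_mod_cast hb
  have hm : ∀ j ∈ S, (j + 2 * (M : ℤ)) / (b : ℤ) ∈ Finset.Icc (0 : ℤ) ((4 * (M : ℤ)) / (b : ℤ)) := by
    intro j hj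
    have h1 := Finset.mem_Icc.1 (hS hj)
    rw [Finset.mem_Icc]
    constructor
    · apply Int.ediv_nonneg
      · omega
      · omega
    · apply Int.ediv_le_ediv hb'
      omega
  rw [Finset.card_eq_sum_card_fiberwise hm]
  push_cast
  have h2 : ∑ k ∈ Finset.Icc (0 : ℤ) ((4 * (M : ℤ)) / (b : ℤ)), ((S.filter (fun j => (j + 2 * (M : ℤ)) / (b : ℤ) = k)).card : ℝ) ≤ ∑ k ∈ Finset.Icc (0 : ℤ) ((4 * (M : ℤ)) / (b : ℤ)), C := Finset.sum_le_sum (fun k _ => h k)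
  refine h2.trans ?_
  rw [Finset.sum_const, nsmul_eq_mul]
  apply mul_le_mul_of_nonneg_right _ hC
  rw [Int.card_Icc]
  have h3 : 0 ≤ (4 * (M : ℤ)) / (b : ℤ) := Int.ediv_nonneg (by omega) (by omega)
  have h4 : (((4 * (M : ℤ) / (b : ℤ) + 1 - 0).toNat : ℤ) : ℝ) = ((4 * (M : ℤ) / (b : ℤ) : ℤ) : ℝ) + 1 := by
    rw [Int.toNat_of_nonneg (by omega)]
    push_cast
    ring
  have h5 : (((4 * (M : ℤ)) / (b : ℤ) : ℤ) : ℝ) ≤ 4 * (M : ℝ) / b := by
    rw [le_div_iff₀ (by exact_mod_cast hb)]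
    have := Int.ediv_mul_le (4 * (M : ℤ)) (ne_of_gt hb')
    exact_mod_cast this
  have h6 : (((4 * (M : ℤ) / (b : ℤ) + 1 - 0).toNat : ℕ) : ℝ) = (((4 * (M : ℤ) / (b : ℤ) + 1 - 0).toNat : ℤ) : ℝ) := by
    norm_cast
  rw [h6, h4]
  linarith

theorem O7_low (x : ℝ) (hx : |x| ≤ Real.pi) : (1 / 2) * |x| ≤ ‖1 - Complex.exp (Complex.I * x)‖ := by
  rw [norm_sub_rev, Complex.norm_exp_I_mul_ofReal_sub_one, norm_mul, Real.norm_eq_abs, Real.norm_eq_abs]
  have h1 : |x / 2| ≤ Real.pi / 2 := by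
    rw [abs_div, abs_two]
    linarith
  have h2 := Real.mul_abs_le_abs_sin h1
  rw [abs_two]
  have h3 : |x / 2| = |x| / 2 := by rw [abs_div, abs_two]
  rw [h3] at h2
  have h4 : (1 / 2 : ℝ) ≤ 2 / Real.pi := by
    rw [div_le_div_iff₀ (by norm_num) Real.pi_pos]
    linarith [Real.pi_le_four]
  nlinarith [abs_nonneg x]

theorem O7_up (x : ℝ) : ‖1 - Complex.exp (Complex.I * x)‖ ≤ |x| := by
  rw [norm_sub_rev, Complex.norm_exp_I_mul_ofReal_sub_one, norm_mul, Real.norm_eq_abs, Real.norm_eq_abs]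
  have h2 : |Real.sin (x / 2)| ≤ |x / 2| := Real.abs_sin_le_abs
  rw [abs_two]
  have h3 : |x / 2| = |x| / 2 := by rw [abs_div, abs_two]
  rw [h3] at h2
  linarith

theorem O7_sub (ω : ℂ) (hω : ‖ω‖ = 1) (η : ℝ) (i j : ℤ) (hi : ‖1 - ω ^ i‖ ≤ η) (hj : ‖1 - ω ^ j‖ ≤ η) : ‖1 - ω ^ (j - i)‖ ≤ 2 * η := by
  have h0 : ω ≠ 0 := by
    intro h
    rw [h] at hω
    simp at hω
  have h1 : ω ^ i * (1 - ω ^ (j - i)) = (1 - ω ^ j) - (1 - ω ^ i) := by
    rw [mul_sub, ← zpow_add₀ h0, mul_one]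
    have : i + (j - i) = j := by ring
    rw [this]
    ring
  have h2 : ‖ω ^ i‖ = 1 := by
    rw [norm_zpow, hω, one_zpow]
  have h3 : ‖1 - ω ^ (j - i)‖ = ‖(1 - ω ^ j) - (1 - ω ^ i)‖ := by
    rw [← h1, norm_mul, h2, one_mul]
  rw [h3]
  refine (norm_sub_le _ _).trans ?_
  linarith

/-- Row O7. Write `ω = exp (√-1 θ)` with `0 < |θ| ≤ π`; `(2/π) |θ| ≤ ‖1 - ω‖ ≤ |θ|`, so `τ0/M ≤ |θ| ≤ 2 η0`. If `‖1 - ω^j‖ ≤ η` then `j θ` is within `2 η` of `2 π ℤ`. Let `b` be an integer with `|θ| b ≤ 1 < |θ| (b + 1)`. In every interval of `b` consecutive integers the `j` with `‖1 - ω^j‖ ≤ η` (`η ≤ 1/8`) lie in an interval of length at most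
`4 η/|θ|` (two of them differ by `i ≤ b` with `‖1 - ω^i‖ ≤ 2 η`, `|i θ| ≤ 1` so `|i θ| ≤ 4 η`): at most `4 η/|θ| + 1`. There are at most `(4M+1)/b + 1` intervals: total at most `(4 (4M+1) |θ| + 1) (4 η/|θ| + 1) ≤ K (η M + M |θ| + η M/τ0 + 1)`. -/
theorem rot_cnt (ε τ0 : ℝ) (hε : 0 < ε) (hτ0 : 0 < τ0) : ∃ (η η0 : ℝ) (M0 : ℕ), 0 < η ∧ 0 < η0 ∧ η0 ≤ 1 ∧ ∀ (M : ℕ) (ω : ℂ), M0 ≤ M → ‖ω‖ = 1 → τ0 / M ≤ ‖1 - ω‖ → ‖1 - ω‖ ≤ η0 →
    (((Finset.Icc (-(2 * (M : ℤ))) (2 * (M : ℤ))).filter (fun j : ℤ => ‖1 - ω ^ j‖ ≤ η)).card : ℝ) ≤ ε * M := by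
  refine ⟨ε / 4 / (32 + 4 / τ0), min (1 / 8) (ε / 64), ⌈4 / ε⌉₊ + 1, by positivity, by positivity, (min_le_left _ _).trans (by norm_num), ?_⟩
  intro M ω hM hω hlo hhi
  set η : ℝ := ε / 4 / (32 + 4 / τ0) with hη
  have hηpos : 0 < η := by positivity
  have hη' : 32 * η + 4 * η / τ0 = ε / 4 := by
    rw [hη]
    field_simp
  have hM1 : (1 : ℝ) ≤ M := by exact_mod_cast (by omega : 1 ≤ M)
  have hM2 : 4 / ε ≤ (M : ℝ) := by
    have h1 : 4 / ε ≤ (⌈4 / ε⌉₊ : ℝ) := Nat.le_ceil _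
    have h2 : ((⌈4 / ε⌉₊ : ℕ) : ℝ) ≤ M := by exact_mod_cast (by omega : ⌈4 / ε⌉₊ ≤ M)
    linarith
  have hM3 : 1 ≤ ε / 4 * M := by
    rw [div_le_iff₀ hε] at hM2
    linarith
  have hMpos : (0 : ℝ) < M := by linarith
  -- the angle
  obtain ⟨θ, hθ, hωθ⟩ : ∃ θ : ℝ, |θ| ≤ Real.pi ∧ ω = Complex.exp (Complex.I * θ) := by
    refine ⟨Complex.arg ω, Complex.abs_arg_le_pi ω, ?_⟩
    have := Complex.norm_mul_exp_arg_mul_I ω
    rw [hω] at this
    rw [mul_comm Complex.I]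
    simpa using this.symm
  have hlow := O7_low θ hθ
  have hup := O7_up θ
  rw [← hωθ] at hlow hup
  have ht0 : τ0 / M ≤ |θ| := hlo.trans hup
  have ht1 : |θ| ≤ 1 / 4 := by
    have := min_le_left (1 / 8) (ε / 64)
    linarith
  have ht2 : |θ| ≤ ε / 32 := by
    have := min_le_right (1 / 8) (ε / 64)
    linarith
  have htpos : 0 < |θ| := lt_of_lt_of_le (by positivity) ht0
  -- the block length
  set b : ℕ := ⌊1 / |θ|⌋₊ with hb
  have hb1 : (b : ℝ) ≤ 1 / |θ| := Nat.floor_le (by positivity)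
  have hb2 : 1 / |θ| < (b : ℝ) + 1 := Nat.lt_floor_add_one _
  have hb3 : (b : ℝ) * |θ| ≤ 1 := by
    rwa [le_div_iff₀ htpos] at hb1
  have hb4 : 1 < ((b : ℝ) + 1) * |θ| := by
    rwa [div_lt_iff₀ htpos] at hb2
  have hb5 : 1 / 2 ≤ (b : ℝ) * |θ| := by nlinarith
  have hbpos : 0 < b := by
    rcases Nat.eq_zero_or_pos b with h | h
    · rw [h] at hb5
      norm_num at hb5
    · exact h
  have hbpos' : (0 : ℝ) < b := by exact_mod_cast hbpos
  -- the count in one block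
  have hblock : ∀ k : ℤ, (((((Finset.Icc (-(2 * (M : ℤ))) (2 * (M : ℤ))).filter (fun j : ℤ => ‖1 - ω ^ j‖ ≤ η))).filter (fun j => (j + 2 * (M : ℤ)) / (b : ℤ) = k)).card : ℝ) ≤ 4 * η / |θ| + 1 := by
    intro k
    apply O7_card _ _ (by positivity)
    intro i hi j hj hij
    rw [Finset.mem_filter, Finset.mem_filter] at hi hj
    have h1 := O7_sub ω hω η i j hi.1.2 hj.1.2
    have h2 : j - i < (b : ℤ) := by
      have e1 := Int.emod_add_mul_ediv (i + 2 * (M : ℤ)) (b : ℤ)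
      have e2 := Int.emod_add_mul_ediv (j + 2 * (M : ℤ)) (b : ℤ)
      rw [hi.2] at e1
      rw [hj.2] at e2
      have e3 := Int.emod_nonneg (i + 2 * (M : ℤ)) (by omega : (b : ℤ) ≠ 0)
      have e4 := Int.emod_lt_of_pos (j + 2 * (M : ℤ)) (by omega : 0 < (b : ℤ))
      linarith
    have h3 : ω ^ (j - i) = Complex.exp (Complex.I * (((j - i : ℤ) : ℝ) * θ : ℝ)) := by
      rw [hωθ, ← Complex.exp_int_mul]
      congr 1
      push_cast
      ring
    have h4 : (0 : ℝ) ≤ ((j - i : ℤ) : ℝ) := by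
      have : (0 : ℤ) ≤ j - i := by omega
      exact_mod_cast this
    have h5 : ((j - i : ℤ) : ℝ) ≤ b := by
      have : j - i ≤ (b : ℤ) := h2.le
      exact_mod_cast this
    have h6 : |((j - i : ℤ) : ℝ) * θ| = ((j - i : ℤ) : ℝ) * |θ| := by
      rw [abs_mul, abs_of_nonneg h4]
    have h7 : |((j - i : ℤ) : ℝ) * θ| ≤ Real.pi := by
      rw [h6]
      have : ((j - i : ℤ) : ℝ) * |θ| ≤ (b : ℝ) * |θ| := mul_le_mul_of_nonneg_right h5 htpos.le
      linarith [Real.pi_gt_three]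
    have h8 := O7_low _ h7
    rw [← h3, h6] at h8
    rw [le_div_iff₀ htpos]
    linarith
  have hmain := O7_block M b hbpos (4 * η / |θ| + 1) _ (Finset.filter_subset _ _) hblock (by positivity)
  refine hmain.trans ?_
  have h1 : 4 * (M : ℝ) / b ≤ 8 * M * |θ| := by
    rw [div_le_iff₀ hbpos']
    nlinarith
  have h2 : 4 * η / |θ| ≤ 4 * η / τ0 * M := by
    rw [div_le_iff₀ htpos]
    have h3 : τ0 ≤ |θ| * M := by rwa [div_le_iff₀ hMpos] at ht0
    have h4 : 4 * η / τ0 * M * |θ| = 4 * η / τ0 * (|θ| * M) := by ring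
    rw [h4]
    have h5 : 4 * η = 4 * η / τ0 * τ0 := by field_simp
    calc 4 * η = 4 * η / τ0 * τ0 := h5
      _ ≤ 4 * η / τ0 * (|θ| * M) := mul_le_mul_of_nonneg_left h3 (by positivity)
  have h3 : (4 * (M : ℝ) / b + 1) * (4 * η / |θ| + 1) ≤ (8 * M * |θ| + 1) * (4 * η / |θ| + 1) := by
    apply mul_le_mul_of_nonneg_right _ (by positivity)
    linarith
  have h4 : (8 * M * |θ| + 1) * (4 * η / |θ| + 1) = 32 * η * M + 8 * M * |θ| + 4 * η / |θ| + 1 := by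
    field_simp
    ring
  have h5 : 8 * M * |θ| ≤ ε / 4 * M := by nlinarith
  have h6 : 32 * η * M + 4 * η / τ0 * M = ε / 4 * M := by
    rw [← hη']
    ring
  nlinarith

theorem O8_diff (N : ℕ) [NeZero N] (χ : AddChar (Fin d → ZMod N) ℂ) (i : Fin d) (z z' : Zd d)
    (h : ∀ j, j ≠ i → z j = z' j) :
    χ (cst N z) = χ (Pi.single i 1) ^ (z i - z' i) * χ (cst N z') := by
  have h1 : cst N z = (z i - z' i) • (Pi.single i (1 : ZMod N) : Fin d → ZMod N) + cst N z' := by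
    funext j
    by_cases hj : j = i
    · subst hj
      simp [cst]
    · simp [cst, Pi.single_eq_of_ne hj, h j hj]
  rw [h1, AddChar.map_add_eq_mul, AddChar.map_zsmul_eq_zpow]

theorem O8_near {u : ℂ} (hu : ‖u‖ = 1) {σ κ : ℝ} (hσ : σ = 1 ∨ σ = -1) (h : 1 - κ ≤ σ * u.re) :
    ‖u - (σ : ℂ)‖ ^ 2 ≤ 2 * κ := by
  have h1 : u.re * u.re + u.im * u.im = 1 := by
    have h2 := Complex.normSq_eq_norm_sq u
    rw [hu, Complex.normSq_apply] at h2
    linarith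
  rw [← Complex.normSq_eq_norm_sq, Complex.normSq_apply]
  simp only [Complex.sub_re, Complex.sub_im, Complex.ofReal_re, Complex.ofReal_im, sub_zero]
  rcases hσ with rfl | rfl
  · nlinarith
  · nlinarith

theorem O8_two {η κ σ : ℝ} (hη : 0 < η) (hκ : κ ≤ η ^ 2 / 8) (hσ : σ = 1 ∨ σ = -1) {u v : ℂ} (hu : ‖u‖ = 1)
    (hv : ‖v‖ = 1) (h1 : 1 - κ ≤ σ * u.re) (h2 : 1 - κ ≤ σ * v.re) : ‖u - v‖ ≤ η := by
  have h3 : ‖u - (σ : ℂ)‖ ≤ η / 2 := by
    have h4 := O8_near hu hσ h1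
    refine (pow_le_pow_iff_left₀ (norm_nonneg _) (by positivity) (two_ne_zero)).1 ?_
    nlinarith
  have h5 : ‖v - (σ : ℂ)‖ ≤ η / 2 := by
    have h4 := O8_near hv hσ h2
    refine (pow_le_pow_iff_left₀ (norm_nonneg _) (by positivity) (two_ne_zero)).1 ?_
    nlinarith
  calc ‖u - v‖ = ‖(u - (σ : ℂ)) - (v - (σ : ℂ))‖ := by congr 1; ring
    _ ≤ ‖u - (σ : ℂ)‖ + ‖v - (σ : ℂ)‖ := norm_sub_le _ _
    _ ≤ η := by linarith

/-- Row O8. `κ` with `2 √(2 κ) ≤ η` for the `η` of `rot_cnt` (with `ε / 3^d`). Fix the coordinates `≠ i` (at most `(2M+1)^(d-1) ≤ (3M)^(d-1)` choices). If `z`, `z'` are on the line and in the set then `‖χ z - σ‖ ≤ √(2κ)`, `‖χ z - χ z'‖ ≤ 2 √(2κ)`, so `‖1 - ω^(z i - z' i)‖ ≤ η` with `ω = χ (Pi.single i 1)`: for fixed `z'` the number of `z` is at most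
the number of `rot_cnt`. -/
theorem line_cnt (d : ℕ) (ε τ0 : ℝ) (hε : 0 < ε) (hτ0 : 0 < τ0) : ∃ (κ η0 : ℝ) (M0 : ℕ), 0 < κ ∧ κ ≤ 1 ∧ 0 < η0 ∧ η0 ≤ 1 ∧ 1 ≤ M0 ∧ ∀ (M N : ℕ) [NeZero N] (χ : AddChar (Fin d → ZMod N) ℂ) (i : Fin d) (σ : ℝ), M0 ≤ M →
    (σ = 1 ∨ σ = -1) → τ0 / M ≤ ‖1 - χ (Pi.single i 1)‖ → ‖1 - χ (Pi.single i 1)‖ ≤ η0 →
    (((bz M).filter (fun z : Zd d => 1 - κ ≤ σ * (χ (cst N z)).re)).card : ℝ) ≤ ε * (M : ℝ) ^ d := by
  obtain ⟨η, η0, M0, hη, hη0, hη01, hrot⟩ := rot_cnt (ε / 3 ^ d) τ0 (by positivity) hτ0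
  refine ⟨min 1 (η ^ 2 / 8), η0, max 1 M0, lt_min one_pos (by positivity), min_le_left _ _, hη0, hη01,
    le_max_left _ _, ?_⟩
  intro M N _ χ i σ hM hσ h1 h2
  have hM1 : 1 ≤ M := (le_max_left _ _).trans hM
  have hMR : (1 : ℝ) ≤ M := by exact_mod_cast hM1
  have hd : 1 ≤ d := Nat.one_le_iff_ne_zero.2 fun h0 => by
    subst h0
    exact i.elim0
  have hnorm : ∀ x, ‖χ x‖ = 1 := fun x => AddChar.norm_apply χ x
  have hr := hrot M (χ (Pi.single i 1)) ((le_max_right _ _).trans hM) (hnorm _) h1 h2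
  set A : Finset (Zd d) := (bz M).filter (fun z : Zd d => 1 - min 1 (η ^ 2 / 8) ≤
    σ * (χ (cst N z)).re) with hA
  set π : Zd d → ({j : Fin d // j ≠ i} → ℤ) := fun z j => z j.1 with hπ
  -- the lines
  have hfib : ∀ w ∈ A.image π, (A.filter (fun z => π z = w)).card ≤ ⌊ε / 3 ^ d * M⌋₊ := by
    intro w hw
    obtain ⟨z', hz', rfl⟩ := Finset.mem_image.1 hw
    refine Nat.le_floor (le_trans ?_ hr)
    refine Nat.cast_le.2 (Finset.card_le_card_of_injOn (fun z => z i - z' i) ?_ ?_)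
    · intro z hz
      have hz1 := Finset.mem_filter.1 (Finset.mem_coe.1 hz)
      obtain ⟨hzA, hzw⟩ := hz1
      rw [hA, Finset.mem_filter, bz, Finset.mem_Icc, Pi.le_def, Pi.le_def] at hzA hz'
      obtain ⟨⟨a1, a2⟩, a3⟩ := hzA
      obtain ⟨⟨b1, b2⟩, b3⟩ := hz'
      have a1' := a1 i
      have a2' := a2 i
      have b1' := b1 i
      have b2' := b2 i
      refine Finset.mem_coe.2 (Finset.mem_filter.2 ⟨Finset.mem_Icc.2 ⟨?_, ?_⟩, ?_⟩)
      · show -(2 * (M : ℤ)) ≤ z i - z' i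
        linarith
      · show z i - z' i ≤ 2 * (M : ℤ)
        linarith
      · show ‖1 - χ (Pi.single i 1) ^ (z i - z' i)‖ ≤ η
        have e1 := O8_diff N χ i z z' fun j hj => congrFun hzw ⟨j, hj⟩
        have e2 := O8_two hη (min_le_right 1 (η ^ 2 / 8)) hσ (hnorm (cst N z')) (hnorm (cst N z)) b3 a3
        have e3 : χ (cst N z') - χ (cst N z) =
            (1 - χ (Pi.single i 1) ^ (z i - z' i)) * χ (cst N z') := by
          rw [e1]
          ring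
        rw [e3, norm_mul, hnorm, mul_one] at e2
        exact e2
    · intro x hx y hy hxy
      have hx1 := (Finset.mem_filter.1 (Finset.mem_coe.1 hx)).2
      have hy1 := (Finset.mem_filter.1 (Finset.mem_coe.1 hy)).2
      funext j
      by_cases hj : j = i
      · subst hj
        have h3 : x j - z' j = y j - z' j := hxy
        linarith
      · have h3 := congrFun (hx1.trans hy1.symm) ⟨j, hj⟩
        exact h3
  have hcard := Finset.card_le_mul_card_image (s := A) (f := π) ⌊ε / 3 ^ d * M⌋₊ hfib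
  have himg : (A.image π).card ≤ (2 * M + 1) ^ (d - 1) := by
    have h3 : A.image π ⊆ Fintype.piFinset fun _ : {j : Fin d // j ≠ i} =>
        Finset.Icc (-(M : ℤ)) (M : ℤ) := by
      intro w hw
      obtain ⟨z', hz', rfl⟩ := Finset.mem_image.1 hw
      rw [hA, Finset.mem_filter, bz, Finset.mem_Icc, Pi.le_def, Pi.le_def] at hz'
      rw [Fintype.mem_piFinset]
      exact fun j => Finset.mem_Icc.2 ⟨hz'.1.1 j.1, hz'.1.2 j.1⟩
    refine (Finset.card_le_card h3).trans ?_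
    rw [Fintype.card_piFinset, Finset.prod_const, Int.card_Icc, Finset.card_univ]
    have h4 : Fintype.card {j : Fin d // j ≠ i} = d - 1 := by
      rw [Fintype.card_subtype_compl, Fintype.card_fin, Fintype.card_subtype_eq]
    rw [h4]
    exact Nat.pow_le_pow_left (by omega) _
  have hn : ((⌊ε / 3 ^ d * M⌋₊ : ℕ) : ℝ) ≤ ε / 3 ^ d * M := Nat.floor_le (by positivity)
  have h5 : (A.card : ℝ) ≤ (ε / 3 ^ d * M) * (2 * (M : ℝ) + 1) ^ (d - 1) := by
    have h6 : (A.card : ℝ) ≤ ((⌊ε / 3 ^ d * M⌋₊ : ℕ) : ℝ) * ((A.image π).card : ℝ) := by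
      exact_mod_cast hcard
    have h7 : ((A.image π).card : ℝ) ≤ (2 * (M : ℝ) + 1) ^ (d - 1) := by
      exact_mod_cast himg
    exact h6.trans (mul_le_mul hn h7 (Nat.cast_nonneg _) (by positivity))
  have h8 : (2 * (M : ℝ) + 1) ^ (d - 1) ≤ (3 * (M : ℝ)) ^ (d - 1) :=
    pow_le_pow_left₀ (by positivity) (by linarith) _
  obtain ⟨m, rfl⟩ : ∃ m, d = m + 1 := ⟨d - 1, by omega⟩
  rw [Nat.add_sub_cancel] at h5 h8
  calc (A.card : ℝ) ≤ (ε / 3 ^ (m + 1) * M) * (2 * (M : ℝ) + 1) ^ m := h5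
    _ ≤ (ε / 3 ^ (m + 1) * M) * (3 * (M : ℝ)) ^ m := mul_le_mul_of_nonneg_left h8 (by positivity)
    _ = ε * (M : ℝ) ^ (m + 1) / 3 := by
        rw [mul_pow, pow_succ, pow_succ]
        field_simp
    _ ≤ ε * (M : ℝ) ^ (m + 1) := by
        have h9 : 0 ≤ ε * (M : ℝ) ^ (m + 1) := by positivity
        linarith

private theorem O9_norm {w : ℂ} (h : ‖w‖ = 1) : ‖1 - w‖ ^ 2 = 2 - 2 * w.re := by
  have h1 : w.re * w.re + w.im * w.im = 1 := by
    have h2 := Complex.sq_norm w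
    rw [h, Complex.normSq_apply] at h2
    linarith
  rw [Complex.sq_norm, Complex.normSq_apply]
  simp only [Complex.sub_re, Complex.one_re, Complex.sub_im, Complex.one_im]
  nlinarith

private theorem O9_sum (N : ℕ) [NeZero N] (χ : AddChar (Fin d → ZMod N) ℂ) :
    -(d : ℝ) ≤ ∑ i : Fin d, (χ (Pi.single i 1)).re ∧ ∑ i : Fin d, (χ (Pi.single i 1)).re ≤ d := by
  constructor
  · have h1 : ∑ i : Fin d, (-1 : ℝ) ≤ ∑ i : Fin d, (χ (Pi.single i 1)).re :=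
      Finset.sum_le_sum fun i _ => (abs_le.1 (F2_re χ (Pi.single i 1))).1
    simp only [Finset.sum_const, Finset.card_univ, Fintype.card_fin, nsmul_eq_mul] at h1
    linarith
  · have h1 : ∑ i : Fin d, (χ (Pi.single i 1)).re ≤ ∑ i : Fin d, (1 : ℝ) :=
      Finset.sum_le_sum fun i _ => (abs_le.1 (F2_re χ (Pi.single i 1))).2
    simp only [Finset.sum_const, Finset.card_univ, Fintype.card_fin, nsmul_eq_mul] at h1
    linarith

private theorem O9_sum' (N : ℕ) [NeZero N] (χ : AddChar (Fin d → ZMod N) ℂ) (i : Fin d) (t : ℝ)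
    (ht : (χ (Pi.single i 1)).re ≤ 1 - t) : ∑ i : Fin d, (χ (Pi.single i 1)).re ≤ d - t := by
  have h1 : 1 - (χ (Pi.single i 1)).re ≤ ∑ j : Fin d, (1 - (χ (Pi.single j 1)).re) :=
    Finset.single_le_sum (f := fun j : Fin d => 1 - (χ (Pi.single j 1)).re)
      (fun j _ => sub_nonneg.2 (abs_le.1 (F2_re χ (Pi.single j 1))).2) (Finset.mem_univ i)
  rw [Finset.sum_sub_distrib] at h1
  simp only [Finset.sum_const, Finset.card_univ, Fintype.card_fin, nsmul_eq_mul] at h1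
  linarith

private theorem O9_muh (N : ℕ) [NeZero N] (χ : AddChar (Fin d → ZMod N) ℂ) : |muh N χ| ≤ 1 := by
  obtain ⟨h1, h2⟩ := O9_sum N χ
  have h3 : (0 : ℝ) < 2 * d + 1 := by positivity
  unfold muh
  rw [abs_div, abs_of_pos h3, div_le_one h3, abs_le]
  constructor <;> linarith

private theorem O9_muh' (N : ℕ) [NeZero N] (χ : AddChar (Fin d → ZMod N) ℂ) (i : Fin d) (t : ℝ)
    (ht1 : t ≤ 1) (ht : (χ (Pi.single i 1)).re ≤ 1 - t) :
    |muh N χ| ≤ 1 - 2 * t / (2 * d + 1) := by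
  obtain ⟨h1, h2⟩ := O9_sum N χ
  have h4 := O9_sum' N χ i t ht
  have h3 : (0 : ℝ) < 2 * d + 1 := by positivity
  have h5 : 1 - 2 * t / (2 * (d : ℝ) + 1) = (2 * d + 1 - 2 * t) / (2 * d + 1) := by
    field_simp
  unfold muh
  rw [h5, abs_div, abs_of_pos h3]
  refine div_le_div_of_nonneg_right ?_ h3.le
  rw [abs_le]
  constructor <;> linarith

private theorem O9_S (N M : ℕ) [NeZero N] (f : Zd d → ℝ) (χ : AddChar (Fin d → ZMod N) ℂ)
    (hf : ∀ z, 0 ≤ f z ∧ f z ≤ 1) :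
    |∑ a ∈ bz M, f a * (χ (cst N a)).re| ≤ ∑ z ∈ bz M, f z := by
  refine (Finset.abs_sum_le_sum_abs _ _).trans (Finset.sum_le_sum fun z _ => ?_)
  rw [abs_mul, abs_of_nonneg (hf z).1]
  exact mul_le_of_le_one_right (hf z).1 (F2_re χ _)

private theorem O9_σ (N M : ℕ) [NeZero N] (f : Zd d → ℝ) (χ : AddChar (Fin d → ZMod N) ℂ)
    (hf : ∀ z, 0 ≤ f z ∧ f z ≤ 1) (σ κ B : ℝ) (hκ : 0 ≤ κ) (hσ : σ = 1 ∨ σ = -1)
    (hB : (((bz M).filter (fun z : Zd d => 1 - κ ≤ σ * (χ (cst N z)).re)).card : ℝ) ≤ B)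
    (hF : 2 * B ≤ ∑ z ∈ bz M, f z) :
    σ * ∑ a ∈ bz M, f a * (χ (cst N a)).re ≤ (1 - κ / 2) * ∑ z ∈ bz M, f z := by
  classical
  have h0 : ∀ z : Zd d, σ * (χ (cst N z)).re ≤ 1 := by
    intro z
    have h1 := abs_le.1 (F2_re χ (cst N z))
    rcases hσ with rfl | rfl <;> linarith [h1.1, h1.2]
  have h1 : ∑ z ∈ (bz M).filter (fun z : Zd d => 1 - κ ≤ σ * (χ (cst N z)).re), f z ≤ B := by
    refine le_trans ?_ hB
    have h2 : ∑ z ∈ (bz M).filter (fun z : Zd d => 1 - κ ≤ σ * (χ (cst N z)).re), f z ≤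
        ∑ z ∈ (bz M).filter (fun z : Zd d => 1 - κ ≤ σ * (χ (cst N z)).re), (1 : ℝ) :=
      Finset.sum_le_sum fun z _ => (hf z).2
    simpa only [Finset.sum_const, nsmul_eq_mul, mul_one] using h2
  have h2 : ∀ z ∈ bz M, f z * (σ * (χ (cst N z)).re) ≤
      (1 - κ) * f z + κ * (if 1 - κ ≤ σ * (χ (cst N z)).re then f z else 0) := by
    intro z _
    split_ifs with h
    · have h3 := mul_le_mul_of_nonneg_left (h0 z) (hf z).1
      linarith
    · have h3 := mul_le_mul_of_nonneg_left (not_le.1 h).le (hf z).1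
      linarith
  have h3 := Finset.sum_le_sum h2
  rw [Finset.sum_add_distrib, ← Finset.mul_sum, ← Finset.mul_sum, ← Finset.sum_filter] at h3
  have h4 : σ * ∑ a ∈ bz M, f a * (χ (cst N a)).re = ∑ z ∈ bz M, f z * (σ * (χ (cst N z)).re) := by
    rw [Finset.mul_sum]
    refine Finset.sum_congr rfl fun z _ => ?_
    ring
  rw [h4]
  have h5 := mul_le_mul_of_nonneg_left h1 hκ
  have h6 := mul_le_mul_of_nonneg_left hF hκ
  linarith

/-- Row O9. `line_cnt` with `ε = a/2`. If `‖1 - χ (Pi.single i 1)‖ > η0` for some `i`: `(χ ..).re = 1 - ‖1 - χ ..‖²/2 ≤ 1 - η0²/2`, so `muh ≤ 1 - η0²/(2d+1)`, and `muh ≥ -1 + 2/(2d+1)`; `ft_thk`, `|∑ f (χ).re| ≤ ∑ f`. Otherwise all are `≤ η0` and for one `i` also `≥ τ0/M`: for `σ = 1, -1`: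
`∑ f (1 - σ (χ).re) ≥ κ (∑ f - ε M^d) ≥ κ (a/2) M^d ≥ κ (a/2) 3^(-d) ∑ f`, so `|∑ f (χ).re| ≤ (1 - κ') ∑ f`, `|muh| ≤ 1`. -/
theorem gap (hd : 1 ≤ d) (a τ0 : ℝ) (ha : 0 < a) (hτ0 : 0 < τ0) : ∃ (κ : ℝ) (M0 : ℕ), 0 < κ ∧ κ < 1 ∧ 1 ≤ M0 ∧ ∀ (M N : ℕ) [NeZero N] (f : Zd d → ℝ) (χ : AddChar (Fin d → ZMod N) ℂ), M0 ≤ M →
    (∀ z, 0 ≤ f z ∧ f z ≤ 1) → (∀ z, M < nz z → f z = 0) → a * (M : ℝ) ^ d ≤ ∑ z ∈ bz M, f z → (∃ i, τ0 / M ≤ ‖1 - χ (Pi.single i 1)‖) →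
    |ft (psh N (M + 1) (thk f)) χ| ≤ (1 - κ) * ∑ z ∈ bz M, f z := by
  obtain ⟨κ, η0, M0, hκ, hκ1, hη0, hη1, hM0, H⟩ := line_cnt d (a / 2) τ0 (half_pos ha) hτ0
  have hd3 : (0 : ℝ) < 2 * d + 1 := by positivity
  have hpos : 0 < η0 ^ 2 / (2 * (d : ℝ) + 1) := by positivity
  refine ⟨min (κ / 2) (η0 ^ 2 / (2 * d + 1)), M0, lt_min (half_pos hκ) hpos,
    lt_of_le_of_lt (min_le_left _ _) (by linarith), hM0, ?_⟩
  intro M N _ f χ hM hf hf0 haF hex
  have hF0 : 0 ≤ ∑ z ∈ bz M, f z := Finset.sum_nonneg fun z _ => (hf z).1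
  rw [ft_thk N M f hf0 χ, abs_mul]
  by_cases hall : ∃ i, η0 < ‖1 - χ (Pi.single i 1)‖
  · obtain ⟨i, hi⟩ := hall
    have h1 := O9_norm (AddChar.norm_apply χ (Pi.single i 1))
    have h2 : η0 ^ 2 ≤ ‖1 - χ (Pi.single i 1)‖ ^ 2 := pow_le_pow_left₀ hη0.le hi.le 2
    have h3 : (χ (Pi.single i 1)).re ≤ 1 - η0 ^ 2 / 2 := by linarith
    have h4 : η0 ^ 2 ≤ 1 := pow_le_one₀ hη0.le hη1
    have h5 := O9_muh' N χ i (η0 ^ 2 / 2) (by linarith) h3
    have h6 : 2 * (η0 ^ 2 / 2) / (2 * (d : ℝ) + 1) = η0 ^ 2 / (2 * d + 1) := by ring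
    rw [h6] at h5
    have h7 := min_le_right (κ / 2) (η0 ^ 2 / (2 * (d : ℝ) + 1))
    exact mul_le_mul (by linarith) (O9_S N M f χ hf) (abs_nonneg _)
      ((abs_nonneg _).trans (h5.trans (by linarith)))
  · obtain ⟨i, hi⟩ := hex
    have hi2 : ‖1 - χ (Pi.single i 1)‖ ≤ η0 := not_lt.1 fun h => hall ⟨i, h⟩
    have h1 := O9_σ N M f χ hf 1 κ (a / 2 * (M : ℝ) ^ d) hκ.le (Or.inl rfl)
      (H M N χ i 1 hM (Or.inl rfl) hi hi2) (by linarith)
    have h2 := O9_σ N M f χ hf (-1) κ (a / 2 * (M : ℝ) ^ d) hκ.le (Or.inr rfl)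
      (H M N χ i (-1) hM (Or.inr rfl) hi hi2) (by linarith)
    have h3 : |∑ a ∈ bz M, f a * (χ (cst N a)).re| ≤ (1 - κ / 2) * ∑ z ∈ bz M, f z := by
      rw [abs_le]
      constructor <;> linarith
    have h4 := mul_le_mul (O9_muh N χ) h3 (abs_nonneg _) zero_le_one
    have h5 := mul_le_mul_of_nonneg_right (min_le_left (κ / 2) (η0 ^ 2 / (2 * (d : ℝ) + 1))) hF0
    linarith

theorem O10_thk_even (f : Zd d → ℝ) (hf : ∀ z, f (-z) = f z) (z : Zd d) : thk f (-z) = thk f z := by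
  unfold thk
  rw [hf]
  congr 2
  refine Finset.sum_congr rfl fun i _ => ?_
  have h1 : f (-z + Pi.single i 1) = f (z - Pi.single i 1) := by
    rw [← hf, neg_add, neg_neg, sub_eq_add_neg]
  have h2 : f (-z - Pi.single i 1) = f (z + Pi.single i 1) := by
    rw [← hf, neg_sub, sub_neg_eq_add, add_comm]
  rw [h1, h2, add_comm]

theorem O10_thk_nonneg (f : Zd d → ℝ) (hf : ∀ z, 0 ≤ f z ∧ f z ≤ 1) (z : Zd d) : 0 ≤ thk f z := by
  unfold thk
  refine div_nonneg (add_nonneg (hf _).1 (Finset.sum_nonneg fun i _ => add_nonneg (hf _).1 (hf _).1)) ?_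
  positivity

theorem O10_thk_le (f : Zd d → ℝ) (hf : ∀ z, 0 ≤ f z ∧ f z ≤ 1) (z : Zd d) : thk f z ≤ 1 := by
  unfold thk
  rw [div_le_one (by positivity)]
  have h1 : ∑ i : Fin d, (f (z + Pi.single i 1) + f (z - Pi.single i 1)) ≤ ∑ _i : Fin d, (2 : ℝ) :=
    Finset.sum_le_sum fun i _ => by
      have h2 := (hf (z + Pi.single i 1)).2
      have h3 := (hf (z - Pi.single i 1)).2
      linarith
  rw [Finset.sum_const, Finset.card_univ, Fintype.card_fin, nsmul_eq_mul] at h1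
  have h4 := (hf z).2
  linarith

theorem O10_one (R : ℕ) (g : Zd d → ℝ) (hg0 : ∀ z, 0 ≤ g z) (hg1 : ∀ z, g z ≤ 1) (z : Zd d) : cvk R g 1 z ≤ 1 := by
  show ∑ a ∈ bz R, g a * (if z - a = 0 then 1 else 0) ≤ 1
  have h1 : ∀ a ∈ bz R, g a * (if z - a = 0 then (1 : ℝ) else 0) ≤ if a = z then 1 else 0 := by
    intro a _
    by_cases h : a = z
    · subst h
      rw [if_pos (sub_self _), if_pos rfl, mul_one]
      exact hg1 _
    · rw [if_neg h, if_neg (fun h' => h (sub_eq_zero.1 h').symm), mul_zero]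
  refine (Finset.sum_le_sum h1).trans ?_
  rw [Finset.sum_ite_eq']
  split_ifs <;> norm_num

theorem O10_two (R : ℕ) (g : Zd d → ℝ) (hg0 : ∀ z, 0 ≤ g z) (hg1 : ∀ z, g z ≤ 1) (z : Zd d) :
    cvk R g 2 z ≤ ∑ a ∈ bz R, g a := by
  show ∑ a ∈ bz R, g a * cvk R g 1 (z - a) ≤ _
  refine Finset.sum_le_sum fun a _ => ?_
  have h1 := O10_one R g hg0 hg1 (z - a)
  have h2 := hg0 a
  nlinarith

theorem O10_k (d : ℕ) (a κ : ℝ) (ha : 0 < a) (hκ0 : 0 < κ) (hκ1 : κ < 1) : ∃ k : ℕ, 4 ≤ k ∧ Even k ∧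
    0 < 1 / (8 * (14 * d * k) ^ d) - (1 - κ) ^ (k - 2) / a := by
  have hr0 : 0 < 1 - κ := by linarith
  have hr1 : |1 - κ| < 1 := by rw [abs_of_pos hr0]; linarith
  have ht := tendsto_pow_const_mul_const_pow_of_abs_lt_one d hr1
  have he : 0 < (1 - κ) ^ 2 * a / (8 * (14 * (d + 1 : ℝ)) ^ d) := by positivity
  have h1 := (ht.eventually (gt_mem_nhds he))
  rw [Filter.eventually_atTop] at h1
  obtain ⟨n0, hn0⟩ := h1
  refine ⟨2 * (n0 + 2), by omega, even_two_mul _, ?_⟩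
  have h2 := hn0 (2 * (n0 + 2)) (by omega)
  set k := 2 * (n0 + 2) with hk
  have hk4 : 4 ≤ k := by omega
  have hkpos : (0 : ℝ) < k := by exact_mod_cast (by omega : 0 < k)
  have h3 : (1 - κ) ^ k = (1 - κ) ^ 2 * (1 - κ) ^ (k - 2) := by
    rw [← pow_add]; congr 1; omega
  rw [h3] at h2
  have hd1 : (0 : ℝ) < 14 * (d + 1 : ℝ) := by positivity
  have h4 : (k : ℝ) ^ d * (1 - κ) ^ (k - 2) < a / (8 * (14 * (d + 1 : ℝ)) ^ d) := by
    have h5 : (1 - κ) ^ 2 * ((k : ℝ) ^ d * (1 - κ) ^ (k - 2)) < (1 - κ) ^ 2 * (a / (8 * (14 * (d + 1 : ℝ)) ^ d)) := by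
      calc (1 - κ) ^ 2 * ((k : ℝ) ^ d * (1 - κ) ^ (k - 2)) = (k : ℝ) ^ d * ((1 - κ) ^ 2 * (1 - κ) ^ (k - 2)) := by ring
        _ < (1 - κ) ^ 2 * a / (8 * (14 * (d + 1 : ℝ)) ^ d) := h2
        _ = _ := by ring
    exact lt_of_mul_lt_mul_left h5 (by positivity)
  have h6 : (1 - κ) ^ (k - 2) / a < 1 / (8 * (14 * (d + 1 : ℝ) * k) ^ d) := by
    rw [div_lt_div_iff₀ ha (by positivity), one_mul, mul_pow]
    rw [lt_div_iff₀ (by positivity)] at h4
    calc (1 - κ) ^ (k - 2) * (8 * ((14 * (d + 1 : ℝ)) ^ d * (k : ℝ) ^ d)) = (k : ℝ) ^ d * (1 - κ) ^ (k - 2) * (8 * (14 * (d + 1 : ℝ)) ^ d) := by ring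
      _ < a := h4
  have h7 : 1 / (8 * (14 * (d + 1 : ℝ) * k) ^ d) ≤ 1 / (8 * (14 * d * k) ^ d) := by
    rcases Nat.eq_zero_or_pos d with rfl | hd
    · simp
    · have hdp : (0 : ℝ) < d := by exact_mod_cast hd
      apply one_div_le_one_div_of_le (by positivity)
      gcongr
      linarith
  linarith

theorem O10_cst_zero (N : ℕ) : cst N (0 : Zd d) = 0 := by
  funext i
  simp [cst]

theorem O10_sq (N M : ℕ) [NeZero N] (hN : 2 * (M + 1) < N) (f : Zd d → ℝ) (hf01 : ∀ z, 0 ≤ f z ∧ f z ≤ 1)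
    (hfe : ∀ z, f (-z) = f z) (hfs : ∀ z, M < nz z → f z = 0) :
    ∑ χ : AddChar (Fin d → ZMod N) ℂ, ft (psh N (M + 1) (thk f)) χ ^ 2 ≤
      (Fintype.card (Fin d → ZMod N) : ℝ) * ∑ z ∈ bz M, f z := by
  have heven := psh_even N (M + 1) (thk f) (O10_thk_even f hfe)
  rw [ft_pow _ heven 2]
  apply mul_le_mul_of_nonneg_left _ (Nat.cast_nonneg _)
  have h1 : cp (psh N (M + 1) (thk f)) 2 (cst N (0 : Zd d)) = cvk (M + 1) (thk f) 2 0 :=
    cp_eq N (M + 1) (thk f) 2 0 (by rw [nz_zero]; omega)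
  rw [O10_cst_zero] at h1
  rw [h1, ← thk_sum M f hfs]
  exact O10_two (M + 1) (thk f) (O10_thk_nonneg f hf01) (O10_thk_le f hf01) 0

theorem O10_re {V : Type} [AddCommGroup V] [Fintype V] (χ : AddChar V ℂ) (x : V) : 1 - ‖1 - χ x‖ ≤ (χ x).re := by
  have h1 := Complex.abs_re_le_norm (1 - χ x)
  rw [Complex.sub_re, Complex.one_re] at h1
  have h2 := le_abs_self (1 - (χ x).re)
  linarith

theorem O10_quarter (k : ℕ) (hk4 : 4 ≤ k) (hke : Even k) : (1 : ℝ) / 4 ≤ (1 - 1 / k) ^ k := by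
  obtain ⟨j, hj⟩ := hke
  have hj2 : 2 ≤ j := by omega
  have hjp : (0 : ℝ) < j := by exact_mod_cast (by omega : 0 < j)
  have hkr : (k : ℝ) = 2 * j := by rw [hj]; push_cast; ring
  have h1 : (1 : ℝ) + j * (-(1 / (k : ℝ))) ≤ (1 + -(1 / (k : ℝ))) ^ j := by
    apply one_add_mul_le_pow
    rw [hkr]
    have : 1 / (2 * (j : ℝ)) ≤ 1 := by
      rw [div_le_one (by positivity)]
      have : (2 : ℝ) ≤ j := by exact_mod_cast hj2
      linarith
    linarith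
  have h2 : (1 : ℝ) + j * (-(1 / (k : ℝ))) = 1 / 2 := by
    rw [hkr]; field_simp; ring
  rw [h2] at h1
  have h3 : (1 - 1 / (k : ℝ)) ^ k = ((1 + -(1 / (k : ℝ))) ^ j) ^ 2 := by
    rw [← pow_mul, ← sub_eq_add_neg]
    congr 1
    omega
  rw [h3]
  nlinarith

/-- the characters of `low_char` -/
theorem O10_low (hd : 1 ≤ d) (k : ℕ) (hk4 : 4 ≤ k) (hke : Even k) (M : ℕ) (hM : 1 ≤ M) (f : Zd d → ℝ)
    (hf01 : ∀ z, 0 ≤ f z ∧ f z ≤ 1) (hfs : ∀ z, M < nz z → f z = 0) (N : ℕ) [NeZero N]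
    (χ : AddChar (Fin d → ZMod N) ℂ) (hχ : ∀ i : Fin d, ‖1 - χ (Pi.single i 1)‖ ≤ 1 / (2 * d * k * M)) :
    (∑ z ∈ bz M, f z) ^ k / 4 ≤ ft (psh N (M + 1) (thk f)) χ ^ k := by
  have hdp : (0 : ℝ) < d := by exact_mod_cast hd
  have hkp : (0 : ℝ) < k := by exact_mod_cast (by omega : 0 < k)
  have hMp : (1 : ℝ) ≤ M := by exact_mod_cast hM
  have hF : 0 ≤ ∑ z ∈ bz M, f z := Finset.sum_nonneg fun z _ => (hf01 z).1
  have h1 : (1 - 1 / (k : ℝ)) * ∑ z ∈ bz M, f z ≤ ft (psh N (M + 1) (thk f)) χ := by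
    unfold ft
    rw [psh_sum N (M + 1) (thk f) (fun x => (χ x).re), ← thk_sum M f hfs, Finset.mul_sum]
    refine Finset.sum_le_sum fun b hb => ?_
    rw [mul_comm]
    apply mul_le_mul_of_nonneg_left _ (O10_thk_nonneg f hf01 b)
    have h2 := char_near N χ (1 / (2 * d * k * M)) (by positivity) hχ b
    have h3 := O10_re χ (cst N b)
    have h4 : (nz b : ℝ) ≤ 2 * M := by
      have h5 : nz b ≤ M + 1 := (mem_bz _ _).1 hb
      have h6 : (nz b : ℝ) ≤ M + 1 := by exact_mod_cast h5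
      linarith
    have h7 : (d : ℝ) * (1 / (2 * d * k * M)) * nz b ≤ 1 / k := by
      calc (d : ℝ) * (1 / (2 * d * k * M)) * nz b ≤ (d : ℝ) * (1 / (2 * d * k * M)) * (2 * M) :=
            mul_le_mul_of_nonneg_left h4 (by positivity)
        _ = 1 / k := by field_simp
    linarith
  have h8 : (0 : ℝ) ≤ 1 - 1 / (k : ℝ) := by
    rw [sub_nonneg, div_le_one hkp]
    exact_mod_cast (by omega : 1 ≤ k)
  have h9 := pow_le_pow_left₀ (mul_nonneg h8 hF) h1 k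
  rw [mul_pow] at h9
  have h10 := O10_quarter k hk4 hke
  have h11 : 0 ≤ (∑ z ∈ bz M, f z) ^ k := pow_nonneg hF k
  nlinarith

open Classical in
theorem O10_main (hd : 1 ≤ d) (κ : ℝ) (hκ0 : 0 < κ) (hκ1 : κ < 1) (k : ℕ) (hk4 : 4 ≤ k) (hke : Even k)
    (M : ℕ) (hM : 1 ≤ M) (f : Zd d → ℝ) (hf01 : ∀ z, 0 ≤ f z ∧ f z ≤ 1) (hfe : ∀ z, f (-z) = f z)
    (hfs : ∀ z, M < nz z → f z = 0) (N : ℕ) [NeZero N] (hN : k * (M + 1) + 3 * M < N)
    (hgap : ∀ χ : AddChar (Fin d → ZMod N) ℂ, (∃ i, 1 / (6 * d : ℝ) / M ≤ ‖1 - χ (Pi.single i 1)‖) →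
      |ft (psh N (M + 1) (thk f)) χ| ≤ (1 - κ) * ∑ z ∈ bz M, f z)
    (z : Zd d) (hz : nz z ≤ 3 * M) :
    (∑ z ∈ bz M, f z) ^ k / (8 * (14 * d * k * M) ^ d) - (1 - κ) ^ (k - 2) * (∑ z ∈ bz M, f z) ^ (k - 1) ≤
      cvk (M + 1) (thk f) k z := by
  have hdp : (0 : ℝ) < d := by exact_mod_cast hd
  have hkp : (0 : ℝ) < k := by exact_mod_cast (by omega : 0 < k)
  have hk4r : (4 : ℝ) ≤ k := by exact_mod_cast hk4
  have hMp : (1 : ℝ) ≤ M := by exact_mod_cast hM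
  have hNp : (0 : ℝ) < N := by exact_mod_cast (by omega : 0 < N)
  obtain ⟨F, hFdef⟩ : ∃ F, F = ∑ z ∈ bz M, f z := ⟨_, rfl⟩
  have hF : 0 ≤ F := by rw [hFdef]; exact Finset.sum_nonneg fun z _ => (hf01 z).1
  have heven := psh_even N (M + 1) (thk f) (O10_thk_even f hfe)
  have hcard : (Fintype.card (Fin d → ZMod N) : ℝ) = (N : ℝ) ^ d := by
    rw [Fintype.card_fun, ZMod.card, Fintype.card_fin]
    push_cast
    rfl
  obtain ⟨h, hh⟩ : ∃ h, h = psh N (M + 1) (thk f) := ⟨_, rfl⟩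
  have hid : (N : ℝ) ^ d * cvk (M + 1) (thk f) k z =
      ∑ χ : AddChar (Fin d → ZMod N) ℂ, ft h χ ^ k * (χ (cst N z)).re := by
    rw [← cp_eq N (M + 1) (thk f) k z (by omega), ← hcard, cp_inv _ heven, hh]
  have hk2 : k * (M + 1) ≥ 2 * (M + 1) := Nat.mul_le_mul_right _ (by omega)
  have hsq := O10_sq N M (by omega) f hf01 hfe hfs
  rw [← hFdef, ← hh, hcard] at hsq
  rw [← hFdef, ← hh] at hgap
  have hτ0 : 0 < 1 / (2 * d * k * M : ℝ) := by positivity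
  have hτ1 : 1 / (2 * d * k * M : ℝ) ≤ 1 := by
    rw [div_le_one (by positivity)]
    have h1 : (1 : ℝ) ≤ d := by exact_mod_cast hd
    nlinarith [mul_nonneg hdp.le hkp.le, mul_le_mul h1 hk4r (by norm_num) hdp.le]
  obtain ⟨S, hS1, hS2⟩ := low_char d N (1 / (2 * d * k * M : ℝ)) hτ0 hτ1
  -- the terms
  have hkev : ∀ χ : AddChar (Fin d → ZMod N) ℂ, 0 ≤ ft h χ ^ k := fun χ => hke.pow_nonneg _
  obtain ⟨Lo, hLo⟩ : ∃ Lo : Finset (AddChar (Fin d → ZMod N) ℂ), Lo = Finset.univ.filter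
      (fun χ => ∀ i : Fin d, ‖1 - χ (Pi.single i 1)‖ < 1 / (6 * d : ℝ) / M) := ⟨_, rfl⟩
  have hhalf : ∀ χ ∈ Lo, 1 / 2 ≤ (χ (cst N z)).re := by
    intro χ hχ
    rw [hLo, Finset.mem_filter] at hχ
    have h1 := char_near N χ (1 / (6 * d : ℝ) / M) (by positivity) (fun i => (hχ.2 i).le) z
    have h2 := O10_re χ (cst N z)
    have h3 : (nz z : ℝ) ≤ 3 * M := by exact_mod_cast hz
    have h4 : (d : ℝ) * (1 / (6 * d : ℝ) / M) * nz z ≤ 1 / 2 := by
      calc (d : ℝ) * (1 / (6 * d : ℝ) / M) * nz z ≤ (d : ℝ) * (1 / (6 * d : ℝ) / M) * (3 * M) :=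
            mul_le_mul_of_nonneg_left h3 (by positivity)
        _ = 1 / 2 := by field_simp; norm_num
    linarith
  have hSLo : S ⊆ Lo := by
    intro χ hχ
    rw [hLo, Finset.mem_filter]
    refine ⟨Finset.mem_univ _, fun i => (hS2 χ hχ i).trans_lt ?_⟩
    rw [div_div]
    apply one_div_lt_one_div_of_lt (by positivity)
    have h1 : (0 : ℝ) < d * M := by positivity
    nlinarith
  have hA : (S.card : ℝ) * (F ^ k / 8) ≤ ∑ χ ∈ Lo, ft h χ ^ k * (χ (cst N z)).re := by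
    calc (S.card : ℝ) * (F ^ k / 8) = ∑ _χ ∈ S, F ^ k / 8 := by rw [Finset.sum_const, nsmul_eq_mul]
      _ ≤ ∑ χ ∈ S, ft h χ ^ k * (χ (cst N z)).re := by
          refine Finset.sum_le_sum fun χ hχ => ?_
          have h1 := O10_low hd k hk4 hke M hM f hf01 hfs N χ (hS2 χ hχ)
          rw [← hFdef, ← hh] at h1
          have h2 := hhalf χ (hSLo hχ)
          have h3 := hkev χ
          nlinarith
      _ ≤ ∑ χ ∈ Lo, ft h χ ^ k * (χ (cst N z)).re := by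
          refine Finset.sum_le_sum_of_subset_of_nonneg hSLo fun χ hχ _ => ?_
          have h2 := hhalf χ hχ
          exact mul_nonneg (hkev χ) (by linarith)
  have hB : -(((1 - κ) * F) ^ (k - 2) * ((N : ℝ) ^ d * F)) ≤
      ∑ χ ∈ Finset.univ.filter (fun χ : AddChar (Fin d → ZMod N) ℂ => ¬ ∀ i : Fin d, ‖1 - χ (Pi.single i 1)‖ < 1 / (6 * d : ℝ) / M),
        ft h χ ^ k * (χ (cst N z)).re := by
    have h1 : ∀ χ ∈ Finset.univ.filter (fun χ : AddChar (Fin d → ZMod N) ℂ => ¬ ∀ i : Fin d, ‖1 - χ (Pi.single i 1)‖ < 1 / (6 * d : ℝ) / M),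
        -(((1 - κ) * F) ^ (k - 2) * ft h χ ^ 2) ≤ ft h χ ^ k * (χ (cst N z)).re := by
      intro χ hχ
      rw [Finset.mem_filter] at hχ
      have h2 : ∃ i, 1 / (6 * d : ℝ) / M ≤ ‖1 - χ (Pi.single i 1)‖ := by
        have := hχ.2
        push Not at this
        exact this
      have h3 := hgap χ h2
      have h4 : ft h χ ^ k = |ft h χ| ^ (k - 2) * ft h χ ^ 2 := by
        rw [← hke.pow_abs (ft h χ), ← sq_abs (ft h χ), ← pow_add]
        congr 1
        omega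
      have h5 : |ft h χ| ^ (k - 2) ≤ ((1 - κ) * F) ^ (k - 2) := pow_le_pow_left₀ (abs_nonneg _) h3 _
      have h6 := F2_re χ (cst N z)
      have h7 : -1 ≤ (χ (cst N z)).re := (abs_le.1 h6).1
      have h8 := hkev χ
      have h9 : ft h χ ^ k ≤ ((1 - κ) * F) ^ (k - 2) * ft h χ ^ 2 := by
        rw [h4]
        exact mul_le_mul_of_nonneg_right h5 (sq_nonneg _)
      nlinarith
    refine le_trans ?_ (Finset.sum_le_sum h1)
    rw [Finset.sum_neg_distrib, ← Finset.mul_sum]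
    apply neg_le_neg
    apply mul_le_mul_of_nonneg_left _ (pow_nonneg (mul_nonneg (by linarith) hF) _)
    refine le_trans ?_ hsq
    exact Finset.sum_le_sum_of_subset_of_nonneg (Finset.filter_subset _ _) fun χ _ _ => sq_nonneg _
  have hsum := Finset.sum_filter_add_sum_filter_not (Finset.univ : Finset (AddChar (Fin d → ZMod N) ℂ))
    (fun χ => ∀ i : Fin d, ‖1 - χ (Pi.single i 1)‖ < 1 / (6 * d : ℝ) / M) (fun χ => ft h χ ^ k * (χ (cst N z)).re)
  rw [← hLo, ← hid] at hsum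
  rw [← hFdef]
  have hC : (N : ℝ) ^ d * (F ^ k / (8 * (14 * d * k * M) ^ d) - (1 - κ) ^ (k - 2) * F ^ (k - 1)) ≤
      (N : ℝ) ^ d * cvk (M + 1) (thk f) k z := by
    rw [← hsum]
    have h1 : (1 / (2 * d * k * M : ℝ) * N / 7) ^ d = (N : ℝ) ^ d / (14 * d * k * M) ^ d := by
      rw [← div_pow]
      congr 1
      field_simp
      ring
    rw [h1] at hS1
    have h2 : (N : ℝ) ^ d / (14 * d * k * M) ^ d * (F ^ k / 8) ≤ (S.card : ℝ) * (F ^ k / 8) :=
      mul_le_mul_of_nonneg_right hS1 (by positivity)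
    have h3 : ((1 - κ) * F) ^ (k - 2) * ((N : ℝ) ^ d * F) = (N : ℝ) ^ d * ((1 - κ) ^ (k - 2) * F ^ (k - 1)) := by
      have h4 : F ^ (k - 1) = F ^ (k - 2) * F := by
        rw [← pow_succ]
        congr 1
        omega
      rw [h4, mul_pow]
      ring
    rw [h3] at hB
    have h5 : (N : ℝ) ^ d * (F ^ k / (8 * (14 * d * k * M) ^ d)) = (N : ℝ) ^ d / (14 * d * k * M) ^ d * (F ^ k / 8) := by
      field_simp
    rw [mul_sub, h5]
    linarith
  exact le_of_mul_le_mul_left hC (by positivity)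

/-- Row O10. Let `F = ∑_{bz M} f`, `h = psh N (M+1) (thk f)` with `N` large (`k (M+1) + 3M < N`), `k` even. `N^d cvk (M+1) (thk f) k z = ∑_χ ft h χ^k (χ z).re` (`cp_eq`, `cp_inv`, `psh_even`). `τ0 = 1/(6 d)`. The characters with `‖1 - χ (Pi.single i 1)‖ < τ0/M` for all `i` have `(χ z).re ≥ 1/2` for `nz z ≤ 3M` (`char_near`) and give terms `≥ 0`;
those of `low_char` with `τ = 1/(2 d k M)`: `ft h χ ≥ ∑_{bz (M+1)} thk f a (1 - d τ (M+1)) ≥ (1 - 1/k) F`, `(1 - 1/k)^k ≥ 1/4`: together at least `(N/(14 d k M))^d F^k / 8`. The other characters: by `gap` and `∑_χ ft h χ² = N^d ∑ h² ≤ N^d F` (`cp_inv` for `n = 2`, `z = 0`; `h ≤ 1` and `∑ h = F`, `thk_sum`; for `N > 2(M+1)` the map `cst` is injective on `bz (M+1)`): at most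
`((1-κ) F)^(k-2) N^d F`. So `cvk ≥ F^k M^(-d) (1/(8 (14 d k)^d) - (1-κ)^(k-2)/a)` (`F ≥ a M^d`); choose `k` even with this bracket positive. -/
theorem four (hd : 1 ≤ d) (a : ℝ) (ha : 0 < a) : ∃ (k : ℕ) (c : ℝ) (M0 : ℕ), 1 ≤ k ∧ 0 < c ∧ ∀ (M : ℕ) (f : Zd d → ℝ), M0 ≤ M → (∀ z, 0 ≤ f z ∧ f z ≤ 1) → (∀ z, f (-z) = f z) →
    (∀ z, M < nz z → f z = 0) → a * (M : ℝ) ^ d ≤ ∑ z ∈ bz M, f z → ∀ z : Zd d, nz z ≤ 3 * M → c * (M : ℝ) ^ ((k - 1) * d) ≤ cvk (M + 1) (thk f) k z := by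
  obtain ⟨κ, M0, hκ0, hκ1, hM01, hgap⟩ := gap (d := d) hd a (1 / (6 * d : ℝ)) ha (by
    have : (0 : ℝ) < d := by exact_mod_cast hd
    positivity)
  obtain ⟨k, hk4, hke, hkpos⟩ := O10_k d a κ ha hκ0 hκ1
  have hdp : (0 : ℝ) < d := by exact_mod_cast hd
  have hkp : (0 : ℝ) < k := by exact_mod_cast (by omega : 0 < k)
  refine ⟨k, a ^ k * (1 / (8 * (14 * d * k) ^ d) - (1 - κ) ^ (k - 2) / a), M0, by omega, by positivity, ?_⟩
  intro M f hM hf01 hfe hfs hF z hz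
  have hM1 : 1 ≤ M := hM01.trans hM
  have hMp : (1 : ℝ) ≤ M := by exact_mod_cast hM1
  have hMp0 : (0 : ℝ) < M := by linarith
  obtain ⟨N, hN⟩ : ∃ N, N = k * (M + 1) + 3 * M + 1 := ⟨_, rfl⟩
  have : NeZero N := ⟨by omega⟩
  have h1 := O10_main hd κ hκ0 hκ1 k hk4 hke M hM1 f hf01 hfe hfs N (by omega)
    (fun χ hχ => hgap M N f χ hM hf01 hfs hF hχ) z hz
  refine le_trans ?_ h1
  obtain ⟨F, hFdef⟩ : ∃ F, F = ∑ z ∈ bz M, f z := ⟨_, rfl⟩
  rw [← hFdef] at hF ⊢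
  have hMd : (0 : ℝ) < (M : ℝ) ^ d := by positivity
  have hFp : 0 < F := lt_of_lt_of_le (mul_pos ha hMd) hF
  have hk1 : F ^ k = F ^ (k - 1) * F := by
    rw [← pow_succ]; congr 1; omega
  -- the second term
  have h2 : F ^ (k - 1) ≤ F ^ k / (a * (M : ℝ) ^ d) := by
    rw [le_div_iff₀ (by positivity), hk1]
    exact mul_le_mul_of_nonneg_left hF (by positivity)
  have h3 : (1 - κ) ^ (k - 2) * F ^ (k - 1) ≤ (1 - κ) ^ (k - 2) * (F ^ k / (a * (M : ℝ) ^ d)) :=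
    mul_le_mul_of_nonneg_left h2 (pow_nonneg (by linarith) _)
  have h4 : F ^ k / (8 * (14 * d * k * M) ^ d) - (1 - κ) ^ (k - 2) * (F ^ k / (a * (M : ℝ) ^ d)) =
      (F ^ k / (M : ℝ) ^ d) * (1 / (8 * (14 * d * k) ^ d) - (1 - κ) ^ (k - 2) / a) := by
    rw [mul_pow (14 * (d : ℝ) * k) (M : ℝ) d]
    field_simp
  have h5 : a ^ k * (M : ℝ) ^ ((k - 1) * d) ≤ F ^ k / (M : ℝ) ^ d := by
    rw [le_div_iff₀ hMd]
    calc a ^ k * (M : ℝ) ^ ((k - 1) * d) * (M : ℝ) ^ d = (a * (M : ℝ) ^ d) ^ k := by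
          rw [mul_pow, mul_assoc, ← pow_add, ← pow_mul]
          congr 2
          obtain ⟨j, rfl⟩ : ∃ j, k = j + 1 := ⟨k - 1, by omega⟩
          simp only [Nat.add_sub_cancel]
          ring
      _ ≤ F ^ k := pow_le_pow_left₀ (by positivity) hF k
  calc a ^ k * (1 / (8 * (14 * d * k) ^ d) - (1 - κ) ^ (k - 2) / a) * (M : ℝ) ^ ((k - 1) * d) =
      (a ^ k * (M : ℝ) ^ ((k - 1) * d)) * (1 / (8 * (14 * d * k) ^ d) - (1 - κ) ^ (k - 2) / a) := by ring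
    _ ≤ (F ^ k / (M : ℝ) ^ d) * (1 / (8 * (14 * d * k) ^ d) - (1 - κ) ^ (k - 2) / a) :=
        mul_le_mul_of_nonneg_right h5 hkpos.le
    _ = F ^ k / (8 * (14 * d * k * M) ^ d) - (1 - κ) ^ (k - 2) * (F ^ k / (a * (M : ℝ) ^ d)) := h4.symm
    _ ≤ F ^ k / (8 * (14 * d * k * M) ^ d) - (1 - κ) ^ (k - 2) * F ^ (k - 1) := by linarith
end Pool.Agent.PERC29.GU
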