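import Pool.Agent.Lib.MP_29e17e_pr.G.Df

set_option autoImplicit false
set_option linter.unusedSectionVars false

/-! Rows 29g-S1 .. S6: the inequality of Simon and Lieb, symmetry, layers. -/

open Finset

namespace Pool.Agent.PERC29.GU

open Pool.Agent.PERC29 Pool.Agent.PERC29.AE Pool.Agent.PERC29.QQ

section gen

variable {V : Type*} [Fintype V] [DecidableEq V] {E : Type*} [Fintype E] [DecidableEq E] {ends : E → Sym2 V}

theorem S1_mono_p {p q : ℝ} (h0 : 0 ≤ p) (hpp : p ≤ q) (h1 : q ≤ 1) (f : (E → Bool) → ℝ)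
    (hf : ∀ ω ω' : E → Bool, (∀ e, ω e = true → ω' e = true) → f ω ≤ f ω') : Ex p f ≤ Ex q f := by
  rcases eq_or_lt_of_le (hpp.trans h1) with hp | hp
  · have : q = p := le_antisymm (by rw [hp]; exact h1) hpp
    rw [this]
  · have hq : 0 < 1 - p := by linarith
    have hs0 : 0 ≤ (q - p) / (1 - p) := div_nonneg (by linarith) hq.le
    have hs1 : (q - p) / (1 - p) ≤ 1 := by
      rw [div_le_one hq]
      linarith
    have he : q = 1 - (1 - p) * (1 - (q - p) / (1 - p)) := by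
      field_simp
      ring
    rw [he, Ex_orc]
    refine Ex_mono h0 hp.le fun ω => ?_
    calc f ω = Ex ((q - p) / (1 - p)) (fun _ : E → Bool => f ω) := (Ex_const _ _).symm
      _ ≤ Ex ((q - p) / (1 - p)) (fun ω' => f (orc ω ω')) := by
        refine Ex_mono hs0 hs1 fun ω' => hf _ _ fun e h => ?_
        simp [orc, h]

theorem S1_harris {p : ℝ} (h0 : 0 ≤ p) (h1 : p ≤ 1) (f g : (E → Bool) → ℝ) (hf0 : ∀ ω, 0 ≤ f ω) (hg0 : ∀ ω, 0 ≤ g ω)
    (hf : ∀ ω ω' : E → Bool, (∀ e, ω e = true → ω' e = true) → f ω ≤ f ω')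
    (hg : ∀ ω ω' : E → Bool, (∀ e, ω e = true → ω' e = true) → g ω ≤ g ω') :
    Ex p f * Ex p g ≤ Ex p (fun ω => f ω * g ω) := by
  have hmono : ∀ (u : (E → Bool) → ℝ), (∀ ω ω' : E → Bool, (∀ e, ω e = true → ω' e = true) → u ω ≤ u ω') →
      Monotone u := by
    intro u hu ω ω' hω
    exact hu ω ω' fun e he => by
      have h3 := hω e
      rw [he] at h3
      exact top_le_iff.1 h3
  have hμ : ∀ a b : E → Bool, wt p a * wt p b ≤ wt p (a ⊓ b) * wt p (a ⊔ b) := by
    intro a b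
    refine le_of_eq ?_
    unfold wt
    rw [← Finset.prod_mul_distrib, ← Finset.prod_mul_distrib]
    refine Finset.prod_congr rfl fun e _ => ?_
    rw [Pi.inf_apply, Pi.sup_apply]
    cases a e <;> cases b e <;> simp [mul_comm]
  have key := fkg (μ := fun ω : E → Bool => wt p ω) (f := f) (g := g)
    (fun ω => wt_nonneg h0 h1 ω) hf0 hg0 (hmono f hf) (hmono g hg) hμ
  have hone : ∑ ω : E → Bool, wt p ω = 1 := by
    have := Ex_const (E := E) p 1
    unfold Ex at this
    simpa using this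
  unfold Ex
  rw [hone, one_mul] at key
  exact key

/-- Row S1. Elementary facts. -/
theorem rs_nonneg {p : ℝ} (h0 : 0 ≤ p) (h1 : p ≤ 1) (S : Set V) (x y : V) : 0 ≤ rs ends S p x y := by
  unfold rs
  exact Ex_nonneg h0 h1 fun ω => by split_ifs <;> norm_num

theorem hs_nonneg {p : ℝ} (h0 : 0 ≤ p) (h1 : p ≤ 1) (S : Set V) (x : V) (Y : Finset V) : 0 ≤ hs ends S p x Y := by
  unfold hs
  exact Ex_nonneg h0 h1 fun ω => by split_ifs <;> norm_num

theorem rs_univ (p : ℝ) (x y : V) : rs ends Set.univ p x y = ta ends p x y := by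
  unfold rs ta cu
  refine Ex_congr fun ω => ?_
  by_cases h : y ∈ cl ends ω Set.univ x
  · rw [if_pos h]
  · rw [if_neg h]

theorem rs_mono {p : ℝ} (h0 : 0 ≤ p) (h1 : p ≤ 1) {S S' : Set V} (h : S ⊆ S') (x y : V) : rs ends S p x y ≤ rs ends S' p x y := by
  unfold rs
  refine Ex_mono h0 h1 fun ω => ?_
  by_cases h2 : y ∈ cl ends ω S x
  · rw [if_pos h2, if_pos (cl_mono (fun _ he => he) h h2)]
  · rw [if_neg h2]
    split_ifs <;> norm_num

theorem rs_mono_p {p q : ℝ} (h0 : 0 ≤ p) (hpq : p ≤ q) (h1 : q ≤ 1) (S : Set V) (x y : V) : rs ends S p x y ≤ rs ends S q x y := by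
  unfold rs
  refine S1_mono_p h0 hpq h1 _ fun ω ω' h => ?_
  by_cases h2 : y ∈ cl ends ω S x
  · rw [if_pos h2, if_pos (cl_mono h le_rfl h2)]
  · rw [if_neg h2]
    split_ifs <;> norm_num

theorem rs_symm (p : ℝ) (S : Set V) (x y : V) : rs ends S p x y = rs ends S p y x := by
  unfold rs
  refine Ex_congr fun ω => ?_
  by_cases h : y ∈ cl ends ω S x
  · have h2 : x ∈ cl ends ω S y := mem_cl.2 (mem_cl.1 h).symm
    rw [if_pos h, if_pos h2]
  · have h2 : x ∉ cl ends ω S y := fun h2 => h (mem_cl.2 (mem_cl.1 h2).symm)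
    rw [if_neg h, if_neg h2]

/-- A vertex outside `S` is not joined inside `S` to a vertex of `S`. -/
theorem rs_out (p : ℝ) (S : Set V) (x y : V) (hx : x ∈ S) (hy : y ∉ S) : rs ends S p x y = 0 := by
  unfold rs
  refine Ex_zero_of fun ω => ?_
  rw [if_neg]
  intro h
  exact hy ((mem_cl.1 h).mem' hx)

theorem hs_mono {p : ℝ} (h0 : 0 ≤ p) (h1 : p ≤ 1) {S S' : Set V} (h : S ⊆ S') (x : V) (Y : Finset V) : hs ends S p x Y ≤ hs ends S' p x Y := by
  unfold hs
  refine Ex_mono h0 h1 fun ω => ?_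
  by_cases h2 : ∃ y ∈ Y, y ∈ cl ends ω S x
  · have h3 : ∃ y ∈ Y, y ∈ cl ends ω S' x := by
      obtain ⟨y, hy, h3⟩ := h2
      exact ⟨y, hy, cl_mono (fun _ he => he) h h3⟩
    rw [if_pos h2, if_pos h3]
  · rw [if_neg h2]
    split_ifs <;> norm_num

/-- The inequality of Harris (`harris`). -/
theorem rs_mul {p : ℝ} (h0 : 0 ≤ p) (h1 : p ≤ 1) (S : Set V) (x y z : V) : rs ends S p x y * rs ends S p y z ≤ rs ends S p x z := by
  have hm : ∀ (u v : V) (ω ω' : E → Bool), (∀ e, ω e = true → ω' e = true) →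
      (if v ∈ cl ends ω S u then (1 : ℝ) else 0) ≤ (if v ∈ cl ends ω' S u then (1 : ℝ) else 0) := by
    intro u v ω ω' h
    by_cases h2 : v ∈ cl ends ω S u
    · rw [if_pos h2, if_pos (cl_mono h le_rfl h2)]
    · rw [if_neg h2]
      split_ifs <;> norm_num
  have hn : ∀ (u v : V) (ω : E → Bool), 0 ≤ (if v ∈ cl ends ω S u then (1 : ℝ) else 0) := by
    intro u v ω
    split_ifs <;> norm_num
  have e1 : ∀ u v : V, rs ends S p u v = Ex p (fun ω => if v ∈ cl ends ω S u then (1 : ℝ) else 0) := by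
    intro u v
    unfold rs
    refine Ex_congr fun ω => ?_
    by_cases h : v ∈ cl ends ω S u
    · rw [if_pos h]
    · rw [if_neg h]
  rw [e1, e1, e1]
  refine (S1_harris h0 h1 _ _ (hn x y) (hn y z) (hm x y) (hm y z)).trans ?_
  refine Ex_mono h0 h1 fun ω => ?_
  by_cases h2 : y ∈ cl ends ω S x
  · by_cases h3 : z ∈ cl ends ω S y
    · have h4 : z ∈ cl ends ω S x := mem_cl.2 ((mem_cl.1 h2).trans (mem_cl.1 h3))
      rw [if_pos h2, if_pos h3, if_pos h4, one_mul]
    · rw [if_neg h3, mul_zero]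
      exact hn x z ω
  · rw [if_neg h2, zero_mul]
    exact hn x z ω

open scoped Classical in
private theorem S2_pt (ω : E → Bool) (S : Set V) (o : V) (ho : o ∈ S) (Y : Finset V) (hY : ∀ y ∈ Y, y ∉ S) :
    (if ∃ y ∈ Y, y ∈ cl ends ω Set.univ o then (1 : ℝ) else 0) ≤
      ∑ u, ∑ w, (if u ∈ S ∧ w ∉ S ∧ ∃ e, ends e = s(u, w) then
        (if u ∈ cl ends ω S o then (1 : ℝ) else 0) *
          (if ∃ y ∈ Y, y ∈ cl ends ω ((cl ends ω S o : Finset V) : Set V)ᶜ w then (1 : ℝ) else 0) else 0) := by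
  set F : V → V → ℝ := fun u w => (if u ∈ S ∧ w ∉ S ∧ ∃ e, ends e = s(u, w) then
        (if u ∈ cl ends ω S o then (1 : ℝ) else 0) *
          (if ∃ y ∈ Y, y ∈ cl ends ω ((cl ends ω S o : Finset V) : Set V)ᶜ w then (1 : ℝ) else 0) else 0) with hF
  have hnn : ∀ u w, 0 ≤ F u w := by
    intro u w
    simp only [hF]
    split_ifs <;> norm_num
  by_cases h : ∃ y ∈ Y, y ∈ cl ends ω Set.univ o
  · rw [if_pos h]
    obtain ⟨y, hyY, hy⟩ := h
    rw [mem_cl] at hy
    rcases exit_decomp ho hy with h1 | ⟨e, x, z, h1, h2, h3, h4, h5⟩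
    · exact absurd (h1.mem' ho) (hY y hyY)
    · have hset : {w | ¬ Rch ends ω S o w} = ((cl ends ω S o : Finset V) : Set V)ᶜ := by
        ext w
        simp only [Set.mem_compl_iff, Finset.mem_coe, mem_cl]
        rfl
      rw [hset] at h5
      have hone : F x z = 1 := by
        simp only [hF]
        rw [if_pos ⟨h2.mem' ho, h3, e, h1⟩, if_pos (mem_cl.2 h2), if_pos ⟨y, hyY, mem_cl.2 h5⟩, one_mul]
      calc (1 : ℝ) = F x z := hone.symm
        _ ≤ ∑ w, F x w := Finset.single_le_sum (f := fun w => F x w) (fun w _ => hnn x w) (Finset.mem_univ z)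
        _ ≤ ∑ u, ∑ w, F u w := Finset.single_le_sum (f := fun u => ∑ w, F u w)
            (fun u _ => Finset.sum_nonneg fun w _ => hnn u w) (Finset.mem_univ x)
  · rw [if_neg h]
    exact Finset.sum_nonneg fun u _ => Finset.sum_nonneg fun w _ => hnn u w

open scoped Classical in
private theorem S2_fac {p : ℝ} (h0 : 0 ≤ p) (h1 : p ≤ 1) (S : Set V) (o : V) (Y : Finset V) (u w : V) :
    Ex p (fun ω => (if u ∈ cl ends ω S o then (1 : ℝ) else 0) *
        (if ∃ y ∈ Y, y ∈ cl ends ω ((cl ends ω S o : Finset V) : Set V)ᶜ w then (1 : ℝ) else 0)) ≤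
      rs ends S p o u * hs ends Set.univ p w Y := by
  have hdec : ∀ ω : E → Bool, (if u ∈ cl ends ω S o then (1 : ℝ) else 0) *
        (if ∃ y ∈ Y, y ∈ cl ends ω ((cl ends ω S o : Finset V) : Set V)ᶜ w then (1 : ℝ) else 0) =
      ∑ A : Finset V, (if cl ends ω S o = A then (1 : ℝ) else 0) * ((if u ∈ A then (1 : ℝ) else 0) *
        (if ∃ y ∈ Y, y ∈ cl ends ω ((A : Finset V) : Set V)ᶜ w then (1 : ℝ) else 0)) := by
    intro ω
    rw [Finset.sum_eq_single (cl ends ω S o)]
    · rw [if_pos rfl, one_mul]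
    · intro A _ hA
      rw [if_neg (Ne.symm hA), zero_mul]
    · intro h
      exact absurd (Finset.mem_univ _) h
  have hdec2 : ∀ ω : E → Bool, (if u ∈ cl ends ω S o then (1 : ℝ) else 0) =
      ∑ A : Finset V, (if u ∈ A then (1 : ℝ) else 0) * (if cl ends ω S o = A then (1 : ℝ) else 0) := by
    intro ω
    rw [Finset.sum_eq_single (cl ends ω S o)]
    · rw [if_pos rfl, mul_one]
    · intro A _ hA
      rw [if_neg (Ne.symm hA), mul_zero]
    · intro h
      exact absurd (Finset.mem_univ _) h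
  have hrs : rs ends S p o u = ∑ A : Finset V, (if u ∈ A then (1 : ℝ) else 0) *
      Ex p (fun ω => if cl ends ω S o = A then (1 : ℝ) else 0) := by
    unfold rs
    rw [Ex_congr hdec2, Ex_sum]
    exact Finset.sum_congr rfl fun A _ => Ex_mul_left _ _ _
  rw [Ex_congr hdec, Ex_sum, hrs, Finset.sum_mul]
  refine Finset.sum_le_sum fun A _ => ?_
  set D : Set E := {e' | ∃ a b, ends e' = s(a, b) ∧ a ∈ S ∧ b ∈ S ∧ a ∈ A} with hD
  rw [Ex_indep p D (fun ω => if cl ends ω S o = A then (1 : ℝ) else 0)]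
  · rw [Ex_mul_left]
    have hle : Ex p (fun ω => if ∃ y ∈ Y, y ∈ cl ends ω ((A : Finset V) : Set V)ᶜ w then (1 : ℝ) else 0) ≤
        hs ends Set.univ p w Y := hs_mono h0 h1 (Set.subset_univ _) w Y
    have hn1 : 0 ≤ Ex p (fun ω => if cl ends ω S o = A then (1 : ℝ) else 0) :=
      Ex_nonneg h0 h1 fun ω => by split_ifs <;> norm_num
    have hn2 : (0 : ℝ) ≤ (if u ∈ A then (1 : ℝ) else 0) := by split_ifs <;> norm_num
    calc _ = ((if u ∈ A then (1 : ℝ) else 0) * Ex p (fun ω => if cl ends ω S o = A then (1 : ℝ) else 0)) *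
          Ex p (fun ω => if ∃ y ∈ Y, y ∈ cl ends ω ((A : Finset V) : Set V)ᶜ w then (1 : ℝ) else 0) := by ring
      _ ≤ _ := mul_le_mul_of_nonneg_left hle (mul_nonneg hn2 hn1)
  · intro ω ω' h
    have key : ∀ ω ω' : E → Bool, (∀ e ∈ D, ω e = ω' e) → cl ends ω S o = A →
        cl ends ω' S o = A := by
      intro ω ω' h hA
      exact cl_eq_dep (fun e' a b h2 h3 h4 h5 => h e' ⟨a, b, h2, h3, h4, h5⟩) hA
    by_cases hc : cl ends ω S o = A
    · rw [if_pos hc, if_pos (key ω ω' h hc)]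
    · rw [if_neg hc, if_neg]
      intro hc'
      exact hc (key ω' ω (fun e he => (h e he).symm) hc')
  · intro ω ω' h
    have hcl : cl ends ω ((A : Finset V) : Set V)ᶜ w = cl ends ω' ((A : Finset V) : Set V)ᶜ w := by
      apply cl_dep
      intro e' a b h2 h3 h4
      apply h
      rintro ⟨a', b', h5, _, _, h8⟩
      rw [h2] at h5
      rcases Sym2.eq_iff.1 h5 with ⟨rfl, rfl⟩ | ⟨rfl, rfl⟩
      · exact h3 h8
      · exact h4 h8
    rw [hcl]

open scoped Classical in
/-- Row S2. The inequality of Simon and Lieb. By `exit_decomp` if `o` is joined to `Y` there are `u ∈ S`, `w ∉ S` and an open edge `e` with `ends e = s(u, w)`, `u ∈ cl ω S o`, and `w` is joined to `Y` inside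
the complement of `A = cl ω S o`. Sum over `A`, `u`, `w`: the event `cl ω S o = A` depends only on edges with both ends in `S` and an end in `A` (`cl_eq_dep`), the connection off `A` on the other ones (`Ex_indep`), and
`hs ends Aᶜ p w Y ≤ hs ends univ p w Y`. Compare the proof of `exit_ineq` in `Dct.lean`. -/
theorem simon {p : ℝ} (h0 : 0 ≤ p) (h1 : p ≤ 1) (S : Set V) (o : V) (ho : o ∈ S) (Y : Finset V) (hY : ∀ y ∈ Y, y ∉ S) :
    hs ends Set.univ p o Y ≤ ∑ u, ∑ w, (if u ∈ S ∧ w ∉ S ∧ ∃ e, ends e = s(u, w) then rs ends S p o u * hs ends Set.univ p w Y else 0) := by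
  have e1 : hs ends Set.univ p o Y =
      Ex p (fun ω => if ∃ y ∈ Y, y ∈ cl ends ω Set.univ o then (1 : ℝ) else 0) := rfl
  rw [e1]
  refine (Ex_mono h0 h1 fun ω => S2_pt ω S o ho Y hY).trans ?_
  rw [Ex_sum]
  refine Finset.sum_le_sum fun u _ => ?_
  rw [Ex_sum]
  refine Finset.sum_le_sum fun w _ => ?_
  by_cases hc : u ∈ S ∧ w ∉ S ∧ ∃ e, ends e = s(u, w)
  · simp only [if_pos hc]
    exact S2_fac h0 h1 S o Y u w
  · simp only [if_neg hc]
    exact (Ex_const p 0).le

end gen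

variable {d l : ℕ}

/-- Row S3. Translation: the cube `Qs z n` inside the box of side `l` is the image of the box of side `2 n + 1` under an embedding `φ` (`box_box` with shift `z i - n`) with `φ (ctr d n) = z`; `cl_emb`, `Ex_pul`. -/
theorem rs_tr {n : ℕ} {z : Fin d → Fin l} (hz : In z n) : ∃ φ : boxG d (2 * n + 1) ↪g boxG d l, φ (ctr d n) = z ∧
    (∀ x i, ((φ x i : Fin l) : ℕ) + n = (z i : ℕ) + (x i : ℕ)) ∧ Set.range φ = Qs z n ∧
    ∀ (p : ℝ) (x y : Fin d → Fin (2 * n + 1)), rs (gends (boxG d l)) (Qs z n) p (φ x) (φ y) = ta (gends (boxG d (2 * n + 1))) p x y := by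
  obtain ⟨φ, hφ⟩ := box_box (d := d) (l := 2 * n + 1) (n := l) (fun i => (z i : ℕ) - n) (by
    intro i
    have h1 := (hz i).1
    have h2 := (hz i).2
    show (z i : ℕ) - n + (2 * n + 1) ≤ l
    omega)
  have hc : ∀ x i, ((φ x i : Fin l) : ℕ) + n = (z i : ℕ) + (x i : ℕ) := by
    intro x i
    have h1 := (hz i).1
    have h2 := hφ x i
    rw [h2]
    show (z i : ℕ) - n + (x i : ℕ) + n = (z i : ℕ) + (x i : ℕ)
    omega
  have hctr : φ (ctr d n) = z := by
    funext i
    apply Fin.ext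
    have h1 := hc (ctr d n) i
    have h2 : ((ctr d n i : Fin (2 * n + 1)) : ℕ) = n := rfl
    omega
  have hr : Set.range φ = Qs z n := by
    ext w
    constructor
    · rintro ⟨x, rfl⟩
      show nd z (φ x) ≤ n
      apply Finset.sup_le
      intro i _
      have h1 := hc x i
      have h2 := (x i).2
      show ((z i : ℕ) - (φ x i : ℕ)) + ((φ x i : ℕ) - (z i : ℕ)) ≤ n
      omega
    · intro hw
      have hw' : ∀ i, ((z i : ℕ) - (w i : ℕ)) + ((w i : ℕ) - (z i : ℕ)) ≤ n := fun i =>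
        (Finset.le_sup (f := fun i => ((z i : ℕ) - (w i : ℕ)) + ((w i : ℕ) - (z i : ℕ)))
          (Finset.mem_univ i)).trans hw
      refine ⟨fun i => ⟨(w i : ℕ) + n - (z i : ℕ), ?_⟩, ?_⟩
      · have h1 := hw' i
        omega
      · funext i
        apply Fin.ext
        have h1 := hc (fun i => ⟨(w i : ℕ) + n - (z i : ℕ), by have h3 := hw' i; omega⟩) i
        have h2 := hw' i
        simp only at h1
        omega
  refine ⟨φ, hctr, hc, hr, fun p x y => ?_⟩
  classical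
  rw [← hr, ← Set.image_univ]
  unfold rs ta
  rw [← Ex_pul φ p (fun ω => if y ∈ cu (gends (boxG d (2 * n + 1))) ω x then (1 : ℝ) else 0)]
  apply Ex_congr
  intro ω
  have h1 : φ y ∈ cl (gends (boxG d l)) ω (φ '' Set.univ) (φ x) ↔
      y ∈ cu (gends (boxG d (2 * n + 1))) (pul φ ω) x := by
    rw [cl_emb]
    exact Finset.mem_map' φ.toEmbedding
  by_cases h2 : y ∈ cu (gends (boxG d (2 * n + 1))) (pul φ ω) x
  · rw [if_pos h2, if_pos (h1.2 h2)]
  · rw [if_neg h2, if_neg fun h3 => h2 (h1.1 h3)]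

/-- Row S3b. -/
theorem be_eq {n : ℕ} {z : Fin d → Fin l} (hz : In z n) (p : ℝ) : ∑ u ∈ Sp z n, rs (gends (boxG d l)) (Qs z n) p z u = be d n p := by
  obtain ⟨φ, hctr, hc, hr, hta⟩ := rs_tr hz
  have hnd : ∀ x, nd z (φ x) = nd (ctr d n) x := by
    intro x
    refine Finset.sup_congr rfl fun i _ => ?_
    have h1 := hc x i
    have h2 : ((ctr d n i : Fin (2 * n + 1)) : ℕ) = n := rfl
    omega
  have hS : Sp z n = (Sp (ctr d n) n).map φ.toEmbedding := by
    ext w
    unfold Sp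
    rw [Finset.mem_filter, Finset.mem_map]
    constructor
    · rintro ⟨-, hw⟩
      have h1 : w ∈ Set.range φ := by
        rw [hr]
        exact hw.le
      obtain ⟨x, rfl⟩ := h1
      refine ⟨x, Finset.mem_filter.2 ⟨Finset.mem_univ _, ?_⟩, rfl⟩
      rw [← hnd]
      exact hw
    · rintro ⟨x, hx, rfl⟩
      refine ⟨Finset.mem_univ _, ?_⟩
      exact (hnd x).trans (Finset.mem_filter.1 hx).2
  rw [hS, Finset.sum_map]
  unfold be
  refine Finset.sum_congr rfl fun u _ => ?_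
  have h1 := hta p (ctr d n) u
  rw [hctr] at h1
  exact h1

private theorem S4_le {n : ℕ} (v : Fin d → Fin (2 * n + 1)) : nd (ctr d n) v ≤ n := by
  unfold nd
  refine Finset.sup_le fun k _ => ?_
  have h1 := (v k).2
  have h2 : ((ctr d n k : Fin (2 * n + 1)) : ℕ) = n := rfl
  rw [h2]
  omega

private theorem S4_mem {n : ℕ} (v : Fin d → Fin (2 * n + 1)) (i : Fin d) (s : Bool) :
    v ∈ Fc (ctr d n) n i s ↔ (if s = true then (v i : ℕ) = n + n else (v i : ℕ) + n = n) := by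
  unfold Fc
  rw [Finset.mem_filter]
  constructor
  · rintro ⟨-, -, h⟩
    exact h
  · intro h
    exact ⟨Finset.mem_univ _, S4_le v, h⟩

private theorem S4_sum {n : ℕ} (p : ℝ) (ψ : boxG d (2 * n + 1) ≃g boxG d (2 * n + 1))
    (hψ : ψ (ctr d n) = ctr d n) (A B : Finset (Fin d → Fin (2 * n + 1)))
    (hAB : ∀ u, u ∈ A ↔ ψ u ∈ B) :
    ∑ u ∈ A, ta (gends (boxG d (2 * n + 1))) p (ctr d n) u =
      ∑ u ∈ B, ta (gends (boxG d (2 * n + 1))) p (ctr d n) u := by
  refine Finset.sum_nbij ψ (fun u hu => (hAB u).1 hu) (fun x _ y _ h => ψ.injective h) ?_ ?_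
  · intro v hv
    obtain ⟨u, rfl⟩ := ψ.surjective v
    exact ⟨u, (hAB u).2 hv, rfl⟩
  · intro u _
    have h := ta_map (boxG d (2 * n + 1)) ψ p (ctr d n) u
    rw [hψ] at h
    exact h.symm

private theorem S4_perm {M : ℕ} (σ : Equiv.Perm (Fin d)) : ∃ ψ : boxG d M ≃g boxG d M,
    ∀ x k, ψ x k = x (σ k) := by
  refine ⟨⟨⟨fun x k => x (σ k), fun x k => x (σ.symm k), fun x => ?_, fun x => ?_⟩, ?_⟩, fun x k => rfl⟩
  · funext k
    simp
  · funext k
    simp
  · intro x y
    change (∃ i, ((x (σ i) : ℕ) + 1 = (y (σ i) : ℕ) ∨ (y (σ i) : ℕ) + 1 = (x (σ i) : ℕ)) ∧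
      ∀ j, j ≠ i → x (σ j) = y (σ j)) ↔
      ∃ i, ((x i : ℕ) + 1 = (y i : ℕ) ∨ (y i : ℕ) + 1 = (x i : ℕ)) ∧ ∀ j, j ≠ i → x j = y j
    constructor
    · rintro ⟨i, h1, h2⟩
      refine ⟨σ i, h1, fun j hj => ?_⟩
      have h3 := h2 (σ.symm j) (fun h => hj (by rw [← h, Equiv.apply_symm_apply]))
      rwa [Equiv.apply_symm_apply] at h3
    · rintro ⟨i, h1, h2⟩
      refine ⟨σ.symm i, ?_, fun j hj => h2 (σ j) (fun h => hj (by rw [← h, Equiv.symm_apply_apply]))⟩
      rw [Equiv.apply_symm_apply]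
      exact h1

private theorem S4_rev {M : ℕ} : ∃ ψ : boxG d M ≃g boxG d M, ∀ x k, ψ x k = Fin.rev (x k) := by
  refine ⟨⟨⟨fun x k => Fin.rev (x k), fun x k => Fin.rev (x k), fun x => ?_, fun x => ?_⟩, ?_⟩,
    fun x k => rfl⟩
  · funext k
    exact Fin.rev_rev _
  · funext k
    exact Fin.rev_rev _
  · intro x y
    change (∃ i, ((Fin.rev (x i) : ℕ) + 1 = (Fin.rev (y i) : ℕ) ∨ (Fin.rev (y i) : ℕ) + 1 = (Fin.rev (x i) : ℕ)) ∧
      ∀ j, j ≠ i → Fin.rev (x j) = Fin.rev (y j)) ↔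
      ∃ i, ((x i : ℕ) + 1 = (y i : ℕ) ∨ (y i : ℕ) + 1 = (x i : ℕ)) ∧ ∀ j, j ≠ i → x j = y j
    have hr : ∀ a b : Fin M, ((Fin.rev a : Fin M) : ℕ) + 1 = ((Fin.rev b : Fin M) : ℕ) ↔ (b : ℕ) + 1 = (a : ℕ) := by
      intro a b
      rw [Fin.val_rev, Fin.val_rev]
      have h1 := a.2
      have h2 := b.2
      omega
    constructor
    · rintro ⟨i, h1, h2⟩
      rw [hr, hr] at h1
      exact ⟨i, h1.symm, fun j hj => Fin.rev_injective (h2 j hj)⟩
    · rintro ⟨i, h1, h2⟩
      refine ⟨i, ?_, fun j hj => by rw [h2 j hj]⟩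
      rw [hr, hr]
      exact h1.symm

/-- The mass of a face of the cube does not depend on the face. -/
private theorem S4_face {n : ℕ} (p : ℝ) (i j : Fin d) (s t : Bool) :
    ∑ u ∈ Fc (ctr d n) n i s, ta (gends (boxG d (2 * n + 1))) p (ctr d n) u =
      ∑ u ∈ Fc (ctr d n) n j t, ta (gends (boxG d (2 * n + 1))) p (ctr d n) u := by
  have h1 : ∀ s : Bool, ∑ u ∈ Fc (ctr d n) n i s, ta (gends (boxG d (2 * n + 1))) p (ctr d n) u =
      ∑ u ∈ Fc (ctr d n) n j s, ta (gends (boxG d (2 * n + 1))) p (ctr d n) u := by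
    intro s
    obtain ⟨ψ, hψ⟩ := S4_perm (M := 2 * n + 1) (Equiv.swap i j)
    refine S4_sum p ψ ?_ _ _ (fun u => ?_)
    · funext k
      rw [hψ]
      rfl
    · rw [S4_mem, S4_mem, hψ, Equiv.swap_apply_right]
  have h2 : ∑ u ∈ Fc (ctr d n) n j true, ta (gends (boxG d (2 * n + 1))) p (ctr d n) u =
      ∑ u ∈ Fc (ctr d n) n j false, ta (gends (boxG d (2 * n + 1))) p (ctr d n) u := by
    obtain ⟨ψ, hψ⟩ := S4_rev (d := d) (M := 2 * n + 1)
    refine S4_sum p ψ ?_ _ _ (fun u => ?_)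
    · funext k
      rw [hψ]
      apply Fin.ext
      rw [Fin.val_rev]
      have h : ((ctr d n k : Fin (2 * n + 1)) : ℕ) = n := rfl
      rw [h]
      omega
    · rw [S4_mem, S4_mem, hψ, if_pos rfl, if_neg (by decide), Fin.val_rev]
      have h := (u j).2
      omega
  rw [h1]
  cases s <;> cases t
  · rfl
  · exact h2.symm
  · exact h2
  · rfl

/-- Row S4. By `rs_tr` it is enough to treat the box of side `2 n + 1` and its centre. The permutations of the coordinates and the reflection of one coordinate are automorphisms of the box which fix the centre, so the sum of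
`ta ctr u` over a face does not depend on the face (`Ex_pul` for an automorphism); every `u ∈ Sp (ctr d n) n` is in one of the `2 d` faces. -/
theorem face_mass {n : ℕ} {z : Fin d → Fin l} (hz : In z n) {p : ℝ} (h0 : 0 ≤ p) (h1 : p ≤ 1) (i : Fin d) (s : Bool) :
    be d n p ≤ 2 * d * ∑ u ∈ Fc z n i s, rs (gends (boxG d l)) (Qs z n) p z u := by
  obtain ⟨φ, hφc, hφ, -, hta⟩ := rs_tr hz
  have hnd : ∀ v : Fin d → Fin (2 * n + 1), nd z (φ v) = nd (ctr d n) v := by
    intro v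
    unfold nd
    refine Finset.sup_congr rfl fun k _ => ?_
    have h1 := hφ v k
    have h2 : ((ctr d n k : Fin (2 * n + 1)) : ℕ) = n := rfl
    have h3 := (v k).2
    rw [h2]
    omega
  -- the face
  have hface : ∑ u ∈ Fc (ctr d n) n i s, ta (gends (boxG d (2 * n + 1))) p (ctr d n) u ≤
      ∑ u ∈ Fc z n i s, rs (gends (boxG d l)) (Qs z n) p z u := by
    have h9 : ∑ u ∈ Fc (ctr d n) n i s, ta (gends (boxG d (2 * n + 1))) p (ctr d n) u =
        ∑ u ∈ (Fc (ctr d n) n i s).map φ.toEmbedding, rs (gends (boxG d l)) (Qs z n) p z u := by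
      rw [Finset.sum_map]
      refine Finset.sum_congr rfl fun u _ => ?_
      have h2 := hta p (ctr d n) u
      rw [hφc] at h2
      exact h2.symm
    rw [h9]
    refine Finset.sum_le_sum_of_subset_of_nonneg ?_ (fun u _ _ => rs_nonneg h0 h1 _ _ _)
    intro w hw
    rw [Finset.mem_map] at hw
    obtain ⟨u, hu, rfl⟩ := hw
    rw [S4_mem] at hu
    show φ u ∈ Fc z n i s
    unfold Fc
    rw [Finset.mem_filter, hnd]
    refine ⟨Finset.mem_univ _, S4_le u, ?_⟩
    have h3 := hφ u i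
    cases s
    · rw [if_neg (by decide)] at hu ⊢
      omega
    · rw [if_pos rfl] at hu ⊢
      omega
  -- all faces
  have hall : be d n p ≤ ∑ q : Fin d × Bool, ∑ u ∈ Fc (ctr d n) n q.1 q.2,
      ta (gends (boxG d (2 * n + 1))) p (ctr d n) u := by
    classical
    have h2 : ∀ q : Fin d × Bool, ∑ u ∈ Fc (ctr d n) n q.1 q.2,
        ta (gends (boxG d (2 * n + 1))) p (ctr d n) u =
        ∑ u, if u ∈ Fc (ctr d n) n q.1 q.2 then ta (gends (boxG d (2 * n + 1))) p (ctr d n) u else 0 := by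
      intro q
      rw [Finset.sum_ite_mem, Finset.univ_inter]
    simp_rw [h2]
    rw [Finset.sum_comm]
    unfold be
    have h3 : ∀ u : Fin d → Fin (2 * n + 1), 0 ≤ ∑ q : Fin d × Bool,
        if u ∈ Fc (ctr d n) n q.1 q.2 then ta (gends (boxG d (2 * n + 1))) p (ctr d n) u else 0 := by
      intro u
      refine Finset.sum_nonneg fun q _ => ?_
      split_ifs
      · exact ta_nonneg h0 h1 _ _
      · exact le_rfl
    refine le_trans (Finset.sum_le_sum fun u hu => ?_)
      (Finset.sum_le_sum_of_subset_of_nonneg (Finset.subset_univ (Sp (ctr d n) n)) (fun u _ _ => h3 u))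
    unfold Sp at hu
    rw [Finset.mem_filter] at hu
    obtain ⟨j, -, hj⟩ := Finset.exists_mem_eq_sup (Finset.univ : Finset (Fin d)) ⟨i, Finset.mem_univ i⟩
      (fun k => (((ctr d n k : Fin (2 * n + 1)) : ℕ) - (u k : ℕ)) + ((u k : ℕ) - ((ctr d n k : Fin (2 * n + 1)) : ℕ)))
    have h4 : (((ctr d n j : Fin (2 * n + 1)) : ℕ) - (u j : ℕ)) +
        ((u j : ℕ) - ((ctr d n j : Fin (2 * n + 1)) : ℕ)) = n := by
      rw [← hj]
      exact hu.2
    have h5 : ((ctr d n j : Fin (2 * n + 1)) : ℕ) = n := rfl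
    rw [h5] at h4
    have h6 : ∃ t : Bool, u ∈ Fc (ctr d n) n j t := by
      rcases Nat.lt_or_ge (u j : ℕ) n with h7 | h7
      · refine ⟨false, ?_⟩
        rw [S4_mem, if_neg (by decide)]
        omega
      · refine ⟨true, ?_⟩
        rw [S4_mem, if_pos rfl]
        omega
    obtain ⟨t, ht⟩ := h6
    have h8 := Finset.single_le_sum (f := fun q : Fin d × Bool =>
      if u ∈ Fc (ctr d n) n q.1 q.2 then ta (gends (boxG d (2 * n + 1))) p (ctr d n) u else 0)
      (fun q _ => by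
        split_ifs
        · exact ta_nonneg h0 h1 _ _
        · exact le_rfl) (Finset.mem_univ ((j, t) : Fin d × Bool))
    dsimp only at h8
    rw [if_pos ht] at h8
    exact h8
  have hcard : ∑ q : Fin d × Bool, ∑ u ∈ Fc (ctr d n) n q.1 q.2,
      ta (gends (boxG d (2 * n + 1))) p (ctr d n) u =
      2 * d * ∑ u ∈ Fc (ctr d n) n i s, ta (gends (boxG d (2 * n + 1))) p (ctr d n) u := by
    rw [Finset.sum_congr rfl (fun q _ => S4_face p q.1 i q.2 s), Finset.sum_const, Finset.card_univ,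
      Fintype.card_prod, Fintype.card_fin, Fintype.card_bool, nsmul_eq_mul]
    push_cast
    ring
  rw [hcard] at hall
  refine hall.trans ?_
  exact mul_le_mul_of_nonneg_left hface (by positivity)

private lemma S5_le (x y : Fin d → Fin l) (i : Fin d) :
    ((x i : ℕ) - (y i : ℕ)) + ((y i : ℕ) - (x i : ℕ)) ≤ nd x y :=
  Finset.le_sup (f := fun i => ((x i : ℕ) - (y i : ℕ)) + ((y i : ℕ) - (x i : ℕ)))
    (Finset.mem_univ i)

private lemma S5_many (a : Fin l) (k : ℕ) :
    (Finset.univ.filter (fun v : Fin l => ((v : ℕ) - (a : ℕ)) + ((a : ℕ) - (v : ℕ)) ≤ k)).card ≤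
      2 * k + 1 := by
  have h1 : ((Finset.univ.filter
      (fun v : Fin l => ((v : ℕ) - (a : ℕ)) + ((a : ℕ) - (v : ℕ)) ≤ k)).image (fun v : Fin l => (v : ℕ))) ⊆
      Finset.Icc ((a : ℕ) - k) ((a : ℕ) + k) := by
    intro m hm
    obtain ⟨v, hv, rfl⟩ := Finset.mem_image.1 hm
    rw [Finset.mem_filter] at hv
    rw [Finset.mem_Icc]
    omega
  have h2 := Finset.card_le_card h1
  rw [Finset.card_image_of_injective _ Fin.val_injective, Nat.card_Icc] at h2
  omega

private lemma S5_ball (u : Fin d → Fin l) (k : ℕ) :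
    (Finset.univ.filter (fun z => nd z u ≤ k)).card ≤ (2 * k + 1) ^ d := by
  have hsub : Finset.univ.filter (fun z => nd z u ≤ k) ⊆ Fintype.piFinset (fun i =>
      Finset.univ.filter (fun v : Fin l => ((v : ℕ) - (u i : ℕ)) + ((u i : ℕ) - (v : ℕ)) ≤ k)) := by
    intro z hz
    rw [Finset.mem_filter] at hz
    rw [Fintype.mem_piFinset]
    intro i
    rw [Finset.mem_filter]
    exact ⟨Finset.mem_univ _, (S5_le z u i).trans hz.2⟩
  refine (Finset.card_le_card hsub).trans ?_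
  rw [Fintype.card_piFinset]
  refine (Finset.prod_le_pow_card _ _ (2 * k + 1) fun i _ => S5_many (u i) k).trans ?_
  rw [Finset.card_univ, Fintype.card_fin]

/-- The face of a small cube that touches the boundary of the large cube. -/
private lemma S5_face (hd : 1 ≤ d) {o z : Fin d → Fin l} {n j : ℕ} (ho : In o n) (hj : j ≤ n)
    (hz : nd o z = n - j) : In z j ∧ ∃ (i : Fin d) (s : Bool), ∀ u ∈ Fc z j i s, u ∈ Sp o n ∧ nd z u ≤ j := by
  have : Nonempty (Fin d) := ⟨⟨0, hd⟩⟩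
  constructor
  · intro i
    have h1 := S5_le o z i
    have h2 := ho i
    constructor <;> omega
  · obtain ⟨i, -, hi⟩ := Finset.exists_mem_eq_sup (Finset.univ : Finset (Fin d))
      Finset.univ_nonempty (fun i => ((o i : ℕ) - (z i : ℕ)) + ((z i : ℕ) - (o i : ℕ)))
    have hi' : nd o z = ((o i : ℕ) - (z i : ℕ)) + ((z i : ℕ) - (o i : ℕ)) := hi
    refine ⟨i, decide ((o i : ℕ) ≤ (z i : ℕ)), ?_⟩
    intro u hu
    unfold Fc at hu
    rw [Finset.mem_filter] at hu
    obtain ⟨-, hu1, hu2⟩ := hu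
    refine ⟨?_, hu1⟩
    unfold Sp
    rw [Finset.mem_filter]
    refine ⟨Finset.mem_univ _, ?_⟩
    have h3 := nd_tri o z u
    have h4 := S5_le o u i
    by_cases hc : (o i : ℕ) ≤ (z i : ℕ)
    · rw [if_pos (by simpa using hc)] at hu2
      omega
    · rw [if_neg (by simpa using hc)] at hu2
      omega

/-- Row S5. Let `z ∈ Sp o (n - j)`, `1 ≤ j`: some coordinate `i` has `|z i - o i| = n - j`; let `s` be the side. The cube `Qs z j` is inside `Qs o n`, and its face `Fc z j i s` is inside `Sp o n`. By `face_mass` (`In z j` follows from `In o n`),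
`rs_mono`, `rs_mul`: `(b / (2 d)) rs (Qs o n) o z ≤ ∑_{u ∈ Fc z j i s} rs o z * rs z u ≤ ∑_{u ∈ Fc} rs (Qs o n) o u`. Sum over `z`: each `u` has at most `(2 j + 1)^d` such `z` (`nd z u ≤ j`). The case `j = 0`: `be_eq`, `b ≤ 1`. -/
theorem layer {b : ℝ} (hd : 1 ≤ d) (hb0 : 0 < b) (hb1 : b ≤ 1) {p : ℝ} (h0 : 0 ≤ p) (h1 : p ≤ 1) (hb : ∀ n : ℕ, 1 ≤ n → b ≤ be d n p)
    {o : Fin d → Fin l} {n : ℕ} (ho : In o n) (j : ℕ) (hj : j ≤ n) :
    b * ∑ z ∈ Sp o (n - j), rs (gends (boxG d l)) (Qs o n) p o z ≤ 2 * d * (2 * (j : ℝ) + 1) ^ d * be d n p := by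
  classical
  have hr0 : ∀ u, 0 ≤ rs (gends (boxG d l)) (Qs o n) p o u := fun u => rs_nonneg h0 h1 _ _ _
  have hbe : ∑ u ∈ Sp o n, rs (gends (boxG d l)) (Qs o n) p o u = be d n p := be_eq ho p
  have hbe0 : 0 ≤ be d n p := by
    rw [← hbe]
    exact Finset.sum_nonneg fun u _ => hr0 u
  have hd' : (1 : ℝ) ≤ d := by exact_mod_cast hd
  rcases Nat.eq_zero_or_pos j with rfl | hj1
  · rw [Nat.sub_zero, hbe]
    apply mul_le_mul_of_nonneg_right _ hbe0
    have h2 : (2 * ((0 : ℕ) : ℝ) + 1) ^ d = 1 := by norm_num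
    rw [h2]
    linarith
  have key : ∀ z ∈ Sp o (n - j), b * rs (gends (boxG d l)) (Qs o n) p o z ≤
      2 * d * ∑ u ∈ Sp o n, if nd z u ≤ j then rs (gends (boxG d l)) (Qs o n) p o u else 0 := by
    intro z hz
    have hz' : nd o z = n - j := by
      unfold Sp at hz
      exact (Finset.mem_filter.1 hz).2
    obtain ⟨hin, i, s, hF⟩ := S5_face hd ho hj hz'
    have hsub : Qs z j ⊆ Qs o n := by
      intro x hx
      have hx' : nd z x ≤ j := hx
      have h3 := nd_tri o z x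
      show nd o x ≤ n
      omega
    have h3 := face_mass hin h0 h1 i s
    have h4 : b ≤ 2 * d * ∑ u ∈ Fc z j i s, rs (gends (boxG d l)) (Qs o n) p z u := by
      refine (hb j hj1).trans (h3.trans ?_)
      apply mul_le_mul_of_nonneg_left _ (by positivity)
      exact Finset.sum_le_sum fun u _ => rs_mono h0 h1 hsub z u
    calc b * rs (gends (boxG d l)) (Qs o n) p o z
        ≤ (2 * d * ∑ u ∈ Fc z j i s, rs (gends (boxG d l)) (Qs o n) p z u) *
          rs (gends (boxG d l)) (Qs o n) p o z := mul_le_mul_of_nonneg_right h4 (hr0 z)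
      _ = 2 * d * ∑ u ∈ Fc z j i s, rs (gends (boxG d l)) (Qs o n) p o z *
          rs (gends (boxG d l)) (Qs o n) p z u := by
          rw [mul_assoc, Finset.sum_mul]
          congr 1
          apply Finset.sum_congr rfl
          intro u _
          ring
      _ ≤ 2 * d * ∑ u ∈ Fc z j i s, rs (gends (boxG d l)) (Qs o n) p o u := by
          apply mul_le_mul_of_nonneg_left _ (by positivity)
          exact Finset.sum_le_sum fun u _ => rs_mul h0 h1 _ _ _ _
      _ ≤ 2 * d * ∑ u ∈ Sp o n, if nd z u ≤ j then rs (gends (boxG d l)) (Qs o n) p o u else 0 := by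
          apply mul_le_mul_of_nonneg_left _ (by positivity)
          rw [← Finset.sum_filter]
          apply Finset.sum_le_sum_of_subset_of_nonneg
          · intro u hu
            rw [Finset.mem_filter]
            exact hF u hu
          · intro u _ _
            exact hr0 u
  have hcard : ∀ u, ∑ z ∈ Sp o (n - j), (if nd z u ≤ j then rs (gends (boxG d l)) (Qs o n) p o u else 0) ≤
      (2 * (j : ℝ) + 1) ^ d * rs (gends (boxG d l)) (Qs o n) p o u := by
    intro u
    rw [← Finset.sum_filter, Finset.sum_const, nsmul_eq_mul]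
    apply mul_le_mul_of_nonneg_right _ (hr0 u)
    have h3 : ((Sp o (n - j)).filter (fun z => nd z u ≤ j)).card ≤ (2 * j + 1) ^ d := by
      refine (Finset.card_le_card ?_).trans (S5_ball u j)
      intro z hz
      rw [Finset.mem_filter] at hz ⊢
      exact ⟨Finset.mem_univ _, hz.2⟩
    exact_mod_cast h3
  calc b * ∑ z ∈ Sp o (n - j), rs (gends (boxG d l)) (Qs o n) p o z
      = ∑ z ∈ Sp o (n - j), b * rs (gends (boxG d l)) (Qs o n) p o z := by rw [Finset.mul_sum]
    _ ≤ ∑ z ∈ Sp o (n - j), 2 * d * ∑ u ∈ Sp o n,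
        (if nd z u ≤ j then rs (gends (boxG d l)) (Qs o n) p o u else 0) := Finset.sum_le_sum key
    _ = 2 * d * ∑ u ∈ Sp o n, ∑ z ∈ Sp o (n - j),
        (if nd z u ≤ j then rs (gends (boxG d l)) (Qs o n) p o u else 0) := by
        rw [← Finset.mul_sum, Finset.sum_comm]
    _ ≤ 2 * d * ∑ u ∈ Sp o n, (2 * (j : ℝ) + 1) ^ d * rs (gends (boxG d l)) (Qs o n) p o u := by
        apply mul_le_mul_of_nonneg_left _ (by positivity)
        exact Finset.sum_le_sum fun u _ => hcard u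
    _ = 2 * d * (2 * (j : ℝ) + 1) ^ d * be d n p := by
        rw [← Finset.mul_sum, hbe]
        ring

private lemma S6_adj {u w : Fin d → Fin l} (h : ∃ e, gends (boxG d l) e = s(u, w)) : nd u w = 1 := by
  obtain ⟨e, he⟩ := h
  have h1 : (boxG d l).Adj u w := by
    rw [← SimpleGraph.mem_edgeSet, ← he]
    exact e.2
  obtain ⟨i, hi, hj⟩ := h1
  refine le_antisymm ?_ ?_
  · unfold nd
    refine Finset.sup_le fun k _ => ?_
    by_cases hk : k = i
    · subst hk
      omega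
    · rw [hj k hk]
      omega
  · have h2 : ((u i : ℕ) - (w i : ℕ)) + ((w i : ℕ) - (u i : ℕ)) ≤ nd u w :=
      Finset.le_sup (f := fun i => ((u i : ℕ) - (w i : ℕ)) + ((w i : ℕ) - (u i : ℕ))) (Finset.mem_univ i)
    omega

private lemma S6_hs {p : ℝ} (w y : Fin d → Fin l) :
    hs (gends (boxG d l)) Set.univ p w {y} = ta (gends (boxG d l)) p w y := by
  unfold hs ta
  refine Ex_congr fun ω => ?_
  refine if_congr ?_ rfl rfl
  rw [mem_cu]
  constructor
  · rintro ⟨y', hy', h⟩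
    rw [Finset.mem_singleton] at hy'
    subst hy'
    exact mem_cl.1 h
  · intro h
    exact ⟨y, Finset.mem_singleton_self y, mem_cl.2 h⟩

open scoped Classical in
/-- The sum over the boundary edges of the cube. -/
private lemma S6_sum {o y : Fin d → Fin l} {n : ℕ} (hd : 1 ≤ d) (ho : In o n) (hy : 2 * n ≤ nd o y) (hn : 1 ≤ n)
    {p K : ℝ} (h0 : 0 ≤ p) (h1 : p ≤ 1) (hK : 0 ≤ K)
    (hta : ∀ w : Fin d → Fin l, n ≤ 1 + nd w y → ta (gends (boxG d l)) p w y ≤ K) :
    ta (gends (boxG d l)) p o y ≤ ((d * 2 ^ d * (1 + 1) ^ (d - 1) : ℕ) : ℝ) * K * be d n p := by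
  have hoS : o ∈ Qs o n := by
    have h2 : nd o o = 0 := by
      unfold nd
      refine Nat.le_zero.1 (Finset.sup_le fun i _ => ?_)
      omega
    change nd o o ≤ n
    omega
  have hyS : ∀ y' ∈ ({y} : Finset (Fin d → Fin l)), y' ∉ Qs o n := by
    intro y' hy'
    rw [Finset.mem_singleton] at hy'
    subst hy'
    intro h2
    change nd o y' ≤ n at h2
    omega
  have hsim := simon (ends := gends (boxG d l)) h0 h1 (Qs o n) o hoS {y} hyS
  rw [S6_hs] at hsim
  refine hsim.trans ?_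
  have hrow : ∀ u : Fin d → Fin l, ∑ w, (if u ∈ Qs o n ∧ w ∉ Qs o n ∧ ∃ e, gends (boxG d l) e = s(u, w) then
      rs (gends (boxG d l)) (Qs o n) p o u * hs (gends (boxG d l)) Set.univ p w {y} else 0) ≤
      if u ∈ Sp o n then ((d * 2 ^ d * (1 + 1) ^ (d - 1) : ℕ) : ℝ) * K * rs (gends (boxG d l)) (Qs o n) p o u else 0 := by
    intro u
    have hr := rs_nonneg (ends := gends (boxG d l)) h0 h1 (Qs o n) o u
    by_cases hu : u ∈ Sp o n
    · rw [if_pos hu]
      calc _ ≤ ∑ w, (if nd u w = 1 then rs (gends (boxG d l)) (Qs o n) p o u * K else 0) := by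
            refine Finset.sum_le_sum fun w _ => ?_
            by_cases hc : u ∈ Qs o n ∧ w ∉ Qs o n ∧ ∃ e, gends (boxG d l) e = s(u, w)
            · rw [if_pos hc, if_pos (S6_adj hc.2.2), S6_hs]
              refine mul_le_mul_of_nonneg_left (hta w ?_) hr
              have h2 := nd_tri o u y
              have h3 := nd_tri u w y
              have h4 := S6_adj hc.2.2
              have h5 : nd o u = n := (Finset.mem_filter.1 hu).2
              omega
            · rw [if_neg hc]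
              split_ifs
              · exact mul_nonneg hr hK
              · exact le_rfl
        _ = ((Finset.univ.filter (fun w => nd u w = 1)).card : ℝ) * (rs (gends (boxG d l)) (Qs o n) p o u * K) := by
            rw [← Finset.sum_filter, Finset.sum_const, nsmul_eq_mul]
        _ ≤ ((d * 2 ^ d * (1 + 1) ^ (d - 1) : ℕ) : ℝ) * (rs (gends (boxG d l)) (Qs o n) p o u * K) := by
            refine mul_le_mul_of_nonneg_right ?_ (mul_nonneg hr hK)
            have h6 := shell hd u 1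
            have h7 : (Finset.univ.filter (fun w => nd u w = 1)).card ≤ d * 2 ^ d * (1 + 1) ^ (d - 1) := by
              refine le_trans (le_of_eq (congrArg Finset.card (Finset.ext fun w => ?_))) h6
              simp only [Finset.mem_filter]
            exact_mod_cast h7
        _ = _ := by ring
    · rw [if_neg hu]
      refine le_of_eq (Finset.sum_eq_zero fun w _ => ?_)
      refine if_neg ?_
      rintro ⟨h2, h3, h4⟩
      apply hu
      have h5 := S6_adj h4
      have h6 := nd_tri o u w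
      have h7 : nd o u ≤ n := h2
      have h8 : ¬ nd o w ≤ n := h3
      exact Finset.mem_filter.2 ⟨Finset.mem_univ _, by omega⟩
  refine (Finset.sum_le_sum fun u _ => hrow u).trans (le_of_eq ?_)
  rw [← be_eq ho p, Finset.mul_sum, Finset.sum_ite_mem, Finset.univ_inter]

/-- Row S6. For `n ≥ 1` take the box of side `l = 8 n`, `o = (3n, .., 3n)`, `y = (5n, 3n, .., 3n)`, both in `bul`, `nd o y = 2 n`. `simon` with `S = Qs o n`, `Y = {y}` (`hs univ p w {y} = ta p w y`): if `u ∈ S`, `w ∉ S` are neighbours then `u ∈ Sp o n`, `nd w y ≥ n - 1`,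
`ta w y ≤ C / n^(d-2)`, at most `2 d` such `w` for each `u`. So `c / (8 n)^(d-2) ≤ 2 d * be d n pc * C / n^(d-2)` (`be_eq`). -/
theorem be_low (C c pc : ℝ) (h : GH d C c pc) (c0 : ℝ) (hc0 : 0 < c0)
    (hL : ∀ (l : ℕ) (x y : Fin d → Fin l), bul x → bul y → c0 / (l : ℝ) ^ (d - 2) ≤ ta (gends (boxG d l)) pc x y) :
    ∃ b : ℝ, 0 < b ∧ ∀ n : ℕ, 1 ≤ n → b ≤ be d n pc := by
  have hd := h.d9
  have hC : 0 < C := lt_of_lt_of_le one_pos h.C1
  have hp0 : 0 ≤ pc := by
    have h1 := h.c0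
    have h2 := h.cp
    linarith
  have hD : (0 : ℝ) < ((d * 2 ^ d * (1 + 1) ^ (d - 1) : ℕ) : ℝ) := by
    have : 0 < d * 2 ^ d * (1 + 1) ^ (d - 1) := by positivity
    exact_mod_cast this
  set D : ℝ := ((d * 2 ^ d * (1 + 1) ^ (d - 1) : ℕ) : ℝ) with hDdef
  refine ⟨c0 / (8 ^ (d - 2) * (D * C)), by positivity, fun n hn => ?_⟩
  let i0 : Fin d := ⟨0, by omega⟩
  let o : Fin d → Fin (8 * n) := fun _ => ⟨3 * n, by omega⟩
  let y : Fin d → Fin (8 * n) := fun i => if i = i0 then ⟨5 * n, by omega⟩ else ⟨3 * n, by omega⟩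
  have hoi : ∀ i, ((o i : Fin (8 * n)) : ℕ) = 3 * n := fun i => rfl
  have hyi : ∀ i, ((y i : Fin (8 * n)) : ℕ) = if i = i0 then 5 * n else 3 * n := by
    intro i
    change ((if i = i0 then (⟨5 * n, by omega⟩ : Fin (8 * n)) else ⟨3 * n, by omega⟩ : Fin (8 * n)) : ℕ) = _
    split_ifs <;> rfl
  have ho : In o n := fun i => by
    rw [hoi i]
    omega
  have hbo : bul o := fun i => by
    rw [hoi i]
    omega
  have hby : bul y := fun i => by
    rw [hyi i]
    split_ifs <;> omega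
  have hoy : 2 * n ≤ nd o y := by
    have h2 : ((o i0 : ℕ) - (y i0 : ℕ)) + ((y i0 : ℕ) - (o i0 : ℕ)) ≤ nd o y :=
      Finset.le_sup (f := fun i => ((o i : ℕ) - (y i : ℕ)) + ((y i : ℕ) - (o i : ℕ))) (Finset.mem_univ i0)
    rw [hoi i0, hyi i0, if_pos rfl] at h2
    omega
  have hn0 : (0 : ℝ) < n := by exact_mod_cast hn
  have hta : ∀ w : Fin d → Fin (8 * n), n ≤ 1 + nd w y →
      ta (gends (boxG d (8 * n))) pc w y ≤ C / (n : ℝ) ^ (d - 2) := by
    intro w hw
    have h1 := h.U (8 * n) w y 0 le_rfl h.c0.le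
    rw [sub_zero, Real.sqrt_zero, mul_zero] at h1
    refine h1.trans ?_
    unfold ek fk
    rw [zero_mul, neg_zero, Real.exp_zero, mul_one, mul_one_div]
    refine div_le_div_of_nonneg_left hC.le (by positivity) (pow_le_pow_left₀ hn0.le ?_ _)
    exact_mod_cast hw
  have hmain := (hL (8 * n) o y hbo hby).trans
    (S6_sum (by omega) ho hoy hn hp0 h.p1.le (by positivity) hta)
  rw [← hDdef] at hmain
  rw [div_le_iff₀ (by positivity)]
  have h8 : (((8 * n : ℕ) : ℕ) : ℝ) ^ (d - 2) = 8 ^ (d - 2) * (n : ℝ) ^ (d - 2) := by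
    push_cast
    rw [mul_pow]
  rw [h8, div_le_iff₀ (by positivity)] at hmain
  have hnk : (0 : ℝ) < (n : ℝ) ^ (d - 2) := by positivity
  calc c0 ≤ D * (C / (n : ℝ) ^ (d - 2)) * be d n pc * (8 ^ (d - 2) * (n : ℝ) ^ (d - 2)) := hmain
    _ = be d n pc * (8 ^ (d - 2) * (D * C)) := by
        field_simp
end Pool.Agent.PERC29.GU
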