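import Pool.Agent.Lib.MP_29e17e_pr.G.Mk
import Pool.Agent.Lib.MP_29e17e_pr.G.En
import Pool.Agent.Lib.MP_29e17e_pr.G.Sm
import Pool.Agent.Lib.MP_29e17e_pr.Z.Gn

set_option autoImplicit false
set_option linter.unusedSectionVars false

/-! Rows 29g-G1 .. G8: few vertices of the boundary are irregular. -/

open Finset

namespace Pool.Agent.PERC29.GU

open Pool.Agent.PERC29 Pool.Agent.PERC29.AE Pool.Agent.PERC29.QQ

section gen

variable {V : Type*} [Fintype V] [DecidableEq V] {E : Type*} [Fintype E] [DecidableEq E] {ends : E → Sym2 V}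

open scoped Classical in
/-- Row G2. `T` is the ball, `W` contains the vertices just outside. A path in `S` from `o ∉ T` to `u ∈ T` has a first edge from some `w ∉ T` to `T`; so `w ∈ W` and `w ∈ cl ω (S \ T) o`, which depends only on edges without end in `T` (`cl_dep`),
while `g` depends only on the edges with both ends in `T`: union bound over `w ∈ W`, `Ex_indep`, `rs_mono`. -/
theorem isolate {p : ℝ} (h0 : 0 ≤ p) (h1 : p ≤ 1) (S T : Set V) (W : Finset V)
    (hW : ∀ e a b, ends e = s(a, b) → a ∈ S → b ∈ S → a ∉ T → b ∈ T → a ∈ W) (o u : V) (ho : o ∉ T) (hu : u ∈ T)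
    (g : (E → Bool) → ℝ) (hg0 : ∀ ω, 0 ≤ g ω) (hg : ∀ ω ω' : E → Bool, (∀ e, (∀ v ∈ ends e, v ∈ T) → ω e = ω' e) → g ω = g ω') :
    Ex p (fun ω => g ω * (if u ∈ cl ends ω S o then (1 : ℝ) else 0)) ≤ Ex p g * ∑ w ∈ W, rs ends S p o w := by
  have key : ∀ ω : E → Bool, u ∈ cl ends ω S o → ∃ w ∈ W, w ∈ cl ends ω (S \ T) o := by
    intro ω hu'
    rw [mem_cl] at hu'
    have aux : ∀ z, Rch ends ω S o z → (Rch ends ω (S \ T) o z ∨ ∃ w ∈ W, w ∈ cl ends ω (S \ T) o) := by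
      intro z hz
      induction hz with
      | refl => exact Or.inl (Rch.refl o)
      | @tail c d _ hcd ih =>
        obtain ⟨h1', h2', e, h3, h4⟩ := hcd
        rcases ih with ih | ih
        · have hcT : c ∉ T := by
            rcases ih.mem with h | h
            · exact h ▸ ho
            · exact h.2
          by_cases hdT : d ∈ T
          · exact Or.inr ⟨c, hW e c d h4 h1' h2' hcT hdT, mem_cl.2 ih⟩
          · exact Or.inl (Relation.ReflTransGen.tail ih ⟨⟨h1', hcT⟩, ⟨h2', hdT⟩, e, h3, h4⟩)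
        · exact Or.inr ih
    rcases aux u hu' with h | h
    · exfalso
      rcases h.mem with h | h
      · exact ho (h ▸ hu)
      · exact h.2 hu
    · exact h
  have hind : ∀ w : V, Ex p (fun ω => g ω * (if w ∈ cl ends ω (S \ T) o then (1 : ℝ) else 0)) =
      Ex p g * rs ends (S \ T) p o w := by
    intro w
    unfold rs
    refine Ex_indep p {e : E | ∀ v ∈ ends e, v ∈ T} g _ (fun ω ω' h => hg ω ω' h) ?_
    intro ω ω' h
    have : cl ends ω (S \ T) o = cl ends ω' (S \ T) o := by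
      refine cl_dep ?_
      intro e a b hab ha _
      refine h e ?_
      intro hD
      exact ha.2 (hD a (by rw [hab]; exact Sym2.mem_mk_left a b))
    simp only [this]
  calc Ex p (fun ω => g ω * (if u ∈ cl ends ω S o then (1 : ℝ) else 0))
      ≤ Ex p (fun ω => ∑ w ∈ W, g ω * (if w ∈ cl ends ω (S \ T) o then (1 : ℝ) else 0)) := by
        refine Ex_mono h0 h1 fun ω => ?_
        have hnn : ∀ w ∈ W, 0 ≤ g ω * (if w ∈ cl ends ω (S \ T) o then (1 : ℝ) else 0) := by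
          intro w _
          refine mul_nonneg (hg0 ω) ?_
          split_ifs <;> norm_num
        by_cases hc : u ∈ cl ends ω S o
        · obtain ⟨w, hwW, hw⟩ := key ω hc
          rw [if_pos hc]
          have := Finset.single_le_sum hnn hwW
          rw [if_pos hw] at this
          exact this
        · rw [if_neg hc, mul_zero]
          exact Finset.sum_nonneg hnn
    _ = ∑ w ∈ W, Ex p g * rs ends (S \ T) p o w := by
        rw [Ex_sum]
        exact Finset.sum_congr rfl fun w _ => hind w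
    _ ≤ Ex p g * ∑ w ∈ W, rs ends S p o w := by
        rw [Finset.mul_sum]
        refine Finset.sum_le_sum fun w _ => ?_
        exact mul_le_mul_of_nonneg_left (rs_mono h0 h1 (fun _ h => h.1) o w) (Ex_nonneg h0 h1 hg0)

/-- From `x ∈ T` to the outside of `T`: the path up to the first vertex outside `T`. -/
private lemma G3_out {S T : Set V} {W : Finset V}
    (hW : ∀ e a b, ends e = s(a, b) → a ∈ S → b ∈ S → a ∉ T → b ∈ T → a ∈ W) {o x : V} (ho : o ∉ T) (hx : x ∈ T)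
    {ω ω' : E → Bool} (hω' : ∀ e z, ω e = true → z ∈ ends e → Rch ends ω (S ∩ T) x z → ω' e = true)
    (h : Rch ends ω S x o) : ∃ w ∈ W, Rch ends ω' S x w := by
  have hin : ∀ c, Rch ends ω (S ∩ T) x c → Rch ends ω' S x c := by
    intro c hc
    induction hc with
    | refl => exact Rch.refl x
    | @tail c d hxc hcd ih =>
      obtain ⟨h1, h2, e, h3, h4⟩ := hcd
      refine Relation.ReflTransGen.tail ih ⟨h1.1, h2.1, e, ?_, h4⟩
      exact hω' e c h3 (by rw [h4]; exact Sym2.mem_mk_left c d) hxc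
  have key : ∀ c, Rch ends ω S x c → Rch ends ω (S ∩ T) x c ∨ ∃ w ∈ W, Rch ends ω' S x w := by
    intro c hc
    induction hc with
    | refl => exact Or.inl (Rch.refl x)
    | @tail c d _ hcd ih =>
      rcases ih with ih | ih
      · obtain ⟨h1, h2, e, h3, h4⟩ := hcd
        have hcT : c ∈ T := by
          rcases ih.mem with h5 | h5
          · exact h5 ▸ hx
          · exact h5.2
        by_cases hd : d ∈ T
        · exact Or.inl (Relation.ReflTransGen.tail ih ⟨⟨h1, hcT⟩, ⟨h2, hd⟩, e, h3, h4⟩)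
        · refine Or.inr ⟨d, hW e d c (by rw [h4, Sym2.eq_swap]) h2 h1 hd hcT, ?_⟩
          refine Relation.ReflTransGen.tail (hin c ih) ⟨h1, h2, e, ?_, h4⟩
          exact hω' e c h3 (by rw [h4]; exact Sym2.mem_mk_left c d) ih
      · exact Or.inr ih
  rcases key o h with h1 | h1
  · rcases h1.mem with h2 | h2
    · exact absurd (h2 ▸ hx) ho
    · exact absurd h2.2 ho
  · exact h1

/-- A path from `o` to `u`, up to the first vertex in the cluster of `u` or of `a` inside `S ∩ T`. -/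
private lemma G3_in {S T : Set V} {o u a : V} (ho : o ∉ T) (hu : u ∈ T) (ha : a ∈ T)
    {ω ω₁ ω₂ : E → Bool} (h1 : ∀ e, ω e = true → (∀ z ∈ ends e, ¬ Rch ends ω (S ∩ T) u z) → ω₁ e = true)
    (h2 : ∀ e, ω e = true → (∀ z ∈ ends e, ¬ Rch ends ω (S ∩ T) a z) → ω₂ e = true)
    (hd : ∀ z, Rch ends ω (S ∩ T) u z → ¬ Rch ends ω (S ∩ T) a z)
    (h : Rch ends ω S o u) : Rch ends ω₁ S o a ∨ Rch ends ω₂ S o u := by
  have hout : ∀ x ∈ T, ¬ Rch ends ω (S ∩ T) x o := by
    intro x hx hxo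
    rcases hxo.mem with h3 | h3
    · exact ho (h3 ▸ hx)
    · exact ho h3.2
  set R : Set V := {z | z ∈ S ∧ ¬ Rch ends ω (S ∩ T) u z ∧ ¬ Rch ends ω (S ∩ T) a z} with hR
  have hmemR : ∀ c, Rch ends ω R o c → ¬ Rch ends ω (S ∩ T) u c ∧ ¬ Rch ends ω (S ∩ T) a c := by
    intro c hc
    rcases hc.mem with h3 | h3
    · rw [← h3]
      exact ⟨hout u hu, hout a ha⟩
    · exact h3.2
  have hR1 : ∀ c, Rch ends ω R o c → Rch ends ω₁ S o c ∧ Rch ends ω₂ S o c := by
    intro c hc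
    induction hc with
    | refl => exact ⟨Rch.refl o, Rch.refl o⟩
    | @tail c d _ hcd ih =>
      obtain ⟨h3, h4, e, h5, h6⟩ := hcd
      refine ⟨Relation.ReflTransGen.tail ih.1 ⟨h3.1, h4.1, e, h1 e h5 ?_, h6⟩,
        Relation.ReflTransGen.tail ih.2 ⟨h3.1, h4.1, e, h2 e h5 ?_, h6⟩⟩
      · intro z hz
        rw [h6, Sym2.mem_iff] at hz
        rcases hz with rfl | rfl
        · exact h3.2.1
        · exact h4.2.1
      · intro z hz
        rw [h6, Sym2.mem_iff] at hz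
        rcases hz with rfl | rfl
        · exact h3.2.2
        · exact h4.2.2
  have key : ∀ c, Rch ends ω S o c → Rch ends ω R o c ∨
      (∃ z, Rch ends ω (S ∩ T) a z ∧ Rch ends ω₁ S o z) ∨ ∃ z, Rch ends ω (S ∩ T) u z ∧ Rch ends ω₂ S o z := by
    intro c hc
    induction hc with
    | refl => exact Or.inl (Rch.refl o)
    | @tail c d _ hcd ih =>
      rcases ih with ih | ih
      · obtain ⟨h3, h4, e, h5, h6⟩ := hcd
        obtain ⟨h7, h8⟩ := hmemR c ih
        by_cases hdu : Rch ends ω (S ∩ T) u d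
        · refine Or.inr (Or.inr ⟨d, hdu, Relation.ReflTransGen.tail (hR1 c ih).2 ⟨h3, h4, e, h2 e h5 ?_, h6⟩⟩)
          intro z hz
          rw [h6, Sym2.mem_iff] at hz
          rcases hz with rfl | rfl
          · exact h8
          · exact hd z hdu
        · by_cases hda : Rch ends ω (S ∩ T) a d
          · refine Or.inr (Or.inl ⟨d, hda, Relation.ReflTransGen.tail (hR1 c ih).1 ⟨h3, h4, e, h1 e h5 ?_, h6⟩⟩)
            intro z hz
            rw [h6, Sym2.mem_iff] at hz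
            rcases hz with rfl | rfl
            · exact h7
            · exact hdu
          · exact Or.inl (Relation.ReflTransGen.tail ih ⟨⟨h3, h7, h8⟩, ⟨h4, hdu, hda⟩, e, h5, h6⟩)
      · exact Or.inr ih
  rcases key u h with h3 | ⟨z, h3, h4⟩ | ⟨z, h3, h4⟩
  · exact absurd (Rch.refl u) (hmemR u h3).1
  · left
    refine h4.trans (Rch.symm ?_)
    clear h4
    induction h3 with
    | refl => exact Rch.refl a
    | @tail c d hac hcd ih =>
      have had : Rch ends ω (S ∩ T) a d := Relation.ReflTransGen.tail hac hcd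
      obtain ⟨h5, h6, e, h7, h8⟩ := hcd
      refine Relation.ReflTransGen.tail ih ⟨h5.1, h6.1, e, h1 e h7 ?_, h8⟩
      intro z hz hz'
      rw [h8, Sym2.mem_iff] at hz
      rcases hz with rfl | rfl
      · exact hd z hz' hac
      · exact hd z hz' had
  · right
    refine h4.trans (Rch.symm ?_)
    clear h4
    induction h3 with
    | refl => exact Rch.refl u
    | @tail c d huc hcd ih =>
      have hud : Rch ends ω (S ∩ T) u d := Relation.ReflTransGen.tail huc hcd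
      obtain ⟨h5, h6, e, h7, h8⟩ := hcd
      refine Relation.ReflTransGen.tail ih ⟨h5.1, h6.1, e, h2 e h7 ?_, h8⟩
      intro z hz
      rw [h8, Sym2.mem_iff] at hz
      rcases hz with rfl | rfl
      · exact hd z huc
      · exact hd z hud

/-- The families of the sets of edges which join `x` to `y` inside `S`. -/
private lemma G3_opn (S : Set V) (x y : V) (ω : E → Bool) :
    opn {F : Finset E | Rch ends (fun e => decide (e ∈ F)) S x y} ω = if y ∈ cl ends ω S x then 1 else 0 := by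
  classical
  unfold opn
  apply if_congr _ rfl rfl
  rw [mem_cl]
  constructor
  · rintro ⟨F, hF, hop⟩
    exact Rch.mono (fun e he => hop e (of_decide_eq_true he)) le_rfl hF
  · intro h
    refine ⟨Finset.univ.filter (fun e => ω e = true), ?_, fun e he => (Finset.mem_filter.1 he).2⟩
    exact h.mono (fun e he => by simp [he]) le_rfl

open scoped Classical in
/-- The families of the sets of edges which join `x` to `W` inside `S`. -/
private lemma G3_opn' (S : Set V) (x : V) (W : Finset V) (ω : E → Bool) :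
    opn {F : Finset E | ∃ w ∈ W, Rch ends (fun e => decide (e ∈ F)) S x w} ω =
      if ∃ y ∈ W, y ∈ cl ends ω S x then 1 else 0 := by
  by_cases hc : ∃ y ∈ W, y ∈ cl ends ω S x
  · rw [if_pos hc]
    unfold opn
    apply if_pos
    obtain ⟨w, hw, h⟩ := hc
    refine ⟨Finset.univ.filter (fun e => ω e = true), ⟨w, hw, ?_⟩, fun e he => (Finset.mem_filter.1 he).2⟩
    exact (mem_cl.1 h).mono (fun e he => by simp [he]) le_rfl
  · rw [if_neg hc]
    unfold opn
    apply if_neg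
    rintro ⟨F, ⟨w, hw, hF⟩, hop⟩
    exact hc ⟨w, hw, mem_cl.2 (Rch.mono (fun e he => hop e (of_decide_eq_true he)) le_rfl hF)⟩

open scoped Classical in
/-- The open edges with and without an end in the cluster of `x` inside `S ∩ T`. -/
private lemma G3_dsj (S T : Set V) (x : V) (ω : E → Bool) (𝒜 ℬ : Set (Finset E))
    (hA : Finset.univ.filter (fun e => ω e = true ∧ ∀ z ∈ ends e, ¬ Rch ends ω (S ∩ T) x z) ∈ 𝒜)
    (hB : Finset.univ.filter (fun e => ω e = true ∧ ∃ z ∈ ends e, Rch ends ω (S ∩ T) x z) ∈ ℬ) :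
    opn (dsj 𝒜 ℬ) ω = 1 := by
  unfold opn
  apply if_pos
  refine ⟨_, ⟨_, hA, _, hB, ?_, rfl⟩, ?_⟩
  · rw [Finset.disjoint_left]
    intro e h1 h2
    obtain ⟨-, -, h3⟩ := Finset.mem_filter.1 h1
    obtain ⟨-, -, z, hz, h4⟩ := Finset.mem_filter.1 h2
    exact h3 z hz h4
  · intro e he
    rcases Finset.mem_union.1 he with he | he
    · exact (Finset.mem_filter.1 he).2.1
    · exact (Finset.mem_filter.1 he).2.1

open scoped Classical in
/-- Row G3. Let `Lu = cl ω (S ∩ T) u`, `La = cl ω (S ∩ T) a` (disjoint). Both `u` and `a` are joined in `S` to `o ∉ T`, so there is a path in `S` from `u` to some `w ∈ W` all of whose edges have an end in `Lu` (follow the path from `u` to `o` up to the first vertex outside `T`), and similarly for `a`.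
Take an open path in `S` from `o` to the first vertex `z` of `Lu ∪ La` (its edges have no end in `Lu ∪ La` except the last one, which has `z`). If `z ∈ La`, continue inside `La` to `a`: this gives a path from `o` to `a` in `S` whose edges have no end in `Lu`, so disjoint from the path from `u` to `W`;
if `z ∈ Lu`: a path from `o` to `u` disjoint from the path from `a` to `W`. So the event is contained in the union of two disjoint occurrences: `bk` with the families `{F | Rch (F) S o a}`, `{F | ∃ w ∈ W, Rch (F) S u w}` etc. (compare `two`, `tree_graph`, `tripod`, `first_hit`). -/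
theorem two_loc {p : ℝ} (h0 : 0 ≤ p) (h1 : p ≤ 1) (S T : Set V) (W : Finset V)
    (hW : ∀ e a b, ends e = s(a, b) → a ∈ S → b ∈ S → a ∉ T → b ∈ T → a ∈ W) (o u a : V) (ho : o ∉ T) (hu : u ∈ T) (ha : a ∈ T) :
    Ex p (fun ω => if u ∈ cl ends ω S o ∧ a ∈ cl ends ω S o ∧ a ∉ cl ends ω (S ∩ T) u then (1 : ℝ) else 0) ≤
      rs ends S p o a * hs ends S p u W + rs ends S p o u * hs ends S p a W := by
  set 𝒜 : V → Set (Finset E) := fun y => {F | Rch ends (fun e => decide (e ∈ F)) S o y} with h𝒜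
  set ℬ : V → Set (Finset E) := fun y => {F | ∃ w ∈ W, Rch ends (fun e => decide (e ∈ F)) S y w} with hℬ
  have hrs : ∀ y, Ex p (opn (𝒜 y)) = rs ends S p o y := by
    intro y
    unfold rs
    exact Ex_congr fun ω => by rw [h𝒜, G3_opn]
  have hhs : ∀ y, Ex p (opn (ℬ y)) = hs ends S p y W := by
    intro y
    unfold hs
    exact Ex_congr fun ω => by rw [hℬ, G3_opn']
  have hnn : ∀ (𝒞 : Set (Finset E)) (ω : E → Bool), 0 ≤ opn 𝒞 ω := by
    intro 𝒞 ω
    unfold opn
    split_ifs <;> norm_num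
  have hle : ∀ ω : E → Bool, (if u ∈ cl ends ω S o ∧ a ∈ cl ends ω S o ∧ a ∉ cl ends ω (S ∩ T) u then (1 : ℝ) else 0) ≤
      opn (dsj (𝒜 a) (ℬ u)) ω + opn (dsj (𝒜 u) (ℬ a)) ω := by
    intro ω
    split_ifs with hev
    · obtain ⟨h3, h4, h5⟩ := hev
      rw [mem_cl] at h3 h4 h5
      have hd : ∀ z, Rch ends ω (S ∩ T) u z → ¬ Rch ends ω (S ∩ T) a z :=
        fun z hz hz' => h5 (hz.trans hz'.symm)
      have hBof : ∀ x ∈ T, Rch ends ω S o x →
          Finset.univ.filter (fun e => ω e = true ∧ ∃ z ∈ ends e, Rch ends ω (S ∩ T) x z) ∈ ℬ x := by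
        intro x hx hox
        refine G3_out (o := o) hW ho hx (ω := ω) ?_ hox.symm
        intro e z he hz hxz
        exact decide_eq_true (Finset.mem_filter.2 ⟨Finset.mem_univ e, he, z, hz, hxz⟩)
      have hF := G3_in (S := S) (T := T) (ends := ends) (ω := ω)
        (ω₁ := fun e => decide (e ∈ Finset.univ.filter
          (fun e => ω e = true ∧ ∀ z ∈ ends e, ¬ Rch ends ω (S ∩ T) u z)))
        (ω₂ := fun e => decide (e ∈ Finset.univ.filter
          (fun e => ω e = true ∧ ∀ z ∈ ends e, ¬ Rch ends ω (S ∩ T) a z))) ho hu ha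
        (fun e he hz => decide_eq_true (Finset.mem_filter.2 ⟨Finset.mem_univ e, he, hz⟩))
        (fun e he hz => decide_eq_true (Finset.mem_filter.2 ⟨Finset.mem_univ e, he, hz⟩)) hd h3
      rcases hF with hF | hF
      · have h6 := G3_dsj (ends := ends) S T u ω (𝒜 a) (ℬ u) hF (hBof u hu h3)
        have h7 := hnn (dsj (𝒜 u) (ℬ a)) ω
        linarith
      · have h6 := G3_dsj (ends := ends) S T a ω (𝒜 u) (ℬ a) hF (hBof a ha h4)
        have h7 := hnn (dsj (𝒜 a) (ℬ u)) ω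
        linarith
    · exact add_nonneg (hnn _ ω) (hnn _ ω)
  calc _ ≤ _ := Ex_mono h0 h1 hle
    _ = Ex p (opn (dsj (𝒜 a) (ℬ u))) + Ex p (opn (dsj (𝒜 u) (ℬ a))) := Ex_add p _ _
    _ ≤ Ex p (opn (𝒜 a)) * Ex p (opn (ℬ u)) + Ex p (opn (𝒜 u)) * Ex p (opn (ℬ a)) :=
        add_le_add (bk h0 h1 _ _) (bk h0 h1 _ _)
    _ = _ := by rw [hrs, hrs, hhs, hhs]

end gen

variable {d : ℕ}

/-- Row G1. If `Irr` then `u` is in the cluster of `o`, so `cl ω (Qs o n) o ⊆ cu ω o = cu ω u`; `cnt_tail`; the sphere has at most `d 2^d (n+1)^(d-1)` vertices (`shell`). -/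
theorem irr_big (C c pc : ℝ) (h : GH d C c pc) (k : ℕ) (hk1 : 1 ≤ k) : ∃ K : ℝ, 1 ≤ K ∧ ∀ (l n m : ℕ) (o : Fin d → Fin l), 1 ≤ n → 1 ≤ m →
    II o n m pc ≤ K * (n : ℝ) ^ d / (m : ℝ) ^ k := by
  classical
  obtain ⟨K0, hK0, hK⟩ := cnt_tail d C c pc h k hk1
  have hd1 : 1 ≤ d := by have := h.d9; omega
  have h0 : 0 ≤ pc := h.p0.le
  have h1 : pc ≤ 1 := h.p1.le
  refine ⟨K0 * ((d : ℝ) * 2 ^ d * 2 ^ (d - 1)), ?_, ?_⟩
  · have ha : (1 : ℝ) ≤ d := by exact_mod_cast hd1
    have hb : (1 : ℝ) ≤ 2 ^ d := one_le_pow₀ (by norm_num)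
    have hc : (1 : ℝ) ≤ 2 ^ (d - 1) := one_le_pow₀ (by norm_num)
    have h2 : (1 : ℝ) ≤ (d : ℝ) * 2 ^ d * 2 ^ (d - 1) := by
      have := one_le_mul_of_one_le_of_one_le (one_le_mul_of_one_le_of_one_le ha hb) hc
      exact this
    exact one_le_mul_of_one_le_of_one_le hK0 h2
  intro l n m o hn hm
  have hm0 : (0 : ℝ) < (m : ℝ) ^ k := by
    have : (0 : ℝ) < m := by exact_mod_cast hm
    positivity
  have hpt : ∀ u : Fin d → Fin l, Ex pc (fun ω => if Irr o n u m ω then (1 : ℝ) else 0) ≤ K0 / (m : ℝ) ^ k := by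
    intro u
    refine (Ex_mono h0 h1 fun ω => ?_).trans (hK l m u hm)
    by_cases hI : Irr o n u m ω
    · rw [if_pos hI]
      obtain ⟨hI1, hI2⟩ := hI
      have hsub : cl (gends (boxG d l)) ω (Qs o n) o ∩ bb u m ⊆ cu (gends (boxG d l)) ω u ∩ bb u m := by
        apply Finset.inter_subset_inter_right
        have h3 : cl (gends (boxG d l)) ω (Qs o n) o ⊆ cu (gends (boxG d l)) ω o :=
          cl_mono (fun _ he => he) (Set.subset_univ _)
        rw [cu_eq (h3 hI1)]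
        exact h3
      have hcard : (((cl (gends (boxG d l)) ω (Qs o n) o ∩ bb u m).card : ℕ) : ℝ) ≤
          (((cu (gends (boxG d l)) ω u ∩ bb u m).card : ℕ) : ℝ) := by
        exact_mod_cast Finset.card_le_card hsub
      rw [if_pos (lt_of_lt_of_le hI2 (pow_le_pow_left₀ (Nat.cast_nonneg _) hcard 2))]
    · rw [if_neg hI]
      split_ifs <;> norm_num
  have hsp : ((Sp o n).card : ℝ) ≤ ((d : ℝ) * 2 ^ d * 2 ^ (d - 1)) * (n : ℝ) ^ d := by
    have h2 : ((Sp o n).card : ℝ) ≤ (d : ℝ) * 2 ^ d * ((n : ℝ) + 1) ^ (d - 1) := by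
      have := shell hd1 o n
      unfold Sp
      exact_mod_cast this
    refine h2.trans ?_
    have hn1 : (1 : ℝ) ≤ n := by exact_mod_cast hn
    have h3 : ((n : ℝ) + 1) ^ (d - 1) ≤ 2 ^ (d - 1) * (n : ℝ) ^ d := by
      calc ((n : ℝ) + 1) ^ (d - 1) ≤ (2 * (n : ℝ)) ^ (d - 1) :=
            pow_le_pow_left₀ (by positivity) (by linarith) _
        _ = 2 ^ (d - 1) * (n : ℝ) ^ (d - 1) := mul_pow _ _ _
        _ ≤ 2 ^ (d - 1) * (n : ℝ) ^ d :=
            mul_le_mul_of_nonneg_left (pow_le_pow_right₀ hn1 (Nat.sub_le _ _)) (by positivity)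
    calc (d : ℝ) * 2 ^ d * ((n : ℝ) + 1) ^ (d - 1) ≤ (d : ℝ) * 2 ^ d * (2 ^ (d - 1) * (n : ℝ) ^ d) :=
          mul_le_mul_of_nonneg_left h3 (by positivity)
      _ = _ := by ring
  have hsum : II o n m pc ≤ ((Sp o n).card : ℝ) * (K0 / (m : ℝ) ^ k) := by
    unfold II
    calc _ ≤ ∑ _u ∈ Sp o n, K0 / (m : ℝ) ^ k := Finset.sum_le_sum fun u _ => hpt u
      _ = _ := by rw [Finset.sum_const, nsmul_eq_mul]
  refine hsum.trans ?_
  have hKm : 0 ≤ K0 / (m : ℝ) ^ k := div_nonneg (by linarith) hm0.le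
  calc ((Sp o n).card : ℝ) * (K0 / (m : ℝ) ^ k) ≤
        (((d : ℝ) * 2 ^ d * 2 ^ (d - 1)) * (n : ℝ) ^ d) * (K0 / (m : ℝ) ^ k) :=
        mul_le_mul_of_nonneg_right hsp hKm
    _ = K0 * ((d : ℝ) * 2 ^ d * 2 ^ (d - 1)) * (n : ℝ) ^ d / (m : ℝ) ^ k := by ring

/-- A vertex of the small box off the inner boundary is mapped to a vertex at distance less than `R`. -/
private lemma G4_nd (hd : 1 ≤ d) {l R : ℕ} (x : Fin d → Fin l) (hx : In x R) (w : Fin d → Fin l) (y : Fin d → Fin (2 * R + 1))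
    (hy : y ∉ bdy d (2 * R + 1)) (hw : ∀ i, (w i : ℕ) = ((x i : ℕ) - R) + (y i : ℕ)) : nd x w < R := by
  have hb : ∀ i, (y i : ℕ) ≠ 0 ∧ (y i : ℕ) + 1 ≠ 2 * R + 1 := by
    intro i
    constructor
    · intro h
      exact hy (Finset.mem_filter.2 ⟨Finset.mem_univ _, i, Or.inl h⟩)
    · intro h
      exact hy (Finset.mem_filter.2 ⟨Finset.mem_univ _, i, Or.inr h⟩)
  have hR : 0 < R := by
    have h1 := (hb ⟨0, hd⟩).1
    have h2 := (y ⟨0, hd⟩).isLt
    omega
  unfold nd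
  have h0 : (⊥ : ℕ) < R := hR
  rw [Finset.sup_lt_iff h0]
  intro i _
  have h1 := hb i
  have h2 := (y i).isLt
  have h3 := hw i
  have h4 := hx i
  omega

/-- Row G4. `hs_mono` to `univ`; if `w` with `nd x w ≥ R` is joined to `x`, then the centre of the box of side `2 R + 1` is joined to its boundary in the configuration restricted to the cube `Qs x R` (the embedding of `rs_tr`, `exit_decomp`; compare `arm_box` in `Y/Ar.lean`), `Ex_pul`. For `R = 0` trivial (`aM d 0 p = 1` if `d ≥ 1`). -/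
theorem arm_loc (hd : 1 ≤ d) {l : ℕ} {p : ℝ} (h0 : 0 ≤ p) (h1 : p ≤ 1) (S : Set (Fin d → Fin l)) (x : Fin d → Fin l) (R : ℕ) (hx : In x R) (W : Finset (Fin d → Fin l))
    (hW : ∀ w ∈ W, R ≤ nd x w) : hs (gends (boxG d l)) S p x W ≤ aM d R p := by
  classical
  obtain ⟨φ, hφ⟩ := box_box (d := d) (l := 2 * R + 1) (n := l)
    (fun i => (x i : ℕ) - R) (by
      intro i
      have := hx i
      omega)
  have hctr : φ (ctr d R) = x := by
    funext i
    apply Fin.ext
    rw [hφ]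
    have := hx i
    simp only [ctr]
    omega
  unfold aM hs
  rw [← Ex_pul φ]
  apply Ex_mono h0 h1
  intro ω
  by_cases ha : arm d R (pul φ ω)
  · rw [if_pos ha]
    split_ifs <;> norm_num
  · rw [if_neg ha]
    have hdj : Disjoint (cu (gends (boxG d (2 * R + 1)))
        (pl (fun e => φ.mapEdgeSet e) ω) (ctr d R)) (bdy d (2 * R + 1)) := by
      unfold arm at ha
      exact not_not.1 ha
    have hcu := cu_loc (emb_of φ) (bdy d (2 * R + 1))
      (fun e u hu he => box_loc (fun i => (x i : ℕ) - R) φ hφ e u hu he) ω (ctr d R) hdj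
    rw [hctr] at hcu
    have hno : ¬ ∃ w ∈ W, w ∈ cl (gends (boxG d l)) ω S x := by
      rintro ⟨w, hwW, hw⟩
      have hw2 : w ∈ cu (gends (boxG d l)) ω x :=
        cl_mono (fun _ h => h) (Set.subset_univ S) hw
      rw [hcu] at hw2
      obtain ⟨y, hy, hyw⟩ := Finset.mem_image.1 hw2
      have hyb : y ∉ bdy d (2 * R + 1) := Finset.disjoint_left.1 hdj hy
      have h2 := G4_nd hd x hx w y hyb (fun i => by rw [← hyw, hφ])
      have h3 := hW w hwW
      omega
    rw [if_neg hno]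

private lemma G5_self {l : ℕ} (x : Fin d → Fin l) : nd x x = 0 := by
  unfold nd
  refine Nat.le_zero.1 (Finset.sup_le fun i _ => ?_)
  omega

private lemma G5_co {l : ℕ} (x y : Fin d → Fin l) (i : Fin d) :
    ((x i : ℕ) - (y i : ℕ)) + ((y i : ℕ) - (x i : ℕ)) ≤ nd x y :=
  Finset.le_sup (f := fun i => ((x i : ℕ) - (y i : ℕ)) + ((y i : ℕ) - (x i : ℕ))) (Finset.mem_univ i)

private lemma G5_adj {l : ℕ} {e : (boxG d l).edgeSet} {a b : Fin d → Fin l}
    (h : gends (boxG d l) e = s(a, b)) : nd a b ≤ 1 := by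
  have h1 := e.2
  have h2 : (e : Sym2 (Fin d → Fin l)) = s(a, b) := h
  rw [h2, SimpleGraph.mem_edgeSet] at h1
  obtain ⟨i, hi, h'⟩ := h1
  unfold nd
  refine Finset.sup_le fun j _ => ?_
  by_cases hj : j = i
  · subst hj
    omega
  · rw [h' j hj]
    omega

private lemma G5_In {l n r : ℕ} {o x : Fin d → Fin l} (ho : In o (2 * n)) (hx : nd o x + r ≤ 2 * n) : In x r := by
  intro i
  obtain ⟨h1, h2⟩ := ho i
  have h3 := G5_co o x i
  constructor <;> omega

open scoped Classical in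
private lemma G5_pt {l : ℕ} (n m : ℕ) (o u : Fin d → Fin l) (T : Set (Fin d → Fin l)) (ω : (boxG d l).edgeSet → Bool) :
    (if Irr o n u m ω then (1 : ℝ) else 0) ≤
      (if (m : ℝ) ^ 9 < (((cl (gends (boxG d l)) ω (Qs o n ∩ T) u ∩ bb u m).card : ℕ) : ℝ) ^ 2 then (1 : ℝ) else 0) *
        (if u ∈ cl (gends (boxG d l)) ω (Qs o n) o then (1 : ℝ) else 0) +
      ∑ a ∈ bb u m, (if u ∈ cl (gends (boxG d l)) ω (Qs o n) o ∧ a ∈ cl (gends (boxG d l)) ω (Qs o n) o ∧
        a ∉ cl (gends (boxG d l)) ω (Qs o n ∩ T) u then (1 : ℝ) else 0) := by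
  have hn1 : (0 : ℝ) ≤ (if (m : ℝ) ^ 9 < (((cl (gends (boxG d l)) ω (Qs o n ∩ T) u ∩ bb u m).card : ℕ) : ℝ) ^ 2 then (1 : ℝ) else 0) *
        (if u ∈ cl (gends (boxG d l)) ω (Qs o n) o then (1 : ℝ) else 0) := by
    apply mul_nonneg <;> split_ifs <;> norm_num
  have hn2 : ∀ a ∈ bb u m, (0 : ℝ) ≤ (if u ∈ cl (gends (boxG d l)) ω (Qs o n) o ∧ a ∈ cl (gends (boxG d l)) ω (Qs o n) o ∧
        a ∉ cl (gends (boxG d l)) ω (Qs o n ∩ T) u then (1 : ℝ) else 0) := by
    intro a _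
    split_ifs <;> norm_num
  by_cases hI : Irr o n u m ω
  · rw [if_pos hI]
    obtain ⟨hu, hc⟩ := hI
    by_cases hall : ∀ a ∈ bb u m, a ∈ cl (gends (boxG d l)) ω (Qs o n) o → a ∈ cl (gends (boxG d l)) ω (Qs o n ∩ T) u
    · have hsub : cl (gends (boxG d l)) ω (Qs o n) o ∩ bb u m ⊆ cl (gends (boxG d l)) ω (Qs o n ∩ T) u ∩ bb u m := by
        intro a ha
        rw [Finset.mem_inter] at ha ⊢
        exact ⟨hall a ha.2 ha.1, ha.2⟩
      have hcard : (((cl (gends (boxG d l)) ω (Qs o n) o ∩ bb u m).card : ℕ) : ℝ) ≤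
          (((cl (gends (boxG d l)) ω (Qs o n ∩ T) u ∩ bb u m).card : ℕ) : ℝ) := by
        exact_mod_cast Finset.card_le_card hsub
      have hlt : (m : ℝ) ^ 9 < (((cl (gends (boxG d l)) ω (Qs o n ∩ T) u ∩ bb u m).card : ℕ) : ℝ) ^ 2 :=
        hc.trans_le (pow_le_pow_left₀ (Nat.cast_nonneg _) hcard 2)
      rw [if_pos hlt, if_pos hu, one_mul]
      exact le_add_of_nonneg_right (Finset.sum_nonneg hn2)
    · push Not at hall
      obtain ⟨a, ha, ha1, ha2⟩ := hall
      have h2 := Finset.single_le_sum hn2 ha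
      rw [if_pos ⟨hu, ha1, ha2⟩] at h2
      linarith
  · rw [if_neg hI]
    exact add_nonneg hn1 (Finset.sum_nonneg hn2)

open scoped Classical in
/-- One vertex. Let `S = Qs o n`, `T = Qs u R`, `W = Sp u (R+1)`, `L = cl ω (S ∩ T) u`. If `Irr`: either `A ∩ bb u m ⊆ L` and then `m^9 < card (L ∩ bb u m)²`: `isolate` and `cnt_tail`;
or there is `a ∈ A ∩ bb u m`, `a ∉ L`: union bound over `a ∈ bb u m`, `two_loc`, `arm_loc` and `arm_weak`. -/
theorem irr_pt (C c pc : ℝ) (h : GH d C c pc) (k : ℕ) (hk1 : 1 ≤ k) : ∃ K : ℝ, 1 ≤ K ∧ ∀ (l n m R : ℕ) (o u : Fin d → Fin l), In o (2 * n) → 1 ≤ m → 2 * m ≤ R → R < n → u ∈ Sp o n →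
    Ex pc (fun ω => if Irr o n u m ω then (1 : ℝ) else 0) ≤
      K / (m : ℝ) ^ k * ∑ w ∈ Sp u (R + 1), rs (gends (boxG d l)) (Qs o n) pc o w +
      K / R * ∑ a ∈ bb u m, (rs (gends (boxG d l)) (Qs o n) pc o a + rs (gends (boxG d l)) (Qs o n) pc o u) := by
  obtain ⟨K1, hK1, H1⟩ := cnt_tail d C c pc h k hk1
  obtain ⟨K2, hK2, H2⟩ := arm_weak d C c pc h
  have hd : 1 ≤ d := le_trans (by norm_num) h.d9
  have h0 : 0 ≤ pc := h.p0.le
  have h1 : pc ≤ 1 := h.p1.le
  refine ⟨K1 + 2 * K2, by linarith, fun l n m R o u ho hm hmR hRn hu => ?_⟩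
  have hun : nd o u = n := (Finset.mem_filter.1 hu).2
  have huo : nd u o = n := by rw [nd_symm]; exact hun
  have hm0 : (0 : ℝ) < m := by exact_mod_cast hm
  have hR0 : (0 : ℝ) < R := by
    have : 0 < R := by omega
    exact_mod_cast this
  have hoT : o ∉ Qs u R := by
    intro hh
    have : nd u o ≤ R := hh
    omega
  have huT : u ∈ Qs u R := by
    show nd u u ≤ R
    rw [G5_self]
    exact Nat.zero_le _
  have hW : ∀ e a b, gends (boxG d l) e = s(a, b) → a ∈ Qs o n → b ∈ Qs o n → a ∉ Qs u R → b ∈ Qs u R → a ∈ Sp u (R + 1) := by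
    intro e a b he _ _ ha hb
    have ha' : ¬ nd u a ≤ R := ha
    have hb' : nd u b ≤ R := hb
    have h2 := nd_tri u b a
    have h3 := G5_adj he
    rw [nd_symm] at h3
    exact Finset.mem_filter.2 ⟨Finset.mem_univ _, by omega⟩
  have hInu : In u R := G5_In ho (by omega)
  have hrs : ∀ x y, 0 ≤ rs (gends (boxG d l)) (Qs o n) pc x y := fun x y => rs_nonneg h0 h1 _ x y
  have hA : Ex pc (fun ω => (if (m : ℝ) ^ 9 < (((cl (gends (boxG d l)) ω (Qs o n ∩ Qs u R) u ∩ bb u m).card : ℕ) : ℝ) ^ 2 then (1 : ℝ) else 0) *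
        (if u ∈ cl (gends (boxG d l)) ω (Qs o n) o then (1 : ℝ) else 0)) ≤
      K1 / (m : ℝ) ^ k * ∑ w ∈ Sp u (R + 1), rs (gends (boxG d l)) (Qs o n) pc o w := by
    refine (isolate h0 h1 (Qs o n) (Qs u R) (Sp u (R + 1)) hW o u hoT huT
      (fun ω => if (m : ℝ) ^ 9 < (((cl (gends (boxG d l)) ω (Qs o n ∩ Qs u R) u ∩ bb u m).card : ℕ) : ℝ) ^ 2 then (1 : ℝ) else 0)
      ?_ ?_).trans (mul_le_mul_of_nonneg_right ?_ (Finset.sum_nonneg fun w _ => hrs o w))
    · intro ω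
      split_ifs <;> norm_num
    · intro ω ω' hω
      have h2 : cl (gends (boxG d l)) ω (Qs o n ∩ Qs u R) u = cl (gends (boxG d l)) ω' (Qs o n ∩ Qs u R) u := by
        refine cl_dep fun e a b he ha hb => hω e fun v hv => ?_
        rw [he, Sym2.mem_iff] at hv
        rcases hv with rfl | rfl
        · exact ha.2
        · exact hb.2
      simp only [h2]
    · refine (Ex_mono h0 h1 fun ω => ?_).trans (H1 l m u hm)
      have hsub : cl (gends (boxG d l)) ω (Qs o n ∩ Qs u R) u ∩ bb u m ⊆ cu (gends (boxG d l)) ω u ∩ bb u m :=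
        Finset.inter_subset_inter_right (cl_mono (fun e he => he) (Set.subset_univ _))
      have hcard : (((cl (gends (boxG d l)) ω (Qs o n ∩ Qs u R) u ∩ bb u m).card : ℕ) : ℝ) ≤
          (((cu (gends (boxG d l)) ω u ∩ bb u m).card : ℕ) : ℝ) := by
        exact_mod_cast Finset.card_le_card hsub
      by_cases hc : (m : ℝ) ^ 9 < (((cl (gends (boxG d l)) ω (Qs o n ∩ Qs u R) u ∩ bb u m).card : ℕ) : ℝ) ^ 2
      · rw [if_pos hc, if_pos (hc.trans_le (pow_le_pow_left₀ (Nat.cast_nonneg _) hcard 2))]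
      · rw [if_neg hc]
        split_ifs <;> norm_num
  have hB : ∀ a ∈ bb u m, Ex pc (fun ω => if u ∈ cl (gends (boxG d l)) ω (Qs o n) o ∧ a ∈ cl (gends (boxG d l)) ω (Qs o n) o ∧
        a ∉ cl (gends (boxG d l)) ω (Qs o n ∩ Qs u R) u then (1 : ℝ) else 0) ≤
      2 * K2 / R * (rs (gends (boxG d l)) (Qs o n) pc o a + rs (gends (boxG d l)) (Qs o n) pc o u) := by
    intro a ha
    have ham : nd u a ≤ m := (Finset.mem_filter.1 ha).2
    have haT : a ∈ Qs u R := by
      show nd u a ≤ R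
      omega
    have h3 := nd_tri o u a
    have hIna : In a (R - m) := G5_In ho (by omega)
    have h4 : hs (gends (boxG d l)) (Qs o n) pc u (Sp u (R + 1)) ≤ 2 * K2 / R := by
      refine (arm_loc hd h0 h1 (Qs o n) u R hInu (Sp u (R + 1)) ?_).trans ((H2 R (by omega)).trans ?_)
      · intro w hw
        have : nd u w = R + 1 := (Finset.mem_filter.1 hw).2
        omega
      · exact div_le_div_of_nonneg_right (by linarith) hR0.le
    have h5 : hs (gends (boxG d l)) (Qs o n) pc a (Sp u (R + 1)) ≤ 2 * K2 / R := by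
      refine (arm_loc hd h0 h1 (Qs o n) a (R - m) hIna (Sp u (R + 1)) ?_).trans ((H2 (R - m) (by omega)).trans ?_)
      · intro w hw
        have h6 : nd u w = R + 1 := (Finset.mem_filter.1 hw).2
        have h7 := nd_tri u a w
        omega
      · have h8 : (R : ℝ) ≤ 2 * ((R - m : ℕ) : ℝ) := by
          have : R ≤ 2 * (R - m) := by omega
          exact_mod_cast this
        have h9 : (0 : ℝ) < ((R - m : ℕ) : ℝ) := by linarith
        rw [div_le_div_iff₀ h9 hR0]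
        nlinarith
    refine (two_loc h0 h1 (Qs o n) (Qs u R) (Sp u (R + 1)) hW o u a hoT huT haT).trans ?_
    have h6 := mul_le_mul_of_nonneg_left h4 (hrs o a)
    have h7 := mul_le_mul_of_nonneg_left h5 (hrs o u)
    linarith
  have hE := Ex_mono h0 h1 (G5_pt n m o u (Qs u R))
  rw [Ex_add, Ex_sum] at hE
  refine hE.trans (add_le_add (hA.trans ?_) ((Finset.sum_le_sum hB).trans ?_))
  · refine mul_le_mul_of_nonneg_right ?_ (Finset.sum_nonneg fun w _ => hrs o w)
    exact div_le_div_of_nonneg_right (by linarith) (by positivity)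
  · rw [← Finset.mul_sum]
    refine mul_le_mul_of_nonneg_right ?_ (Finset.sum_nonneg fun a _ => add_nonneg (hrs o a) (hrs o u))
    exact div_le_div_of_nonneg_right (by linarith) hR0.le

private lemma G6_le {l : ℕ} (x y : Fin d → Fin l) (i : Fin d) :
    ((x i : ℕ) - (y i : ℕ)) + ((y i : ℕ) - (x i : ℕ)) ≤ nd x y :=
  Finset.le_sup (f := fun i => ((x i : ℕ) - (y i : ℕ)) + ((y i : ℕ) - (x i : ℕ))) (Finset.mem_univ i)

private lemma G6_many {l : ℕ} (a : Fin l) (k : ℕ) :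
    (Finset.univ.filter (fun v : Fin l => ((a : ℕ) - (v : ℕ)) + ((v : ℕ) - (a : ℕ)) ≤ k)).card ≤ 2 * k + 1 := by
  have h1 : ((Finset.univ.filter
      (fun v : Fin l => ((a : ℕ) - (v : ℕ)) + ((v : ℕ) - (a : ℕ)) ≤ k)).image (fun v : Fin l => (v : ℕ))) ⊆
      Finset.Icc ((a : ℕ) - k) ((a : ℕ) + k) := by
    intro m hm
    obtain ⟨v, hv, rfl⟩ := Finset.mem_image.1 hm
    rw [Finset.mem_filter] at hv
    rw [Finset.mem_Icc]
    omega
  have h2 := Finset.card_le_card h1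
  rw [Finset.card_image_of_injective _ Fin.val_injective, Nat.card_Icc] at h2
  omega

/-- The ball of radius `t` has at most `(2 t + 1)^d` vertices. -/
private lemma G6_bb {l : ℕ} (z : Fin d → Fin l) (t : ℕ) : ((bb z t).card : ℝ) ≤ (2 * (t : ℝ) + 1) ^ d := by
  classical
  have hsub : bb z t ⊆ Fintype.piFinset (fun j => Finset.univ.filter
      (fun v : Fin l => ((z j : ℕ) - (v : ℕ)) + ((v : ℕ) - (z j : ℕ)) ≤ t)) := by
    intro y hy
    rw [bb, Finset.mem_filter] at hy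
    rw [Fintype.mem_piFinset]
    intro j
    rw [Finset.mem_filter]
    exact ⟨Finset.mem_univ _, (G6_le z y j).trans hy.2⟩
  have h1 := Finset.card_le_card hsub
  rw [Fintype.card_piFinset] at h1
  have h2 : ∏ j : Fin d, (Finset.univ.filter
      (fun v : Fin l => ((z j : ℕ) - (v : ℕ)) + ((v : ℕ) - (z j : ℕ)) ≤ t)).card ≤ (2 * t + 1) ^ d := by
    refine (Finset.prod_le_pow_card _ _ (2 * t + 1) fun j _ => G6_many (z j) t).trans ?_
    rw [Finset.card_univ, Fintype.card_fin]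
  have h3 : (bb z t).card ≤ (2 * t + 1) ^ d := h1.trans h2
  exact_mod_cast h3

/-- The layers of depth at most `t`. -/
private lemma G6_layers {b : ℝ} (hd : 1 ≤ d) (hb0 : 0 < b) (hb1 : b ≤ 1) {p : ℝ} (h0 : 0 ≤ p) (h1 : p ≤ 1)
    (hb : ∀ n : ℕ, 1 ≤ n → b ≤ be d n p) {l n : ℕ} {o : Fin d → Fin l} (ho : In o n) (t : ℕ) (ht : t ≤ n) (hbe : 0 ≤ be d n p) :
    ∑ w ∈ Finset.univ.filter (fun w : Fin d → Fin l => n ≤ nd o w + t ∧ nd o w ≤ n), rs (gends (boxG d l)) (Qs o n) p o w ≤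
      ((t : ℝ) + 1) * (2 * d * (2 * (t : ℝ) + 1) ^ d / b * be d n p) := by
  have hmap : ∀ w ∈ Finset.univ.filter (fun w : Fin d → Fin l => n ≤ nd o w + t ∧ nd o w ≤ n), n - nd o w ∈ Finset.range (t + 1) := by
    intro w hw
    rw [Finset.mem_filter] at hw
    rw [Finset.mem_range]
    omega
  rw [← Finset.sum_fiberwise_of_maps_to hmap]
  calc _ ≤ ∑ _j ∈ Finset.range (t + 1), 2 * d * (2 * (t : ℝ) + 1) ^ d / b * be d n p := by
        refine Finset.sum_le_sum fun j hj => ?_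
        have hj' : j ≤ t := by
          rw [Finset.mem_range] at hj
          omega
        have hlay := layer hd hb0 hb1 h0 h1 hb ho j (hj'.trans ht)
        have hsub : (Finset.univ.filter (fun w : Fin d → Fin l => n ≤ nd o w + t ∧ nd o w ≤ n)).filter
            (fun w => n - nd o w = j) ⊆ Sp o (n - j) := by
          intro w hw
          rw [Finset.mem_filter, Finset.mem_filter] at hw
          rw [Sp, Finset.mem_filter]
          refine ⟨Finset.mem_univ _, ?_⟩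
          have := hw.1.2
          have := hw.2
          omega
        have h2 : ∑ w ∈ (Finset.univ.filter (fun w : Fin d → Fin l => n ≤ nd o w + t ∧ nd o w ≤ n)).filter
            (fun w => n - nd o w = j), rs (gends (boxG d l)) (Qs o n) p o w ≤
            ∑ w ∈ Sp o (n - j), rs (gends (boxG d l)) (Qs o n) p o w :=
          Finset.sum_le_sum_of_subset_of_nonneg hsub fun w _ _ => rs_nonneg h0 h1 _ _ _
        refine h2.trans ?_
        have h3 : ∑ w ∈ Sp o (n - j), rs (gends (boxG d l)) (Qs o n) p o w ≤ 2 * d * (2 * (j : ℝ) + 1) ^ d * be d n p / b := by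
          rw [le_div_iff₀ hb0, mul_comm]
          exact hlay
        refine h3.trans ?_
        have h4 : (2 * (j : ℝ) + 1) ^ d ≤ (2 * (t : ℝ) + 1) ^ d := by
          refine pow_le_pow_left₀ (by positivity) ?_ _
          have : (j : ℝ) ≤ t := by exact_mod_cast hj'
          linarith
        have h5 : 2 * (d : ℝ) * (2 * (j : ℝ) + 1) ^ d * be d n p ≤ 2 * d * (2 * (t : ℝ) + 1) ^ d * be d n p := by
          gcongr
        calc 2 * (d : ℝ) * (2 * (j : ℝ) + 1) ^ d * be d n p / b ≤ 2 * d * (2 * (t : ℝ) + 1) ^ d * be d n p / b := by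
              gcongr
          _ = _ := by ring
    _ = _ := by
        rw [Finset.sum_const, Finset.card_range, nsmul_eq_mul]
        push_cast
        ring

/-- The sum over the balls around the vertices of the sphere. -/
private lemma G6_sum {b : ℝ} (hd : 1 ≤ d) (hb0 : 0 < b) (hb1 : b ≤ 1) {p : ℝ} (h0 : 0 ≤ p) (h1 : p ≤ 1)
    (hb : ∀ n : ℕ, 1 ≤ n → b ≤ be d n p) {l n : ℕ} {o : Fin d → Fin l} (ho : In o n) (t : ℕ) (ht : t ≤ n) (hbe : 0 ≤ be d n p) :
    ∑ u ∈ Sp o n, ∑ w ∈ bb u t, rs (gends (boxG d l)) (Qs o n) p o w ≤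
      (2 * (t : ℝ) + 1) ^ d * (((t : ℝ) + 1) * (2 * d * (2 * (t : ℝ) + 1) ^ d / b * be d n p)) := by
  have hoS : o ∈ Qs o n := by
    change nd o o ≤ n
    have h2 : nd o o = 0 := by
      unfold nd
      refine Nat.le_zero.1 (Finset.sup_le fun i _ => ?_)
      omega
    omega
  have hr : ∀ w, 0 ≤ rs (gends (boxG d l)) (Qs o n) p o w := fun w => rs_nonneg h0 h1 _ _ _
  calc ∑ u ∈ Sp o n, ∑ w ∈ bb u t, rs (gends (boxG d l)) (Qs o n) p o w
      = ∑ w, ∑ u ∈ (Sp o n).filter (fun u => nd u w ≤ t), rs (gends (boxG d l)) (Qs o n) p o w := by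
        refine Finset.sum_comm' fun u w => ?_
        rw [bb, Finset.mem_filter, Finset.mem_filter]
        constructor
        · rintro ⟨h2, h3, h4⟩
          exact ⟨⟨h2, h4⟩, h3⟩
        · rintro ⟨⟨h2, h4⟩, h3⟩
          exact ⟨h2, h3, h4⟩
    _ ≤ ∑ w, (if n ≤ nd o w + t ∧ nd o w ≤ n then (2 * (t : ℝ) + 1) ^ d * rs (gends (boxG d l)) (Qs o n) p o w else 0) := by
        refine Finset.sum_le_sum fun w _ => ?_
        rw [Finset.sum_const, nsmul_eq_mul]
        by_cases hw : nd o w ≤ n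
        · by_cases hw2 : n ≤ nd o w + t
          · rw [if_pos ⟨hw2, hw⟩]
            refine mul_le_mul_of_nonneg_right ?_ (hr w)
            have hsub : (Sp o n).filter (fun u => nd u w ≤ t) ⊆ bb w t := by
              intro u hu
              rw [Finset.mem_filter] at hu
              rw [bb, Finset.mem_filter, nd_symm]
              exact ⟨Finset.mem_univ _, hu.2⟩
            have h2 : (((Sp o n).filter (fun u => nd u w ≤ t)).card : ℝ) ≤ ((bb w t).card : ℝ) := by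
              exact_mod_cast Finset.card_le_card hsub
            exact h2.trans (G6_bb w t)
          · rw [if_neg fun h => hw2 h.1]
            have hem : (Sp o n).filter (fun u => nd u w ≤ t) = ∅ := by
              rw [Finset.filter_eq_empty_iff]
              intro u hu h3
              have h4 : nd o u = n := (Finset.mem_filter.1 hu).2
              have h5 := nd_tri o w u
              rw [nd_symm w u] at h5
              omega
            rw [hem, Finset.card_empty, Nat.cast_zero, zero_mul]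
        · rw [if_neg fun h => hw h.2, rs_out p (Qs o n) o w hoS hw, mul_zero]
    _ = (2 * (t : ℝ) + 1) ^ d * ∑ w ∈ Finset.univ.filter (fun w : Fin d → Fin l => n ≤ nd o w + t ∧ nd o w ≤ n),
          rs (gends (boxG d l)) (Qs o n) p o w := by
        rw [← Finset.sum_filter, Finset.mul_sum]
    _ ≤ _ := mul_le_mul_of_nonneg_left (G6_layers hd hb0 hb1 h0 h1 hb ho t ht hbe) (by positivity)

/-- Row G6. Sum of `irr_pt` over `u ∈ Sp o n`. Only `w ∈ Qs o n` contribute (`rs_out`), with `n - nd o w ≤ R + 1`, and each `w` is counted at most `(2R+3)^d` times: `∑_u ∑_w rs o w ≤ (2R+3)^d ∑_{j ≤ R+1} ∑_{w ∈ Sp o (n-j)} rs o w`, `layer` (`R + 1 ≤ n`);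
similarly for `a ∈ bb u m` with `(2m+1)^d`, `j ≤ m`; and `∑_u rs o u = be` (`be_eq`). -/
theorem irr_small (C c pc : ℝ) (h : GH d C c pc) (b : ℝ) (hb0 : 0 < b) (hb1 : b ≤ 1) (hb : ∀ n : ℕ, 1 ≤ n → b ≤ be d n pc) (k : ℕ) (hk1 : 1 ≤ k) :
    ∃ K : ℝ, 1 ≤ K ∧ ∀ (l n m R : ℕ) (o : Fin d → Fin l), In o (2 * n) → 1 ≤ m → 2 * m ≤ R → R < n →
      II o n m pc ≤ K * ((R : ℝ) ^ (2 * d + 1) / (m : ℝ) ^ k + (m : ℝ) ^ (2 * d + 1) / R) * be d n pc := by
  obtain ⟨K1, hK1, hpt⟩ := irr_pt C c pc h k hk1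
  have hd : 1 ≤ d := le_trans (by norm_num) h.d9
  have hd0 : (0 : ℝ) < d := by exact_mod_cast hd
  have hp0 : 0 ≤ pc := by
    have h1 := h.c0
    have h2 := h.cp
    linarith
  have hK0 : 0 < K1 := lt_of_lt_of_le one_pos hK1
  set A : ℝ := 4 * d * 4 ^ (2 * d) / b with hA
  have hA0 : 0 < A := by positivity
  have hAK : 1 ≤ K1 * (A + 3 ^ d) := by
    have h1 : (1 : ℝ) ≤ 3 ^ d := one_le_pow₀ (by norm_num)
    have h2 : (1 : ℝ) ≤ A + 3 ^ d := by linarith
    nlinarith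
  refine ⟨K1 * (A + 3 ^ d), hAK, fun l n m R o ho hm hmR hRn => ?_⟩
  have hR0 : (0 : ℝ) < R := by
    have : 0 < R := by omega
    exact_mod_cast this
  have hR2 : (2 : ℝ) ≤ R := by
    have : 2 ≤ R := by omega
    exact_mod_cast this
  have hm1 : (1 : ℝ) ≤ m := by exact_mod_cast hm
  have hm0 : (0 : ℝ) < m := by linarith
  have hon : In o n := fun i => by
    have := ho i
    omega
  have hbe : 0 ≤ be d n pc := hb0.le.trans (hb n (by omega))
  set B := be d n pc with hB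
  -- the three sums
  have e1 : ∑ u ∈ Sp o n, ∑ w ∈ Sp u (R + 1), rs (gends (boxG d l)) (Qs o n) pc o w ≤ A * (R : ℝ) ^ (2 * d + 1) * B := by
    have h2 : ∑ u ∈ Sp o n, ∑ w ∈ Sp u (R + 1), rs (gends (boxG d l)) (Qs o n) pc o w ≤
        ∑ u ∈ Sp o n, ∑ w ∈ bb u (R + 1), rs (gends (boxG d l)) (Qs o n) pc o w := by
      refine Finset.sum_le_sum fun u _ => ?_
      refine Finset.sum_le_sum_of_subset_of_nonneg ?_ fun w _ _ => rs_nonneg hp0 h.p1.le _ _ _
      intro w hw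
      rw [Sp, Finset.mem_filter] at hw
      rw [bb, Finset.mem_filter]
      exact ⟨Finset.mem_univ _, hw.2.le⟩
    have h3 := G6_sum hd hb0 hb1 hp0 h.p1.le hb hon (R + 1) (by omega) hbe
    refine h2.trans (h3.trans ?_)
    rw [← hB]
    push_cast
    have h4 : (2 * ((R : ℝ) + 1) + 1) ^ d ≤ (4 * (R : ℝ)) ^ d := pow_le_pow_left₀ (by positivity) (by linarith) _
    have h5 : (R : ℝ) + 1 + 1 ≤ 2 * R := by linarith
    calc (2 * ((R : ℝ) + 1) + 1) ^ d * (((R : ℝ) + 1 + 1) * (2 * d * (2 * ((R : ℝ) + 1) + 1) ^ d / b * B)) ≤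
          (4 * (R : ℝ)) ^ d * ((2 * R) * (2 * d * (4 * (R : ℝ)) ^ d / b * B)) := by
          gcongr
      _ = A * (R : ℝ) ^ (2 * d + 1) * B := by
          rw [hA, mul_pow, pow_succ, mul_comm 2 d, pow_mul, pow_mul]
          ring
  have e2 : ∑ u ∈ Sp o n, ∑ w ∈ bb u m, rs (gends (boxG d l)) (Qs o n) pc o w ≤ A * (m : ℝ) ^ (2 * d + 1) * B := by
    have h3 := G6_sum hd hb0 hb1 hp0 h.p1.le hb hon m (by omega) hbe
    refine h3.trans ?_
    rw [← hB]
    have h4 : (2 * (m : ℝ) + 1) ^ d ≤ (4 * (m : ℝ)) ^ d := pow_le_pow_left₀ (by positivity) (by linarith) _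
    have h5 : (m : ℝ) + 1 ≤ 2 * m := by linarith
    calc (2 * (m : ℝ) + 1) ^ d * (((m : ℝ) + 1) * (2 * d * (2 * (m : ℝ) + 1) ^ d / b * B)) ≤
          (4 * (m : ℝ)) ^ d * ((2 * m) * (2 * d * (4 * (m : ℝ)) ^ d / b * B)) := by
          gcongr
      _ = A * (m : ℝ) ^ (2 * d + 1) * B := by
          rw [hA, mul_pow, pow_succ, mul_comm 2 d, pow_mul, pow_mul]
          ring
  have e3 : ∑ u ∈ Sp o n, ∑ _w ∈ bb u m, rs (gends (boxG d l)) (Qs o n) pc o u ≤ 3 ^ d * (m : ℝ) ^ (2 * d + 1) * B := by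
    have h2 : ∀ u ∈ Sp o n, ∑ _w ∈ bb u m, rs (gends (boxG d l)) (Qs o n) pc o u ≤
        3 ^ d * (m : ℝ) ^ (2 * d + 1) * rs (gends (boxG d l)) (Qs o n) pc o u := by
      intro u _
      rw [Finset.sum_const, nsmul_eq_mul]
      refine mul_le_mul_of_nonneg_right ?_ (rs_nonneg hp0 h.p1.le _ _ _)
      refine (G6_bb u m).trans ?_
      calc (2 * (m : ℝ) + 1) ^ d ≤ (3 * (m : ℝ)) ^ d := pow_le_pow_left₀ (by positivity) (by linarith) _
        _ = 3 ^ d * (m : ℝ) ^ d := mul_pow _ _ _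
        _ ≤ 3 ^ d * (m : ℝ) ^ (2 * d + 1) :=
            mul_le_mul_of_nonneg_left (pow_le_pow_right₀ hm1 (by omega)) (by positivity)
    refine (Finset.sum_le_sum h2).trans (le_of_eq ?_)
    rw [← Finset.mul_sum, be_eq hon pc]
  have hmain : II o n m pc ≤ ∑ u ∈ Sp o n, (K1 / (m : ℝ) ^ k * ∑ w ∈ Sp u (R + 1), rs (gends (boxG d l)) (Qs o n) pc o w +
      K1 / R * ∑ a ∈ bb u m, (rs (gends (boxG d l)) (Qs o n) pc o a + rs (gends (boxG d l)) (Qs o n) pc o u)) :=
    Finset.sum_le_sum fun u hu => hpt l n m R o u ho hm hmR hRn hu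
  refine hmain.trans ?_
  have hsplit : ∑ u ∈ Sp o n, (K1 / (m : ℝ) ^ k * ∑ w ∈ Sp u (R + 1), rs (gends (boxG d l)) (Qs o n) pc o w +
      K1 / R * ∑ a ∈ bb u m, (rs (gends (boxG d l)) (Qs o n) pc o a + rs (gends (boxG d l)) (Qs o n) pc o u)) =
      K1 / (m : ℝ) ^ k * (∑ u ∈ Sp o n, ∑ w ∈ Sp u (R + 1), rs (gends (boxG d l)) (Qs o n) pc o w) +
      K1 / R * (∑ u ∈ Sp o n, ∑ w ∈ bb u m, rs (gends (boxG d l)) (Qs o n) pc o w +
        ∑ u ∈ Sp o n, ∑ _w ∈ bb u m, rs (gends (boxG d l)) (Qs o n) pc o u) := by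
    rw [Finset.sum_add_distrib, ← Finset.mul_sum, ← Finset.mul_sum, ← Finset.sum_add_distrib]
    simp only [Finset.sum_add_distrib]
  rw [hsplit]
  calc _ ≤ K1 / (m : ℝ) ^ k * (A * (R : ℝ) ^ (2 * d + 1) * B) +
        K1 / R * (A * (m : ℝ) ^ (2 * d + 1) * B + 3 ^ d * (m : ℝ) ^ (2 * d + 1) * B) := by
        gcongr
    _ ≤ K1 / (m : ℝ) ^ k * ((A + 3 ^ d) * (R : ℝ) ^ (2 * d + 1) * B) +
        K1 / R * (A * (m : ℝ) ^ (2 * d + 1) * B + 3 ^ d * (m : ℝ) ^ (2 * d + 1) * B) := by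
        gcongr
        have : (0 : ℝ) ≤ 3 ^ d := by positivity
        linarith
    _ = _ := by ring

/-- Row G7. `k = (2d+3)(2d+1) + 2`, `R = m^(2d+3)` (`≥ 2 m` for `m ≥ 2`). If `R < n`: `irr_small` gives `2 K m^(-2) be`. If `n ≤ R`: `irr_big`: `K n^d / m^k ≤ K m^(-2) ≤ (K/b) m^(-2) be`. Sum over `m ≥ m0`: `∑ 1/m² ≤ 2/m0` (`tail_two`). -/
theorem irr_sum (C c pc : ℝ) (h : GH d C c pc) (b : ℝ) (hb0 : 0 < b) (hb1 : b ≤ 1) (hb : ∀ n : ℕ, 1 ≤ n → b ≤ be d n pc) :
    ∃ K : ℝ, 1 ≤ K ∧ ∀ (l n m0 M : ℕ) (o : Fin d → Fin l), In o (2 * n) → 1 ≤ n → 2 ≤ m0 →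
      ∑ m ∈ Finset.Ico m0 M, II o n m pc ≤ K / m0 * be d n pc := by
  obtain ⟨K1, hK1, h1⟩ := irr_small C c pc h b hb0 hb1 hb ((2 * d + 3) * (2 * d + 1) + 2) (by omega)
  obtain ⟨K2, hK2, h2⟩ := irr_big C c pc h ((2 * d + 3) * (2 * d + 1) + 2) (by omega)
  have hK2b : 0 < K2 / b := div_pos (by linarith) hb0
  refine ⟨8 * (2 * K1 + K2 / b), by linarith, ?_⟩
  intro l n m0 M o ho hn hm0
  have hbe : b ≤ be d n pc := hb n hn
  have hbe0 : 0 < be d n pc := hb0.trans_le hbe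
  have key : ∀ m ∈ Finset.Ico m0 M, II o n m pc ≤
      (2 * K1 + K2 / b) * be d n pc * (4 * (1 / ((m : ℝ) + 1) ^ 2)) := by
    intro m hm
    have hm2 : 2 ≤ m := hm0.trans (Finset.mem_Ico.1 hm).1
    have hmR : (2 : ℝ) ≤ (m : ℝ) := by exact_mod_cast hm2
    have hm0' : (0 : ℝ) < (m : ℝ) := by linarith
    have hsq : 1 / (m : ℝ) ^ 2 ≤ 4 * (1 / ((m : ℝ) + 1) ^ 2) := by
      rw [mul_one_div, div_le_div_iff₀ (by positivity) (by positivity)]
      nlinarith
    have hmain : II o n m pc ≤ (2 * K1 + K2 / b) * be d n pc * (1 / (m : ℝ) ^ 2) := by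
      by_cases hR : m ^ (2 * d + 3) < n
      · have hR2 : 2 * m ≤ m ^ (2 * d + 3) := by
          calc 2 * m ≤ m * m := Nat.mul_le_mul_right m hm2
            _ = m ^ 2 := (sq m).symm
            _ ≤ m ^ (2 * d + 3) := Nat.pow_le_pow_right (by omega) (by omega)
        have h3 := h1 l n m (m ^ (2 * d + 3)) o ho (by omega) hR2 hR
        have e1 : (((m ^ (2 * d + 3) : ℕ) : ℝ)) ^ (2 * d + 1) / (m : ℝ) ^ ((2 * d + 3) * (2 * d + 1) + 2) =
            1 / (m : ℝ) ^ 2 := by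
          have e3 : (m : ℝ) ^ ((2 * d + 3) * (2 * d + 1)) ≠ 0 := (pow_pos hm0' _).ne'
          rw [Nat.cast_pow, ← pow_mul, pow_add (m : ℝ) ((2 * d + 3) * (2 * d + 1)) 2, div_mul_eq_div_div,
            div_self e3]
        have e2 : (m : ℝ) ^ (2 * d + 1) / (((m ^ (2 * d + 3) : ℕ) : ℝ)) = 1 / (m : ℝ) ^ 2 := by
          have e3 : (m : ℝ) ^ (2 * d + 1) ≠ 0 := (pow_pos hm0' _).ne'
          have e4 : 2 * d + 3 = (2 * d + 1) + 2 := by ring
          rw [Nat.cast_pow, e4, pow_add (m : ℝ) (2 * d + 1) 2, div_mul_eq_div_div, div_self e3]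
        rw [e1, e2] at h3
        refine h3.trans ?_
        have h5 : 0 ≤ K2 / b * be d n pc * (1 / (m : ℝ) ^ 2) := by positivity
        calc K1 * (1 / (m : ℝ) ^ 2 + 1 / (m : ℝ) ^ 2) * be d n pc
            = 2 * K1 * be d n pc * (1 / (m : ℝ) ^ 2) := by ring
          _ ≤ 2 * K1 * be d n pc * (1 / (m : ℝ) ^ 2) + K2 / b * be d n pc * (1 / (m : ℝ) ^ 2) := by linarith
          _ = (2 * K1 + K2 / b) * be d n pc * (1 / (m : ℝ) ^ 2) := by ring
      · have hnR : n ≤ m ^ (2 * d + 3) := by omega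
        have h3 := h2 l n m o hn (by omega)
        have h4 : (n : ℝ) ^ d ≤ (m : ℝ) ^ ((2 * d + 3) * (2 * d + 1)) := by
          have h5 : n ^ d ≤ m ^ ((2 * d + 3) * (2 * d + 1)) := by
            calc n ^ d ≤ (m ^ (2 * d + 3)) ^ d := Nat.pow_le_pow_left hnR d
              _ = m ^ ((2 * d + 3) * d) := (pow_mul m (2 * d + 3) d).symm
              _ ≤ m ^ ((2 * d + 3) * (2 * d + 1)) :=
                Nat.pow_le_pow_right (by omega) (Nat.mul_le_mul_left _ (by omega))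
          exact_mod_cast h5
        have e3 : (0 : ℝ) < (m : ℝ) ^ ((2 * d + 3) * (2 * d + 1)) := pow_pos hm0' _
        have h6 : K2 * (n : ℝ) ^ d / (m : ℝ) ^ ((2 * d + 3) * (2 * d + 1) + 2) ≤ K2 * (1 / (m : ℝ) ^ 2) := by
          rw [mul_div_assoc]
          refine mul_le_mul_of_nonneg_left ?_ (by linarith)
          rw [pow_add (m : ℝ) ((2 * d + 3) * (2 * d + 1)) 2, div_mul_eq_div_div]
          refine div_le_div_of_nonneg_right ?_ (by positivity)
          rw [div_le_one e3]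
          exact h4
        have h7 : K2 * (1 / (m : ℝ) ^ 2) ≤ K2 / b * be d n pc * (1 / (m : ℝ) ^ 2) := by
          refine mul_le_mul_of_nonneg_right ?_ (by positivity)
          have h8 : K2 / b * b ≤ K2 / b * be d n pc := mul_le_mul_of_nonneg_left hbe hK2b.le
          rwa [div_mul_cancel₀ K2 hb0.ne'] at h8
        have h5 : 0 ≤ 2 * K1 * be d n pc * (1 / (m : ℝ) ^ 2) := by positivity
        calc II o n m pc ≤ K2 / b * be d n pc * (1 / (m : ℝ) ^ 2) := h3.trans (h6.trans h7)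
          _ ≤ 2 * K1 * be d n pc * (1 / (m : ℝ) ^ 2) + K2 / b * be d n pc * (1 / (m : ℝ) ^ 2) := by linarith
          _ = (2 * K1 + K2 / b) * be d n pc * (1 / (m : ℝ) ^ 2) := by ring
    exact hmain.trans (mul_le_mul_of_nonneg_left hsq (by positivity))
  refine (Finset.sum_le_sum key).trans ?_
  rw [← Finset.mul_sum, ← Finset.mul_sum]
  have hm0R : (2 : ℝ) ≤ (m0 : ℝ) := by exact_mod_cast hm0
  have h9 : ∑ k ∈ Finset.Ico m0 M, 1 / ((k : ℝ) + 1) ^ 2 ≤ 2 / (m0 : ℝ) :=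
    (tail_two m0 M).trans (div_le_div_of_nonneg_left (by norm_num) (by linarith) (by linarith))
  have h10 : 0 ≤ (2 * K1 + K2 / b) * be d n pc := by positivity
  calc (2 * K1 + K2 / b) * be d n pc * (4 * ∑ k ∈ Finset.Ico m0 M, 1 / ((k : ℝ) + 1) ^ 2)
      ≤ (2 * K1 + K2 / b) * be d n pc * (4 * (2 / (m0 : ℝ))) :=
        mul_le_mul_of_nonneg_left (mul_le_mul_of_nonneg_left h9 (by norm_num)) h10
    _ = 8 * (2 * K1 + K2 / b) / m0 * be d n pc := by ring

/-- Row G8. `Irr` is increasing in `ω` (`cl_mono`), `Ex_mono_p`. -/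
theorem II_mono {l : ℕ} {p q : ℝ} (h0 : 0 ≤ p) (hpq : p ≤ q) (h1 : q ≤ 1) (o : Fin d → Fin l) (n m : ℕ) : II o n m p ≤ II o n m q := by
  classical
  unfold II
  refine Finset.sum_le_sum fun u _ => ?_
  refine DZ.Ex_mono_p h0 hpq h1 _ fun ω ω' hω => ?_
  have hsub : cl (gends (boxG d l)) ω (Qs o n) o ⊆ cl (gends (boxG d l)) ω' (Qs o n) o := cl_mono hω le_rfl
  have himp : Irr o n u m ω → Irr o n u m ω' := by
    rintro ⟨h2, h3⟩
    refine ⟨hsub h2, h3.trans_le ?_⟩
    refine pow_le_pow_left₀ (Nat.cast_nonneg _) ?_ 2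
    exact_mod_cast Finset.card_le_card (Finset.inter_subset_inter_right hsub)
  by_cases hI : Irr o n u m ω
  · rw [if_pos hI, if_pos (himp hI)]
  · rw [if_neg hI]
    split_ifs <;> norm_num

/-- Row G8. `be_eq` and `Ex_sum`. -/
theorem be_card {l n : ℕ} {o : Fin d → Fin l} (ho : In o n) (p : ℝ) :
    Ex p (fun ω => ((cl (gends (boxG d l)) ω (Qs o n) o ∩ Sp o n).card : ℝ)) = be d n p := by
  classical
  rw [← be_eq ho p]
  unfold rs
  rw [← Ex_sum]
  refine Ex_congr fun ω => ?_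
  rw [Finset.sum_boole, Finset.filter_mem_eq_inter, Finset.inter_comm]

/-- Row G8. Pointwise: a vertex of `A ∩ Sp o n` (`A = cl ω (Qs o n) o`) not in `RG` has some `m ≥ m0` with `m^9 < card (A ∩ bb u m)²`; for `m > 2 n` one has `A ∩ bb u m ⊆ A ∩ bb u (2n)`, so one may take `m ≤ 2 n`: `Irr o n u m ω` for some `m ∈ Ico m0 (2n+1)`. -/
theorem reg_count {l : ℕ} {p : ℝ} (h0 : 0 ≤ p) (h1 : p ≤ 1) (o : Fin d → Fin l) (n m0 : ℕ) (hm0 : m0 ≤ 2 * n) :
    Ex p (fun ω => ((cl (gends (boxG d l)) ω (Qs o n) o ∩ Sp o n).card : ℝ)) ≤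
      Ex p (fun ω => ((RG m0 o n (cl (gends (boxG d l)) ω (Qs o n) o)).card : ℝ)) + ∑ m ∈ Finset.Ico m0 (2 * n + 1), II o n m p := by
  classical
  have hII : ∑ m ∈ Finset.Ico m0 (2 * n + 1), II o n m p =
      Ex p (fun ω => ∑ m ∈ Finset.Ico m0 (2 * n + 1), ∑ u ∈ Sp o n, (if Irr o n u m ω then (1 : ℝ) else 0)) := by
    rw [Ex_sum]
    refine Finset.sum_congr rfl fun m _ => ?_
    unfold II
    rw [Ex_sum]
  rw [hII, ← Ex_add]
  refine Ex_mono h0 h1 fun ω => ?_
  obtain ⟨A, hA⟩ : ∃ A : Finset (Fin d → Fin l), A = cl (gends (boxG d l)) ω (Qs o n) o := ⟨_, rfl⟩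
  have hoo : o ∈ Qs o n := by
    show nd o o ≤ n
    have : nd o o = 0 := by simp [nd]
    omega
  have hAQ : ∀ x ∈ A, nd o x ≤ n := by
    intro x hx
    rw [hA, mem_cl] at hx
    exact (show x ∈ Qs o n from Rch.mem' hoo hx)
  rw [← hA]
  have hsplit : ((A ∩ Sp o n).card : ℝ) = ((RG m0 o n A).card : ℝ) +
      (((A ∩ Sp o n).filter (fun u => ¬ ∀ m : ℕ, m0 ≤ m → (((A ∩ bb u m).card : ℕ) : ℝ) ^ 2 ≤ (m : ℝ) ^ 9)).card : ℝ) := by
    have e1 := Finset.card_filter_add_card_filter_not (s := A ∩ Sp o n)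
      (fun u => ∀ m : ℕ, m0 ≤ m → (((A ∩ bb u m).card : ℕ) : ℝ) ^ 2 ≤ (m : ℝ) ^ 9)
    have e2 : RG m0 o n A = (A ∩ Sp o n).filter
        (fun u => ∀ m : ℕ, m0 ≤ m → (((A ∩ bb u m).card : ℕ) : ℝ) ^ 2 ≤ (m : ℝ) ^ 9) := by
      unfold RG
      ext u
      simp only [Finset.mem_filter]
    rw [e2, ← e1]
    push_cast
    rfl
  rw [hsplit]
  refine add_le_add le_rfl ?_
  have hB : (((A ∩ Sp o n).filter (fun u => ¬ ∀ m : ℕ, m0 ≤ m → (((A ∩ bb u m).card : ℕ) : ℝ) ^ 2 ≤ (m : ℝ) ^ 9)).card : ℝ) =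
      ∑ u ∈ Sp o n, (if u ∈ (A ∩ Sp o n).filter (fun u => ¬ ∀ m : ℕ, m0 ≤ m → (((A ∩ bb u m).card : ℕ) : ℝ) ^ 2 ≤ (m : ℝ) ^ 9) then (1 : ℝ) else 0) := by
    rw [Finset.sum_boole]
    congr 2
    ext u
    simp only [Finset.mem_filter, Finset.mem_inter]
    tauto
  rw [hB, Finset.sum_comm]
  refine Finset.sum_le_sum fun u hu => ?_
  have hnonneg : ∀ m ∈ Finset.Ico m0 (2 * n + 1), (0 : ℝ) ≤ (if Irr o n u m ω then (1 : ℝ) else 0) := by
    intro m _
    split_ifs <;> norm_num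
  split_ifs with hmem
  · rw [Finset.mem_filter, Finset.mem_inter] at hmem
    obtain ⟨⟨huA, huS⟩, hn⟩ := hmem
    push Not at hn
    obtain ⟨m, hm0', hm⟩ := hn
    have hun : nd o u = n := (Finset.mem_filter.mp huS).2
    have key : ∃ m' ∈ Finset.Ico m0 (2 * n + 1), Irr o n u m' ω := by
      rcases le_or_gt m (2 * n) with h2 | h2
      · refine ⟨m, Finset.mem_Ico.mpr ⟨hm0', by omega⟩, ?_, ?_⟩
        · rw [← hA]; exact huA
        · rw [← hA]; exact hm
      · refine ⟨2 * n, Finset.mem_Ico.mpr ⟨hm0, by omega⟩, ?_, ?_⟩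
        · rw [← hA]; exact huA
        · rw [← hA]
          have e1 : A ∩ bb u m ⊆ A ∩ bb u (2 * n) := by
            intro x hx
            rw [Finset.mem_inter] at hx ⊢
            refine ⟨hx.1, ?_⟩
            refine Finset.mem_filter.mpr ⟨Finset.mem_univ _, ?_⟩
            have e2 := nd_tri u o x
            have e3 := hAQ x hx.1
            rw [nd_symm u o, hun] at e2
            omega
          have e4 : (((2 * n : ℕ)) : ℝ) ^ 9 ≤ (m : ℝ) ^ 9 :=
            pow_le_pow_left₀ (Nat.cast_nonneg _) (by exact_mod_cast h2.le) 9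
          have e5 : (((A ∩ bb u m).card : ℕ) : ℝ) ^ 2 ≤ (((A ∩ bb u (2 * n)).card : ℕ) : ℝ) ^ 2 :=
            pow_le_pow_left₀ (Nat.cast_nonneg _) (by exact_mod_cast Finset.card_le_card e1) 2
          exact lt_of_le_of_lt e4 (lt_of_lt_of_le hm e5)
    obtain ⟨m', hm', hI⟩ := key
    have e6 := Finset.single_le_sum hnonneg hm'
    rw [if_pos hI] at e6
    exact e6
  · exact Finset.sum_nonneg hnonneg
end Pool.Agent.PERC29.GU
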