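import Pool.Agent.Lib.MP_29e17e_pr.G.Tr

set_option autoImplicit false
set_option linter.unusedSectionVars false

/-! Rows 29g-M1 .. M4: the moments of the number of vertices of a ball in a cluster. -/

open Finset

namespace Pool.Agent.PERC29.GU

open Pool.Agent.PERC29 Pool.Agent.PERC29.AE Pool.Agent.PERC29.QQ

variable {d l : ℕ}

/-- Row M1. `GH.U` with the exponential dropped, and for `s = 0`. -/
theorem GH.U0 {C c pc : ℝ} (h : GH d C c pc) (l : ℕ) (x y : Fin d → Fin l) (s : ℝ) (hs : 0 ≤ s) (hsc : s ≤ c) :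
    ta (gends (boxG d l)) (pc - s) x y ≤ C * fk (d - 2) x y := by
  have h1 := h.U l x y s hs hsc
  refine h1.trans (mul_le_mul_of_nonneg_left ?_ (by linarith [h.C1]))
  unfold ek
  refine mul_le_of_le_one_right (by unfold fk; positivity) ?_
  rw [Real.exp_le_one_iff]
  have : 0 ≤ c * Real.sqrt s * (nd x y : ℝ) := by
    have := h.c0
    positivity
  linarith

theorem GH.Up {C c pc : ℝ} (h : GH d C c pc) (l : ℕ) (x y : Fin d → Fin l) :
    ta (gends (boxG d l)) pc x y ≤ C * fk (d - 2) x y := by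
  have := h.U0 l x y 0 le_rfl h.c0.le
  rwa [sub_zero] at this

theorem GH.p0 {C c pc : ℝ} (h : GH d C c pc) : 0 < pc := by
  have := h.c0
  have := h.cp
  linarith

private theorem M2_card (hd : 1 ≤ d) (c : Fin d → Fin l) (m : ℕ) :
    ((bb c m).card : ℝ) ≤ (d * 2 ^ d : ℝ) * ((m : ℝ) + 1) ^ d := by
  have h := shell_sum hd c (fun k => if k ≤ m then (1 : ℝ) else 0) (fun k => by
    split_ifs <;> norm_num)
  have h1 : ((bb c m).card : ℝ) = ∑ y, (if nd c y ≤ m then (1 : ℝ) else 0) := by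
    unfold bb
    rw [Finset.sum_boole]
  rw [h1]
  refine le_trans (le_of_eq rfl) (h.trans ?_)
  refine mul_le_mul_of_nonneg_left ?_ (by positivity)
  have h2 : ∀ k ∈ Finset.range l, ((k : ℝ) + 1) ^ (d - 1) * (if k ≤ m then (1 : ℝ) else 0) ≤
      if k ∈ Finset.range (m + 1) then ((m : ℝ) + 1) ^ (d - 1) else 0 := by
    intro k _
    by_cases hk : k ≤ m
    · rw [if_pos hk, if_pos (Finset.mem_range.mpr (by omega)), mul_one]
      have h3 : (k : ℝ) ≤ (m : ℝ) := by exact_mod_cast hk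
      exact pow_le_pow_left₀ (by positivity) (by linarith) _
    · rw [if_neg hk, mul_zero]
      split_ifs
      · positivity
      · exact le_rfl
  refine (Finset.sum_le_sum h2).trans ?_
  rw [← Finset.sum_filter, Finset.sum_const, nsmul_eq_mul]
  have h4 : (((Finset.range l).filter (fun k => k ∈ Finset.range (m + 1))).card : ℝ) ≤ (m : ℝ) + 1 := by
    have h5 : ((Finset.range l).filter (fun k => k ∈ Finset.range (m + 1))).card ≤
        (Finset.range (m + 1)).card := Finset.card_le_card (fun k hk => (Finset.mem_filter.mp hk).2)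
    rw [Finset.card_range] at h5
    exact_mod_cast h5
  calc _ ≤ ((m : ℝ) + 1) * ((m : ℝ) + 1) ^ (d - 1) :=
        mul_le_mul_of_nonneg_right h4 (by positivity)
    _ = ((m : ℝ) + 1) ^ d := by
        rw [← pow_succ']
        congr 1
        omega

/-- Row M2. `∑_{y ∈ bb c m} fk (d-2) x y ≤ K m² hk m c x`, `K` depends only on `d`. If `nd c x ≤ 2 m`: all `y` have `nd x y ≤ 3 m`, `near_f` (sum at most `K m²`) and `hk ≥ 3^(-(d-2))`.
If `nd c x > 2 m`: `nd x y ≥ nd c x / 2`, the ball has at most `(2 m + 1)^d` vertices, and `(3 m)^d / (nd c x / 2)^(d-2) ≤ K m² (m / nd c x)^(d-2)`. -/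
theorem hk_base (d : ℕ) (hd : 5 ≤ d) : ∃ K : ℝ, 1 ≤ K ∧ ∀ (l m : ℕ) (c x : Fin d → Fin l), 1 ≤ m →
    ∑ y ∈ bb c m, fk (d - 2) x y ≤ K * (m : ℝ) ^ 2 * hk m c x := by
  refine ⟨16 * (d : ℝ) * 4 ^ d * 3 ^ (d - 2), ?_, ?_⟩
  · have h1 : (1 : ℝ) ≤ (d : ℝ) := by exact_mod_cast (by omega : 1 ≤ d)
    have h2 : (1 : ℝ) ≤ 4 ^ d := one_le_pow₀ (by norm_num)
    have h3 : (1 : ℝ) ≤ 3 ^ (d - 2) := one_le_pow₀ (by norm_num)
    have h4 : (1 : ℝ) ≤ 16 * (d : ℝ) := by linarith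
    exact one_le_mul_of_one_le_of_one_le (one_le_mul_of_one_le_of_one_le h4 h2) h3
  intro l m c x hm
  have hm0 : (0 : ℝ) < (m : ℝ) := by exact_mod_cast hm
  have hm1 : (1 : ℝ) ≤ (m : ℝ) := by exact_mod_cast hm
  have hd0 : (0 : ℝ) ≤ (d : ℝ) := by positivity
  have hhk : hk m c x = (m : ℝ) ^ (d - 2) / ((m : ℝ) + (nd c x : ℝ)) ^ (d - 2) := by
    unfold hk
    have h1 : 1 + (nd c x : ℝ) / m = ((m : ℝ) + (nd c x : ℝ)) / m := by field_simp
    rw [h1, div_pow, one_div_div]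
  have hhk0 : 0 ≤ hk m c x := by
    rw [hhk]
    positivity
  have hmem : ∀ y ∈ bb c m, nd c y ≤ m := fun y hy => (Finset.mem_filter.1 hy).2
  have h24 : (2 : ℝ) ^ d ≤ 4 ^ d := pow_le_pow_left₀ (by norm_num) (by norm_num) _
  by_cases hc : nd c x ≤ 2 * m
  · have h1 : ∑ y ∈ bb c m, fk (d - 2) x y ≤
        ∑ z, (if 1 + nd x z ≤ 2 * (2 * m) then fk (d - 2) x z else 0) := by
      rw [← Finset.sum_filter]
      refine Finset.sum_le_sum_of_subset_of_nonneg ?_ (fun y _ _ => by unfold fk; positivity)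
      intro y hy
      rw [Finset.mem_filter]
      refine ⟨Finset.mem_univ _, ?_⟩
      have h2 := hmem y hy
      have h3 := nd_tri x c y
      have h4 := nd_symm x c
      omega
    have h2 := near_f (by omega : 2 ≤ d) x (2 * m)
    have h3 : (1 : ℝ) ≤ 3 ^ (d - 2) * hk m c x := by
      rw [hhk, ← mul_div_assoc, ← mul_pow, one_le_div (by positivity)]
      refine pow_le_pow_left₀ (by positivity) ?_ _
      have : (nd c x : ℝ) ≤ 2 * m := by exact_mod_cast hc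
      linarith
    calc ∑ y ∈ bb c m, fk (d - 2) x y ≤ (d * 2 ^ d : ℝ) * (4 * (((2 * m : ℕ) : ℝ)) ^ 2) := h1.trans h2
      _ = (d : ℝ) * 2 ^ d * (16 * (m : ℝ) ^ 2) * 1 := by push_cast; ring
      _ ≤ (d : ℝ) * 4 ^ d * (16 * (m : ℝ) ^ 2) * (3 ^ (d - 2) * hk m c x) := by
          gcongr
      _ = _ := by ring
  · have hc' : 2 * m < nd c x := not_le.1 hc
    have h1 : ∀ y ∈ bb c m, fk (d - 2) x y ≤ 3 ^ (d - 2) / (m : ℝ) ^ (d - 2) * hk m c x := by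
      intro y hy
      have h2 := hmem y hy
      have h3 := nd_tri c y x
      have h4 := nd_symm x y
      have h5 : m + nd c x ≤ 3 * (1 + nd x y) := by omega
      have h6 : (m : ℝ) + (nd c x : ℝ) ≤ 3 * (1 + (nd x y : ℝ)) := by exact_mod_cast h5
      have h7 : (0 : ℝ) < (m : ℝ) + (nd c x : ℝ) := by positivity
      have h8 : (3 : ℝ) ^ (d - 2) / (m : ℝ) ^ (d - 2) * hk m c x =
          3 ^ (d - 2) / ((m : ℝ) + (nd c x : ℝ)) ^ (d - 2) := by
        rw [hhk]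
        field_simp
      rw [h8]
      unfold fk
      rw [div_le_div_iff₀ (by positivity) (by positivity), one_mul, ← mul_pow]
      exact pow_le_pow_left₀ h7.le h6 _
    have h2 := M2_card (by omega : 1 ≤ d) c m
    have h3 : ((m : ℝ) + 1) ^ d ≤ 2 ^ d * ((m : ℝ) ^ (d - 2) * (m : ℝ) ^ 2) := by
      have h4 : ((m : ℝ) + 1) ^ d ≤ (2 * (m : ℝ)) ^ d := pow_le_pow_left₀ (by positivity) (by linarith) _
      have h5 : (m : ℝ) ^ (d - 2) * (m : ℝ) ^ 2 = (m : ℝ) ^ d := by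
        rw [← pow_add]
        congr 1
        omega
      rw [h5, ← mul_pow]
      exact h4
    have h6 : (2 : ℝ) ^ d * 2 ^ d = 4 ^ d := by
      rw [← mul_pow]
      norm_num
    have hmp : (0 : ℝ) < (m : ℝ) ^ (d - 2) := by positivity
    calc ∑ y ∈ bb c m, fk (d - 2) x y
        ≤ ∑ _y ∈ bb c m, 3 ^ (d - 2) / (m : ℝ) ^ (d - 2) * hk m c x := Finset.sum_le_sum h1
      _ = ((bb c m).card : ℝ) * (3 ^ (d - 2) / (m : ℝ) ^ (d - 2) * hk m c x) := by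
          rw [Finset.sum_const, nsmul_eq_mul]
      _ ≤ (d * 2 ^ d : ℝ) * (2 ^ d * ((m : ℝ) ^ (d - 2) * (m : ℝ) ^ 2)) *
            (3 ^ (d - 2) / (m : ℝ) ^ (d - 2) * hk m c x) := by
          refine mul_le_mul_of_nonneg_right (h2.trans ?_) (by positivity)
          exact mul_le_mul_of_nonneg_left h3 (by positivity)
      _ = 1 * ((d : ℝ) * 4 ^ d * 3 ^ (d - 2) * (m : ℝ) ^ 2 * hk m c x) := by
          rw [← h6]
          field_simp
      _ ≤ 16 * ((d : ℝ) * 4 ^ d * 3 ^ (d - 2) * (m : ℝ) ^ 2 * hk m c x) := by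
          refine mul_le_mul_of_nonneg_right (by norm_num) (by positivity)
      _ = _ := by ring

private lemma M3_inv (e p q t : ℕ) (hp : 1 ≤ p) (h : p ≤ t * q) :
    1 / (q : ℝ) ^ e ≤ (t : ℝ) ^ e / (p : ℝ) ^ e := by
  have hq : 1 ≤ q := by
    rcases Nat.eq_zero_or_pos q with h0 | h0
    · rw [h0, mul_zero] at h
      omega
    · exact h0
  have hp0 : (0 : ℝ) < (p : ℝ) := by exact_mod_cast hp
  have hq0 : (0 : ℝ) < (q : ℝ) := by exact_mod_cast hq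
  rw [div_le_div_iff₀ (by positivity) (by positivity), one_mul, ← mul_pow]
  refine pow_le_pow_left₀ hp0.le ?_ e
  exact_mod_cast h

private lemma M3_pt (e a b R m : ℕ) (ha : 1 ≤ a) (hm : 1 ≤ m) (hb : m ≤ b) (hR : m ≤ R)
    (h1 : R + 1 ≤ a + b) :
    1 / (a : ℝ) ^ e * ((m : ℝ) ^ e / (b : ℝ) ^ e) ^ 2 ≤
      4 ^ e * ((m : ℝ) ^ e / (R : ℝ) ^ e) * (if a ≤ 2 * m then 1 / (a : ℝ) ^ e else 0) +
      8 ^ e * ((m : ℝ) ^ e / (R : ℝ) ^ e) * (m : ℝ) ^ e * (if 2 * m < a then (1 / (a : ℝ) ^ e) ^ 2 else 0) +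
      2 ^ e / (R : ℝ) ^ e * ((m : ℝ) ^ e / (b : ℝ) ^ e) ^ 2 := by
  have ha0 : (0 : ℝ) < (a : ℝ) := by exact_mod_cast ha
  have hm0 : (0 : ℝ) < (m : ℝ) := by exact_mod_cast hm
  have hb0 : (0 : ℝ) < (b : ℝ) := by exact_mod_cast (by omega : 0 < b)
  have hR0 : (0 : ℝ) < (R : ℝ) := by exact_mod_cast (by omega : 0 < R)
  have hA : (0 : ℝ) < 1 / (a : ℝ) ^ e := by positivity
  have hB : (0 : ℝ) < (m : ℝ) ^ e / (b : ℝ) ^ e := by positivity
  have hX : (0 : ℝ) < (m : ℝ) ^ e / (R : ℝ) ^ e := by positivity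
  have hB1 : (m : ℝ) ^ e / (b : ℝ) ^ e ≤ 1 := by
    rw [div_le_one (by positivity)]
    exact pow_le_pow_left₀ hm0.le (by exact_mod_cast hb) e
  have p1 : (0 : ℝ) ≤ 4 ^ e * ((m : ℝ) ^ e / (R : ℝ) ^ e) * (if a ≤ 2 * m then 1 / (a : ℝ) ^ e else 0) := by
    split_ifs
    · positivity
    · simp
  have p2 : (0 : ℝ) ≤ 8 ^ e * ((m : ℝ) ^ e / (R : ℝ) ^ e) * (m : ℝ) ^ e *
      (if 2 * m < a then (1 / (a : ℝ) ^ e) ^ 2 else 0) := by
    split_ifs
    · positivity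
    · simp
  have p3 : (0 : ℝ) ≤ 2 ^ e / (R : ℝ) ^ e * ((m : ℝ) ^ e / (b : ℝ) ^ e) ^ 2 := by positivity
  have key : R ≤ 4 * b → (m : ℝ) ^ e / (b : ℝ) ^ e ≤ 4 ^ e * ((m : ℝ) ^ e / (R : ℝ) ^ e) := by
    intro h4
    have q := M3_inv e R b 4 (by omega) h4
    calc (m : ℝ) ^ e / (b : ℝ) ^ e = (m : ℝ) ^ e * (1 / (b : ℝ) ^ e) := by ring
      _ ≤ (m : ℝ) ^ e * (((4 : ℕ) : ℝ) ^ e / (R : ℝ) ^ e) := mul_le_mul_of_nonneg_left q (by positivity)
      _ = 4 ^ e * ((m : ℝ) ^ e / (R : ℝ) ^ e) := by push_cast; ring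
  by_cases c1 : a ≤ 2 * m
  · have q1 : 1 / (a : ℝ) ^ e * ((m : ℝ) ^ e / (b : ℝ) ^ e) ^ 2 ≤
        4 ^ e * ((m : ℝ) ^ e / (R : ℝ) ^ e) * (if a ≤ 2 * m then 1 / (a : ℝ) ^ e else 0) := by
      rw [if_pos c1]
      have q2 := key (by omega)
      have q3 : ((m : ℝ) ^ e / (b : ℝ) ^ e) ^ 2 ≤ (m : ℝ) ^ e / (b : ℝ) ^ e := by
        rw [sq]
        exact mul_le_of_le_one_right hB.le hB1
      calc 1 / (a : ℝ) ^ e * ((m : ℝ) ^ e / (b : ℝ) ^ e) ^ 2
          ≤ 1 / (a : ℝ) ^ e * (4 ^ e * ((m : ℝ) ^ e / (R : ℝ) ^ e)) :=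
            mul_le_mul_of_nonneg_left (q3.trans q2) hA.le
        _ = 4 ^ e * ((m : ℝ) ^ e / (R : ℝ) ^ e) * (1 / (a : ℝ) ^ e) := by ring
    linarith
  by_cases c2 : a ≤ 2 * b
  · have q1 : 1 / (a : ℝ) ^ e * ((m : ℝ) ^ e / (b : ℝ) ^ e) ^ 2 ≤
        8 ^ e * ((m : ℝ) ^ e / (R : ℝ) ^ e) * (m : ℝ) ^ e *
          (if 2 * m < a then (1 / (a : ℝ) ^ e) ^ 2 else 0) := by
      rw [if_pos (by omega)]
      have q2 := key (by omega)
      have q3 : (m : ℝ) ^ e / (b : ℝ) ^ e ≤ (m : ℝ) ^ e * (2 ^ e * (1 / (a : ℝ) ^ e)) := by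
        have q4 := M3_inv e a b 2 ha c2
        calc (m : ℝ) ^ e / (b : ℝ) ^ e = (m : ℝ) ^ e * (1 / (b : ℝ) ^ e) := by ring
          _ ≤ (m : ℝ) ^ e * (((2 : ℕ) : ℝ) ^ e / (a : ℝ) ^ e) := mul_le_mul_of_nonneg_left q4 (by positivity)
          _ = (m : ℝ) ^ e * (2 ^ e * (1 / (a : ℝ) ^ e)) := by push_cast; ring
      have q5 : ((m : ℝ) ^ e / (b : ℝ) ^ e) ^ 2 ≤
          4 ^ e * ((m : ℝ) ^ e / (R : ℝ) ^ e) * ((m : ℝ) ^ e * (2 ^ e * (1 / (a : ℝ) ^ e))) := by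
        rw [sq]
        exact mul_le_mul q2 q3 hB.le (by positivity)
      have q6 : (8 : ℝ) ^ e = 4 ^ e * 2 ^ e := by
        rw [← mul_pow]
        norm_num
      calc 1 / (a : ℝ) ^ e * ((m : ℝ) ^ e / (b : ℝ) ^ e) ^ 2
          ≤ 1 / (a : ℝ) ^ e * (4 ^ e * ((m : ℝ) ^ e / (R : ℝ) ^ e) *
            ((m : ℝ) ^ e * (2 ^ e * (1 / (a : ℝ) ^ e)))) := mul_le_mul_of_nonneg_left q5 hA.le
        _ = 8 ^ e * ((m : ℝ) ^ e / (R : ℝ) ^ e) * (m : ℝ) ^ e * (1 / (a : ℝ) ^ e) ^ 2 := by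
            rw [q6]
            ring
    linarith
  · have q1 : 1 / (a : ℝ) ^ e * ((m : ℝ) ^ e / (b : ℝ) ^ e) ^ 2 ≤
        2 ^ e / (R : ℝ) ^ e * ((m : ℝ) ^ e / (b : ℝ) ^ e) ^ 2 := by
      have q2 := M3_inv e R a 2 (by omega) (by omega)
      push_cast at q2
      exact mul_le_mul_of_nonneg_right q2 (by positivity)
    linarith

private lemma M3_hk {m : ℕ} (hm : 1 ≤ m) (c x : Fin d → Fin l) :
    hk m c x = (m : ℝ) ^ (d - 2) / ((m + nd c x : ℕ) : ℝ) ^ (d - 2) := by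
  have hm0 : (0 : ℝ) < (m : ℝ) := by exact_mod_cast hm
  unfold hk
  rw [← div_pow, one_div, ← inv_pow]
  congr 1
  push_cast
  field_simp

private lemma M3_sq (hd : 5 ≤ d) {m : ℕ} (hm : 1 ≤ m) (c : Fin d → Fin l) :
    ∑ w, hk m c w ^ 2 ≤ (d * 2 ^ d : ℝ) * (2 * (m : ℝ) ^ d) := by
  have hm0 : (0 : ℝ) < (m : ℝ) := by exact_mod_cast hm
  have h := shell_sum (by omega : 1 ≤ d) c
    (fun k => ((m : ℝ) ^ (d - 2) / ((m + k : ℕ) : ℝ) ^ (d - 2)) ^ 2) (fun k => by positivity)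
  have h0 : ∑ w, hk m c w ^ 2 =
      ∑ w, (fun k : ℕ => ((m : ℝ) ^ (d - 2) / ((m + k : ℕ) : ℝ) ^ (d - 2)) ^ 2) (nd c w) :=
    Finset.sum_congr rfl fun w _ => by rw [M3_hk hm]
  rw [h0]
  refine h.trans (mul_le_mul_of_nonneg_left ?_ (by positivity))
  have h1 : ∀ k ∈ Finset.range l, ((k : ℝ) + 1) ^ (d - 1) *
      ((m : ℝ) ^ (d - 2) / ((m + k : ℕ) : ℝ) ^ (d - 2)) ^ 2 ≤
      (m : ℝ) ^ (d + 1) * (1 / (((m - 1 + k : ℕ) : ℝ) + 1) ^ 2) := by
    intro k _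
    obtain ⟨b, hbd⟩ : ∃ b : ℝ, b = ((m + k : ℕ) : ℝ) := ⟨_, rfl⟩
    have hb : ((m - 1 + k : ℕ) : ℝ) + 1 = b := by
      rw [hbd]
      have : m + k = (m - 1 + k) + 1 := by omega
      rw [this]
      push_cast
      ring
    rw [hb, ← hbd]
    have hkb : (k : ℝ) + 1 ≤ b := by
      rw [hbd]
      have : ((k + 1 : ℕ) : ℝ) ≤ ((m + k : ℕ) : ℝ) := by exact_mod_cast (by omega : k + 1 ≤ m + k)
      push_cast at this ⊢
      exact this
    have hmb : (m : ℝ) ≤ b := by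
      rw [hbd]
      push_cast
      linarith [(Nat.cast_nonneg k : (0 : ℝ) ≤ (k : ℝ))]
    have hb0 : 0 < b := hm0.trans_le hmb
    have e1 : ((k : ℝ) + 1) ^ (d - 1) ≤ b ^ (d - 1) := pow_le_pow_left₀ (by positivity) hkb _
    have e2 : (m : ℝ) ^ (d - 5) ≤ b ^ (d - 5) := pow_le_pow_left₀ hm0.le hmb _
    have e3 : (d - 2) * 2 = (d + 1) + (d - 5) := by omega
    have e4 : (d - 2) * 2 = (d - 1) + (2 + (d - 5)) := by omega
    have e5 : ((m : ℝ) ^ (d - 2) / b ^ (d - 2)) ^ 2 =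
        (m : ℝ) ^ (d + 1) * (m : ℝ) ^ (d - 5) / (b ^ (d - 1) * (b ^ 2 * b ^ (d - 5))) := by
      rw [div_pow, ← pow_mul, ← pow_mul]
      conv_lhs => rw [e3]
      rw [← e3]
      rw [e4, pow_add b, pow_add b, ← e4, e3, pow_add]
    rw [e5, ← mul_div_assoc, mul_one_div, div_le_div_iff₀ (by positivity) (by positivity)]
    calc ((k : ℝ) + 1) ^ (d - 1) * ((m : ℝ) ^ (d + 1) * (m : ℝ) ^ (d - 5)) * b ^ 2
        ≤ b ^ (d - 1) * ((m : ℝ) ^ (d + 1) * b ^ (d - 5)) * b ^ 2 := by gcongr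
      _ = (m : ℝ) ^ (d + 1) * (b ^ (d - 1) * (b ^ 2 * b ^ (d - 5))) := by ring
  refine (Finset.sum_le_sum h1).trans ?_
  rw [← Finset.mul_sum]
  have h2 : ∑ k ∈ Finset.range l, 1 / (((m - 1 + k : ℕ) : ℝ) + 1) ^ 2 ≤ 2 / (m : ℝ) := by
    have h3 := tail_two (m - 1) (m - 1 + l)
    rw [Finset.sum_Ico_eq_sum_range, Nat.add_sub_cancel_left] at h3
    have h4 : ((m - 1 : ℕ) : ℝ) + 1 = m := by
      have : m = (m - 1) + 1 := by omega
      conv_rhs => rw [this]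
      push_cast
      ring
    rw [h4] at h3
    exact h3
  calc (m : ℝ) ^ (d + 1) * ∑ k ∈ Finset.range l, 1 / (((m - 1 + k : ℕ) : ℝ) + 1) ^ 2
      ≤ (m : ℝ) ^ (d + 1) * (2 / (m : ℝ)) := mul_le_mul_of_nonneg_left h2 (by positivity)
    _ = 2 * (m : ℝ) ^ d := by
        rw [pow_succ]
        field_simp

/-- Let `a = 1 + nd x w`, `b = m + nd c w`, `R = m + nd c x`. If `a ≤ 2 m`, then `R ≤ 4 b` and `hk m c w ^ 2 ≤ 4 ^ (d - 2) hk m c x` (`near_f`); if `2 m < a ≤ 2 b`, then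
`hk m c w ^ 2 ≤ 8 ^ (d - 2) hk m c x m ^ (d - 2) / a ^ (d - 2)` (`far_f`); if `2 b < a`, then `R ≤ 2 a`, and the sum of all `hk m c w ^ 2` is at most a constant times `m ^ d`. -/
theorem hk_conv (d : ℕ) (hd : 7 ≤ d) : ∃ K : ℝ, 1 ≤ K ∧ ∀ (l m : ℕ) (c x : Fin d → Fin l), 1 ≤ m →
    ∑ w, fk (d - 2) x w * hk m c w ^ 2 ≤ K * (m : ℝ) ^ 2 * hk m c x := by
  refine ⟨(d * 2 ^ d : ℝ) * (8 * 8 ^ (d - 2)), ?_, fun l m c x hm => ?_⟩
  · have h1 : (1 : ℝ) ≤ d := by exact_mod_cast (by omega : 1 ≤ d)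
    have h2 : (1 : ℝ) ≤ 2 ^ d := one_le_pow₀ (by norm_num)
    have h3 : (1 : ℝ) ≤ 8 ^ (d - 2) := one_le_pow₀ (by norm_num)
    calc (1 : ℝ) = 1 * 1 * (1 * 1) := by norm_num
      _ ≤ (d * 2 ^ d : ℝ) * (8 * 8 ^ (d - 2)) := by
          gcongr
          norm_num
  have hm0 : (0 : ℝ) < (m : ℝ) := by exact_mod_cast hm
  obtain ⟨R, hRd⟩ : ∃ R : ℕ, R = m + nd c x := ⟨_, rfl⟩
  have hR0 : (0 : ℝ) < (R : ℝ) := by exact_mod_cast (by omega : 0 < R)
  have hX : hk m c x = (m : ℝ) ^ (d - 2) / (R : ℝ) ^ (d - 2) := by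
    rw [M3_hk hm, hRd]
  have hX0 : 0 < hk m c x := by
    rw [hX]
    positivity
  have hpt : ∀ w : Fin d → Fin l, fk (d - 2) x w * hk m c w ^ 2 ≤
      4 ^ (d - 2) * hk m c x * (if 1 + nd x w ≤ 2 * m then fk (d - 2) x w else 0) +
      8 ^ (d - 2) * hk m c x * (m : ℝ) ^ (d - 2) * (if 2 * m < 1 + nd x w then fk (d - 2) x w ^ 2 else 0) +
      2 ^ (d - 2) / (R : ℝ) ^ (d - 2) * hk m c w ^ 2 := by
    intro w
    have t1 := nd_tri c w x
    have s1 := nd_symm w x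
    have h := M3_pt (d - 2) (1 + nd x w) (m + nd c w) R m (by omega) hm (by omega) (by omega)
      (by omega)
    rw [← M3_hk hm, ← hX] at h
    unfold fk
    have h5 : ((1 + nd x w : ℕ) : ℝ) = 1 + (nd x w : ℝ) := by push_cast; ring
    rw [h5] at h
    exact h
  refine (Finset.sum_le_sum (fun w _ => hpt w)).trans ?_
  rw [Finset.sum_add_distrib, Finset.sum_add_distrib, ← Finset.mul_sum, ← Finset.mul_sum,
    ← Finset.mul_sum]
  have n1 := near_f (by omega : 2 ≤ d) x m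
  have f1 := far_f (by omega : 5 ≤ d) x m hm
  have s1 := M3_sq (by omega : 5 ≤ d) hm c
  have hsum := add_le_add (add_le_add
    (mul_le_mul_of_nonneg_left n1 (by positivity : (0 : ℝ) ≤ 4 ^ (d - 2) * hk m c x))
    (mul_le_mul_of_nonneg_left f1 (by positivity : (0 : ℝ) ≤ 8 ^ (d - 2) * hk m c x * (m : ℝ) ^ (d - 2))))
    (mul_le_mul_of_nonneg_left s1 (by positivity : (0 : ℝ) ≤ 2 ^ (d - 2) / (R : ℝ) ^ (d - 2)))
  refine hsum.trans ?_
  have e1 : (m : ℝ) ^ (d - 2) = (m : ℝ) ^ (d - 4) * (m : ℝ) ^ 2 := by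
    rw [← pow_add]
    congr 1
    omega
  have e2 : (m : ℝ) ^ d = (m : ℝ) ^ (d - 2) * (m : ℝ) ^ 2 := by
    rw [← pow_add]
    congr 1
    omega
  have e3 : 8 ^ (d - 2) * hk m c x * (m : ℝ) ^ (d - 2) * ((d * 2 ^ d : ℝ) * (2 / (m : ℝ) ^ (d - 4))) =
      (d * 2 ^ d : ℝ) * (2 * 8 ^ (d - 2)) * (m : ℝ) ^ 2 * hk m c x := by
    rw [e1]
    field_simp
  have e4 : 2 ^ (d - 2) / (R : ℝ) ^ (d - 2) * ((d * 2 ^ d : ℝ) * (2 * (m : ℝ) ^ d)) =
      (d * 2 ^ d : ℝ) * (2 * 2 ^ (d - 2)) * (m : ℝ) ^ 2 * hk m c x := by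
    rw [hX, e2]
    field_simp
  have e5 : 4 ^ (d - 2) * hk m c x * ((d * 2 ^ d : ℝ) * (4 * (m : ℝ) ^ 2)) =
      (d * 2 ^ d : ℝ) * (4 * 4 ^ (d - 2)) * (m : ℝ) ^ 2 * hk m c x := by ring
  rw [e3, e4, e5, ← add_mul, ← add_mul, ← add_mul, ← add_mul, ← mul_add, ← mul_add]
  refine mul_le_mul_of_nonneg_right (mul_le_mul_of_nonneg_right (mul_le_mul_of_nonneg_left ?_
    (by positivity)) (by positivity)) hX0.le
  have g1 : (4 : ℝ) ^ (d - 2) ≤ 8 ^ (d - 2) := pow_le_pow_left₀ (by norm_num) (by norm_num) _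
  have g2 : (2 : ℝ) ^ (d - 2) ≤ 8 ^ (d - 2) := pow_le_pow_left₀ (by norm_num) (by norm_num) _
  linarith

private theorem M4_mo_nonneg {p : ℝ} (h0 : 0 ≤ p) (h1 : p ≤ 1) {V : Type*} [Fintype V] [DecidableEq V]
    {E : Type*} [Fintype E] [DecidableEq E] (ends : E → Sym2 V) (B : Finset V) (k : ℕ) (x : V) :
    0 ≤ mo ends p B k x := by
  unfold mo
  exact Ex_nonneg h0 h1 fun ω => by positivity

private theorem M4_mo_one {V : Type*} [Fintype V] [DecidableEq V]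
    {E : Type*} [Fintype E] [DecidableEq E] (ends : E → Sym2 V) (p : ℝ) (B : Finset V) (x : V) :
    mo ends p B 1 x = ∑ y ∈ B, ta ends p x y := by
  unfold mo ta
  rw [← Ex_sum]
  apply Ex_congr
  intro ω
  rw [pow_one, ← Finset.sum_filter, Finset.sum_const, nsmul_eq_mul, mul_one]
  congr 2
  ext y
  rw [Finset.mem_inter, Finset.mem_filter, and_comm]

private theorem M4_nd_self (x : Fin d → Fin l) : nd x x = 0 := by
  unfold nd
  simp

private theorem M4_hk_nonneg (m : ℕ) (c x : Fin d → Fin l) : 0 ≤ hk m c x := by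
  unfold hk
  positivity

/-- Row M4a. Induction on `k` with `mo_rec` (`k = 1`: `mo p B 1 x = ∑_{y ∈ B} ta x y`, `hk_base`; the step: `hk_conv`; exponents `(4i - 2) + (4(k-i) - 2) + 2 = 4k - 2`). -/
theorem mo_bound (d : ℕ) (C c pc : ℝ) (h : GH d C c pc) (k : ℕ) (hk1 : 1 ≤ k) : ∃ K : ℝ, 1 ≤ K ∧ ∀ (l m : ℕ) (z x : Fin d → Fin l), 1 ≤ m →
    mo (gends (boxG d l)) pc (bb z m) k x ≤ K * (m : ℝ) ^ (4 * k - 2) * hk m z x := by
  classical
  have hd9 := h.d9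
  have hp0 : 0 ≤ pc := h.p0.le
  have hp1 : pc ≤ 1 := h.p1.le
  obtain ⟨K2, hK2, hbase⟩ := hk_base d (by omega)
  obtain ⟨K3, hK3, hconv⟩ := hk_conv d (by omega)
  have hC0 : 0 ≤ C := by linarith [h.C1]
  revert hk1
  induction k using Nat.strong_induction_on with
  | _ k ih =>
    intro hk1
    rcases Nat.lt_or_ge k 2 with hk2 | hk2
    · have hk : k = 1 := by omega
      subst hk
      refine ⟨max 1 (C * K2), le_max_left _ _, ?_⟩
      intro l m z x hm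
      rw [M4_mo_one]
      have e1 : ∑ y ∈ bb z m, ta (gends (boxG d l)) pc x y ≤ C * ∑ y ∈ bb z m, fk (d - 2) x y := by
        rw [Finset.mul_sum]
        exact Finset.sum_le_sum fun y _ => h.Up l x y
      have e2 : C * ∑ y ∈ bb z m, fk (d - 2) x y ≤ C * (K2 * (m : ℝ) ^ 2 * hk m z x) :=
        mul_le_mul_of_nonneg_left (hbase l m z x hm) hC0
      refine e1.trans (e2.trans ?_)
      have e3 : C * (K2 * (m : ℝ) ^ 2 * hk m z x) = C * K2 * ((m : ℝ) ^ (4 * 1 - 2) * hk m z x) := by ring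
      have e4 : max 1 (C * K2) * (m : ℝ) ^ (4 * 1 - 2) * hk m z x =
          max 1 (C * K2) * ((m : ℝ) ^ (4 * 1 - 2) * hk m z x) := by ring
      rw [e3, e4]
      exact mul_le_mul_of_nonneg_right (le_max_right _ _)
        (mul_nonneg (by positivity) (M4_hk_nonneg m z x))
    · choose! Kf hKf using ih
      set K0 : ℝ := (2 : ℝ) ^ k * ∑ i ∈ Finset.Ico 1 k, C * Kf i * Kf (k - i) * K3 with hK0
      refine ⟨max 1 K0, le_max_left _ _, ?_⟩
      intro l m z x hm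
      refine (mo_rec hp0 hp1 (bb z m) k hk2 x).trans ?_
      have hm0 : (0 : ℝ) ≤ m := Nat.cast_nonneg m
      have hterm : ∀ i ∈ Finset.Ico 1 k, ∑ w, ta (gends (boxG d l)) pc x w *
          (mo (gends (boxG d l)) pc (bb z m) i w * mo (gends (boxG d l)) pc (bb z m) (k - i) w) ≤
          C * Kf i * Kf (k - i) * K3 * ((m : ℝ) ^ (4 * k - 2) * hk m z x) := by
        intro i hi
        obtain ⟨hi1, hi2⟩ := Finset.mem_Ico.1 hi
        obtain ⟨a1, a2⟩ := hKf i hi2 hi1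
        obtain ⟨b1, b2⟩ := hKf (k - i) (by omega) (by omega)
        have hc : 0 ≤ C * Kf i * Kf (k - i) * (m : ℝ) ^ (4 * k - 4) := by
          have : 0 ≤ Kf i := by linarith
          have : 0 ≤ Kf (k - i) := by linarith
          positivity
        have hw : ∀ w, ta (gends (boxG d l)) pc x w *
            (mo (gends (boxG d l)) pc (bb z m) i w * mo (gends (boxG d l)) pc (bb z m) (k - i) w) ≤
            C * Kf i * Kf (k - i) * (m : ℝ) ^ (4 * k - 4) * (fk (d - 2) x w * hk m z w ^ 2) := by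
          intro w
          have c1 := h.Up l x w
          have c2 := a2 l m z w hm
          have c3 := b2 l m z w hm
          have c4 := M4_mo_nonneg hp0 hp1 (gends (boxG d l)) (bb z m) i w
          have c5 := M4_mo_nonneg hp0 hp1 (gends (boxG d l)) (bb z m) (k - i) w
          have c6 : (0 : ℝ) ≤ ta (gends (boxG d l)) pc x w := ta_nonneg hp0 hp1 x w
          have c7 : mo (gends (boxG d l)) pc (bb z m) i w * mo (gends (boxG d l)) pc (bb z m) (k - i) w ≤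
              (Kf i * (m : ℝ) ^ (4 * i - 2) * hk m z w) * (Kf (k - i) * (m : ℝ) ^ (4 * (k - i) - 2) * hk m z w) :=
            mul_le_mul c2 c3 c5 (c4.trans c2)
          refine (mul_le_mul c1 c7 (mul_nonneg c4 c5) (c6.trans c1)).trans (le_of_eq ?_)
          have e5 : 4 * k - 4 = (4 * i - 2) + (4 * (k - i) - 2) := by omega
          rw [e5, pow_add]
          ring
        refine (Finset.sum_le_sum fun w _ => hw w).trans ?_
        rw [← Finset.mul_sum]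
        refine (mul_le_mul_of_nonneg_left (hconv l m z x hm) hc).trans (le_of_eq ?_)
        have e6 : 4 * k - 2 = (4 * k - 4) + 2 := by omega
        rw [e6, pow_add]
        ring
      have hsum := Finset.sum_le_sum hterm
      rw [← Finset.sum_mul] at hsum
      have hY : 0 ≤ (m : ℝ) ^ (4 * k - 2) * hk m z x := mul_nonneg (by positivity) (M4_hk_nonneg m z x)
      calc (2 : ℝ) ^ k * ∑ i ∈ Finset.Ico 1 k, ∑ w, ta (gends (boxG d l)) pc x w *
            (mo (gends (boxG d l)) pc (bb z m) i w * mo (gends (boxG d l)) pc (bb z m) (k - i) w)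
          ≤ (2 : ℝ) ^ k * ((∑ i ∈ Finset.Ico 1 k, C * Kf i * Kf (k - i) * K3) *
              ((m : ℝ) ^ (4 * k - 2) * hk m z x)) := mul_le_mul_of_nonneg_left hsum (by positivity)
        _ = K0 * ((m : ℝ) ^ (4 * k - 2) * hk m z x) := by rw [hK0]; ring
        _ ≤ max 1 K0 * ((m : ℝ) ^ (4 * k - 2) * hk m z x) :=
            mul_le_mul_of_nonneg_right (le_max_right _ _) hY
        _ = _ := by ring

open scoped Classical in
/-- Row M4b. Markov: if `N² > m^9` then `1 ≤ N^(2k) / m^(9k)`; `mo_bound` for `2 k` and `hk ≤ 1`: at most `K m^(8k-2) / m^(9k)`. -/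
theorem cnt_tail (d : ℕ) (C c pc : ℝ) (h : GH d C c pc) (k : ℕ) (hk1 : 1 ≤ k) : ∃ K : ℝ, 1 ≤ K ∧ ∀ (l m : ℕ) (x : Fin d → Fin l), 1 ≤ m →
    Ex pc (fun ω => if (m : ℝ) ^ 9 < (((cu (gends (boxG d l)) ω x ∩ bb x m).card : ℕ) : ℝ) ^ 2 then (1 : ℝ) else 0) ≤ K / (m : ℝ) ^ k := by
  obtain ⟨K, hK, hb⟩ := mo_bound d C c pc h (2 * k) (by omega)
  have hp0 : 0 ≤ pc := h.p0.le
  have hp1 : pc ≤ 1 := h.p1.le
  refine ⟨K, hK, ?_⟩
  intro l m x hm
  have hm0 : (0 : ℝ) < m := by exact_mod_cast hm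
  have hm1 : (1 : ℝ) ≤ m := by exact_mod_cast hm
  have hpt : ∀ ω : (boxG d l).edgeSet → Bool,
      (if (m : ℝ) ^ 9 < (((cu (gends (boxG d l)) ω x ∩ bb x m).card : ℕ) : ℝ) ^ 2 then (1 : ℝ) else 0) ≤
      1 / (m : ℝ) ^ (9 * k) * ((cu (gends (boxG d l)) ω x ∩ bb x m).card : ℝ) ^ (2 * k) := by
    intro ω
    split_ifs with hlt
    · rw [one_div, inv_mul_eq_div, le_div_iff₀ (by positivity), one_mul, pow_mul, pow_mul]
      exact pow_le_pow_left₀ (by positivity) hlt.le k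
    · positivity
  refine (Ex_mono hp0 hp1 hpt).trans ?_
  rw [Ex_mul_left]
  have h2 := hb l m x x hm
  have h3 : hk m x x = 1 := by
    unfold hk
    rw [show nd x x = 0 from M4_nd_self x]
    simp
  rw [h3, mul_one] at h2
  have h4 : 1 / (m : ℝ) ^ (9 * k) * Ex pc (fun ω => ((cu (gends (boxG d l)) ω x ∩ bb x m).card : ℝ) ^ (2 * k)) ≤
      1 / (m : ℝ) ^ (9 * k) * (K * (m : ℝ) ^ (4 * (2 * k) - 2)) :=
    mul_le_mul_of_nonneg_left h2 (by positivity)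
  refine h4.trans ?_
  rw [one_div, inv_mul_eq_div, div_le_div_iff₀ (by positivity) (by positivity)]
  have h5 : (m : ℝ) ^ (4 * (2 * k) - 2) * (m : ℝ) ^ k ≤ (m : ℝ) ^ (9 * k) := by
    rw [← pow_add]
    exact pow_le_pow_right₀ hm1 (by omega)
  have h6 : 0 ≤ K := by linarith
  calc K * (m : ℝ) ^ (4 * (2 * k) - 2) * (m : ℝ) ^ k = K * ((m : ℝ) ^ (4 * (2 * k) - 2) * (m : ℝ) ^ k) := by ring
    _ ≤ K * (m : ℝ) ^ (9 * k) := mul_le_mul_of_nonneg_left h5 h6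
end Pool.Agent.PERC29.GU
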