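import Pool.Agent.Lib.MP_29e17e_pr.G.Rv

set_option autoImplicit false
set_option linter.unusedSectionVars false

/-! Rows 29g-N1 .. N4: a lower bound for the two-point function by a convolution. -/

open Finset

namespace Pool.Agent.PERC29.GU

open Pool.Agent.PERC29 Pool.Agent.PERC29.AE Pool.Agent.PERC29.QQ

variable {V : Type*} [Fintype V] [DecidableEq V] {E : Type*} [Fintype E] [DecidableEq E] {ends : E → Sym2 V}

open scoped Classical in
/-- The probability that the closed edge `e` is pivotal for the connection of `x` and `y`. -/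
noncomputable def pv (ends : E → Sym2 V) (t : ℝ) (x y : V) (e : E) : ℝ :=
  Ex t (fun ω => if y ∉ cu ends ω x ∧ y ∈ cu ends (Function.update ω e true) x then (1 : ℝ) else 0)

/-- Row N1. `Ex_hasDerivAt`: the derivative of `t ↦ ta ends t x y` is `(1 - t)⁻¹ * ∑ e, pv t x y e ≥ B` on `[p, q]` (if `ω e = true` then `Function.update ω e true = ω`); mean value inequality, `ta p x y ≥ 0`. (If `B < 0` trivial.) -/
theorem russo_ge {p q B : ℝ} (h0 : 0 ≤ p) (hpq : p ≤ q) (hq : q < 1) (x y : V)
    (h : ∀ t : ℝ, p ≤ t → t ≤ q → B ≤ ∑ e, pv ends t x y e) : (q - p) * B ≤ ta ends q x y := by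
  classical
  have hq0 : 0 ≤ q := h0.trans hpq
  rcases le_or_gt B 0 with hB | hB
  · exact (mul_nonpos_of_nonneg_of_nonpos (sub_nonneg.2 hpq) hB).trans (ta_nonneg hq0 hq.le x y)
  have hD : ∀ t : ℝ, t < 1 → HasDerivAt (fun t : ℝ => ta ends t x y) ((1 - t)⁻¹ * Ex t (fun ω => ∑ e, (if ω e = true then 0 else
      (if y ∈ cu ends (Function.update ω e true) x then (1 : ℝ) else 0) - (if y ∈ cu ends ω x then 1 else 0)))) t :=
    fun t ht => Ex_hasDerivAt t (fun ω => if y ∈ cu ends ω x then (1 : ℝ) else 0) (ne_of_lt ht)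
  have hS : ∀ t : ℝ, Ex t (fun ω => ∑ e, (if ω e = true then 0 else
      (if y ∈ cu ends (Function.update ω e true) x then (1 : ℝ) else 0) - (if y ∈ cu ends ω x then 1 else 0))) =
      ∑ e, pv ends t x y e := by
    intro t
    rw [Ex_sum]
    refine Finset.sum_congr rfl fun e _ => ?_
    unfold pv
    refine Ex_congr fun ω => ?_
    by_cases he : ω e = true
    · rw [if_pos he, if_neg]
      rintro ⟨h1, h2⟩
      apply h1
      have h3 : Function.update ω e true = ω := by
        rw [← he]
        exact Function.update_eq_self e ω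
      rwa [h3] at h2
    · rw [if_neg he]
      by_cases hy : y ∈ cu ends ω x
      · have h2 : y ∈ cu ends (Function.update ω e true) x := by
          refine cu_mono (fun e' he' => ?_) hy
          by_cases hee : e' = e
          · rw [hee, Function.update_self]
          · rw [Function.update_of_ne hee]
            exact he'
        rw [if_pos h2, if_pos hy, if_neg (fun h1 => h1.1 hy), sub_self]
      · by_cases h2 : y ∈ cu ends (Function.update ω e true) x
        · rw [if_pos h2, if_neg hy, if_pos ⟨hy, h2⟩, sub_zero]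
        · rw [if_neg h2, if_neg hy, if_neg (fun h1 => h2 h1.2), sub_self]
  have h2 := Convex.mul_sub_le_image_sub_of_le_deriv (convex_Icc p q) (f := fun t : ℝ => ta ends t x y)
    (fun t ht => (hD t (lt_of_le_of_lt ht.2 hq)).continuousAt.continuousWithinAt)
    (fun t ht => (hD t (by rw [interior_Icc] at ht; exact lt_trans ht.2 hq)).differentiableAt.differentiableWithinAt)
    (C := B)
    (fun t ht => by
      rw [interior_Icc] at ht
      have ht1 : t < 1 := lt_trans ht.2 hq
      rw [(hD t ht1).deriv, hS t]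
      have h3 := h t ht.1.le ht.2.le
      have h4 : (1 : ℝ) ≤ (1 - t)⁻¹ := (one_le_inv₀ (by linarith)).2 (by linarith [ht.1])
      calc B ≤ ∑ e, pv ends t x y e := h3
        _ = 1 * ∑ e, pv ends t x y e := (one_mul _).symm
        _ ≤ _ := mul_le_mul_of_nonneg_right h4 (hB.le.trans h3))
    p ⟨le_rfl, hpq⟩ q ⟨hpq, le_rfl⟩ hpq
  have h5 := ta_nonneg (ends := ends) h0 (hpq.trans hq.le) x y
  have h6 : B * (q - p) ≤ ta ends q x y - ta ends p x y := h2
  rw [mul_comm]
  linarith

/-- Opening one edge. -/
theorem N2_one {t : ℝ} (h0 : 0 ≤ t) (h1 : t ≤ 1) (e : E) (g : (E → Bool) → ℝ) (hg : ∀ ω, 0 ≤ g ω) :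
    t * Ex t (fun ω => g (Function.update ω e true)) ≤ Ex t g := by
  rw [← Ex_coord t e (fun ω => g (Function.update ω e true))]
  · refine Ex_mono h0 h1 fun ω => ?_
    by_cases h : ω e = true
    · have h2 : Function.update ω e true = ω := by
        rw [← h]
        exact Function.update_eq_self e ω
      rw [if_pos h, one_mul, h2]
    · rw [if_neg h, zero_mul]
      exact hg ω
  · intro ω ω' h
    have h2 : Function.update ω e true = Function.update ω' e true := by
      funext e'
      by_cases h3 : e' = e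
      · subst h3
        rw [Function.update_self, Function.update_self]
      · rw [Function.update_of_ne h3, Function.update_of_ne h3]
        exact h e' h3
    exact congrArg g h2

/-- Opening the edges of a set. -/
theorem N2_push {t : ℝ} (h0 : 0 ≤ t) (h1 : t ≤ 1) (F : Finset E) (g : (E → Bool) → ℝ) (hg : ∀ ω, 0 ≤ g ω) :
    t ^ F.card * Ex t (fun ω => g (fun e => if e ∈ F then true else ω e)) ≤ Ex t g := by
  induction F using Finset.induction_on with
  | empty =>
    simp only [Finset.card_empty, pow_zero, one_mul, Finset.notMem_empty, if_false]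
    exact le_rfl
  | insert e F he ih =>
    have h2 := N2_one h0 h1 e (fun ω => g (fun e => if e ∈ F then true else ω e)) (fun ω => hg _)
    have h3 : Ex t (fun ω => g (fun e' => if e' ∈ insert e F then true else ω e')) =
        Ex t (fun ω => g (fun e' => if e' ∈ F then true else Function.update ω e true e')) := by
      refine Ex_congr fun ω => congrArg g ?_
      funext e'
      by_cases h4 : e' ∈ F
      · rw [if_pos h4, if_pos (Finset.mem_insert_of_mem h4)]
      · by_cases h5 : e' = e
        · subst h5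
          rw [if_pos (Finset.mem_insert_self _ _), if_neg h4, Function.update_self]
        · have h6 : e' ∉ insert e F := by
            rw [Finset.mem_insert]
            push Not
            exact ⟨h5, h4⟩
          rw [if_neg h6, if_neg h4, Function.update_of_ne h5]
    rw [h3, Finset.card_insert_of_notMem he, pow_succ, mul_assoc]
    exact (mul_le_mul_of_nonneg_left h2 (pow_nonneg h0 _)).trans ih

theorem N2_upd (e : E) (F : Finset E) (he : e ∉ F) (ω : E → Bool) :
    (fun e' => if e' ∈ insert e F then true else ω e') =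
      Function.update (fun e' => if e' ∈ F then true else ω e') e true := by
  funext e'
  by_cases h5 : e' = e
  · subst h5
    rw [if_pos (Finset.mem_insert_self _ _), Function.update_self]
  · rw [Function.update_of_ne h5]
    by_cases h4 : e' ∈ F
    · rw [if_pos h4, if_pos (Finset.mem_insert_of_mem h4)]
    · have h6 : e' ∉ insert e F := by
        rw [Finset.mem_insert]
        push Not
        exact ⟨h5, h4⟩
      rw [if_neg h6, if_neg h4]

open scoped Classical in
/-- Row N2. Induction on `F`. For `F = insert e F'`: if `y ∉ cu ω x` and `y ∈ cu (ω ∪ F) x` then either `y ∈ cu (ω ∪ F') x` (induction; `t ≤ 1`) or, with `ω' = ω ∪ F'`, `y ∉ cu ω' x` and `y ∈ cu (update ω' e true) x`. For every event `B` of configurations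
`t ^ F'.card * Ex t (1_B (ω ∪ F')) ≤ Ex t 1_B`: the event `ω ∪ F' ∈ B` does not depend on the edges of `F'` (`Ex_indep`), and if moreover all edges of `F'` are open then `ω ∪ F' = ω`. -/
theorem surg {t : ℝ} (h0 : 0 ≤ t) (h1 : t ≤ 1) (x y : V) (F : Finset E) :
    t ^ F.card * Ex t (fun ω => if y ∉ cu ends ω x ∧ y ∈ cu ends (fun e => if e ∈ F then true else ω e) x then (1 : ℝ) else 0) ≤
      ∑ e ∈ F, pv ends t x y e := by
  have hpv : ∀ e, 0 ≤ pv ends t x y e := fun e => Ex_nonneg h0 h1 fun ω => by
    split_ifs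
    · exact zero_le_one
    · exact le_rfl
  induction F using Finset.induction_on with
  | empty =>
    rw [Finset.sum_empty, Finset.card_empty, pow_zero, one_mul]
    refine le_of_eq (Ex_zero_of fun ω => ?_)
    rw [if_neg]
    rintro ⟨h2, h3⟩
    simp only [Finset.notMem_empty, if_false] at h3
    exact h2 h3
  | insert e F he ih =>
    have h2 : Ex t (fun ω => if y ∉ cu ends ω x ∧
        y ∈ cu ends (fun e' => if e' ∈ insert e F then true else ω e') x then (1 : ℝ) else 0) ≤
        Ex t (fun ω => if y ∉ cu ends ω x ∧ y ∈ cu ends (fun e => if e ∈ F then true else ω e) x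
          then (1 : ℝ) else 0) +
        Ex t (fun ω => (fun ω' : E → Bool => if y ∉ cu ends ω' x ∧ y ∈ cu ends (Function.update ω' e true) x
          then (1 : ℝ) else 0) (fun e => if e ∈ F then true else ω e)) := by
      rw [← Ex_add]
      refine Ex_mono h0 h1 fun ω => ?_
      rw [N2_upd e F he ω]
      by_cases h3 : y ∈ cu ends ω x
      · rw [if_neg (fun h => h.1 h3)]
        refine add_nonneg ?_ ?_
        · split_ifs
          · exact zero_le_one
          · exact le_rfl
        · show (0 : ℝ) ≤ if _ then _ else _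
          split_ifs
          · exact zero_le_one
          · exact le_rfl
      · by_cases h4 : y ∈ cu ends (fun e => if e ∈ F then true else ω e) x
        · rw [if_pos (⟨h3, h4⟩ : y ∉ cu ends ω x ∧ y ∈ cu ends (fun e => if e ∈ F then true else ω e) x)]
          refine le_add_of_le_of_nonneg ?_ ?_
          · split_ifs
            · exact le_rfl
            · exact zero_le_one
          · show (0 : ℝ) ≤ if _ then _ else _
            split_ifs
            · exact zero_le_one
            · exact le_rfl
        · refine le_add_of_nonneg_of_le ?_ ?_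
          · split_ifs
            · exact zero_le_one
            · exact le_rfl
          · show _ ≤ (if _ then _ else _ : ℝ)
            by_cases h5 : y ∈ cu ends (Function.update (fun e => if e ∈ F then true else ω e) e true) x
            · rw [if_pos (⟨h3, h5⟩ : y ∉ cu ends ω x ∧ _), if_pos ⟨h4, h5⟩]
            · rw [if_neg (fun h => h5 h.2)]
              split_ifs
              · exact zero_le_one
              · exact le_rfl
    have h3 := N2_push h0 h1 F (fun ω' : E → Bool => if y ∉ cu ends ω' x ∧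
      y ∈ cu ends (Function.update ω' e true) x then (1 : ℝ) else 0) (fun ω => by
        show (0 : ℝ) ≤ if _ then _ else _
        split_ifs
        · exact zero_le_one
        · exact le_rfl)
    have h4 : Ex t (fun ω' : E → Bool => if y ∉ cu ends ω' x ∧
      y ∈ cu ends (Function.update ω' e true) x then (1 : ℝ) else 0) = pv ends t x y e := rfl
    rw [h4] at h3
    rw [Finset.card_insert_of_notMem he, Finset.sum_insert he, pow_succ]
    have h5 := hpv e
    have h6 : 0 ≤ ∑ e ∈ F, pv ends t x y e := Finset.sum_nonneg fun e _ => hpv e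
    have h7 : 0 ≤ t ^ F.card * t := mul_nonneg (pow_nonneg h0 _) h0
    refine (mul_le_mul_of_nonneg_left h2 h7).trans ?_
    rw [mul_add, mul_right_comm, mul_right_comm (t ^ F.card) t]
    have h8 := mul_le_mul_of_nonneg_right ih h0
    have h9 := mul_le_mul_of_nonneg_right h3 h0
    have h10 : (∑ e ∈ F, pv ends t x y e) * t ≤ ∑ e ∈ F, pv ends t x y e := mul_le_of_le_one_right h6 h1
    have h11 : pv ends t x y e * t ≤ pv ends t x y e := mul_le_of_le_one_right h5 h1
    linarith

open scoped Classical in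
/-- The two distinct clusters, decomposed with respect to the first one. -/
private theorem N3_dec {p : ℝ} (x y a b : V) :
    Ex p (fun ω => if a ∈ cu ends ω x ∧ b ∈ cu ends ω y ∧ y ∉ cu ends ω x then (1 : ℝ) else 0) =
      ∑ A : Finset V, Ex p (fun ω => if cu ends ω x = A then (1 : ℝ) else 0) *
        (if a ∈ A ∧ y ∉ A then rs ends ((A : Set V)ᶜ) p y b else 0) := by
  have hpt : ∀ ω : E → Bool,
      (if a ∈ cu ends ω x ∧ b ∈ cu ends ω y ∧ y ∉ cu ends ω x then (1 : ℝ) else 0) =
      ∑ A : Finset V, (if a ∈ A ∧ y ∉ A then (1 : ℝ) else 0) *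
        ((if cu ends ω x = A then (1 : ℝ) else 0) *
          (if b ∈ cl ends ω ((A : Set V)ᶜ) y then (1 : ℝ) else 0)) := by
    intro ω
    rw [Finset.sum_eq_single (cu ends ω x)]
    · rw [if_pos (rfl : cu ends ω x = cu ends ω x), one_mul]
      by_cases hy : y ∉ cu ends ω x
      · have hcl : cu ends ω y = cl ends ω ((cu ends ω x : Finset V) : Set V)ᶜ y := by
          ext z
          rw [mem_cu, mem_cl]
          apply inside (B := ({x} : Set V))
          · intro w
            simp only [Set.mem_compl_iff, Finset.mem_coe, mem_cu, Set.mem_singleton_iff,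
              exists_eq_left]
          · simpa using hy
        rw [← hcl]
        by_cases ha : a ∈ cu ends ω x
        · by_cases hb : b ∈ cu ends ω y
          · rw [if_pos ⟨ha, hb, hy⟩, if_pos ⟨ha, hy⟩, if_pos hb, one_mul]
          · rw [if_neg (fun h => hb h.2.1), if_neg hb, mul_zero]
        · rw [if_neg (fun h => ha h.1), if_neg (fun h => ha h.1), zero_mul]
      · rw [if_neg (fun h => hy h.2.2), if_neg (fun h => hy h.2), zero_mul]
    · intro A _ hA
      rw [if_neg (Ne.symm hA), zero_mul, mul_zero]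
    · intro hh
      exact absurd (Finset.mem_univ _) hh
  rw [Ex_congr hpt, Ex_sum]
  refine Finset.sum_congr rfl fun A _ => ?_
  rw [Ex_mul_left]
  have hind : Ex p (fun ω => (if cu ends ω x = A then (1 : ℝ) else 0) *
      (if b ∈ cl ends ω ((A : Set V)ᶜ) y then (1 : ℝ) else 0)) =
      Ex p (fun ω => if cu ends ω x = A then (1 : ℝ) else 0) * rs ends ((A : Set V)ᶜ) p y b := by
    unfold rs
    refine Ex_indep p {e : E | ∃ a b, ends e = s(a, b) ∧ a ∈ A}
      (fun ω => if cu ends ω x = A then (1 : ℝ) else 0)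
      (fun ω => if b ∈ cl ends ω ((A : Set V)ᶜ) y then (1 : ℝ) else 0) ?_ ?_
    · intro ω ω' hh
      have key : ∀ ω ω' : E → Bool,
          (∀ e ∈ {e : E | ∃ a b, ends e = s(a, b) ∧ a ∈ A}, ω e = ω' e) → cu ends ω x = A →
          cu ends ω' x = A := by
        intro ω ω' hh hA
        exact cl_eq_dep (fun e' a b h2 _ _ h5 => hh e' ⟨a, b, h2, h5⟩) hA
      show (if cu ends ω x = A then (1 : ℝ) else 0) = if cu ends ω' x = A then (1 : ℝ) else 0
      by_cases hc : cu ends ω x = A
      · rw [if_pos hc, if_pos (key ω ω' hh hc)]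
      · rw [if_neg hc, if_neg]
        intro hc'
        exact hc (key ω' ω (fun e he => (hh e he).symm) hc')
    · intro ω ω' hh
      show (if b ∈ cl ends ω ((A : Set V)ᶜ) y then (1 : ℝ) else 0) =
        if b ∈ cl ends ω' ((A : Set V)ᶜ) y then (1 : ℝ) else 0
      rw [cl_dep (S := ((A : Set V))ᶜ) (ω' := ω')]
      intro e' a b h2 h3 h4
      apply hh
      rintro ⟨a', b', h5, h8⟩
      rw [h2] at h5
      rcases Sym2.eq_iff.1 h5 with ⟨rfl, rfl⟩ | ⟨rfl, rfl⟩
      · exact h3 h8
      · exact h4 h8
  rw [hind]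
  split_ifs
  · ring
  · ring

open scoped Classical in
/-- Sum over the value `A` of `cu ω x`: the right side is
`∑_{A ∋ a, A ∌ y} P(cu x = A) * rs ends Aᶜ p y b`. By `off_low`
`rs ends Aᶜ p y b ≥ ta y b - ∑_{w ∈ A} ta y w * ta w b`, and this number is `≤ 0` if `y ∈ A`.
So the right side is at least `ta x a * ta y b - ∑_w P(a, w ∈ cu x) * ta y w * ta w b`; `tree_graph`. -/
theorem dis_low {p : ℝ} (h0 : 0 ≤ p) (h1 : p ≤ 1) (x y a b : V) :
    ta ends p x a * ta ends p y b -
      ∑ z, ∑ w, ta ends p x z * ta ends p z a * ta ends p z w * ta ends p y w * ta ends p w b ≤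
      Ex p (fun ω => if a ∈ cu ends ω x ∧ b ∈ cu ends ω y ∧ y ∉ cu ends ω x then (1 : ℝ) else 0) := by
  have hk : ∀ A : Finset V,
      (if a ∈ A then ta ends p y b - ∑ w ∈ A, ta ends p y w * ta ends p w b else 0) ≤
      (if a ∈ A ∧ y ∉ A then rs ends ((A : Set V)ᶜ) p y b else 0) := by
    intro A
    by_cases ha : a ∈ A
    · rw [if_pos ha]
      by_cases hy : y ∈ A
      · rw [if_neg (fun h => h.2 hy)]
        have h2 : ta ends p y y * ta ends p y b ≤ ∑ w ∈ A, ta ends p y w * ta ends p w b :=
          Finset.single_le_sum (f := fun w => ta ends p y w * ta ends p w b)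
            (fun w _ => mul_nonneg (ta_nonneg h0 h1 y w) (ta_nonneg h0 h1 w b)) hy
        rw [ta_self, one_mul] at h2
        linarith
      · rw [if_pos ⟨ha, hy⟩]
        exact off_low h0 h1 A y b
    · rw [if_neg ha, if_neg (fun h => ha h.1)]
  have hpt : ∀ ω : E → Bool,
      ∑ A : Finset V, (if a ∈ A then ta ends p y b - ∑ w ∈ A, ta ends p y w * ta ends p w b else 0) *
        (if cu ends ω x = A then (1 : ℝ) else 0) =
      ta ends p y b * (if a ∈ cu ends ω x then (1 : ℝ) else 0) +
        ∑ w, -(ta ends p y w * ta ends p w b) * ((if a ∈ cu ends ω x then (1 : ℝ) else 0) *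
          (if w ∈ cu ends ω x then (1 : ℝ) else 0)) := by
    intro ω
    rw [Finset.sum_eq_single (cu ends ω x)]
    · rw [if_pos (rfl : cu ends ω x = cu ends ω x), mul_one]
      by_cases ha : a ∈ cu ends ω x
      · rw [if_pos ha, if_pos ha, mul_one, sub_eq_add_neg, ← Finset.sum_neg_distrib]
        congr 1
        rw [← Finset.sum_filter_add_sum_filter_not Finset.univ (fun w => w ∈ cu ends ω x)]
        have h3 : ∑ w ∈ Finset.univ.filter (fun w => ¬ w ∈ cu ends ω x),
            -(ta ends p y w * ta ends p w b) * ((1 : ℝ) * (if w ∈ cu ends ω x then (1 : ℝ) else 0)) =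
            0 := by
          refine Finset.sum_eq_zero fun w hw => ?_
          rw [if_neg (Finset.mem_filter.1 hw).2, mul_zero, mul_zero]
        rw [h3, add_zero]
        have h4 : Finset.univ.filter (fun w => w ∈ cu ends ω x) = cu ends ω x := by
          ext w
          simp
        rw [h4]
        refine Finset.sum_congr rfl fun w hw => ?_
        rw [if_pos hw, mul_one, mul_one]
      · rw [if_neg ha, if_neg ha, mul_zero, zero_add]
        exact (Finset.sum_eq_zero fun w _ => by rw [zero_mul, mul_zero]).symm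
    · intro A _ hA
      rw [if_neg (Ne.symm hA), mul_zero]
    · intro hh
      exact absurd (Finset.mem_univ _) hh
  have hE := Ex_congr (p := p) hpt
  rw [Ex_sum, Ex_add, Ex_mul_left, Ex_sum] at hE
  have hlow : ∑ A : Finset V, Ex p (fun ω => (if a ∈ A then ta ends p y b -
        ∑ w ∈ A, ta ends p y w * ta ends p w b else 0) *
        (if cu ends ω x = A then (1 : ℝ) else 0)) ≤
      Ex p (fun ω => if a ∈ cu ends ω x ∧ b ∈ cu ends ω y ∧ y ∉ cu ends ω x then (1 : ℝ) else 0) := by
    rw [N3_dec]
    refine Finset.sum_le_sum fun A _ => ?_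
    rw [Ex_mul_left, mul_comm]
    refine mul_le_mul_of_nonneg_left (hk A) (Ex_nonneg h0 h1 fun ω => ?_)
    split_ifs <;> norm_num
  rw [hE] at hlow
  have hta : Ex p (fun ω => if a ∈ cu ends ω x then (1 : ℝ) else 0) = ta ends p x a := by
    unfold ta
    exact Ex_congr fun ω => rfl
  rw [hta] at hlow
  have hsum : ∑ w, ta ends p y w * ta ends p w b * Ex p (fun ω =>
        (if a ∈ cu ends ω x then (1 : ℝ) else 0) * (if w ∈ cu ends ω x then (1 : ℝ) else 0)) ≤
      ∑ z, ∑ w, ta ends p x z * ta ends p z a * ta ends p z w * ta ends p y w * ta ends p w b := by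
    rw [Finset.sum_comm]
    refine Finset.sum_le_sum fun w _ => ?_
    have h3 := tree_graph (ends := ends) h0 h1 x a w
    refine (mul_le_mul_of_nonneg_left h3
      (mul_nonneg (ta_nonneg h0 h1 y w) (ta_nonneg h0 h1 w b))).trans (le_of_eq ?_)
    rw [Finset.mul_sum]
    exact Finset.sum_congr rfl fun z _ => by ring
  have hneg : ∑ w, Ex p (fun ω => -(ta ends p y w * ta ends p w b) *
        ((if a ∈ cu ends ω x then (1 : ℝ) else 0) * (if w ∈ cu ends ω x then (1 : ℝ) else 0))) =
      -∑ w, ta ends p y w * ta ends p w b * Ex p (fun ω =>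
        (if a ∈ cu ends ω x then (1 : ℝ) else 0) * (if w ∈ cu ends ω x then (1 : ℝ) else 0)) := by
    rw [← Finset.sum_neg_distrib]
    refine Finset.sum_congr rfl fun w _ => ?_
    rw [Ex_mul_left, neg_mul]
  rw [hneg] at hlow
  linarith [mul_comm (ta ends p x a) (ta ends p y b)]

theorem N4_ite_nonneg (P : Prop) [Decidable P] : (0 : ℝ) ≤ if P then 1 else 0 := by
  split_ifs <;> norm_num

theorem N4_pv_nonneg {t : ℝ} (h0 : 0 ≤ t) (h1 : t ≤ 1) (x y : V) (e : E) : 0 ≤ pv ends t x y e := by
  unfold pv
  exact Ex_nonneg h0 h1 fun ω => N4_ite_nonneg _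

theorem N4_ta_mono {p q : ℝ} (h0 : 0 ≤ p) (hpq : p ≤ q) (h1 : q ≤ 1) (x y : V) :
    ta ends p x y ≤ ta ends q x y := by
  rw [← rs_univ, ← rs_univ]
  exact rs_mono_p h0 hpq h1 _ x y

open scoped Classical in
theorem N4_event {t : ℝ} (h0 : 0 ≤ t) (h1 : t ≤ 1) (x y a b : V) (F : Finset E)
    (hF : F ∈ Pth ends a b) :
    Ex t (fun ω => if a ∈ cu ends ω x ∧ b ∈ cu ends ω y ∧ y ∉ cu ends ω x then (1 : ℝ) else 0) ≤
      Ex t (fun ω => if y ∉ cu ends ω x ∧ y ∈ cu ends (fun e => if e ∈ F then true else ω e) x then (1 : ℝ) else 0) := by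
  refine Ex_mono h0 h1 fun ω => ?_
  by_cases h : a ∈ cu ends ω x ∧ b ∈ cu ends ω y ∧ y ∉ cu ends ω x
  · rw [if_pos h, if_pos]
    obtain ⟨h2, h3, h4⟩ := h
    refine ⟨h4, ?_⟩
    have h5 : ∀ e, ω e = true → (if e ∈ F then true else ω e) = true := by
      intro e he
      split_ifs
      · rfl
      · exact he
    have hF' : Rch ends (fun e => decide (e ∈ F)) Set.univ a b := hF
    rw [mem_cu] at h2 h3 ⊢
    refine (h2.mono h5 le_rfl).trans ((hF'.mono ?_ le_rfl).trans (h3.mono h5 le_rfl).symm)
    intro e he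
    rw [if_pos (of_decide_eq_true he)]
  · rw [if_neg h]
    exact N4_ite_nonneg _

/-- Row N4. If the bracket is negative the left side is `≤ 0`. Otherwise `russo_ge`: for `p ≤ t ≤ q`: `∑_e pv t e ≥ (1/μ) ∑_{a ∈ A} ∑_{e ∈ F a} pv t e` (`hm`), `surg` for `F a` (`t ^ card ≥ t ^ r`): the event `a ∈ cu x ∧ b a ∈ cu y ∧ y ∉ cu x` implies that `y` is joined to `x` after opening `F a`
(`F a ∈ Pth ends a (b a)`), `dis_low` at `t`, monotonicity of `ta` in the parameter (`rs_mono_p`, `rs_univ`), `t ^ r ≥ p ^ r`. -/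
theorem conv_low {p q : ℝ} (h0 : 0 < p) (hpq : p ≤ q) (hq : q < 1) (x y : V) (A : Finset V) (b : V → V) (F : V → Finset E) (r μ : ℕ) (hμ : 1 ≤ μ)
    (hF : ∀ a ∈ A, F a ∈ Pth ends a (b a)) (hr : ∀ a ∈ A, (F a).card ≤ r) (hm : ∀ e, (A.filter (fun a => e ∈ F a)).card ≤ μ) :
    (q - p) * (p ^ r / μ * (∑ a ∈ A, ta ends p x a * ta ends p y (b a) -
      ∑ a ∈ A, ∑ z, ∑ w, ta ends q x z * ta ends q z a * ta ends q z w * ta ends q y w * ta ends q w (b a))) ≤ ta ends q x y := by
  classical
  have hμ0 : (0 : ℝ) < μ := by exact_mod_cast hμ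
  refine russo_ge h0.le hpq hq x y fun t hpt htq => ?_
  have ht0 : 0 ≤ t := h0.le.trans hpt
  have ht1 : t ≤ 1 := htq.trans hq.le
  have hpr : 0 ≤ p ^ r := (pow_pos h0 r).le
  have hpv : ∀ e, 0 ≤ pv ends t x y e := fun e => N4_pv_nonneg ht0 ht1 x y e
  have h1 : ∀ a ∈ A, p ^ r * (ta ends p x a * ta ends p y (b a) -
      ∑ z, ∑ w, ta ends q x z * ta ends q z a * ta ends q z w * ta ends q y w * ta ends q w (b a)) ≤
      ∑ e ∈ F a, pv ends t x y e := by
    intro a ha
    have h2 := surg (ends := ends) ht0 ht1 x y (F a)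
    have h3 := dis_low (ends := ends) ht0 ht1 x y a (b a)
    have h4 := N4_event (ends := ends) ht0 ht1 x y a (b a) (F a) (hF a ha)
    have h5 : ta ends p x a * ta ends p y (b a) -
        ∑ z, ∑ w, ta ends q x z * ta ends q z a * ta ends q z w * ta ends q y w * ta ends q w (b a) ≤
        ta ends t x a * ta ends t y (b a) -
        ∑ z, ∑ w, ta ends t x z * ta ends t z a * ta ends t z w * ta ends t y w * ta ends t w (b a) := by
      have m1 : ∀ u v, ta ends p u v ≤ ta ends t u v := fun u v => N4_ta_mono h0.le hpt ht1 u v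
      have m2 : ∀ u v, ta ends t u v ≤ ta ends q u v := fun u v => N4_ta_mono ht0 htq hq.le u v
      have n0 : ∀ u v, 0 ≤ ta ends p u v := fun u v => ta_nonneg h0.le (hpt.trans ht1) u v
      have n1 : ∀ u v, 0 ≤ ta ends t u v := fun u v => ta_nonneg ht0 ht1 u v
      have n2 : ∀ u v, 0 ≤ ta ends q u v := fun u v => (n1 u v).trans (m2 u v)
      have c1 : ta ends p x a * ta ends p y (b a) ≤ ta ends t x a * ta ends t y (b a) :=
        mul_le_mul (m1 _ _) (m1 _ _) (n0 _ _) (n1 _ _)
      have c2 : ∑ z, ∑ w, ta ends t x z * ta ends t z a * ta ends t z w * ta ends t y w * ta ends t w (b a) ≤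
          ∑ z, ∑ w, ta ends q x z * ta ends q z a * ta ends q z w * ta ends q y w * ta ends q w (b a) := by
        refine Finset.sum_le_sum fun z _ => Finset.sum_le_sum fun w _ => ?_
        have d1 : ta ends t x z * ta ends t z a ≤ ta ends q x z * ta ends q z a :=
          mul_le_mul (m2 _ _) (m2 _ _) (n1 _ _) (n2 _ _)
        have e1 : 0 ≤ ta ends q x z * ta ends q z a := mul_nonneg (n2 _ _) (n2 _ _)
        have d2 : ta ends t x z * ta ends t z a * ta ends t z w ≤
            ta ends q x z * ta ends q z a * ta ends q z w := mul_le_mul d1 (m2 _ _) (n1 _ _) e1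
        have e2 : 0 ≤ ta ends q x z * ta ends q z a * ta ends q z w := mul_nonneg e1 (n2 _ _)
        have d3 : ta ends t x z * ta ends t z a * ta ends t z w * ta ends t y w ≤
            ta ends q x z * ta ends q z a * ta ends q z w * ta ends q y w :=
          mul_le_mul d2 (m2 _ _) (n1 _ _) e2
        have e3 : 0 ≤ ta ends q x z * ta ends q z a * ta ends q z w * ta ends q y w :=
          mul_nonneg e2 (n2 _ _)
        exact mul_le_mul d3 (m2 _ _) (n1 _ _) e3
      linarith
    have h6 : p ^ r ≤ t ^ (F a).card :=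
      (pow_le_pow_left₀ h0.le hpt r).trans (pow_le_pow_of_le_one ht0 ht1 (hr a ha))
    have h7 := Ex_nonneg ht0 ht1 (f := fun ω => if y ∉ cu ends ω x ∧
      y ∈ cu ends (fun e => if e ∈ F a then true else ω e) x then (1 : ℝ) else 0)
      (fun ω => N4_ite_nonneg _)
    refine le_trans ?_ h2
    refine (mul_le_mul_of_nonneg_left (h5.trans (h3.trans h4)) hpr).trans ?_
    exact mul_le_mul_of_nonneg_right h6 h7
  have h8 : ∑ a ∈ A, ∑ e ∈ F a, pv ends t x y e ≤ μ * ∑ e, pv ends t x y e := by
    have h9 : ∀ a ∈ A, ∑ e ∈ F a, pv ends t x y e =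
        ∑ e, if e ∈ F a then pv ends t x y e else 0 := by
      intro a _
      rw [← Finset.sum_filter]
      congr 1
      ext e
      simp
    rw [Finset.sum_congr rfl h9, Finset.sum_comm, Finset.mul_sum]
    refine Finset.sum_le_sum fun e _ => ?_
    rw [← Finset.sum_filter, Finset.sum_const, nsmul_eq_mul]
    have h10 : (((A.filter (fun a => e ∈ F a)).card : ℕ) : ℝ) ≤ μ := by exact_mod_cast hm e
    exact mul_le_mul_of_nonneg_right h10 (hpv e)
  have h11 : p ^ r * (∑ a ∈ A, ta ends p x a * ta ends p y (b a) -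
      ∑ a ∈ A, ∑ z, ∑ w, ta ends q x z * ta ends q z a * ta ends q z w * ta ends q y w * ta ends q w (b a)) ≤
      μ * ∑ e, pv ends t x y e := by
    rw [← Finset.sum_sub_distrib, Finset.mul_sum]
    exact (Finset.sum_le_sum h1).trans h8
  rw [div_mul_eq_mul_div, div_le_iff₀ hμ0]
  linarith [h11]
end Pool.Agent.PERC29.GU
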