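import Pool.Agent.Lib.MP_29e17e_pr.G.Ir

set_option autoImplicit false
set_option linter.unusedSectionVars false

/-! Rows 29g-R1 .. R11: the reversed inequality of Simon and Lieb; the numbers `be` are bounded. -/

open Finset

namespace Pool.Agent.PERC29.GU

open Pool.Agent.PERC29 Pool.Agent.PERC29.AE Pool.Agent.PERC29.QQ

section gen

variable {V : Type*} [Fintype V] [DecidableEq V] {E : Type*} [Fintype E] [DecidableEq E] {ends : E → Sym2 V}

theorem R1_rch {ω : E → Bool} {S : Set V} {a b : V} (q : (openG ends ω).Walk a b)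
    (h : ∀ w ∈ q.support, w ∈ S) : Rch ends ω S a b := by
  induction q with
  | nil => exact Rch.refl _
  | @cons a c b hadj q ih =>
    have hadj' := hadj
    obtain ⟨-, e, h3, h4⟩ := hadj'
    refine Relation.ReflTransGen.head ⟨h a ?_, h c ?_, e, h3, h4⟩ (ih fun w hw => h w ?_)
    · rw [SimpleGraph.Walk.support_cons]
      exact List.mem_cons_self
    · rw [SimpleGraph.Walk.support_cons]
      exact List.mem_cons_of_mem _ q.start_mem_support
    · rw [SimpleGraph.Walk.support_cons]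
      exact List.mem_cons_of_mem _ hw

theorem R1_split {ω : E → Bool} {A : Finset V} {v y : V} (h : Rch ends ω Set.univ v y)
    (hn : ¬ Rch ends ω ((A : Set V)ᶜ) v y) :
    ∃ a ∈ A, ∃ F ∈ Pth ends v a, ∃ H ∈ Pth ends a y, Disjoint F H ∧ ∀ e ∈ F ∪ H, ω e = true := by
  classical
  obtain ⟨q0⟩ := exists_walk h
  obtain ⟨q, hq⟩ : ∃ q : (openG ends ω).Walk v y, q.IsPath := ⟨_, q0.bypass_isPath⟩
  have hex : ∃ a ∈ q.support, a ∈ A := by
    by_contra hc
    push Not at hc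
    exact hn (R1_rch q fun w hw => by
      rw [Set.mem_compl_iff, Finset.mem_coe]
      exact hc w hw)
  obtain ⟨a, ha, haA⟩ := hex
  have hnd : (q.takeUntil a ha).edges.Disjoint (q.dropUntil a ha).edges := by
    have h1 : q.edges.Nodup := hq.isTrail.edges_nodup
    rw [← q.take_spec ha, SimpleGraph.Walk.edges_append] at h1
    exact (List.nodup_append'.1 h1).2.2
  refine ⟨a, haA, opL ends ω (q.takeUntil a ha).edges, walk_mem_Pth _ _ (fun s hs => hs),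
    opL ends ω (q.dropUntil a ha).edges, walk_mem_Pth _ _ (fun s hs => hs), ?_, ?_⟩
  · exact opL_disjoint (fun s hs hs' => hnd hs hs')
  · intro e he
    simp only [Finset.mem_union, opL, Finset.mem_filter] at he
    tauto

/-- Row R1. If `y ∈ cu ω v` but `y ∉ cl ω Aᶜ v`, then a simple open path from `v` to `y` visits some `a ∈ A`, and its two pieces give `{v ↔ a} ∘ {a ↔ y}`: `bk`, `opn_Pth` (compare `tree_graph`). -/
theorem off_low {p : ℝ} (h0 : 0 ≤ p) (h1 : p ≤ 1) (A : Finset V) (v y : V) :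
    ta ends p v y - ∑ a ∈ A, ta ends p v a * ta ends p a y ≤ rs ends ((A : Set V)ᶜ) p v y := by
  classical
  have e1 : ∀ a b : V, Ex p (opn (Pth ends a b)) = ta ends p a b := by
    intro a b
    unfold ta
    exact Ex_congr fun ω => opn_Pth a b ω
  have hnn : ∀ (a : V) (ω : E → Bool), 0 ≤ opn (dsj (Pth ends v a) (Pth ends a y)) ω := by
    intro a ω
    unfold opn
    split_ifs <;> norm_num
  obtain ⟨r, hr⟩ : ∃ r : (E → Bool) → ℝ, ∀ ω, r ω = if y ∈ cl ends ω ((A : Set V)ᶜ) v then 1 else 0 :=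
    ⟨fun ω => if y ∈ cl ends ω ((A : Set V)ᶜ) v then 1 else 0, fun _ => rfl⟩
  have hrs : rs ends ((A : Set V)ᶜ) p v y = Ex p r := by
    unfold rs
    exact Ex_congr fun ω => (hr ω).symm
  have hr0 : ∀ ω, 0 ≤ r ω := by
    intro ω
    rw [hr]
    split_ifs <;> norm_num
  have hpt : ∀ ω : E → Bool, (if y ∈ cu ends ω v then (1 : ℝ) else 0) ≤
      r ω + ∑ a ∈ A, opn (dsj (Pth ends v a) (Pth ends a y)) ω := by
    intro ω
    have hs0 : 0 ≤ ∑ a ∈ A, opn (dsj (Pth ends v a) (Pth ends a y)) ω :=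
      Finset.sum_nonneg fun a _ => hnn a ω
    by_cases h2 : y ∈ cu ends ω v
    · rw [if_pos h2]
      by_cases h3 : y ∈ cl ends ω ((A : Set V)ᶜ) v
      · rw [hr, if_pos h3]
        linarith
      · obtain ⟨a, ha, F, hF, H, hH, h4, h5⟩ := R1_split (mem_cu.1 h2) (fun h => h3 (mem_cl.2 h))
        have h6 : opn (dsj (Pth ends v a) (Pth ends a y)) ω = 1 := by
          unfold opn
          rw [if_pos]
          exact ⟨F ∪ H, ⟨F, hF, H, hH, h4, rfl⟩, h5⟩
        have h7 : opn (dsj (Pth ends v a) (Pth ends a y)) ω ≤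
            ∑ a ∈ A, opn (dsj (Pth ends v a) (Pth ends a y)) ω :=
          Finset.single_le_sum (f := fun a => opn (dsj (Pth ends v a) (Pth ends a y)) ω)
            (fun a _ => hnn a ω) ha
        have := hr0 ω
        linarith
    · rw [if_neg h2]
      have := hr0 ω
      linarith
  have hE := Ex_mono h0 h1 hpt
  rw [Ex_add, Ex_sum] at hE
  have hb : ∀ a ∈ A, Ex p (fun ω => opn (dsj (Pth ends v a) (Pth ends a y)) ω) ≤
      ta ends p v a * ta ends p a y := by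
    intro a _
    have h2 := bk h0 h1 (Pth ends v a) (Pth ends a y)
    rw [e1, e1] at h2
    exact h2
  have hsum := Finset.sum_le_sum hb
  have hta : Ex p (fun ω => if y ∈ cu ends ω v then (1 : ℝ) else 0) = ta ends p v y := rfl
  have hrr : Ex p (fun ω => r ω) = rs ends ((A : Set V)ᶜ) p v y := hrs.symm
  rw [hrr] at hE
  rw [← hta]
  linarith

/-- Row R2, helper: the probability that all edges of `F` are open. -/
theorem R2_open (p : ℝ) (F : Finset E) :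
    Ex p (fun ω : E → Bool => if ∀ e ∈ F, ω e = true then (1 : ℝ) else 0) = p ^ F.card := by
  classical
  induction F using Finset.induction_on with
  | empty =>
    have h : ∀ ω : E → Bool, (if ∀ e ∈ (∅ : Finset E), ω e = true then (1 : ℝ) else 0) = 1 := fun ω => if_pos (by simp)
    rw [Ex_congr h, Ex_const, Finset.card_empty, pow_zero]
  | insert e F he ih =>
    rw [Finset.card_insert_of_notMem he, pow_succ', ← ih, ← Ex_coord p e]
    · apply Ex_congr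
      intro ω
      by_cases h : ω e = true
      · rw [if_pos h, one_mul]
        apply if_congr _ rfl rfl
        rw [Finset.forall_mem_insert]
        exact ⟨fun h' => h'.2, fun h' => ⟨h, h'⟩⟩
      · rw [if_neg h, zero_mul]
        apply if_neg
        intro h'
        exact h (h' e (Finset.mem_insert_self e F))
    · intro ω ω' h
      apply if_congr _ rfl rfl
      constructor
      · intro h' e' he'
        rw [← h e' (fun hh => he (hh ▸ he'))]
        exact h' e' he'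
      · intro h' e' he'
        rw [h e' (fun hh => he (hh ▸ he'))]
        exact h' e' he'

/-- Row R2, helper: inclusion and exclusion, numbers `0` and `1`. -/
theorem R2_ie {ι : Type*} [DecidableEq ι] (U : Finset ι) (x : ι → ℝ) (hx : ∀ u ∈ U, x u = 0 ∨ x u = 1) (t : ℝ) (ht : 0 ≤ t)
    (h : ∀ u ∈ U, x u = 1 → 1 ≤ t) :
    ∑ u ∈ U, x u - ∑ u ∈ U, ∑ u' ∈ U.erase u, x u * x u' ≤ t := by
  set N : ℝ := ∑ u ∈ U, x u with hN
  have e1 : ∑ u ∈ U, ∑ u' ∈ U.erase u, x u * x u' = N * N - N := by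
    have e2 : ∀ u ∈ U, ∑ u' ∈ U.erase u, x u * x u' = x u * N - x u := by
      intro u hu
      rw [← Finset.mul_sum, Finset.sum_erase_eq_sub hu, ← hN]
      rcases hx u hu with h1 | h1 <;> rw [h1] <;> ring
    rw [Finset.sum_congr rfl e2, Finset.sum_sub_distrib, ← Finset.sum_mul, ← hN]
  rw [e1]
  by_cases hex : ∃ u ∈ U, x u = 1
  · obtain ⟨u, hu, hu1⟩ := hex
    have := h u hu hu1
    nlinarith [sq_nonneg (N - 1)]
  · push Not at hex
    have hN0 : N = 0 := by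
      rw [hN]
      apply Finset.sum_eq_zero
      intro u hu
      rcases hx u hu with h1 | h1
      · exact h1
      · exact absurd h1 (hex u hu)
    rw [hN0]
    linarith

open scoped Classical in
/-- Row R2, helper: the event that the edges of `F` are open and `y` is joined to `x` inside `T`. -/
noncomputable def R2_e (ends : E → Sym2 V) (F : Finset E) (T : Set V) (x y : V) (ω : E → Bool) : ℝ :=
  (if ∀ e ∈ F, ω e = true then (1 : ℝ) else 0) * (if y ∈ cl ends ω T x then (1 : ℝ) else 0)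

theorem R2_e01 (F : Finset E) (T : Set V) (x y : V) (ω : E → Bool) :
    R2_e ends F T x y ω = 0 ∨ R2_e ends F T x y ω = 1 := by
  unfold R2_e
  split_ifs <;> simp

theorem R2_e_nonneg (F : Finset E) (T : Set V) (x y : V) (ω : E → Bool) : 0 ≤ R2_e ends F T x y ω := by
  rcases R2_e01 (ends := ends) F T x y ω with h | h <;> rw [h] <;> norm_num

theorem R2_e_one {F : Finset E} {T : Set V} {x y : V} {ω : E → Bool} (h : R2_e ends F T x y ω = 1) :
    (∀ e ∈ F, ω e = true) ∧ y ∈ cl ends ω T x := by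
  unfold R2_e at h
  by_cases h1 : ∀ e ∈ F, ω e = true
  · by_cases h2 : y ∈ cl ends ω T x
    · exact ⟨h1, h2⟩
    · rw [if_neg h2, mul_zero] at h
      exact absurd h (by norm_num)
  · rw [if_neg h1, zero_mul] at h
    exact absurd h (by norm_num)

/-- Row R2, helper: the inequality of Harris for increasing functions, any universe. -/
theorem R2_fkg {p : ℝ} (h0 : 0 ≤ p) (h1 : p ≤ 1) (f g : (E → Bool) → ℝ) (hf0 : ∀ ω, 0 ≤ f ω) (hg0 : ∀ ω, 0 ≤ g ω)
    (hf : ∀ ω ω' : E → Bool, (∀ e, ω e = true → ω' e = true) → f ω ≤ f ω') (hg : ∀ ω ω' : E → Bool, (∀ e, ω e = true → ω' e = true) → g ω ≤ g ω') :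
    Ex p f * Ex p g ≤ Ex p (fun ω => f ω * g ω) := by
  have hmono : ∀ (u : (E → Bool) → ℝ), (∀ ω ω' : E → Bool, (∀ e, ω e = true → ω' e = true) → u ω ≤ u ω') → Monotone u := by
    intro u hu ω ω' hω
    exact hu ω ω' fun e he => by
      have h3 := hω e
      rw [he] at h3
      exact top_le_iff.1 h3
  have hμ : ∀ a b : E → Bool, wt p a * wt p b ≤ wt p (a ⊓ b) * wt p (a ⊔ b) := by
    intro a b
    refine le_of_eq ?_
    unfold wt
    rw [← Finset.prod_mul_distrib, ← Finset.prod_mul_distrib]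
    refine Finset.prod_congr rfl fun e _ => ?_
    rw [Pi.inf_apply, Pi.sup_apply]
    cases a e <;> cases b e <;> simp [mul_comm]
  have key := fkg (μ := fun ω : E → Bool => wt p ω) (f := f) (g := g)
    (fun ω => wt_nonneg h0 h1 ω) hf0 hg0 (hmono f hf) (hmono g hg) hμ
  have hone : ∑ ω : E → Bool, wt p ω = 1 := by
    have := Ex_const (E := E) p 1
    unfold Ex at this
    simpa using this
  unfold Ex
  rw [hone, one_mul] at key
  exact key

/-- Row R2, helper: the inequality of Harris. -/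
theorem R2_harris {p : ℝ} (h0 : 0 ≤ p) (h1 : p ≤ 1) (F : Finset E) (T : Set V) (x y : V) :
    p ^ F.card * rs ends T p x y ≤ Ex p (fun ω => R2_e ends F T x y ω) := by
  classical
  set f : (E → Bool) → ℝ := fun ω => if ∀ e ∈ F, ω e = true then (1 : ℝ) else 0 with hf
  set g : (E → Bool) → ℝ := fun ω => if y ∈ cl ends ω T x then (1 : ℝ) else 0 with hg
  have hfb : ∀ ω, 0 ≤ f ω ∧ f ω ≤ 1 := by
    intro ω
    simp only [hf]
    split_ifs <;> norm_num
  have hgb : ∀ ω, 0 ≤ g ω ∧ g ω ≤ 1 := by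
    intro ω
    simp only [hg]
    split_ifs <;> norm_num
  have hfm : ∀ ω ω' : E → Bool, (∀ e, ω e = true → ω' e = true) → f ω ≤ f ω' := by
    intro ω ω' h
    simp only [hf]
    by_cases hh : ∀ e ∈ F, ω e = true
    · rw [if_pos hh, if_pos (fun e he => h e (hh e he))]
    · rw [if_neg hh]
      split_ifs <;> norm_num
  have hgm : ∀ ω ω' : E → Bool, (∀ e, ω e = true → ω' e = true) → g ω ≤ g ω' := by
    intro ω ω' h
    simp only [hg]
    by_cases hh : y ∈ cl ends ω T x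
    · rw [if_pos hh, if_pos (cl_mono h (le_refl T) hh)]
    · rw [if_neg hh]
      split_ifs <;> norm_num
  have key := R2_fkg h0 h1 f g (fun ω => (hfb ω).1) (fun ω => (hgb ω).1) hfm hgm
  have e4 : Ex p f = p ^ F.card := R2_open p F
  have e5 : Ex p g = rs ends T p x y := rfl
  rw [e4, e5] at key
  have e6 : Ex p (fun ω => R2_e ends F T x y ω) = Ex p (fun ω => f ω * g ω) := rfl
  rw [e6]
  exact key

/-- Row R2, helper: dependence on the edges. -/
theorem R2_dep {S T : Set V} {A : Finset V} {F : Finset E} (hF : ∀ e ∈ F, ∃ w ∈ ends e, w ∉ S) (hT : T = ((A : Set V))ᶜ) (x y : V)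
    {ω ω' : E → Bool} (h : ∀ e, e ∉ {e' : E | ∃ a b, ends e' = s(a, b) ∧ a ∈ S ∧ b ∈ S ∧ a ∈ A} → ω e = ω' e) :
    R2_e ends F T x y ω = R2_e ends F T x y ω' := by
  classical
  unfold R2_e
  have h1 : (∀ e ∈ F, ω e = true) ↔ (∀ e ∈ F, ω' e = true) := by
    have hk : ∀ e ∈ F, ω e = ω' e := by
      intro e he
      apply h
      rintro ⟨a, b, h2, h3, h4, -⟩
      obtain ⟨w, hw, hwS⟩ := hF e he
      rw [h2, Sym2.mem_iff] at hw
      rcases hw with rfl | rfl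
      · exact hwS h3
      · exact hwS h4
    exact ⟨fun h' e he => by rw [← hk e he]; exact h' e he, fun h' e he => by rw [hk e he]; exact h' e he⟩
  have h2 : cl ends ω T x = cl ends ω' T x := by
    apply cl_dep
    intro e a b h2 h3 h4
    apply h
    rintro ⟨a', b', h5, _, _, h8⟩
    rw [hT] at h3 h4
    rw [h2] at h5
    rcases Sym2.eq_iff.1 h5 with ⟨rfl, rfl⟩ | ⟨rfl, rfl⟩
    · exact h3 h8
    · exact h4 h8
  rw [h2]
  congr 1
  exact if_congr h1 rfl rfl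

/-- Row R2, helper: the expectation of a function of the cluster. -/
theorem R2_split (p : ℝ) (S : Set V) (o : V) (Φ : Finset V → (E → Bool) → ℝ) :
    Ex p (fun ω => Φ (cl ends ω S o) ω) = ∑ A : Finset V, Ex p (fun ω => (if cl ends ω S o = A then (1 : ℝ) else 0) * Φ A ω) := by
  classical
  rw [← Ex_sum]
  apply Ex_congr
  intro ω
  rw [Finset.sum_eq_single (cl ends ω S o)]
  · rw [if_pos rfl, one_mul]
  · intro A _ hA
    rw [if_neg (Ne.symm hA), zero_mul]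
  · intro h
    exact absurd (Finset.mem_univ _) h

open scoped Classical in
/-- Row R2. Fix a value `A` of `cl ω S o` (sum over all `A`; the event `cl ω S o = A` depends only on the edges with both ends in `S` and an end in `A`, `cl_eq_dep`). On this event, for `u ∈ U A` let `E u y` be: all edges of `Pe u` are open and `y ∈ cl ω Aᶜ (v u)`; then `y ∈ cu ω o`. For `y ∈ Y`:
`1[y ∈ cu ω o] ≥ ∑_u 1[y ∈ D u] 1[E u y] - ∑_{u ≠ u'} 1[y ∈ D u ∩ D u'] 1[E u y] 1[E u' y]`. The events `E u y` depend only on the other edges (`Ex_indep`: edges of `Pe u` have an end outside `S`; edges inside `Aᶜ` have no end in `A`), so `Ex p (1[cl = A] * ..)` factorizes;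
`Ex p 1[E u y] ≥ p^r * rs ends Aᶜ p (v u) y` (`harris`, both events are increasing; the probability that all edges of `Pe u` are open is `p ^ card`), `1[E u y] 1[E u' y] ≤ 1[v u ∈ cu y ∧ v u' ∈ cu y]`. -/
theorem explore {p : ℝ} (h0 : 0 ≤ p) (h1 : p ≤ 1) (S : Set V) (o : V) (ho : o ∈ S) (G : Finset V) (U : Finset V → Finset V) (hU : ∀ A, U A ⊆ A ∩ G)
    (r : ℕ) (Pe : V → Finset E) (v : V → V) (D : V → Finset V) (Y : Finset V) (hPe : ∀ u ∈ G, (Pe u).card ≤ r)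
    (hPS : ∀ u ∈ G, ∀ e ∈ Pe u, ∃ w ∈ ends e, w ∉ S) (hv : ∀ u ∈ G, Pe u ∈ Pth ends u (v u)) (hD : ∀ u ∈ G, D u ⊆ Y) :
    Ex p (fun ω => ∑ u ∈ U (cl ends ω S o), p ^ r * ∑ y ∈ D u, rs ends (((cl ends ω S o : Finset V) : Set V)ᶜ) p (v u) y) -
      Ex p (fun ω => ∑ u ∈ U (cl ends ω S o), ∑ u' ∈ (U (cl ends ω S o)).erase u, ∑ y ∈ D u ∩ D u',
        Ex p (fun ω' => if v u ∈ cu ends ω' y ∧ v u' ∈ cu ends ω' y then (1 : ℝ) else 0)) ≤
      ∑ y ∈ Y, ta ends p o y := by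
  classical
  -- the random variables for a fixed value `A` of the cluster
  set Z : Finset V → (E → Bool) → ℝ := fun A ω =>
    ∑ u ∈ U A, ∑ y ∈ D u, R2_e ends (Pe u) ((A : Set V))ᶜ (v u) y ω -
      ∑ u ∈ U A, ∑ u' ∈ (U A).erase u, ∑ y ∈ D u ∩ D u',
        R2_e ends (Pe u) ((A : Set V))ᶜ (v u) y ω * R2_e ends (Pe u') ((A : Set V))ᶜ (v u') y ω with hZ
  set F : Finset V → ℝ := fun A =>
    ∑ u ∈ U A, p ^ r * ∑ y ∈ D u, rs ends (((A : Finset V) : Set V)ᶜ) p (v u) y -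
      ∑ u ∈ U A, ∑ u' ∈ (U A).erase u, ∑ y ∈ D u ∩ D u',
        Ex p (fun ω' => if v u ∈ cu ends ω' y ∧ v u' ∈ cu ends ω' y then (1 : ℝ) else 0) with hFd
  have hGu : ∀ A, ∀ u ∈ U A, u ∈ G := fun A u hu => (Finset.mem_inter.1 (hU A hu)).2
  have hAu : ∀ A, ∀ u ∈ U A, u ∈ A := fun A u hu => (Finset.mem_inter.1 (hU A hu)).1
  -- the left side
  have hL : Ex p (fun ω => ∑ u ∈ U (cl ends ω S o), p ^ r * ∑ y ∈ D u, rs ends (((cl ends ω S o : Finset V) : Set V)ᶜ) p (v u) y) -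
      Ex p (fun ω => ∑ u ∈ U (cl ends ω S o), ∑ u' ∈ (U (cl ends ω S o)).erase u, ∑ y ∈ D u ∩ D u',
        Ex p (fun ω' => if v u ∈ cu ends ω' y ∧ v u' ∈ cu ends ω' y then (1 : ℝ) else 0)) =
      ∑ A : Finset V, Ex p (fun ω => (if cl ends ω S o = A then (1 : ℝ) else 0)) * F A := by
    have e1 : ∀ f g : (E → Bool) → ℝ, Ex p f - Ex p g = Ex p (fun ω => f ω - g ω) := by
      intro f g
      have e2 : ∀ ω : E → Bool, f ω - g ω = f ω + (-1) * g ω := fun ω => by ring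
      rw [Ex_congr e2, Ex_add, Ex_mul_left]
      ring
    rw [e1]
    have e3 : Ex p (fun ω => F (cl ends ω S o)) = ∑ A : Finset V, Ex p (fun ω => (if cl ends ω S o = A then (1 : ℝ) else 0) * F A) :=
      R2_split p S o (fun A _ => F A)
    refine Eq.trans ?_ (e3.trans ?_)
    · rfl
    · refine Finset.sum_congr rfl fun A _ => ?_
      have e4 : ∀ ω : E → Bool, (if cl ends ω S o = A then (1 : ℝ) else 0) * F A = F A * (if cl ends ω S o = A then (1 : ℝ) else 0) :=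
        fun ω => mul_comm _ _
      rw [Ex_congr e4, Ex_mul_left, mul_comm]
  -- the right side
  have hR : ∑ y ∈ Y, ta ends p o y =
      ∑ A : Finset V, Ex p (fun ω => (if cl ends ω S o = A then (1 : ℝ) else 0) * ∑ y ∈ Y, (if y ∈ cu ends ω o then (1 : ℝ) else 0)) := by
    rw [← R2_split p S o (fun _ ω => ∑ y ∈ Y, (if y ∈ cu ends ω o then (1 : ℝ) else 0)), Ex_sum]
    rfl
  rw [hL, hR]
  refine Finset.sum_le_sum fun A _ => ?_
  have hI0 : 0 ≤ Ex p (fun ω => (if cl ends ω S o = A then (1 : ℝ) else 0)) :=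
    Ex_nonneg h0 h1 fun ω => by split_ifs <;> norm_num
  -- the mean of `Z A`
  have hZF : F A ≤ Ex p (Z A) := by
    have e1 : Ex p (Z A) = ∑ u ∈ U A, ∑ y ∈ D u, Ex p (fun ω => R2_e ends (Pe u) ((A : Set V))ᶜ (v u) y ω) -
        ∑ u ∈ U A, ∑ u' ∈ (U A).erase u, ∑ y ∈ D u ∩ D u',
          Ex p (fun ω => R2_e ends (Pe u) ((A : Set V))ᶜ (v u) y ω * R2_e ends (Pe u') ((A : Set V))ᶜ (v u') y ω) := by
      have e2 : ∀ ω : E → Bool, Z A ω = (∑ u ∈ U A, ∑ y ∈ D u, R2_e ends (Pe u) ((A : Set V))ᶜ (v u) y ω) +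
          (-1) * ∑ u ∈ U A, ∑ u' ∈ (U A).erase u, ∑ y ∈ D u ∩ D u',
            R2_e ends (Pe u) ((A : Set V))ᶜ (v u) y ω * R2_e ends (Pe u') ((A : Set V))ᶜ (v u') y ω := by
        intro ω
        simp only [hZ]
        ring
      rw [Ex_congr e2, Ex_add, Ex_mul_left, Ex_sum, Ex_sum]
      have e3 : ∀ u ∈ U A, Ex p (fun ω => ∑ y ∈ D u, R2_e ends (Pe u) ((A : Set V))ᶜ (v u) y ω) =
          ∑ y ∈ D u, Ex p (fun ω => R2_e ends (Pe u) ((A : Set V))ᶜ (v u) y ω) := fun u _ => Ex_sum _ _ _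
      have e4 : ∀ u ∈ U A, Ex p (fun ω => ∑ u' ∈ (U A).erase u, ∑ y ∈ D u ∩ D u',
          R2_e ends (Pe u) ((A : Set V))ᶜ (v u) y ω * R2_e ends (Pe u') ((A : Set V))ᶜ (v u') y ω) =
          ∑ u' ∈ (U A).erase u, ∑ y ∈ D u ∩ D u',
          Ex p (fun ω => R2_e ends (Pe u) ((A : Set V))ᶜ (v u) y ω * R2_e ends (Pe u') ((A : Set V))ᶜ (v u') y ω) := by
        intro u _
        rw [Ex_sum]
        exact Finset.sum_congr rfl fun u' _ => Ex_sum _ _ _
      rw [Finset.sum_congr rfl e3, Finset.sum_congr rfl e4]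
      ring
    rw [e1]
    simp only [hFd]
    refine sub_le_sub ?_ ?_
    · refine Finset.sum_le_sum fun u hu => ?_
      rw [Finset.mul_sum]
      refine Finset.sum_le_sum fun y _ => ?_
      refine le_trans ?_ (R2_harris h0 h1 (Pe u) ((A : Set V))ᶜ (v u) y)
      exact mul_le_mul_of_nonneg_right (pow_le_pow_of_le_one h0 h1 (hPe u (hGu A u hu))) (rs_nonneg h0 h1 _ _ _)
    · refine Finset.sum_le_sum fun u _ => Finset.sum_le_sum fun u' _ => Finset.sum_le_sum fun y _ => ?_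
      apply Ex_mono h0 h1
      intro ω
      rcases R2_e01 (ends := ends) (Pe u) ((A : Set V))ᶜ (v u) y ω with h2 | h2
      · rw [h2, zero_mul]
        split_ifs <;> norm_num
      · rcases R2_e01 (ends := ends) (Pe u') ((A : Set V))ᶜ (v u') y ω with h3 | h3
        · rw [h3, mul_zero]
          split_ifs <;> norm_num
        · rw [h2, h3, one_mul, if_pos]
          refine ⟨cu_symm.1 ?_, cu_symm.1 ?_⟩
          · exact cl_mono (fun _ h => h) (Set.subset_univ _) (R2_e_one h2).2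
          · exact cl_mono (fun _ h => h) (Set.subset_univ _) (R2_e_one h3).2
  refine (mul_le_mul_of_nonneg_left hZF hI0).trans ?_
  -- independence
  rw [← Ex_indep p {e' : E | ∃ a b, ends e' = s(a, b) ∧ a ∈ S ∧ b ∈ S ∧ a ∈ A} (fun ω => if cl ends ω S o = A then (1 : ℝ) else 0) (Z A)]
  · -- the pointwise inequality
    apply Ex_mono h0 h1
    intro ω
    by_cases hA : cl ends ω S o = A
    · rw [if_pos hA, one_mul, one_mul]
      have hpt : ∀ y ∈ Y, ∑ u ∈ U A, (if y ∈ D u then R2_e ends (Pe u) ((A : Set V))ᶜ (v u) y ω else 0) -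
          ∑ u ∈ U A, ∑ u' ∈ (U A).erase u, (if y ∈ D u then R2_e ends (Pe u) ((A : Set V))ᶜ (v u) y ω else 0) *
            (if y ∈ D u' then R2_e ends (Pe u') ((A : Set V))ᶜ (v u') y ω else 0) ≤ (if y ∈ cu ends ω o then (1 : ℝ) else 0) := by
        intro y _
        apply R2_ie
        · intro u _
          by_cases hy : y ∈ D u
          · rw [if_pos hy]
            exact R2_e01 _ _ _ _ _
          · rw [if_neg hy]
            exact Or.inl rfl
        · split_ifs <;> norm_num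
        · intro u hu hx
          by_cases hy : y ∈ D u
          · rw [if_pos hy] at hx
            obtain ⟨h2, h3⟩ := R2_e_one hx
            rw [if_pos]
            rw [mem_cu]
            have h4 : Rch ends ω S o u := by
              rw [← mem_cl, hA]
              exact hAu A u hu
            have h5 : Rch ends ω Set.univ u (v u) := by
              have h6 : Rch ends (fun e => decide (e ∈ Pe u)) Set.univ u (v u) := hv u (hGu A u hu)
              exact h6.mono (fun e he => h2 e (of_decide_eq_true he)) le_rfl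
            have h7 : Rch ends ω Set.univ (v u) y := by
              rw [mem_cl] at h3
              exact h3.mono (fun _ h => h) (Set.subset_univ _)
            exact ((h4.mono (fun _ h => h) (Set.subset_univ _)).trans h5).trans h7
          · rw [if_neg hy] at hx
            exact absurd hx (by norm_num)
      refine le_trans (le_of_eq ?_) (Finset.sum_le_sum hpt)
      rw [Finset.sum_sub_distrib]
      simp only [hZ]
      congr 1
      · rw [Finset.sum_comm]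
        refine Finset.sum_congr rfl fun u hu => ?_
        rw [Finset.sum_ite_mem, Finset.inter_eq_right.2 (hD u (hGu A u hu))]
      · rw [Finset.sum_comm]
        refine Finset.sum_congr rfl fun u hu => ?_
        rw [Finset.sum_comm]
        refine Finset.sum_congr rfl fun u' hu' => ?_
        have e5 : ∀ y ∈ Y, (if y ∈ D u then R2_e ends (Pe u) ((A : Set V))ᶜ (v u) y ω else 0) *
            (if y ∈ D u' then R2_e ends (Pe u') ((A : Set V))ᶜ (v u') y ω else 0) =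
            if y ∈ D u ∩ D u' then R2_e ends (Pe u) ((A : Set V))ᶜ (v u) y ω * R2_e ends (Pe u') ((A : Set V))ᶜ (v u') y ω else 0 := by
          intro y _
          by_cases h2 : y ∈ D u
          · by_cases h3 : y ∈ D u'
            · rw [if_pos h2, if_pos h3, if_pos (Finset.mem_inter.2 ⟨h2, h3⟩)]
            · rw [if_neg h3, mul_zero, if_neg (fun h => h3 (Finset.mem_inter.1 h).2)]
          · rw [if_neg h2, zero_mul, if_neg (fun h => h2 (Finset.mem_inter.1 h).1)]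
        have e6 : Y ∩ (D u ∩ D u') = D u ∩ D u' :=
          Finset.inter_eq_right.2 (Finset.inter_subset_left.trans (hD u (hGu A u hu)))
        rw [Finset.sum_congr rfl e5, Finset.sum_ite_mem, e6]
    · rw [if_neg hA, zero_mul, zero_mul]
  · intro ω ω' h
    have key : ∀ ω ω' : E → Bool, (∀ e ∈ {e' : E | ∃ a b, ends e' = s(a, b) ∧ a ∈ S ∧ b ∈ S ∧ a ∈ A}, ω e = ω' e) → cl ends ω S o = A →
        cl ends ω' S o = A := by
      intro ω ω' h hA
      exact cl_eq_dep (fun e' a b h2 h3 h4 h5 => h e' ⟨a, b, h2, h3, h4, h5⟩) hA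
    by_cases hc : cl ends ω S o = A
    · rw [if_pos hc, if_pos (key ω ω' h hc)]
    · rw [if_neg hc, if_neg]
      intro hc'
      exact hc (key ω' ω (fun e he => (h e he).symm) hc')
  · intro ω ω' h
    have hk : ∀ u ∈ U A, ∀ y, R2_e ends (Pe u) ((A : Set V))ᶜ (v u) y ω = R2_e ends (Pe u) ((A : Set V))ᶜ (v u) y ω' :=
      fun u hu y => R2_dep (S := S) (A := A) (hPS u (hGu A u hu)) rfl (v u) y h
    simp only [hZ]
    congr 1
    · exact Finset.sum_congr rfl fun u hu => Finset.sum_congr rfl fun y _ => hk u hu y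
    · exact Finset.sum_congr rfl fun u hu => Finset.sum_congr rfl fun u' hu' => Finset.sum_congr rfl fun y _ => by
        rw [hk u hu y, hk u' (Finset.mem_of_mem_erase hu') y]

end gen

variable {d : ℕ}

private lemma R3_geo (N : ℕ) : ∑ i ∈ range N, ((3 : ℝ) / 4) ^ i ≤ 4 := by
  have h1 : (0 : ℝ) ≤ (3 / 4) ^ N := by positivity
  rw [geom_sum_eq (by norm_num), div_le_iff_of_neg (by norm_num)]
  linarith

private lemma R3_y (i ρ : ℕ) (hρ : 1 ≤ ρ) : 1 / Real.sqrt (((2 ^ (i + 1) * ρ : ℕ) : ℝ)) ≤ (3 / 4) ^ i / Real.sqrt ρ := by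
  have h1 : (0 : ℝ) < ρ := by exact_mod_cast hρ
  have h2 : (0 : ℝ) < ((2 ^ (i + 1) * ρ : ℕ) : ℝ) := by push_cast; positivity
  rw [div_le_div_iff₀ (Real.sqrt_pos.2 h2) (Real.sqrt_pos.2 h1), one_mul]
  have e1 : ((3 : ℝ) / 4) ^ i = Real.sqrt ((9 / 16) ^ i) := by
    rw [show ((9 : ℝ) / 16) = (3 / 4) ^ 2 by norm_num, ← pow_mul, mul_comm 2 i, pow_mul, Real.sqrt_sq (by positivity)]
  rw [e1, ← Real.sqrt_mul (by positivity)]
  apply Real.sqrt_le_sqrt
  have e2 : ((9 : ℝ) / 16) ^ i * ((2 ^ (i + 1) * ρ : ℕ) : ℝ) = 2 * (9 / 8) ^ i * ρ := by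
    push_cast
    rw [pow_succ, show ((9 : ℝ) / 8) = 9 / 16 * 2 by norm_num, mul_pow]
    ring
  rw [e2]
  have e3 : (1 : ℝ) ≤ (9 / 8) ^ i := one_le_pow₀ (by norm_num)
  nlinarith

private lemma R3_shell {d l m0 ρ i : ℕ} {u : Fin d → Fin l} {A : Finset (Fin d → Fin l)} (hρ : 1 ≤ ρ) (hm0 : m0 ≤ ρ)
    (hA : ∀ m : ℕ, m0 ≤ m → (((A ∩ bb u m).card : ℕ) : ℝ) ^ 2 ≤ (m : ℝ) ^ 9) {F : Finset (Fin d → Fin l)}
    (hF : ∀ a ∈ F, a ∈ A ∧ 2 ^ i * ρ ≤ nd u a ∧ nd u a < 2 ^ (i + 1) * ρ) :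
    ∑ a ∈ F, fk 5 u a ≤ 32 / Real.sqrt ρ * (3 / 4) ^ i := by
  have h2i : (0 : ℝ) < ((2 ^ i * ρ : ℕ) : ℝ) := by
    have : 0 < 2 ^ i * ρ := by positivity
    exact_mod_cast this
  obtain ⟨y, hy⟩ : ∃ y, y = Real.sqrt (((2 ^ (i + 1) * ρ : ℕ) : ℝ)) := ⟨_, rfl⟩
  have h2 : (0 : ℝ) < ((2 ^ (i + 1) * ρ : ℕ) : ℝ) := by push_cast; positivity
  have hy0 : 0 < y := by rw [hy]; exact Real.sqrt_pos.2 h2
  have hy2 : y ^ 2 = ((2 ^ (i + 1) * ρ : ℕ) : ℝ) := by rw [hy, Real.sq_sqrt h2.le]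
  have hy3 : ((2 ^ i * ρ : ℕ) : ℝ) = y ^ 2 / 2 := by
    rw [hy2]
    push_cast
    rw [pow_succ]
    ring
  have hm : m0 ≤ 2 ^ (i + 1) * ρ := hm0.trans (Nat.le_mul_of_pos_left ρ (by positivity))
  have hcard : ((F.card : ℕ) : ℝ) ≤ y ^ 9 := by
    have h3 : F ⊆ A ∩ bb u (2 ^ (i + 1) * ρ) := by
      intro a ha
      obtain ⟨q1, -, q3⟩ := hF a ha
      unfold bb
      rw [mem_inter, mem_filter]
      exact ⟨q1, mem_univ _, q3.le⟩
    have h4 : ((F.card : ℕ) : ℝ) ≤ (((A ∩ bb u (2 ^ (i + 1) * ρ)).card : ℕ) : ℝ) := by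
      exact_mod_cast card_le_card h3
    have h5 := hA _ hm
    rw [← hy2, ← pow_mul, mul_comm 2 9, pow_mul] at h5
    exact h4.trans ((sq_le_sq₀ (Nat.cast_nonneg _) (by positivity)).1 h5)
  have hterm : ∀ a ∈ F, fk 5 u a ≤ 1 / ((2 ^ i * ρ : ℕ) : ℝ) ^ 5 := by
    intro a ha
    obtain ⟨-, q2, -⟩ := hF a ha
    unfold fk
    have h6 : ((2 ^ i * ρ : ℕ) : ℝ) ≤ 1 + (nd u a : ℝ) := by
      have : ((2 ^ i * ρ : ℕ) : ℝ) ≤ (nd u a : ℝ) := by exact_mod_cast q2
      linarith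
    exact one_div_le_one_div_of_le (by positivity) (pow_le_pow_left₀ h2i.le h6 5)
  calc ∑ a ∈ F, fk 5 u a ≤ ∑ _a ∈ F, 1 / ((2 ^ i * ρ : ℕ) : ℝ) ^ 5 := sum_le_sum hterm
    _ = ((F.card : ℕ) : ℝ) * (1 / ((2 ^ i * ρ : ℕ) : ℝ) ^ 5) := by rw [sum_const, nsmul_eq_mul]
    _ ≤ y ^ 9 * (1 / ((2 ^ i * ρ : ℕ) : ℝ) ^ 5) := mul_le_mul_of_nonneg_right hcard (by positivity)
    _ = 32 * (1 / y) := by
        rw [hy3]
        field_simp
        norm_num
    _ ≤ 32 * ((3 / 4) ^ i / Real.sqrt ρ) := by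
        refine mul_le_mul_of_nonneg_left ?_ (by norm_num)
        rw [hy]
        exact R3_y i ρ hρ
    _ = 32 / Real.sqrt ρ * (3 / 4) ^ i := by ring

/-- Row R3. Dyadic shells: the number of `a ∈ A` with `2^i ρ ≤ nd u a < 2^(i+1) ρ` is at most `(2^(i+1) ρ)^(9/2)`, each term is at most `(2^i ρ)^(-5)`; sum at most `2^(9/2) ∑_i (2^i ρ)^(-1/2)`. (Or Abel summation over `nd u a`.) -/
theorem pow_sum (d : ℕ) : ∃ K : ℝ, 1 ≤ K ∧ ∀ (l m0 ρ : ℕ) (u : Fin d → Fin l) (A : Finset (Fin d → Fin l)), 1 ≤ ρ → m0 ≤ ρ →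
    (∀ m : ℕ, m0 ≤ m → (((A ∩ bb u m).card : ℕ) : ℝ) ^ 2 ≤ (m : ℝ) ^ 9) →
    ∑ a ∈ A.filter (fun a => ρ ≤ nd u a), fk 5 u a ≤ K / Real.sqrt ρ := by
  refine ⟨128, by norm_num, ?_⟩
  intro l m0 ρ u A hρ hm0 hA
  obtain ⟨F, hF⟩ : ∃ F, F = A.filter (fun a => ρ ≤ nd u a) := ⟨_, rfl⟩
  rw [← hF]
  have hdy : ∀ a ∈ F, a ∈ A ∧ 2 ^ (Nat.log 2 (nd u a / ρ)) * ρ ≤ nd u a ∧
      nd u a < 2 ^ (Nat.log 2 (nd u a / ρ) + 1) * ρ := by
    intro a ha
    rw [hF, mem_filter] at ha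
    have h1 : nd u a / ρ ≠ 0 := by
      have := (Nat.one_le_div_iff hρ).2 ha.2
      omega
    refine ⟨ha.1, ?_, ?_⟩
    · exact (Nat.le_div_iff_mul_le hρ).1 (Nat.pow_log_le_self 2 h1)
    · exact (Nat.div_lt_iff_lt_mul hρ).1 (Nat.lt_pow_succ_log_self (by norm_num) _)
  have hmaps : ∀ a ∈ F, Nat.log 2 (nd u a / ρ) ∈ range (F.sup (fun a => Nat.log 2 (nd u a / ρ)) + 1) := by
    intro a ha
    rw [mem_range]
    exact Nat.lt_succ_of_le (le_sup (f := fun a => Nat.log 2 (nd u a / ρ)) ha)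
  rw [← sum_fiberwise_of_maps_to hmaps]
  have hs : 0 ≤ 32 / Real.sqrt ρ := by positivity
  calc ∑ j ∈ range (F.sup (fun a => Nat.log 2 (nd u a / ρ)) + 1), ∑ a ∈ F with Nat.log 2 (nd u a / ρ) = j, fk 5 u a
      ≤ ∑ j ∈ range (F.sup (fun a => Nat.log 2 (nd u a / ρ)) + 1), 32 / Real.sqrt ρ * (3 / 4) ^ j := by
        refine sum_le_sum fun j _ => R3_shell hρ hm0 hA ?_
        intro a ha
        rw [mem_filter] at ha
        have := hdy a ha.1
        rw [ha.2] at this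
        exact this
    _ = 32 / Real.sqrt ρ * ∑ j ∈ range (F.sup (fun a => Nat.log 2 (nd u a / ρ)) + 1), ((3 : ℝ) / 4) ^ j := by
        rw [mul_sum]
    _ ≤ 32 / Real.sqrt ρ * 4 := mul_le_mul_of_nonneg_left (R3_geo _) hs
    _ = 128 / Real.sqrt ρ := by ring

private lemma R4_many {l : ℕ} (a : Fin l) (k : ℕ) :
    (Finset.univ.filter (fun v : Fin l => ((a : ℕ) - (v : ℕ)) + ((v : ℕ) - (a : ℕ)) ≤ k)).card ≤
      2 * k + 1 := by
  have h1 : ((Finset.univ.filter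
      (fun v : Fin l => ((a : ℕ) - (v : ℕ)) + ((v : ℕ) - (a : ℕ)) ≤ k)).image (fun v : Fin l => (v : ℕ))) ⊆
      Finset.Icc ((a : ℕ) - k) ((a : ℕ) + k) := by
    intro m hm
    obtain ⟨v, hv, rfl⟩ := Finset.mem_image.1 hm
    rw [Finset.mem_filter] at hv
    rw [Finset.mem_Icc]
    omega
  have h2 := Finset.card_le_card h1
  rw [Finset.card_image_of_injective _ Fin.val_injective, Nat.card_Icc] at h2
  omega

private lemma R4_ball {l : ℕ} (x : Fin d → Fin l) (k : ℕ) : (bb x k).card ≤ (2 * k + 1) ^ d := by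
  classical
  have hsub : bb x k ⊆ Fintype.piFinset (fun j : Fin d => Finset.univ.filter
      (fun v : Fin l => ((x j : ℕ) - (v : ℕ)) + ((v : ℕ) - (x j : ℕ)) ≤ k)) := by
    intro y hy
    unfold bb at hy
    rw [Finset.mem_filter] at hy
    rw [Fintype.mem_piFinset]
    intro j
    rw [Finset.mem_filter]
    refine ⟨Finset.mem_univ _, ?_⟩
    have h1 : ((x j : ℕ) - (y j : ℕ)) + ((y j : ℕ) - (x j : ℕ)) ≤ nd x y :=
      Finset.le_sup (f := fun i => ((x i : ℕ) - (y i : ℕ)) + ((y i : ℕ) - (x i : ℕ)))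
        (Finset.mem_univ j)
    exact h1.trans hy.2
  refine (Finset.card_le_card hsub).trans ?_
  rw [Fintype.card_piFinset]
  calc ∏ j : Fin d, (Finset.univ.filter
        (fun v : Fin l => ((x j : ℕ) - (v : ℕ)) + ((v : ℕ) - (x j : ℕ)) ≤ k)).card
      ≤ (2 * k + 1) ^ (Finset.univ : Finset (Fin d)).card :=
        Finset.prod_le_pow_card _ _ _ (fun j _ => R4_many (x j) k)
    _ = (2 * k + 1) ^ d := by rw [Finset.card_univ, Fintype.card_fin]

/-- Row R4. A maximal subset of `X` with pairwise distances `> ρ`: the balls of radius `ρ` about its elements cover `X`, each has at most `(2 ρ + 1)^d` vertices. -/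
theorem greedy {l : ℕ} (X : Finset (Fin d → Fin l)) (ρ : ℕ) : ∃ U ⊆ X, (∀ u ∈ U, ∀ u' ∈ U, u ≠ u' → ρ < nd u u') ∧ X.card ≤ (2 * ρ + 1) ^ d * U.card := by
  classical
  obtain ⟨U, hU, hmax⟩ := Finset.exists_max_image
    (X.powerset.filter (fun U => ∀ u ∈ U, ∀ u' ∈ U, u ≠ u' → ρ < nd u u'))
    (fun U => U.card) ⟨∅, by
      rw [Finset.mem_filter, Finset.mem_powerset]
      exact ⟨Finset.empty_subset _, fun u hu => absurd hu (Finset.notMem_empty u)⟩⟩
  rw [Finset.mem_filter, Finset.mem_powerset] at hU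
  refine ⟨U, hU.1, hU.2, ?_⟩
  have hcov : ∀ x ∈ X, ∃ u ∈ U, nd u x ≤ ρ := by
    intro x hx
    by_contra hcon
    have hcon' : ∀ u ∈ U, ρ < nd u x := by
      intro u hu
      by_contra h1
      exact hcon ⟨u, hu, not_lt.1 h1⟩
    have hxU : x ∉ U := by
      intro hxU
      have h1 := hcon' x hxU
      have h2 : nd x x = 0 := by
        unfold nd
        simp
      omega
    have h1 := hmax (insert x U) (by
      rw [Finset.mem_filter, Finset.mem_powerset]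
      refine ⟨Finset.insert_subset hx hU.1, ?_⟩
      intro u hu u' hu' hne
      rcases Finset.mem_insert.1 hu with h2 | h2
      · rcases Finset.mem_insert.1 hu' with h3 | h3
        · exact absurd (h2.trans h3.symm) hne
        · rw [h2, nd_symm]
          exact hcon' u' h3
      · rcases Finset.mem_insert.1 hu' with h3 | h3
        · rw [h3]
          exact hcon' u h2
        · exact hU.2 u h2 u' h3 hne)
    rw [Finset.card_insert_of_notMem hxU] at h1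
    omega
  have hsub : X ⊆ U.biUnion (fun u => bb u ρ) := by
    intro x hx
    obtain ⟨u, hu, hux⟩ := hcov x hx
    rw [Finset.mem_biUnion]
    refine ⟨u, hu, ?_⟩
    unfold bb
    rw [Finset.mem_filter]
    exact ⟨Finset.mem_univ _, hux⟩
  calc X.card ≤ (U.biUnion (fun u => bb u ρ)).card := Finset.card_le_card hsub
    _ ≤ U.card * (2 * ρ + 1) ^ d := Finset.card_biUnion_le_card_mul _ _ _ (fun u _ => R4_ball u ρ)
    _ = (2 * ρ + 1) ^ d * U.card := mul_comm _ _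

private theorem R5_le {l : ℕ} (x y : Fin d → Fin l) (i : Fin d) :
    ((x i : ℕ) - (y i : ℕ)) + ((y i : ℕ) - (x i : ℕ)) ≤ nd x y :=
  Finset.le_sup (f := fun i => ((x i : ℕ) - (y i : ℕ)) + ((y i : ℕ) - (x i : ℕ)))
    (Finset.mem_univ i)

private theorem R5_eq {l m : ℕ} (x y : Fin d → Fin l) (i : Fin d)
    (h1 : ((x i : ℕ) - (y i : ℕ)) + ((y i : ℕ) - (x i : ℕ)) = m)
    (h2 : ∀ j, j ≠ i → ((x j : ℕ) - (y j : ℕ)) + ((y j : ℕ) - (x j : ℕ)) ≤ m) : nd x y = m := by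
  apply le_antisymm
  · refine Finset.sup_le fun j _ => ?_
    by_cases hj : j = i
    · rw [hj, h1]
    · exact h2 j hj
  · rw [← h1]
    exact R5_le x y i

private theorem R5_core {l n r : ℕ} {o u : Fin d → Fin l} (hu : nd o u = n) (i : Fin d) (x : ℕ → Fin l)
    (h0 : x 0 = u i) (h1 : ∀ k, k < r → ((x k : ℕ) + 1 = (x (k + 1) : ℕ) ∨ (x (k + 1) : ℕ) + 1 = (x k : ℕ)))
    (h2 : ∀ k, k ≤ r → ((o i : ℕ) - (x k : ℕ)) + ((x k : ℕ) - (o i : ℕ)) = n + k)
    (h3 : ((u i : ℕ) - (x r : ℕ)) + ((x r : ℕ) - (u i : ℕ)) = r) :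
    ∃ (v : Fin d → Fin l) (F : Finset (boxG d l).edgeSet), nd o v = n + r ∧ nd u v = r ∧ F.card ≤ r ∧ F ∈ Pth (gends (boxG d l)) u v ∧
      ∀ e ∈ F, ∃ w ∈ gends (boxG d l) e, w ∉ (Qs o n : Set (Fin d → Fin l)) := by
  classical
  let w : ℕ → Fin d → Fin l := fun k => Function.update u i (x k)
  have hwi : ∀ k, w k i = x k := fun k => Function.update_self _ _ _
  have hwj : ∀ k j, j ≠ i → w k j = u j := fun k j hj => Function.update_of_ne hj _ _
  have hw0 : w 0 = u := by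
    show Function.update u i (x 0) = u
    rw [h0, Function.update_eq_self]
  have hadj : ∀ k, k < r → (boxG d l).Adj (w k) (w (k + 1)) := by
    intro k hk
    refine ⟨i, ?_, fun j hj => ?_⟩
    · rw [hwi, hwi]
      exact h1 k hk
    · rw [hwj k j hj, hwj (k + 1) j hj]
  have hno : ∀ k, k ≤ r → nd o (w k) = n + k := by
    intro k hk
    refine R5_eq _ _ i ?_ ?_
    · rw [hwi]
      exact h2 k hk
    · intro j hj
      rw [hwj k j hj]
      have := R5_le o u j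
      omega
  have hnu : nd u (w r) = r := by
    refine R5_eq _ _ i ?_ ?_
    · rw [hwi]
      exact h3
    · intro j hj
      rw [hwj r j hj]
      omega
  let F : Finset (boxG d l).edgeSet :=
    Finset.univ.filter (fun e => ∃ k, k < r ∧ (e : Sym2 (Fin d → Fin l)) = s(w k, w (k + 1)))
  have hF : ∀ e, e ∈ F ↔ ∃ k, k < r ∧ (e : Sym2 (Fin d → Fin l)) = s(w k, w (k + 1)) := fun e => by
    simp [F]
  refine ⟨w r, F, hno r le_rfl, hnu, ?_, ?_, ?_⟩
  · have e1 : F.image (fun e : (boxG d l).edgeSet => (e : Sym2 (Fin d → Fin l))) ⊆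
        (Finset.range r).image (fun k => s(w k, w (k + 1))) := by
      intro z hz
      obtain ⟨e, he, rfl⟩ := Finset.mem_image.1 hz
      obtain ⟨k, hk, hke⟩ := (hF e).1 he
      exact Finset.mem_image.2 ⟨k, Finset.mem_range.2 hk, hke.symm⟩
    have e2 := Finset.card_le_card e1
    rw [Finset.card_image_of_injective _ Subtype.val_injective] at e2
    refine e2.trans (Finset.card_image_le.trans ?_)
    rw [Finset.card_range]
  · have key : ∀ k, k ≤ r → Rch (gends (boxG d l)) (fun e => decide (e ∈ F)) Set.univ u (w k) := by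
      intro k
      induction k with
      | zero =>
        intro _
        rw [hw0]
        exact Relation.ReflTransGen.refl
      | succ k ih =>
        intro hk
        refine Relation.ReflTransGen.tail (ih (by omega)) ⟨trivial, trivial, ⟨s(w k, w (k + 1)), hadj k (by omega)⟩, ?_, rfl⟩
        exact decide_eq_true ((hF _).2 ⟨k, by omega, rfl⟩)
    exact key r le_rfl
  · intro e he
    obtain ⟨k, hk, hke⟩ := (hF e).1 he
    refine ⟨w (k + 1), ?_, ?_⟩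
    · show w (k + 1) ∈ (e : Sym2 (Fin d → Fin l))
      rw [hke]
      exact Sym2.mem_mk_right _ _
    · intro hq
      have h4 : nd o (w (k + 1)) ≤ n := hq
      rw [hno (k + 1) (by omega)] at h4
      omega

/-- Row R5. Some coordinate `i` has `|u i - o i| = n`; the straight path of `r` edges from `u` in direction `i` away from `o`. -/
theorem path_out (hd : 1 ≤ d) {l n r : ℕ} (hn : 1 ≤ n) {o : Fin d → Fin l} (ho : In o (n + r)) {u : Fin d → Fin l} (hu : u ∈ Sp o n) :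
    ∃ (v : Fin d → Fin l) (F : Finset (boxG d l).edgeSet), nd o v = n + r ∧ nd u v = r ∧ F.card ≤ r ∧ F ∈ Pth (gends (boxG d l)) u v ∧
      ∀ e ∈ F, ∃ w ∈ gends (boxG d l) e, w ∉ (Qs o n : Set (Fin d → Fin l)) := by
  have hn' : nd o u = n := by
    have := Finset.mem_filter.1 hu
    exact this.2
  have : Nonempty (Fin d) := ⟨⟨0, by omega⟩⟩
  obtain ⟨i, -, hi⟩ := Finset.exists_mem_eq_sup (Finset.univ : Finset (Fin d)) Finset.univ_nonempty
    (fun i => ((o i : ℕ) - (u i : ℕ)) + ((u i : ℕ) - (o i : ℕ)))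
  have hi' : ((o i : ℕ) - (u i : ℕ)) + ((u i : ℕ) - (o i : ℕ)) = n := by
    rw [← hi]
    exact hn'
  obtain ⟨h1, h2⟩ := ho i
  have hul := (u i).2
  rcases le_total (o i : ℕ) (u i : ℕ) with hc | hc
  · have hval : ∀ k, k ≤ r → ((if h : (u i : ℕ) + k < l then (⟨(u i : ℕ) + k, h⟩ : Fin l) else u i : Fin l) : ℕ) = (u i : ℕ) + k := by
      intro k hk
      rw [dif_pos (by omega)]
    refine R5_core hn' i (fun k => if h : (u i : ℕ) + k < l then (⟨(u i : ℕ) + k, h⟩ : Fin l) else u i) ?_ ?_ ?_ ?_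
    · apply Fin.ext
      rw [hval 0 (Nat.zero_le _), Nat.add_zero]
    · intro k hk
      left
      rw [hval k hk.le, hval (k + 1) hk]
      omega
    · intro k hk
      rw [hval k hk]
      omega
    · rw [hval r le_rfl]
      omega
  · refine R5_core hn' i (fun k => (⟨(u i : ℕ) - k, by omega⟩ : Fin l)) ?_ ?_ ?_ ?_
    · apply Fin.ext
      show (u i : ℕ) - 0 = (u i : ℕ)
      omega
    · intro k hk
      right
      show (u i : ℕ) - (k + 1) + 1 = (u i : ℕ) - k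
      omega
    · intro k hk
      show (o i : ℕ) - ((u i : ℕ) - k) + (((u i : ℕ) - k) - (o i : ℕ)) = n + k
      omega
    · show (u i : ℕ) - ((u i : ℕ) - r) + (((u i : ℕ) - r) - (u i : ℕ)) = r
      omega

private lemma R6_num (r : ℕ) (hr : 1 ≤ r) (N : ℕ) (h : ((N : ℕ) : ℝ) ^ 2 ≤ ((2 * r : ℕ) : ℝ) ^ 9) :
    (N : ℝ) * (1 / (1 + (r : ℝ)) ^ 7) ≤ 32 / Real.sqrt r := by
  have hr1 : (1 : ℝ) ≤ r := by exact_mod_cast hr
  have hr0 : (0 : ℝ) < r := by linarith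
  have hN0 : (0 : ℝ) ≤ (N : ℝ) := Nat.cast_nonneg _
  have h1 : (N : ℝ) ^ 2 ≤ (32 * (r : ℝ) ^ 5) ^ 2 := by
    refine h.trans ?_
    push_cast
    have e1 : (2 * (r : ℝ)) ^ 9 = 512 * (r : ℝ) ^ 9 := by ring
    have e2 : (32 * (r : ℝ) ^ 5) ^ 2 = 1024 * (r : ℝ) ^ 10 := by ring
    rw [e1, e2]
    have e3 : (r : ℝ) ^ 9 ≤ (r : ℝ) ^ 10 := pow_le_pow_right₀ hr1 (by norm_num)
    nlinarith [pow_pos hr0 9]
  have h2 : (N : ℝ) ≤ 32 * (r : ℝ) ^ 5 := by
    exact (pow_le_pow_iff_left₀ hN0 (by positivity) (by norm_num : (2 : ℕ) ≠ 0)).1 h1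
  have hs0 : 0 < Real.sqrt r := Real.sqrt_pos.2 hr0
  have hs1 : Real.sqrt r ≤ (r : ℝ) := by
    rw [Real.sqrt_le_left hr0.le]
    nlinarith
  have h3 : (r : ℝ) ^ 7 ≤ (1 + (r : ℝ)) ^ 7 := pow_le_pow_left₀ hr0.le (by linarith) 7
  calc (N : ℝ) * (1 / (1 + (r : ℝ)) ^ 7) ≤ (32 * (r : ℝ) ^ 5) * (1 / (r : ℝ) ^ 7) := by
        apply mul_le_mul h2 (one_div_le_one_div_of_le (by positivity) h3) (by positivity) (by positivity)
    _ = 32 / (r : ℝ) ^ 2 := by field_simp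
    _ ≤ 32 / Real.sqrt r := by
        apply div_le_div_of_nonneg_left (by norm_num) hs0
        nlinarith

private lemma R6_fk {l : ℕ} (j k : ℕ) (hjk : j ≤ k) (x y : Fin d → Fin l) : fk k x y ≤ fk j x y := by
  unfold fk
  have h1 : (1 : ℝ) ≤ 1 + (nd x y : ℝ) := by
    have : (0 : ℝ) ≤ (nd x y : ℝ) := Nat.cast_nonneg _
    linarith
  apply one_div_le_one_div_of_le (by positivity)
  exact pow_le_pow_right₀ h1 hjk

private lemma R6_fk0 {l : ℕ} (k : ℕ) (x y : Fin d → Fin l) : 0 ≤ fk k x y := by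
  unfold fk
  positivity

private lemma R6_sum (d : ℕ) : ∃ K : ℝ, 1 ≤ K ∧ ∀ (l r m0 n : ℕ) (A : Finset (Fin d → Fin l)) (o u v : Fin d → Fin l), 1 ≤ r →
    (∀ a ∈ A, nd o a ≤ n) → m0 ≤ r → nd o v = n + r → nd u v = r → (∀ m' : ℕ, m0 ≤ m' → (((A ∩ bb u m').card : ℕ) : ℝ) ^ 2 ≤ (m' : ℝ) ^ 9) →
    ∑ a ∈ A, fk 7 v a ≤ K / Real.sqrt r := by
  obtain ⟨K, hK1, hK⟩ := pow_sum d
  refine ⟨32 + 128 * K, by linarith, ?_⟩
  intro l r m0 n A o u v hr hA hm0 hov huv hcnt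
  have hr1 : (1 : ℝ) ≤ r := by exact_mod_cast hr
  have hr0 : (0 : ℝ) < r := by linarith
  have hs0 : 0 < Real.sqrt r := Real.sqrt_pos.2 hr0
  have hva : ∀ a ∈ A, r ≤ nd v a := by
    intro a ha
    have h1 := nd_tri o a v
    have h2 := hA a ha
    have h3 := nd_symm a v
    omega
  rw [← Finset.sum_filter_add_sum_filter_not A (fun a => nd u a ≤ 2 * r)]
  have hfirst : ∑ a ∈ A.filter (fun a => nd u a ≤ 2 * r), fk 7 v a ≤ 32 / Real.sqrt r := by
    have h1 : ∑ a ∈ A.filter (fun a => nd u a ≤ 2 * r), fk 7 v a ≤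
        (A.filter (fun a => nd u a ≤ 2 * r)).card • (1 / (1 + (r : ℝ)) ^ 7) := by
      apply Finset.sum_le_card_nsmul
      intro a ha
      have h2 := hva a (Finset.mem_filter.1 ha).1
      have h3 : (r : ℝ) ≤ (nd v a : ℝ) := by exact_mod_cast h2
      unfold fk
      apply one_div_le_one_div_of_le (by positivity)
      exact pow_le_pow_left₀ (by positivity) (by linarith) 7
    have h4 : A.filter (fun a => nd u a ≤ 2 * r) = A ∩ bb u (2 * r) := by
      ext a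
      simp [bb]
    rw [h4] at h1
    rw [h4]
    refine h1.trans ?_
    rw [nsmul_eq_mul]
    exact R6_num r hr _ (hcnt (2 * r) (by omega))
  have hsecond : ∑ a ∈ A.filter (fun a => ¬ nd u a ≤ 2 * r), fk 7 v a ≤ 128 * K / Real.sqrt r := by
    have h1 : ∑ a ∈ A.filter (fun a => ¬ nd u a ≤ 2 * r), fk 7 v a ≤
        ∑ a ∈ A.filter (fun a => ¬ nd u a ≤ 2 * r), 128 * fk 5 u a := by
      apply Finset.sum_le_sum
      intro a ha
      have h2 := (Finset.mem_filter.1 ha).2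
      have h3 := nd_tri u v a
      have h4 : nd u a ≤ 2 * nd v a := by omega
      have h5 : (nd u a : ℝ) ≤ 2 * (nd v a : ℝ) := by exact_mod_cast h4
      have h6 : (0 : ℝ) ≤ (nd u a : ℝ) := Nat.cast_nonneg _
      have h7 : fk 7 v a ≤ 128 * fk 7 u a := by
        unfold fk
        have h8 : (1 + (nd u a : ℝ)) ^ 7 ≤ 128 * (1 + (nd v a : ℝ)) ^ 7 := by
          calc (1 + (nd u a : ℝ)) ^ 7 ≤ (2 * (1 + (nd v a : ℝ))) ^ 7 :=
                pow_le_pow_left₀ (by positivity) (by linarith) 7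
            _ = 128 * (1 + (nd v a : ℝ)) ^ 7 := by ring
        rw [mul_one_div, div_le_div_iff₀ (by positivity) (by positivity)]
        linarith
      refine h7.trans (mul_le_mul_of_nonneg_left (R6_fk 5 7 (by norm_num) u a) (by norm_num))
    have h9 : ∑ a ∈ A.filter (fun a => ¬ nd u a ≤ 2 * r), 128 * fk 5 u a ≤
        ∑ a ∈ A.filter (fun a => r ≤ nd u a), 128 * fk 5 u a := by
      apply Finset.sum_le_sum_of_subset_of_nonneg
      · intro a ha
        rw [Finset.mem_filter] at ha ⊢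
        exact ⟨ha.1, by omega⟩
      · intro a _ _
        exact mul_nonneg (by norm_num) (R6_fk0 5 u a)
    have h10 := hK l m0 r u A hr hm0 hcnt
    calc ∑ a ∈ A.filter (fun a => ¬ nd u a ≤ 2 * r), fk 7 v a
        ≤ ∑ a ∈ A.filter (fun a => r ≤ nd u a), 128 * fk 5 u a := h1.trans h9
      _ = 128 * ∑ a ∈ A.filter (fun a => r ≤ nd u a), fk 5 u a := by rw [Finset.mul_sum]
      _ ≤ 128 * (K / Real.sqrt r) := mul_le_mul_of_nonneg_left h10 (by norm_num)
      _ = 128 * K / Real.sqrt r := by ring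
  calc _ ≤ 32 / Real.sqrt r + 128 * K / Real.sqrt r := add_le_add hfirst hsecond
    _ = (32 + 128 * K) / Real.sqrt r := by ring

/-- Row R6. `off_low` summed over `y ∈ bb v m`: `∑_y rs ≥ ∑_y ta v y - ∑_{a ∈ A} ta v a ∑_y ta a y ≥ b m² - K m² ∑_{a ∈ A} ta v a` (`GB.M`, `GH.U0`, `hk_base` with `hk ≤ 1`). For `a ∈ A`: `nd v a ≥ r` (as `nd o a ≤ n`, `nd o v = n + r`) and `nd v a ≥ nd u a - r`, so `ta v a ≤ C fk (d-2) v a ≤ C fk 7 v a`;
the `a` with `nd u a ≤ 2 r` number at most `(2r)^(9/2)`, each term at most `r^(-7)`; the `a` with `nd u a > 2r` have `nd v a ≥ nd u a / 2`: `pow_sum` with `ρ = r`, `fk 7 v a ≤ 2^7 fk 5 u a`. So `∑_a ta v a ≤ K / √r`, at most `b / (2 K)` for `r ≥ r0`. -/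
theorem grow (C c pc b α : ℝ) (h : GH d C c pc) (g : GB d b α pc) : ∃ r0 : ℕ, 1 ≤ r0 ∧ ∀ r : ℕ, r0 ≤ r → ∀ (l n m m0 : ℕ) (s : ℝ) (A : Finset (Fin d → Fin l)) (o u v : Fin d → Fin l),
    (∀ a ∈ A, nd o a ≤ n) → m0 ≤ r → nd o v = n + r → nd u v = r → (∀ m' : ℕ, m0 ≤ m' → (((A ∩ bb u m').card : ℕ) : ℝ) ^ 2 ≤ (m' : ℝ) ^ 9) →
    1 ≤ m → b * (m : ℝ) ^ 2 ≤ ∑ y ∈ bb v m, ta (gends (boxG d l)) (pc - s) v y → 0 ≤ s → s ≤ c → s * (m : ℝ) ^ 2 ≤ α →
    b / 2 * (m : ℝ) ^ 2 ≤ ∑ y ∈ bb v m, rs (gends (boxG d l)) ((A : Set (Fin d → Fin l))ᶜ) (pc - s) v y := by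
  obtain ⟨K2, hK2, hbase⟩ := hk_base d (by have := h.d9; omega)
  obtain ⟨K3, hK3, hsum⟩ := R6_sum d
  have hC1 := h.C1
  have hb0 := g.b0
  obtain ⟨r0, hr0⟩ := exists_nat_gt ((2 * C ^ 2 * K2 * K3 / b) ^ 2)
  refine ⟨r0 + 1, by omega, ?_⟩
  intro r hr l n m m0 s A o u v hA hm0 hov huv hcnt hm hIn hs hsc hsm
  have hr1 : 1 ≤ r := by omega
  have hrr : (0 : ℝ) < r := by exact_mod_cast hr1
  have hsq0 : 0 < Real.sqrt r := Real.sqrt_pos.2 hrr
  have hp0 := h.p0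
  have hcp := h.cp
  have hp1 := h.p1
  have q0 : 0 ≤ pc - s := by linarith
  have q1 : pc - s ≤ 1 := by linarith
  have hX0 : 0 ≤ 2 * C ^ 2 * K2 * K3 / b := by positivity
  have hsq : 2 * C ^ 2 * K2 * K3 / b ≤ Real.sqrt r := by
    apply Real.le_sqrt_of_sq_le
    have h1 : (r0 : ℝ) ≤ r := by exact_mod_cast (by omega : r0 ≤ r)
    linarith
  have hS1 : ∑ a ∈ A, ta (gends (boxG d l)) (pc - s) v a ≤ C * (K3 / Real.sqrt r) := by
    calc ∑ a ∈ A, ta (gends (boxG d l)) (pc - s) v a ≤ ∑ a ∈ A, C * fk 7 v a := by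
          apply Finset.sum_le_sum
          intro a _
          refine (h.U0 l v a s hs hsc).trans ?_
          exact mul_le_mul_of_nonneg_left (R6_fk 7 (d - 2) (by have := h.d9; omega) v a) (by linarith)
      _ = C * ∑ a ∈ A, fk 7 v a := by rw [Finset.mul_sum]
      _ ≤ C * (K3 / Real.sqrt r) :=
          mul_le_mul_of_nonneg_left (hsum l r m0 n A o u v hr1 hA hm0 hov huv hcnt) (by linarith)
  have hm2 : (0 : ℝ) ≤ (m : ℝ) ^ 2 := by positivity
  have hS2 : ∀ a : Fin d → Fin l, ∑ y ∈ bb v m, ta (gends (boxG d l)) (pc - s) a y ≤ C * (K2 * (m : ℝ) ^ 2) := by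
    intro a
    have h2 := hbase l m v a hm
    have h3 : hk m v a ≤ 1 := by
      unfold hk
      rw [div_le_one (by positivity)]
      apply one_le_pow₀
      have : (0 : ℝ) ≤ (nd v a : ℝ) / m := by positivity
      linarith
    calc ∑ y ∈ bb v m, ta (gends (boxG d l)) (pc - s) a y ≤ ∑ y ∈ bb v m, C * fk (d - 2) a y :=
          Finset.sum_le_sum fun y _ => h.U0 l a y s hs hsc
      _ = C * ∑ y ∈ bb v m, fk (d - 2) a y := by rw [Finset.mul_sum]
      _ ≤ C * (K2 * (m : ℝ) ^ 2) := by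
          apply mul_le_mul_of_nonneg_left _ (by linarith)
          refine h2.trans ?_
          have : 0 ≤ K2 * (m : ℝ) ^ 2 := by positivity
          nlinarith
  have hmain : ∑ y ∈ bb v m, (ta (gends (boxG d l)) (pc - s) v y -
      ∑ a ∈ A, ta (gends (boxG d l)) (pc - s) v a * ta (gends (boxG d l)) (pc - s) a y) ≤
      ∑ y ∈ bb v m, rs (gends (boxG d l)) ((A : Set (Fin d → Fin l))ᶜ) (pc - s) v y :=
    Finset.sum_le_sum fun y _ => off_low q0 q1 A v y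
  rw [Finset.sum_sub_distrib, Finset.sum_comm] at hmain
  have hS3 : ∑ a ∈ A, ∑ y ∈ bb v m, ta (gends (boxG d l)) (pc - s) v a * ta (gends (boxG d l)) (pc - s) a y ≤
      (C * (K3 / Real.sqrt r)) * (C * (K2 * (m : ℝ) ^ 2)) := by
    calc ∑ a ∈ A, ∑ y ∈ bb v m, ta (gends (boxG d l)) (pc - s) v a * ta (gends (boxG d l)) (pc - s) a y
        = ∑ a ∈ A, ta (gends (boxG d l)) (pc - s) v a * ∑ y ∈ bb v m, ta (gends (boxG d l)) (pc - s) a y := by
          refine Finset.sum_congr rfl fun a _ => ?_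
          rw [Finset.mul_sum]
      _ ≤ ∑ a ∈ A, ta (gends (boxG d l)) (pc - s) v a * (C * (K2 * (m : ℝ) ^ 2)) :=
          Finset.sum_le_sum fun a _ => mul_le_mul_of_nonneg_left (hS2 a) (ta_nonneg q0 q1 _ _)
      _ = (∑ a ∈ A, ta (gends (boxG d l)) (pc - s) v a) * (C * (K2 * (m : ℝ) ^ 2)) := by
          rw [Finset.sum_mul]
      _ ≤ (C * (K3 / Real.sqrt r)) * (C * (K2 * (m : ℝ) ^ 2)) :=
          mul_le_mul_of_nonneg_right hS1 (by positivity)
  have hS4 := hIn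
  have hS5 : (C * (K3 / Real.sqrt r)) * (C * (K2 * (m : ℝ) ^ 2)) ≤ b / 2 * (m : ℝ) ^ 2 := by
    have e1 : (C * (K3 / Real.sqrt r)) * (C * (K2 * (m : ℝ) ^ 2)) = (C ^ 2 * K2 * K3 / Real.sqrt r) * (m : ℝ) ^ 2 := by
      ring
    rw [e1]
    apply mul_le_mul_of_nonneg_right _ hm2
    rw [div_le_iff₀ hsq0]
    rw [div_le_iff₀ hb0] at hsq
    nlinarith
  linarith

theorem R7_fk_symm {l : ℕ} (k : ℕ) (x y : Fin d → Fin l) : fk k x y = fk k y x := by
  unfold fk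
  rw [nd_symm]

theorem R7_fk_nonneg {l : ℕ} (k : ℕ) (x y : Fin d → Fin l) : 0 ≤ fk k x y := by
  unfold fk
  positivity

theorem R7_hk_le {l : ℕ} (m : ℕ) (c x : Fin d → Fin l) : hk m c x ≤ 1 := by
  unfold hk
  have h1 : (0 : ℝ) ≤ (nd c x : ℝ) / m := by positivity
  have h2 : (1 : ℝ) ≤ (1 + (nd c x : ℝ) / m) ^ (d - 2) := one_le_pow₀ (by linarith)
  exact div_le_one_of_le₀ h2 (by positivity)

open scoped Classical in
/-- Row R7. `tree_graph`: `Ex (1[v ∈ cu y] 1[v' ∈ cu y]) ≤ ∑_z ta y z (ta z v ta z v')`; the sum over `y ∈ bb v m` of `ta y z` is at most `K m²` (`GH.U0`, `hk_base`, `hk ≤ 1`), and `∑_z ta z v ta z v' ≤ C² C4 fk (d-4) v v'` (`conv_f`, `nd_symm`). -/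
theorem pair_up (C c pc : ℝ) (h : GH d C c pc) : ∃ K : ℝ, 1 ≤ K ∧ ∀ (l m : ℕ) (s : ℝ) (v v' : Fin d → Fin l), 1 ≤ m → 0 ≤ s → s ≤ c →
    ∑ y ∈ bb v m ∩ bb v' m, Ex (pc - s) (fun ω : (boxG d l).edgeSet → Bool => if v ∈ cu (gends (boxG d l)) ω y ∧ v' ∈ cu (gends (boxG d l)) ω y then (1 : ℝ) else 0) ≤
      K * (m : ℝ) ^ 2 * fk (d - 4) v v' := by
  obtain ⟨K0, hK0, hb⟩ := hk_base d (by have := h.d9; omega)
  have hC : 0 ≤ C := by linarith [h.C1]
  refine ⟨max 1 (C * K0 * (C ^ 2 * C4 d)), le_max_left _ _, fun l m s v v' hm hs hsc => ?_⟩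
  have hp0 : 0 ≤ pc - s := by linarith [h.cp, h.c0]
  have hp1 : pc - s ≤ 1 := by linarith [h.p1]
  have hta : ∀ x y : Fin d → Fin l, 0 ≤ ta (gends (boxG d l)) (pc - s) x y := fun x y =>
    ta_nonneg hp0 hp1 x y
  -- the tree graph inequality for one point
  have h1 : ∀ y : Fin d → Fin l, Ex (pc - s) (fun ω : (boxG d l).edgeSet → Bool =>
      if v ∈ cu (gends (boxG d l)) ω y ∧ v' ∈ cu (gends (boxG d l)) ω y then (1 : ℝ) else 0) ≤
      ∑ z, ta (gends (boxG d l)) (pc - s) y z * (ta (gends (boxG d l)) (pc - s) z v *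
        ta (gends (boxG d l)) (pc - s) z v') := by
    intro y
    refine (Ex_mono hp0 hp1 fun ω => ?_).trans (tree_graph hp0 hp1 y v v')
    by_cases hA : v ∈ cu (gends (boxG d l)) ω y
    · by_cases hB : v' ∈ cu (gends (boxG d l)) ω y
      · simp [hA, hB]
      · simp [hA, hB]
    · simp [hA]
  have h2 : ∀ z : Fin d → Fin l, ∑ y ∈ bb v m ∩ bb v' m, ta (gends (boxG d l)) (pc - s) y z ≤
      C * K0 * (m : ℝ) ^ 2 := by
    intro z
    calc ∑ y ∈ bb v m ∩ bb v' m, ta (gends (boxG d l)) (pc - s) y z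
        ≤ ∑ y ∈ bb v m, ta (gends (boxG d l)) (pc - s) y z :=
          Finset.sum_le_sum_of_subset_of_nonneg Finset.inter_subset_left fun y _ _ => hta y z
      _ ≤ ∑ y ∈ bb v m, C * fk (d - 2) z y := by
          refine Finset.sum_le_sum fun y _ => ?_
          rw [R7_fk_symm]
          exact h.U0 l y z s hs hsc
      _ = C * ∑ y ∈ bb v m, fk (d - 2) z y := by rw [Finset.mul_sum]
      _ ≤ C * (K0 * (m : ℝ) ^ 2 * hk m v z) := mul_le_mul_of_nonneg_left (hb l m v z hm) hC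
      _ ≤ C * (K0 * (m : ℝ) ^ 2 * 1) := by
          refine mul_le_mul_of_nonneg_left (mul_le_mul_of_nonneg_left (R7_hk_le m v z) ?_) hC
          positivity
      _ = C * K0 * (m : ℝ) ^ 2 := by ring
  have h3 : ∑ z, ta (gends (boxG d l)) (pc - s) z v * ta (gends (boxG d l)) (pc - s) z v' ≤
      C ^ 2 * C4 d * fk (d - 4) v v' := by
    calc ∑ z, ta (gends (boxG d l)) (pc - s) z v * ta (gends (boxG d l)) (pc - s) z v'
        ≤ ∑ z, C ^ 2 * (fk (d - 2) v z * fk (d - 2) z v') := by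
          refine Finset.sum_le_sum fun z _ => ?_
          have e1 := h.U0 l z v s hs hsc
          have e2 := h.U0 l z v' s hs hsc
          rw [R7_fk_symm (d - 2) v z]
          calc _ ≤ (C * fk (d - 2) z v) * (C * fk (d - 2) z v') :=
                mul_le_mul e1 e2 (hta _ _) (mul_nonneg hC (R7_fk_nonneg _ _ _))
            _ = C ^ 2 * (fk (d - 2) z v * fk (d - 2) z v') := by ring
      _ = C ^ 2 * ∑ z, fk (d - 2) v z * fk (d - 2) z v' := by rw [Finset.mul_sum]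
      _ ≤ C ^ 2 * (C4 d * fk (d - 4) v v') :=
          mul_le_mul_of_nonneg_left (conv_f (by have := h.d9; omega) v v') (by positivity)
      _ = C ^ 2 * C4 d * fk (d - 4) v v' := by ring
  have hKm : 0 ≤ C * K0 * (m : ℝ) ^ 2 := by positivity
  calc _ ≤ ∑ y ∈ bb v m ∩ bb v' m, ∑ z, ta (gends (boxG d l)) (pc - s) y z *
        (ta (gends (boxG d l)) (pc - s) z v * ta (gends (boxG d l)) (pc - s) z v') :=
        Finset.sum_le_sum fun y _ => h1 y
    _ = ∑ z, (∑ y ∈ bb v m ∩ bb v' m, ta (gends (boxG d l)) (pc - s) y z) *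
        (ta (gends (boxG d l)) (pc - s) z v * ta (gends (boxG d l)) (pc - s) z v') := by
        rw [Finset.sum_comm]
        exact Finset.sum_congr rfl fun z _ => by rw [Finset.sum_mul]
    _ ≤ ∑ z, (C * K0 * (m : ℝ) ^ 2) *
        (ta (gends (boxG d l)) (pc - s) z v * ta (gends (boxG d l)) (pc - s) z v') :=
        Finset.sum_le_sum fun z _ => mul_le_mul_of_nonneg_right (h2 z)
          (mul_nonneg (hta _ _) (hta _ _))
    _ = (C * K0 * (m : ℝ) ^ 2) *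
        ∑ z, ta (gends (boxG d l)) (pc - s) z v * ta (gends (boxG d l)) (pc - s) z v' := by
        rw [Finset.mul_sum]
    _ ≤ (C * K0 * (m : ℝ) ^ 2) * (C ^ 2 * C4 d * fk (d - 4) v v') :=
        mul_le_mul_of_nonneg_left h3 hKm
    _ = (C * K0 * (C ^ 2 * C4 d)) * ((m : ℝ) ^ 2 * fk (d - 4) v v') := by ring
    _ ≤ max 1 (C * K0 * (C ^ 2 * C4 d)) * ((m : ℝ) ^ 2 * fk (d - 4) v v') :=
        mul_le_mul_of_nonneg_right (le_max_right _ _)
          (mul_nonneg (by positivity) (R7_fk_nonneg _ _ _))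
    _ = max 1 (C * K0 * (C ^ 2 * C4 d)) * (m : ℝ) ^ 2 * fk (d - 4) v v' := by ring

private lemma R8_self {l : ℕ} (x : Fin d → Fin l) : nd x x = 0 := by
  unfold nd
  rw [← Nat.le_zero]
  refine Finset.sup_le fun i _ => ?_
  omega

private lemma R8_coord {l : ℕ} (x y : Fin d → Fin l) (i : Fin d) :
    ((x i : ℕ) - (y i : ℕ)) + ((y i : ℕ) - (x i : ℕ)) ≤ nd x y :=
  Finset.le_sup (f := fun i => ((x i : ℕ) - (y i : ℕ)) + ((y i : ℕ) - (x i : ℕ)))
    (Finset.mem_univ i)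

private lemma R8_In {l n r L0 : ℕ} {o v : Fin d → Fin l} (ho : In o (L0 + 3 * n)) (hv : nd o v = n + r)
    (hm : n + r ≤ 3 * n) : In v L0 := by
  intro i
  have h1 := ho i
  have h2 := R8_coord o v i
  rw [hv] at h2
  constructor <;> omega

private lemma R8_fk {l : ℕ} (k : ℕ) (hk : 5 ≤ k) {u u' v v' : Fin d → Fin l} {r ρ : ℕ}
    (hr : 4 * r ≤ ρ) (h1 : nd u v = r) (h2 : nd u' v' = r) (h3 : ρ < nd u u') :
    fk k v v' ≤ 2 ^ k * fk 5 u u' := by
  have h4 := nd_tri u v u'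
  have h5 := nd_tri v v' u'
  rw [nd_symm v' u', h2] at h5
  rw [h1] at h4
  have h6 : nd u u' ≤ 2 * nd v v' := by omega
  have h7 : (nd u u' : ℝ) ≤ 2 * (nd v v' : ℝ) := by exact_mod_cast h6
  have h8 : (0 : ℝ) ≤ (nd u u' : ℝ) := Nat.cast_nonneg _
  have h9 : (0 : ℝ) ≤ (nd v v' : ℝ) := Nat.cast_nonneg _
  have h10 : (1 + (nd u u' : ℝ)) ^ 5 ≤ 2 ^ k * (1 + (nd v v' : ℝ)) ^ k := by
    calc (1 + (nd u u' : ℝ)) ^ 5 ≤ (1 + (nd u u' : ℝ)) ^ k := pow_le_pow_right₀ (by linarith) hk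
      _ ≤ (2 * (1 + (nd v v' : ℝ))) ^ k := pow_le_pow_left₀ (by linarith) (by linarith) k
      _ = 2 ^ k * (1 + (nd v v' : ℝ)) ^ k := mul_pow _ _ _
  unfold fk
  rw [mul_one_div, div_le_div_iff₀ (by positivity) (by positivity), one_mul]
  exact h10

private lemma R8_pair {l : ℕ} {K2 : ℝ} {ρ r m : ℕ} {A U : Finset (Fin d → Fin l)} {K1 : ℝ}
    (v : (Fin d → Fin l) → (Fin d → Fin l)) (hd : 9 ≤ d) (hK1 : 1 ≤ K1) (hr : 4 * r ≤ ρ)
    (Z : (Fin d → Fin l) → (Fin d → Fin l) → ℝ)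
    (hZ : ∀ a a', Z a a' ≤ K1 * (m : ℝ) ^ 2 * fk (d - 4) (v a) (v a'))
    (hpow : ∀ u ∈ U, ∑ a ∈ A.filter (fun a => ρ ≤ nd u a), fk 5 u a ≤ K2 / Real.sqrt ρ)
    (hUA : U ⊆ A) (hUd : ∀ u ∈ U, ∀ u' ∈ U, u ≠ u' → ρ < nd u u')
    (hv : ∀ u ∈ U, nd u (v u) = r) :
    ∑ u ∈ U, ∑ u' ∈ U.erase u, Z u u' ≤
      (m : ℝ) ^ 2 * (K1 * 2 ^ (d - 4) * K2 / Real.sqrt ρ) * (U.card : ℝ) := by
  have h1 : ∀ u ∈ U, ∑ u' ∈ U.erase u, Z u u' ≤
      (m : ℝ) ^ 2 * (K1 * 2 ^ (d - 4) * K2 / Real.sqrt ρ) := by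
    intro u hu
    have h2 : ∑ u' ∈ U.erase u, Z u u' ≤
        ∑ u' ∈ U.erase u, K1 * (m : ℝ) ^ 2 * 2 ^ (d - 4) * fk 5 u u' := by
      refine Finset.sum_le_sum fun u' hu' => ?_
      have h3 := Finset.mem_of_mem_erase hu'
      have h4 := Finset.ne_of_mem_erase hu'
      refine (hZ u u').trans ?_
      rw [mul_assoc (K1 * (m : ℝ) ^ 2)]
      refine mul_le_mul_of_nonneg_left ?_ (by positivity)
      exact R8_fk (d - 4) (by omega) hr (hv u hu) (hv u' h3) (hUd u hu u' h3 (Ne.symm h4))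
    have h5 : ∑ u' ∈ U.erase u, fk 5 u u' ≤ ∑ a ∈ A.filter (fun a => ρ ≤ nd u a), fk 5 u a := by
      refine Finset.sum_le_sum_of_subset_of_nonneg ?_ fun a _ _ => by unfold fk; positivity
      intro u' hu'
      have h3 := Finset.mem_of_mem_erase hu'
      have h4 := Finset.ne_of_mem_erase hu'
      rw [Finset.mem_filter]
      exact ⟨hUA h3, (hUd u hu u' h3 (Ne.symm h4)).le⟩
    calc ∑ u' ∈ U.erase u, Z u u' ≤ ∑ u' ∈ U.erase u, K1 * (m : ℝ) ^ 2 * 2 ^ (d - 4) * fk 5 u u' := h2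
      _ = K1 * (m : ℝ) ^ 2 * 2 ^ (d - 4) * ∑ u' ∈ U.erase u, fk 5 u u' := by rw [Finset.mul_sum]
      _ ≤ K1 * (m : ℝ) ^ 2 * 2 ^ (d - 4) * (K2 / Real.sqrt ρ) :=
          mul_le_mul_of_nonneg_left (h5.trans (hpow u hu)) (by positivity)
      _ = (m : ℝ) ^ 2 * (K1 * 2 ^ (d - 4) * K2 / Real.sqrt ρ) := by ring
  calc ∑ u ∈ U, ∑ u' ∈ U.erase u, Z u u' ≤
        ∑ _u ∈ U, (m : ℝ) ^ 2 * (K1 * 2 ^ (d - 4) * K2 / Real.sqrt ρ) := Finset.sum_le_sum h1
    _ = (m : ℝ) ^ 2 * (K1 * 2 ^ (d - 4) * K2 / Real.sqrt ρ) * (U.card : ℝ) := by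
        rw [Finset.sum_const, nsmul_eq_mul, mul_comm]

private lemma R8_fin {q b Q X R S F m : ℝ} (hq : 0 < q) (hb : 0 < b) (hQ : 0 ≤ Q) (hS : 0 ≤ S)
    (h1 : F - m * (q * (b / 4)) * X ≤ S) (h2 : q * (b / 2 * m) * X ≤ F) (h3 : R ≤ Q * X) (hm : 0 ≤ m) :
    m * R ≤ max 1 (Q * (4 / (b * q))) * S := by
  have h4 : m * X ≤ 4 / (b * q) * S := by
    rw [div_mul_eq_mul_div, le_div_iff₀ (by positivity)]
    nlinarith
  calc m * R ≤ m * (Q * X) := mul_le_mul_of_nonneg_left h3 hm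
    _ = Q * (m * X) := by ring
    _ ≤ Q * (4 / (b * q) * S) := mul_le_mul_of_nonneg_left h4 hQ
    _ = Q * (4 / (b * q)) * S := by ring
    _ ≤ max 1 (Q * (4 / (b * q))) * S := mul_le_mul_of_nonneg_right (le_max_right _ _) hS

/-- Row R8. `p = pc - s`. `r = max r0 (max m0 1)` (`grow`), `ρ ≥ 4 r`, `ρ ≥ m0` chosen large, `m1 = ρ`. `U A` = the set of `greedy` for `X = RG m0 o n A` and `ρ` (choice), `G = Sp o n`, `v`, `Pe` from `path_out` (choice), `D u = bb (v u) m`, `Y = {y | n ≤ 2 nd o y}` (`nd o y ≥ n + r - m ≥ n/2`), `S = Qs o n`.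
`explore`: the first term is at least `p^r (b/2) m² Ex (card U)` (`grow`; `In (v u) m` as `n + r + m ≤ 3 n`); for `u ≠ u'` in `U A`: `nd (v u) (v u') ≥ nd u u' - 2 r ≥ nd u u' / 2`, so the pair terms are at most `K m² 2^(d-4) ∑_{u' ∈ A, ρ ≤ nd u u'} fk (d-4) u u' ≤ K' m² /√ρ` for each `u`
(`pair_up`, `fk (d-4) ≤ fk 5`, `pow_sum`), at most `(pc/2)^r (b/4) m²` for `ρ` large. So `(pc/2)^r (b/4) m² Ex (card U) ≤ ∑_Y ta`, and `card RG ≤ (2ρ+1)^d card U`. -/
theorem rev (C c pc b α : ℝ) (h : GH d C c pc) (g : GB d b α pc) (m0 : ℕ) : ∃ (K : ℝ) (m1 : ℕ), 1 ≤ K ∧ 1 ≤ m1 ∧ ∀ n m : ℕ, m1 ≤ m → 2 * m ≤ n →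
    ∃ L1 : ℕ, ∀ (l : ℕ) (s : ℝ) (o : Fin d → Fin l), In o L1 → 0 ≤ s → s ≤ c → s * (m : ℝ) ^ 2 ≤ α →
    (m : ℝ) ^ 2 * Ex (pc - s) (fun ω : (boxG d l).edgeSet → Bool => ((RG m0 o n (cl (gends (boxG d l)) ω (Qs o n) o)).card : ℝ)) ≤
      K * ∑ y ∈ Finset.univ.filter (fun y => n ≤ 2 * nd o y ∧ nd o y ≤ 2 * n), ta (gends (boxG d l)) (pc - s) o y := by
  classical
  obtain ⟨r0, hr0, hgrow⟩ := grow C c pc b α h g
  obtain ⟨K1, hK1, hpair⟩ := pair_up C c pc h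
  obtain ⟨K2, hK2, hpow⟩ := pow_sum d
  obtain ⟨r, hr⟩ : ∃ r : ℕ, r = max r0 m0 := ⟨_, rfl⟩
  have hrr0 : r0 ≤ r := hr ▸ le_max_left _ _
  have hrm0 : m0 ≤ r := hr ▸ le_max_right _ _
  have hr1 : 1 ≤ r := hr0.trans hrr0
  have hpc := h.p0
  have hp1' := h.p1
  have hcp := h.cp
  have hd9 := h.d9
  have hb := g.b0
  have hε0 : 0 < (pc / 2) ^ r * (b / 4) := by positivity
  obtain ⟨T, hT⟩ : ∃ T : ℝ, T = K1 * 2 ^ (d - 4) * K2 / ((pc / 2) ^ r * (b / 4)) := ⟨_, rfl⟩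
  obtain ⟨ρ1, hρ1⟩ := exists_nat_ge (T ^ 2)
  obtain ⟨ρ, hρ⟩ : ∃ ρ : ℕ, ρ = ρ1 + 4 * r + m0 := ⟨_, rfl⟩
  have hρr : 4 * r ≤ ρ := by omega
  have hρm : m0 ≤ ρ := by omega
  have hρ11 : ρ1 ≤ ρ := by omega
  have hρ_1 : 1 ≤ ρ := by omega
  have hρT : K1 * 2 ^ (d - 4) * K2 / Real.sqrt ρ ≤ (pc / 2) ^ r * (b / 4) := by
    have hρpos : (0 : ℝ) < (ρ : ℝ) := by exact_mod_cast hρ_1
    have h1 : T ≤ Real.sqrt ρ := by
      refine Real.le_sqrt_of_sq_le (hρ1.trans ?_)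
      exact_mod_cast hρ11
    rw [div_le_iff₀ (Real.sqrt_pos.2 hρpos)]
    have h2 : K1 * 2 ^ (d - 4) * K2 = (pc / 2) ^ r * (b / 4) * T := by
      rw [hT]
      field_simp
    rw [h2]
    exact mul_le_mul_of_nonneg_left h1 hε0.le
  refine ⟨max 1 ((2 * (ρ : ℝ) + 1) ^ d * (4 / (b * (pc / 2) ^ r))), ρ, le_max_left _ _, hρ_1, ?_⟩
  intro n m hm hmn
  have hm1 : 1 ≤ m := by omega
  obtain ⟨L0, hL0⟩ := g.M m hm1
  refine ⟨L0 + 3 * n, fun l s o ho hs hsc hsm => ?_⟩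
  have hn1 : 1 ≤ n := by omega
  have hp0 : 0 ≤ pc - s := by linarith
  have hp1 : pc - s ≤ 1 := by linarith
  have hpq : pc / 2 ≤ pc - s := by linarith
  have hno : Nonempty (Fin d → Fin l) := ⟨o⟩
  have hoIn : In o (n + r) := by
    intro i
    have := ho i
    constructor <;> omega
  have hch : ∀ u ∈ Sp o n, ∃ (v : Fin d → Fin l) (F : Finset (boxG d l).edgeSet),
      nd o v = n + r ∧ nd u v = r ∧ F.card ≤ r ∧ F ∈ Pth (gends (boxG d l)) u v ∧
      ∀ e ∈ F, ∃ w ∈ gends (boxG d l) e, w ∉ (Qs o n : Set (Fin d → Fin l)) :=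
    fun u hu => path_out (by omega) hn1 hoIn hu
  choose! v Pe hv1 hv2 hv3 hv4 hv5 using hch
  have hgr : ∀ A : Finset (Fin d → Fin l), ∃ U ⊆ RG m0 o n A,
      (∀ u ∈ U, ∀ u' ∈ U, u ≠ u' → ρ < nd u u') ∧
      (RG m0 o n A).card ≤ (2 * ρ + 1) ^ d * U.card := fun A => greedy (RG m0 o n A) ρ
  choose U hUs hUd hUc using hgr
  have hRG : ∀ A : Finset (Fin d → Fin l), ∀ u ∈ RG m0 o n A, u ∈ A ∧ u ∈ Sp o n ∧
      ∀ m : ℕ, m0 ≤ m → (((A ∩ bb u m).card : ℕ) : ℝ) ^ 2 ≤ (m : ℝ) ^ 9 := by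
    intro A u hu
    unfold RG at hu
    rw [Finset.mem_filter, Finset.mem_inter] at hu
    exact ⟨hu.1.1, hu.1.2, hu.2⟩
  have hoS : o ∈ (Qs o n : Set (Fin d → Fin l)) := by
    show nd o o ≤ n
    rw [R8_self]
    exact Nat.zero_le _
  have hU : ∀ A, U A ⊆ A ∩ Sp o n := by
    intro A u hu
    have h1 := hRG A u (hUs A hu)
    exact Finset.mem_inter.2 ⟨h1.1, h1.2.1⟩
  have hD : ∀ u ∈ Sp o n, bb (v u) m ⊆ Finset.univ.filter (fun y => n ≤ 2 * nd o y ∧ nd o y ≤ 2 * n) := by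
    intro u hu y hy
    unfold bb at hy
    rw [Finset.mem_filter] at hy
    rw [Finset.mem_filter]
    refine ⟨Finset.mem_univ _, ?_⟩
    have h1 := hv1 u hu
    have h2 := nd_tri o y (v u)
    rw [nd_symm y (v u)] at h2
    have h3 := hy.2
    have h4 := nd_tri o (v u) y
    constructor <;> omega
  have hex := explore (p := pc - s) hp0 hp1 (Qs o n) o hoS (Sp o n) U hU r Pe v
    (fun u => bb (v u) m) (Finset.univ.filter (fun y => n ≤ 2 * nd o y ∧ nd o y ≤ 2 * n)) hv3 hv5 hv4 hD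
  have hcl : ∀ ω : (boxG d l).edgeSet → Bool, ∀ a ∈ cl (gends (boxG d l)) ω (Qs o n) o,
      nd o a ≤ n := by
    intro ω a ha
    have h1 : a ∈ (Qs o n : Set (Fin d → Fin l)) := Rch.mem' hoS (mem_cl.1 ha)
    exact h1
  have hA1 : (pc / 2) ^ r * (b / 2 * (m : ℝ) ^ 2) *
      Ex (pc - s) (fun ω : (boxG d l).edgeSet → Bool =>
        ((U (cl (gends (boxG d l)) ω (Qs o n) o)).card : ℝ)) ≤
      Ex (pc - s) (fun ω => ∑ u ∈ U (cl (gends (boxG d l)) ω (Qs o n) o), (pc - s) ^ r *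
        ∑ y ∈ bb (v u) m, rs (gends (boxG d l))
          (((cl (gends (boxG d l)) ω (Qs o n) o : Finset (Fin d → Fin l)) :
            Set (Fin d → Fin l))ᶜ) (pc - s) (v u) y) := by
    rw [← Ex_mul_left]
    apply Ex_mono hp0 hp1
    intro ω
    have h1 : ∀ u ∈ U (cl (gends (boxG d l)) ω (Qs o n) o),
        (pc / 2) ^ r * (b / 2 * (m : ℝ) ^ 2) ≤ (pc - s) ^ r *
        ∑ y ∈ bb (v u) m, rs (gends (boxG d l))
          (((cl (gends (boxG d l)) ω (Qs o n) o : Finset (Fin d → Fin l)) :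
            Set (Fin d → Fin l))ᶜ) (pc - s) (v u) y := by
      intro u hu
      obtain ⟨h2, h3, h4⟩ := hRG _ u (hUs _ hu)
      have h5 := hgrow r hrr0 l n m m0 s (cl (gends (boxG d l)) ω (Qs o n) o) o u (v u)
        (hcl ω) hrm0 (hv1 u h3) (hv2 u h3) h4 hm1
        (hL0 l (v u) s (R8_In ho (hv1 u h3) (by omega)) hs (by linarith) hsm) hs hsc hsm
      exact mul_le_mul (pow_le_pow_left₀ (by linarith) hpq r) h5 (by positivity) (by positivity)
    have h6 := Finset.sum_le_sum h1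
    rw [Finset.sum_const, nsmul_eq_mul] at h6
    rw [mul_comm]
    exact h6
  have hA2 : Ex (pc - s) (fun ω : (boxG d l).edgeSet → Bool =>
      ∑ u ∈ U (cl (gends (boxG d l)) ω (Qs o n) o),
      ∑ u' ∈ (U (cl (gends (boxG d l)) ω (Qs o n) o)).erase u,
      ∑ y ∈ bb (v u) m ∩ bb (v u') m, Ex (pc - s) (fun ω' : (boxG d l).edgeSet → Bool =>
        if v u ∈ cu (gends (boxG d l)) ω' y ∧ v u' ∈ cu (gends (boxG d l)) ω' y then (1 : ℝ)
        else 0)) ≤
      (m : ℝ) ^ 2 * ((pc / 2) ^ r * (b / 4)) *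
      Ex (pc - s) (fun ω : (boxG d l).edgeSet → Bool =>
        ((U (cl (gends (boxG d l)) ω (Qs o n) o)).card : ℝ)) := by
    rw [← Ex_mul_left]
    apply Ex_mono hp0 hp1
    intro ω
    have h1 := R8_pair (A := cl (gends (boxG d l)) ω (Qs o n) o)
      (U := U (cl (gends (boxG d l)) ω (Qs o n) o)) (K2 := K2) (ρ := ρ) (r := r) (m := m)
      (K1 := K1) v hd9 hK1 hρr
      (fun u u' => ∑ y ∈ bb (v u) m ∩ bb (v u') m,
        Ex (pc - s) (fun ω' : (boxG d l).edgeSet → Bool =>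
        if v u ∈ cu (gends (boxG d l)) ω' y ∧ v u' ∈ cu (gends (boxG d l)) ω' y then (1 : ℝ)
        else 0))
      (fun a a' => hpair l m s (v a) (v a') hm1 hs hsc)
      (fun u hu => hpow l m0 ρ u _ hρ_1 hρm (hRG _ u (hUs _ hu)).2.2)
      (fun u hu => (hRG _ u (hUs _ hu)).1) (hUd _) (fun u hu => hv2 u (hRG _ u (hUs _ hu)).2.1)
    refine h1.trans ?_
    refine mul_le_mul_of_nonneg_right ?_ (Nat.cast_nonneg _)
    exact mul_le_mul_of_nonneg_left hρT (by positivity)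
  have hA3 : Ex (pc - s) (fun ω : (boxG d l).edgeSet → Bool =>
      ((RG m0 o n (cl (gends (boxG d l)) ω (Qs o n) o)).card : ℝ)) ≤
      (2 * (ρ : ℝ) + 1) ^ d * Ex (pc - s) (fun ω : (boxG d l).edgeSet → Bool =>
        ((U (cl (gends (boxG d l)) ω (Qs o n) o)).card : ℝ)) := by
    rw [← Ex_mul_left]
    apply Ex_mono hp0 hp1
    intro ω
    exact_mod_cast hUc (cl (gends (boxG d l)) ω (Qs o n) o)
  have hS : 0 ≤ ∑ y ∈ Finset.univ.filter (fun y => n ≤ 2 * nd o y ∧ nd o y ≤ 2 * n),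
      ta (gends (boxG d l)) (pc - s) o y := Finset.sum_nonneg fun y _ => ta_nonneg hp0 hp1 o y
  refine R8_fin (q := (pc / 2) ^ r) (b := b) (by positivity) hb (by positivity) hS ?_ hA1 hA3
    (by positivity)
  exact le_trans (sub_le_sub_left hA2 _) hex

/-- the far part of the two-point function at `pc - s` -/
private lemma R10_far {C c pc : ℝ} (h : GH d C c pc) {l n : ℕ} (hn : 1 ≤ n) {s : ℝ} (hs0 : 0 ≤ s) (hsc : s ≤ c) (o : Fin d → Fin l) :
    ∑ y ∈ Finset.univ.filter (fun y => n ≤ 2 * nd o y ∧ nd o y ≤ 2 * n), ta (gends (boxG d l)) (pc - s) o y ≤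
      C * Real.exp (-(c * Real.sqrt s * n / 2)) * ((d * 2 ^ d : ℝ) * (7 * (n : ℝ)) ^ 2) := by
  have hd2 : 2 ≤ d := le_trans (by norm_num) h.d9
  have hC0 : 0 ≤ C := le_trans zero_le_one h.C1
  have hE : 0 ≤ C * Real.exp (-(c * Real.sqrt s * n / 2)) := mul_nonneg hC0 (Real.exp_pos _).le
  have hf : ∀ y, 0 ≤ fk (d - 2) o y := fun y => by unfold fk; positivity
  have hnear := near_f hd2 o (n + 1)
  rw [← Finset.sum_filter] at hnear
  have hn1 : (1 : ℝ) ≤ n := by exact_mod_cast hn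
  calc ∑ y ∈ Finset.univ.filter (fun y => n ≤ 2 * nd o y ∧ nd o y ≤ 2 * n), ta (gends (boxG d l)) (pc - s) o y
      ≤ ∑ y ∈ Finset.univ.filter (fun y => n ≤ 2 * nd o y ∧ nd o y ≤ 2 * n),
        C * Real.exp (-(c * Real.sqrt s * n / 2)) * fk (d - 2) o y := by
        apply Finset.sum_le_sum
        intro y hy
        rw [Finset.mem_filter] at hy
        refine (h.U l o y s hs0 hsc).trans ?_
        unfold ek
        have h1 : Real.exp (-(c * Real.sqrt s * (nd o y : ℝ))) ≤ Real.exp (-(c * Real.sqrt s * n / 2)) := by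
          apply Real.exp_le_exp.2
          have h2 : (n : ℝ) ≤ 2 * (nd o y : ℝ) := by exact_mod_cast hy.2.1
          have h3 : 0 ≤ c * Real.sqrt s := mul_nonneg h.c0.le (Real.sqrt_nonneg _)
          nlinarith
        calc C * (fk (d - 2) o y * Real.exp (-(c * Real.sqrt s * (nd o y : ℝ))))
            ≤ C * (fk (d - 2) o y * Real.exp (-(c * Real.sqrt s * n / 2))) :=
              mul_le_mul_of_nonneg_left (mul_le_mul_of_nonneg_left h1 (hf y)) hC0
          _ = _ := by ring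
    _ ≤ ∑ y ∈ Finset.univ.filter (fun y => 1 + nd o y ≤ 2 * (n + 1)), C * Real.exp (-(c * Real.sqrt s * n / 2)) * fk (d - 2) o y := by
        apply Finset.sum_le_sum_of_subset_of_nonneg
        · intro y hy
          rw [Finset.mem_filter] at hy ⊢
          exact ⟨hy.1, by omega⟩
        · intro y _ _
          exact mul_nonneg hE (hf y)
    _ = C * Real.exp (-(c * Real.sqrt s * n / 2)) * ∑ y ∈ Finset.univ.filter (fun y => 1 + nd o y ≤ 2 * (n + 1)), fk (d - 2) o y := by rw [Finset.mul_sum]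
    _ ≤ C * Real.exp (-(c * Real.sqrt s * n / 2)) * ((d * 2 ^ d : ℝ) * (4 * ((n + 1 : ℕ) : ℝ) ^ 2)) := mul_le_mul_of_nonneg_left hnear hE
    _ ≤ _ := by
        apply mul_le_mul_of_nonneg_left _ hE
        apply mul_le_mul_of_nonneg_left _ (by positivity)
        push_cast
        nlinarith

private lemma R9_ta_le {V : Type*} [Fintype V] [DecidableEq V] {E : Type*} [Fintype E] [DecidableEq E]
    (ends : E → Sym2 V) {p : ℝ} (h0 : 0 ≤ p) (h1 : p ≤ 1) (x y : V) : ta ends p x y ≤ 1 := by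
  unfold ta
  calc _ ≤ Ex p (fun _ : E → Bool => (1 : ℝ)) := Ex_mono h0 h1 fun ω => by
        split_ifs
        · exact le_rfl
        · exact zero_le_one
    _ = 1 := Ex_const p 1

private lemma R9_triv {n N : ℕ} (hn : n ≤ N) {p : ℝ} (h0 : 0 ≤ p) (h1 : p ≤ 1) :
    be d n p ≤ (2 * (N : ℝ) + 1) ^ d := by
  unfold be
  calc ∑ u ∈ Sp (ctr d n) n, ta (gends (boxG d (2 * n + 1))) p (ctr d n) u
      ≤ ∑ _u ∈ Sp (ctr d n) n, (1 : ℝ) := Finset.sum_le_sum fun u _ => R9_ta_le _ h0 h1 _ _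
    _ = ((Sp (ctr d n) n).card : ℝ) := by rw [Finset.sum_const, nsmul_eq_mul, mul_one]
    _ ≤ ((Fintype.card (Fin d → Fin (2 * n + 1)) : ℕ) : ℝ) := by
        exact_mod_cast Finset.card_le_univ _
    _ = (2 * (n : ℝ) + 1) ^ d := by
        rw [Fintype.card_fun, Fintype.card_fin, Fintype.card_fin]
        push_cast
        rfl
    _ ≤ (2 * (N : ℝ) + 1) ^ d := by
        have : (n : ℝ) ≤ N := by exact_mod_cast hn
        exact pow_le_pow_left₀ (by positivity) (by linarith) d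

/-- Row R9. `m0` with `K/m0 ≤ 1/2` (`irr_sum`). For `n` large: the box of side `6 n + 1`, `o` its centre, `m = n/2` (rounded down), `s = 0`: `rev` and `GH.Up`, `sum_f`: `Ex (card RG) ≤ K'`; `be_card`, `reg_count`, `irr_sum`: `be ≤ K' + be/2`. For the finitely many other `n`: `be d n pc ≤ card (Sp ..) ≤ (2n+1)^d`. -/
theorem be_bdd (C c pc b α : ℝ) (h : GH d C c pc) (g : GB d b α pc) : ∃ K : ℝ, 1 ≤ K ∧ ∀ n : ℕ, 1 ≤ n → be d n pc ≤ K := by
  obtain ⟨K₁, hK₁, hirr⟩ := irr_sum C c pc h b g.b0 g.b1 g.B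
  obtain ⟨m0, hm0⟩ : ∃ m0 : ℕ, m0 = ⌈2 * K₁⌉₊ + 2 := ⟨_, rfl⟩
  have hm0K : 2 * K₁ ≤ m0 := by
    have := Nat.le_ceil (2 * K₁)
    rw [hm0]
    push_cast
    linarith
  have hm0pos : (0 : ℝ) < m0 := by
    have : (0 : ℝ) < 2 * K₁ := by linarith
    linarith
  have hhalf : K₁ / m0 ≤ 1 / 2 := by
    rw [div_le_div_iff₀ hm0pos (by norm_num)]
    linarith
  obtain ⟨K₂, m1, hK₂, hm1, hrev⟩ := rev C c pc b α h g m0
  have hd9 := h.d9
  have hC := h.C1
  have hp0 : 0 ≤ pc := h.p0.le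
  have hp1 : pc ≤ 1 := h.p1.le
  obtain ⟨N, hN⟩ : ∃ N : ℕ, N = 2 * m1 + m0 + 3 := ⟨_, rfl⟩
  obtain ⟨K', hK'⟩ : ∃ K' : ℝ, K' = 441 * K₂ * C * (d * 2 ^ d) := ⟨_, rfl⟩
  have hK'0 : 0 ≤ K' := by rw [hK']; positivity
  have hN1 : (1 : ℝ) ≤ (2 * (N : ℝ) + 1) ^ d := one_le_pow₀ (by
    have : (0 : ℝ) ≤ N := Nat.cast_nonneg N
    linarith)
  refine ⟨(2 * (N : ℝ) + 1) ^ d + 2 * K', by linarith, fun n hn => ?_⟩
  rcases Nat.lt_or_ge n N with hnN | hnN
  · have := R9_triv (d := d) hnN.le hp0 hp1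
    linarith
  · obtain ⟨m, hm⟩ : ∃ m : ℕ, m = n / 2 := ⟨_, rfl⟩
    have hm2 : 2 * m ≤ n := by omega
    have hmn : n ≤ 3 * m := by omega
    have hmm1 : m1 ≤ m := by omega
    have hmpos : 1 ≤ m := by omega
    obtain ⟨L1, hrev1⟩ := hrev n m hmm1 hm2
    obtain ⟨L, hLdef⟩ : ∃ L : ℕ, L = L1 + 3 * n := ⟨_, rfl⟩
    have hoR : ∀ k : ℕ, k ≤ L → In (ctr d L) k := by
      intro k hk i
      constructor
      · exact hk
      · change L + k < 2 * L + 1
        omega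
    have hrv := hrev1 (2 * L + 1) 0 (ctr d L) (hoR _ (by omega)) le_rfl
      h.c0.le (by rw [zero_mul]; exact g.α0.le)
    rw [sub_zero] at hrv
    have hir := hirr (2 * L + 1) n m0 (2 * n + 1) (ctr d L) (hoR _ (by omega)) hn
      (by omega)
    have hbc := be_card (hoR n (by omega)) pc
    have hrc := reg_count hp0 hp1 (ctr d L) n m0 (by omega)
    rw [hbc] at hrc
    -- the upper bound of the sum
    have hup : ∑ y ∈ Finset.univ.filter (fun y => n ≤ 2 * nd (ctr d L) y ∧ nd (ctr d L) y ≤ 2 * n),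
        ta (gends (boxG d (2 * L + 1))) pc (ctr d L) y ≤
        C * ((d * 2 ^ d : ℝ) * (7 * (n : ℝ)) ^ 2) := by
      have h1 := R10_far h (n := n) hn le_rfl h.c0.le (ctr d L)
      rw [sub_zero, Real.sqrt_zero, mul_zero, zero_mul, zero_div, neg_zero, Real.exp_zero, mul_one] at h1
      exact h1
    obtain ⟨X, hX⟩ : ∃ X : ℝ, X = Ex pc (fun ω : (boxG d (2 * L + 1)).edgeSet → Bool =>
      ((RG m0 (ctr d L) n (cl (gends (boxG d (2 * L + 1))) ω (Qs (ctr d L) n)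
        (ctr d L))).card : ℝ)) := ⟨_, rfl⟩
    rw [← hX] at hrv hrc
    have hmR : (n : ℝ) ≤ 3 * m := by exact_mod_cast hmn
    have hm0' : (0 : ℝ) < m := by exact_mod_cast hmpos
    have hn0 : (0 : ℝ) ≤ n := Nat.cast_nonneg n
    have hXK : X ≤ K' := by
      have h1 : (m : ℝ) ^ 2 * X ≤ (m : ℝ) ^ 2 * K' := by
        refine hrv.trans ((mul_le_mul_of_nonneg_left hup (by linarith)).trans ?_)
        have h2 : (n : ℝ) ^ 2 ≤ 9 * (m : ℝ) ^ 2 := by nlinarith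
        have h3 : 0 ≤ 49 * K₂ * C * (d * 2 ^ d : ℝ) := by positivity
        have h4 := mul_le_mul_of_nonneg_left h2 h3
        rw [hK']
        calc K₂ * (C * ((d * 2 ^ d : ℝ) * (7 * (n : ℝ)) ^ 2)) =
            49 * K₂ * C * (d * 2 ^ d : ℝ) * (n : ℝ) ^ 2 := by ring
          _ ≤ 49 * K₂ * C * (d * 2 ^ d : ℝ) * (9 * (m : ℝ) ^ 2) := h4
          _ = (m : ℝ) ^ 2 * (441 * K₂ * C * (d * 2 ^ d)) := by ring
      exact le_of_mul_le_mul_left h1 (by positivity)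
    have hbe0 : 0 ≤ be d n pc := by
      have := g.B n hn
      have := g.b0
      linarith
    have hir2 : K₁ / m0 * be d n pc ≤ 1 / 2 * be d n pc :=
      mul_le_mul_of_nonneg_right hhalf hbe0
    linarith

private lemma R10_q (A : ℝ) {a ε : ℝ} (ha : 0 < a) (hε : 0 < ε) : ∃ q : ℕ, 2 ≤ q ∧
    A * (q : ℝ) ^ 2 * Real.exp (-(a * q)) ≤ ε := by
  obtain ⟨N, hN⟩ := exists_nat_ge (6 * A / (a ^ 3 * ε))
  refine ⟨N + 2, by omega, ?_⟩
  obtain ⟨x, hx⟩ : ∃ x : ℝ, x = ((N + 2 : ℕ) : ℝ) := ⟨_, rfl⟩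
  rw [← hx]
  have hxN : 6 * A / (a ^ 3 * ε) ≤ x := by
    rw [hx]
    push_cast
    linarith
  have hx0 : 0 < x := by
    rw [hx]
    positivity
  have h1 := Real.pow_div_factorial_le_exp (a * x) (by positivity) 3
  have e : ((3 : ℕ).factorial : ℝ) = 6 := by norm_num [Nat.factorial]
  rw [e] at h1
  rw [div_le_iff₀ (by positivity)] at hxN
  rw [Real.exp_neg, ← div_eq_mul_inv, div_le_iff₀ (Real.exp_pos _)]
  have h2 : A * x ^ 2 ≤ ε * ((a * x) ^ 3 / 6) := by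
    have h3 : 6 * A * x ^ 2 ≤ x * (a ^ 3 * ε) * x ^ 2 := mul_le_mul_of_nonneg_right hxN (by positivity)
    nlinarith
  exact h2.trans (mul_le_mul_of_nonneg_left h1 hε.le)

/-- Row R10. Let `Kb` be the bound of `be_bdd`, `m0` with `K Kb / m0 ≤ δ/2` (`irr_sum`). For a natural number `q ≥ 2` to be chosen (depending on `δ`, `m0`): `κ = α q²`, `m = n/q` (rounded down), `s = κ/n²` (`s m² ≤ α`; `s ≤ c` for `n` large), the box of side `6 n + 1`, `o` its centre.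
`rev`: `m² Ex (card RG) ≤ K ∑_{n ≤ 2 nd o y} ta ≤ K' n² exp (-c √s n / 2)` (`GH.U`, `sum_f`), `√s n = √α q`, `m ≥ n/(2q)`: `Ex (card RG) ≤ 4 q² K' exp (-c √α q / 2) ≤ δ/2` for `q` large. `be_card`, `reg_count`, `II_mono`, `irr_sum`. -/
theorem be_sub (C c pc b α : ℝ) (h : GH d C c pc) (g : GB d b α pc) (δ : ℝ) (hδ : 0 < δ) : ∃ (κ : ℝ) (n1 : ℕ), 0 < κ ∧ 1 ≤ n1 ∧ ∀ n : ℕ, n1 ≤ n →
    be d n (pc - κ / (n : ℝ) ^ 2) ≤ δ := by
  obtain ⟨Kb, hKb1, hKb⟩ := be_bdd C c pc b α h g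
  obtain ⟨Ki, hKi1, hKi⟩ := irr_sum C c pc h b g.b0 g.b1 g.B
  obtain ⟨m0, hm02, hm0⟩ : ∃ m0 : ℕ, 2 ≤ m0 ∧ Ki * Kb / m0 ≤ δ / 2 := by
    obtain ⟨N, hN⟩ := exists_nat_ge (2 * (Ki * Kb) / δ)
    refine ⟨N + 2, by omega, ?_⟩
    rw [div_le_iff₀ (by positivity)]
    rw [div_le_iff₀ hδ] at hN
    push_cast
    nlinarith
  obtain ⟨K, m1, hK1, hm11, hrev⟩ := rev C c pc b α h g m0
  have hC1 := h.C1
  have hc0 := h.c0
  have hα0 := g.α0
  have hcp := h.cp
  have hp1 := h.p1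
  obtain ⟨A, hA⟩ : ∃ A : ℝ, A = K * (C * ((d * 2 ^ d : ℝ) * 49)) * 4 := ⟨_, rfl⟩
  have hsα : 0 < Real.sqrt α := Real.sqrt_pos.2 hα0
  obtain ⟨q, hq2, hq⟩ := R10_q A (by positivity : 0 < c * Real.sqrt α / 2) (by linarith : 0 < δ / 2)
  have hq0 : (0 : ℝ) < q := by
    have h1 : 0 < q := by omega
    exact_mod_cast h1
  refine ⟨α * (q : ℝ) ^ 2, q * m1 + m0 + ⌈α * (q : ℝ) ^ 2 / c⌉₊ + 1, by positivity, by omega, ?_⟩
  intro n hn
  have hn0 : 1 ≤ n := by omega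
  have hn0' : (1 : ℝ) ≤ n := by exact_mod_cast hn0
  have hnm0 : m0 ≤ 2 * n := by omega
  have hqn : q * m1 ≤ n := by omega
  have hnc : α * (q : ℝ) ^ 2 / c ≤ n := by
    refine (Nat.le_ceil _).trans ?_
    have h1 : ⌈α * (q : ℝ) ^ 2 / c⌉₊ ≤ n := by omega
    exact_mod_cast h1
  obtain ⟨m, hm⟩ : ∃ m : ℕ, m = n / q := ⟨_, rfl⟩
  have hm1 : m1 ≤ m := by
    rw [hm, Nat.le_div_iff_mul_le (by omega), mul_comm]
    exact hqn
  have hqm : q * m ≤ n := by
    rw [hm]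
    exact Nat.mul_div_le n q
  have hqm2 : n < q * (m + 1) := by
    rw [hm]
    exact Nat.lt_mul_div_succ n (by omega)
  have h2m : 2 * m ≤ n := le_trans (Nat.mul_le_mul_right m hq2) hqm
  obtain ⟨s, hs⟩ : ∃ s : ℝ, s = α * (q : ℝ) ^ 2 / (n : ℝ) ^ 2 := ⟨_, rfl⟩
  have hs0 : 0 ≤ s := by
    rw [hs]
    positivity
  have hsc : s ≤ c := by
    rw [hs, div_le_iff₀ (by positivity)]
    rw [div_le_iff₀ hc0] at hnc
    have h1 : (n : ℝ) ≤ (n : ℝ) ^ 2 := by nlinarith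
    have h2 : c * (n : ℝ) ≤ c * (n : ℝ) ^ 2 := mul_le_mul_of_nonneg_left h1 hc0.le
    linarith
  have hsm : s * (m : ℝ) ^ 2 ≤ α := by
    rw [hs, div_mul_eq_mul_div, div_le_iff₀ (by positivity)]
    have h1 : (q : ℝ) * m ≤ n := by exact_mod_cast hqm
    have h2 : ((q : ℝ) * m) ^ 2 ≤ (n : ℝ) ^ 2 := pow_le_pow_left₀ (by positivity) h1 2
    nlinarith
  have hm0' : 1 ≤ m := le_trans hm11 hm1
  have hm0R : (0 : ℝ) < m := by
    have h1 : 0 < m := hm0'
    exact_mod_cast h1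
  have hnq : (n : ℝ) ≤ 2 * q * m := by
    have h1 : n ≤ 2 * q * m := by
      have h2 : q * (m + 1) ≤ 2 * q * m := by nlinarith
      omega
    exact_mod_cast h1
  have hsn : Real.sqrt s * n = Real.sqrt α * q := by
    rw [hs, Real.sqrt_div (by positivity), Real.sqrt_mul hα0.le, Real.sqrt_sq hq0.le,
      Real.sqrt_sq (by positivity)]
    field_simp
  obtain ⟨L1, hrev1⟩ := hrev n m hm1 h2m
  obtain ⟨L, hLdef⟩ : ∃ L : ℕ, L = L1 + 3 * n := ⟨_, rfl⟩
  have hoR : ∀ k : ℕ, k ≤ L → In (ctr d L) k := by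
    intro k hk i
    constructor
    · exact hk
    · change L + k < 2 * L + 1
      omega
  obtain ⟨o, ho⟩ : ∃ o : Fin d → Fin (2 * L + 1), o = ctr d L := ⟨_, rfl⟩
  rw [← ho] at hoR
  have ho2 : In o (2 * n) := hoR _ (by omega)
  have ho1 : In o n := hoR _ (by omega)
  have hp0 : 0 ≤ pc - s := by linarith
  have hps : pc - s ≤ 1 := by linarith
  rw [← hs, ← be_card ho1 (pc - s)]
  refine (reg_count hp0 hps o n m0 hnm0).trans ?_
  have hRG := hrev1 (2 * L + 1) s o (hoR _ (by omega)) hs0 hsc hsm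
  have hfar := R10_far h (n := n) hn0 hs0 hsc o
  have hl : (7 * (n : ℝ)) ^ 2 ≤ 49 * (n : ℝ) ^ 2 := by
    nlinarith
  have hexp : Real.exp (-(c * Real.sqrt s * n / 2)) = Real.exp (-(c * Real.sqrt α / 2 * q)) := by
    congr 1
    have h1 : c * Real.sqrt s * n / 2 = c * (Real.sqrt s * n) / 2 := by ring
    rw [h1, hsn]
    ring
  rw [hexp] at hfar
  obtain ⟨X, hX⟩ : ∃ X : ℝ, X = Real.exp (-(c * Real.sqrt α / 2 * q)) := ⟨_, rfl⟩
  rw [← hX] at hfar hq
  have hX0 : 0 ≤ X := by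
    rw [hX]
    exact (Real.exp_pos _).le
  have hbound : Ex (pc - s) (fun ω : (boxG d (2 * L + 1)).edgeSet → Bool =>
      ((RG m0 o n (cl (gends (boxG d (2 * L + 1))) ω (Qs o n) o)).card : ℝ)) ≤ δ / 2 := by
    have h1 : (m : ℝ) ^ 2 * Ex (pc - s) (fun ω : (boxG d (2 * L + 1)).edgeSet → Bool =>
        ((RG m0 o n (cl (gends (boxG d (2 * L + 1))) ω (Qs o n) o)).card : ℝ)) ≤ (m : ℝ) ^ 2 * (δ / 2) := by
      refine hRG.trans ?_
      have h2 : K * (C * X * ((d * 2 ^ d : ℝ) * (7 * (n : ℝ)) ^ 2)) ≤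
          K * (C * X * ((d * 2 ^ d : ℝ) * (49 * (n : ℝ) ^ 2))) := by gcongr
      have h3 : (n : ℝ) ^ 2 ≤ 4 * (q : ℝ) ^ 2 * (m : ℝ) ^ 2 := by
        calc (n : ℝ) ^ 2 ≤ (2 * q * m) ^ 2 := pow_le_pow_left₀ (by positivity) hnq 2
          _ = _ := by ring
      calc K * ∑ y ∈ Finset.univ.filter (fun y => n ≤ 2 * nd o y ∧ nd o y ≤ 2 * n), ta (gends (boxG d (2 * L + 1))) (pc - s) o y
          ≤ K * (C * X * ((d * 2 ^ d : ℝ) * (7 * (n : ℝ)) ^ 2)) :=
            mul_le_mul_of_nonneg_left hfar (by linarith)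
        _ ≤ K * (C * X * ((d * 2 ^ d : ℝ) * (49 * (n : ℝ) ^ 2))) := h2
        _ ≤ K * (C * X * ((d * 2 ^ d : ℝ) * (49 * (4 * (q : ℝ) ^ 2 * (m : ℝ) ^ 2)))) := by gcongr
        _ = (m : ℝ) ^ 2 * (A * (q : ℝ) ^ 2 * X) := by rw [hA]; ring
        _ ≤ (m : ℝ) ^ 2 * (δ / 2) := mul_le_mul_of_nonneg_left hq (by positivity)
    exact le_of_mul_le_mul_left h1 (by positivity)
  have hII : ∑ m ∈ Finset.Ico m0 (2 * n + 1), II o n m (pc - s) ≤ δ / 2 := by
    calc ∑ m ∈ Finset.Ico m0 (2 * n + 1), II o n m (pc - s)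
        ≤ ∑ m ∈ Finset.Ico m0 (2 * n + 1), II o n m pc :=
          Finset.sum_le_sum fun m _ => II_mono hp0 (by linarith) hp1.le o n m
      _ ≤ Ki / m0 * be d n pc := hKi _ n m0 _ o ho2 hn0 hm02
      _ ≤ Ki / m0 * Kb := mul_le_mul_of_nonneg_left (hKb n hn0) (by positivity)
      _ = Ki * Kb / m0 := by ring
      _ ≤ δ / 2 := hm0
  linarith
end Pool.Agent.PERC29.GU
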