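import Pool.Agent.Lib.MP_29e17e_pr.G.Df

set_option autoImplicit false
set_option linter.unusedSectionVars false

/-! Rows 29g-T1, T2: the tree graph inequality for the moments. -/

open Finset

namespace Pool.Agent.PERC29.GU

open Pool.Agent.PERC29 Pool.Agent.PERC29.AE Pool.Agent.PERC29.QQ

variable {V : Type*} [Fintype V] [DecidableEq V] {E : Type*} [Fintype E] [DecidableEq E] {ends : E → Sym2 V}

private theorem T1_mono {F F' : Finset E} (hF : F ⊆ F') {a b : V}
    (h : Rch ends (fun e => decide (e ∈ F)) Set.univ a b) :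
    Rch ends (fun e => decide (e ∈ F')) Set.univ a b := by
  refine h.mono (fun e he => ?_) (Set.Subset.refl _)
  rw [decide_eq_true_eq] at he ⊢
  exact hF he

private theorem T1_step {F : Finset E} {f : E} (hf : f ∈ F) {a b : V} (h : ends f = s(a, b)) :
    Rch ends (fun e => decide (e ∈ F)) Set.univ a b :=
  Relation.ReflTransGen.single ⟨trivial, trivial, f, by rw [decide_eq_true_eq]; exact hf, h⟩

private theorem T1_first {F : Finset E} {x z : V}
    (h : Rch ends (fun e => decide (e ∈ F)) Set.univ x z) :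
    x = z ∨ ∃ f ∈ F, ∃ x', x ≠ x' ∧ ends f = s(x, x') := by
  induction h with
  | refl => exact Or.inl rfl
  | @tail c d _ hcd ih =>
    rcases ih with ih | ih
    · obtain ⟨-, -, e, h3, h4⟩ := hcd
      rw [decide_eq_true_eq] at h3
      by_cases hd : x = d
      · exact Or.inl hd
      · rw [← ih] at h4
        exact Or.inr ⟨e, h3, d, hd, h4⟩
    · exact Or.inr ih

private theorem T1_erase {F : Finset E} {f : E} {x x' z : V} (hf : ends f = s(x, x'))
    (h : Rch ends (fun e => decide (e ∈ F)) Set.univ x z) :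
    Rch ends (fun e => decide (e ∈ F.erase f)) Set.univ x z ∨
      Rch ends (fun e => decide (e ∈ F.erase f)) Set.univ x' z := by
  induction h with
  | refl => exact Or.inl (Rch.refl _)
  | @tail c d _ hcd ih =>
    obtain ⟨-, -, e, h3, h4⟩ := hcd
    rw [decide_eq_true_eq] at h3
    by_cases hef : e = f
    · rw [hef, hf, Sym2.eq_iff] at h4
      rcases h4 with ⟨-, h5⟩ | ⟨h5, -⟩
      · right
        rw [h5]
        exact Rch.refl _
      · left
        rw [h5]
        exact Rch.refl _
    · have hst := T1_step (ends := ends) (Finset.mem_erase.2 ⟨hef, h3⟩) h4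
      rcases ih with ih | ih
      · exact Or.inl (ih.trans hst)
      · exact Or.inr (ih.trans hst)

open scoped Classical in
private theorem T1_filter {F : Finset E} {a z : V}
    (h : Rch ends (fun e => decide (e ∈ F)) Set.univ a z) :
    Rch ends (fun e => decide (e ∈ F.filter (fun e => ∃ c ∈ ends e,
      Rch ends (fun e => decide (e ∈ F)) Set.univ a c))) Set.univ a z := by
  induction h with
  | refl => exact Rch.refl _
  | @tail c d hac hcd ih =>
    obtain ⟨-, -, e, h3, h4⟩ := hcd
    rw [decide_eq_true_eq] at h3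
    refine ih.trans (T1_step (ends := ends) (f := e) (Finset.mem_filter.2 ⟨h3, c, ?_, hac⟩) h4)
    rw [h4]
    exact Sym2.mem_mk_left c d

private theorem T1_ends {F : Finset E} {e : E} (he : e ∈ F) {c d : V} (hc : c ∈ ends e)
    (hd : d ∈ ends e) : Rch ends (fun e => decide (e ∈ F)) Set.univ c d := by
  by_cases hcd : c = d
  · rw [hcd]
    exact Rch.refl _
  · have h1 : ends e = s(c, d) := (Sym2.mem_and_mem_iff hcd).1 ⟨hc, hd⟩
    exact T1_step (ends := ends) he h1

/-- Row T1. Induction on the number of elements of `F`. If `x = y i` for some `i ∈ I`: `w = x`, `I1 = {i}`, `F0 = F1 = ∅`, `F2 = F`. Otherwise `x` is joined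
to some `y i ≠ x` through `F`, so there is `f ∈ F` with `ends f = s(x, x')`, `x ≠ x'` (first step of the path). Let `F' = F.erase f`, `I' = {i ∈ I : x` is joined
to `y i` through `F'}`, `I'' = I \ I'`. For `i ∈ I''` the vertex `x'` is joined to `y i` through `F'` (consider the last use of `f` on a path in `F`: if it ends at `x`, then `x` is
joined to `y i` through `F'`). If `I'' = ∅`: induction for `F'`, `x`. If `I' = ∅`: induction for `F'`, `x'`, and `f` is added to `F0`. Otherwise `x`, `x'` are not joined through `F'`: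
`w = x`, `F0 = ∅`, `I1 = I'`, `F1` the edges of `F'` with an end joined to `x` through `F'`, `F2` the edge `f` and the edges of `F'` with an end joined to `x'` through `F'`. -/
theorem split {ι : Type*} [DecidableEq ι] (y : ι → V) (I : Finset ι) (hI : 2 ≤ I.card) (F : Finset E) (x : V)
    (hF : F ∈ Cn ends y x I) :
    ∃ w, ∃ I1 ⊆ I, I1.Nonempty ∧ (I \ I1).Nonempty ∧ ∃ F0 ∈ Pth ends x w, ∃ F1 ∈ Cn ends y w I1,
      ∃ F2 ∈ Cn ends y w (I \ I1), Disjoint F0 F1 ∧ Disjoint (F0 ∪ F1) F2 ∧ F0 ∪ F1 ∪ F2 ⊆ F := by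
  classical
  induction F using Finset.strongInduction generalizing x with
  | H F ih =>
    by_cases hx : ∃ i ∈ I, x = y i
    · obtain ⟨i, hi, hxi⟩ := hx
      refine ⟨x, {i}, Finset.singleton_subset_iff.2 hi, Finset.singleton_nonempty i, ?_, ∅,
        Rch.refl _, ∅, ?_, F, ?_, Finset.disjoint_empty_left _, ?_, ?_⟩
      · rw [← Finset.card_pos, Finset.card_sdiff_of_subset (Finset.singleton_subset_iff.2 hi),
          Finset.card_singleton]
        omega
      · intro j hj
        rw [Finset.mem_singleton] at hj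
        rw [hj, ← hxi]
        exact Rch.refl _
      · intro j hj
        exact hF j (Finset.mem_sdiff.1 hj).1
      · rw [Finset.empty_union]
        exact Finset.disjoint_empty_left _
      · rw [Finset.empty_union, Finset.empty_union]
    · obtain ⟨i0, hi0⟩ : I.Nonempty := Finset.card_pos.1 (by omega)
      rcases T1_first (hF i0 hi0) with h0 | ⟨f, hf, x', -, hfx⟩
      · exact absurd ⟨i0, hi0, h0⟩ hx
      have hss : F.erase f ⊂ F := Finset.erase_ssubset hf
      have hsub : F.erase f ⊆ F := Finset.erase_subset f F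
      have hor : ∀ i ∈ I, Rch ends (fun e => decide (e ∈ F.erase f)) Set.univ x (y i) ∨
          Rch ends (fun e => decide (e ∈ F.erase f)) Set.univ x' (y i) := fun i hi =>
        T1_erase hfx (hF i hi)
      by_cases h1 : ∀ i ∈ I, Rch ends (fun e => decide (e ∈ F.erase f)) Set.univ x (y i)
      · obtain ⟨w, I1, hI1, hne1, hne2, F0, hF0, F1, hF1, F2, hF2, hd1, hd2, hs⟩ :=
          ih (F.erase f) hss x h1
        exact ⟨w, I1, hI1, hne1, hne2, F0, hF0, F1, hF1, F2, hF2, hd1, hd2, hs.trans hsub⟩
      by_cases h2 : ∀ i ∈ I, ¬ Rch ends (fun e => decide (e ∈ F.erase f)) Set.univ x (y i)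
      · have h3 : F.erase f ∈ Cn ends y x' I := fun i hi => (hor i hi).resolve_left (h2 i hi)
        obtain ⟨w, I1, hI1, hne1, hne2, F0, hF0, F1, hF1, F2, hF2, hd1, hd2, hs⟩ :=
          ih (F.erase f) hss x' h3
        have hnf : ∀ G : Finset E, G ⊆ F0 ∪ F1 ∪ F2 → f ∉ G := fun G hG hfG =>
          (Finset.notMem_erase f F) (hs (hG hfG))
        have hf1 : f ∉ F1 := hnf F1 (fun e he => Finset.mem_union_left _ (Finset.mem_union_right _ he))
        have hf2 : f ∉ F2 := hnf F2 (fun e he => Finset.mem_union_right _ he)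
        refine ⟨w, I1, hI1, hne1, hne2, insert f F0, ?_, F1, hF1, F2, hF2, ?_, ?_, ?_⟩
        · have h4 : Rch ends (fun e => decide (e ∈ insert f F0)) Set.univ x' w :=
            T1_mono (Finset.subset_insert f F0) hF0
          exact (T1_step (ends := ends) (Finset.mem_insert_self f F0) hfx).trans h4
        · rw [Finset.disjoint_insert_left]
          exact ⟨hf1, hd1⟩
        · rw [Finset.insert_union, Finset.disjoint_insert_left]
          exact ⟨hf2, hd2⟩
        · rw [Finset.insert_union, Finset.insert_union]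
          exact Finset.insert_subset hf (hs.trans hsub)
      · push Not at h1 h2
        obtain ⟨i1, hi1, hn1⟩ := h1
        obtain ⟨i2, hi2, hj2⟩ := h2
        have hnj : ¬ Rch ends (fun e => decide (e ∈ F.erase f)) Set.univ x x' := fun hj =>
          hn1 (hj.trans ((hor i1 hi1).resolve_left hn1))
        refine ⟨x, I.filter (fun i => Rch ends (fun e => decide (e ∈ F.erase f)) Set.univ x (y i)),
          Finset.filter_subset _ _, ⟨i2, Finset.mem_filter.2 ⟨hi2, hj2⟩⟩,
          ⟨i1, Finset.mem_sdiff.2 ⟨hi1, fun h => hn1 (Finset.mem_filter.1 h).2⟩⟩, ∅, Rch.refl _,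
          (F.erase f).filter (fun e => ∃ c ∈ ends e,
            Rch ends (fun e => decide (e ∈ F.erase f)) Set.univ x c), ?_,
          insert f ((F.erase f).filter (fun e => ∃ c ∈ ends e,
            Rch ends (fun e => decide (e ∈ F.erase f)) Set.univ x' c)), ?_,
          Finset.disjoint_empty_left _, ?_, ?_⟩
        · intro i hi
          exact T1_filter (Finset.mem_filter.1 hi).2
        · intro i hi
          rw [Finset.mem_sdiff] at hi
          have hni : ¬ Rch ends (fun e => decide (e ∈ F.erase f)) Set.univ x (y i) := fun h =>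
            hi.2 (Finset.mem_filter.2 ⟨hi.1, h⟩)
          have h3 := T1_filter ((hor i hi.1).resolve_left hni)
          exact (T1_step (ends := ends) (Finset.mem_insert_self f _) hfx).trans
            (T1_mono (Finset.subset_insert f _) h3)
        · rw [Finset.empty_union, Finset.disjoint_left]
          intro e he he2
          obtain ⟨heF, c, hc, hxc⟩ := Finset.mem_filter.1 he
          rcases Finset.mem_insert.1 he2 with h4 | h4
          · rw [h4] at heF
            exact Finset.notMem_erase f F heF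
          · obtain ⟨-, d, hd, hxd⟩ := Finset.mem_filter.1 h4
            exact hnj ((hxc.trans (T1_ends heF hc hd)).trans hxd.symm)
        · rw [Finset.empty_union]
          refine Finset.union_subset ((Finset.filter_subset _ _).trans hsub)
            (Finset.insert_subset hf ((Finset.filter_subset _ _).trans hsub))

private lemma T2_opn {ι : Type*} [DecidableEq ι] (y : ι → V) (x : V) (I : Finset ι) (ω : E → Bool) :
    opn (Cn ends y x I) ω = if ∀ i ∈ I, y i ∈ cu ends ω x then 1 else 0 := by
  classical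
  unfold opn
  apply if_congr _ rfl rfl
  constructor
  · rintro ⟨F, hF, hop⟩ i hi
    rw [mem_cu]
    have hF' : Rch ends (fun e => decide (e ∈ F)) Set.univ x (y i) := hF i hi
    exact hF'.mono (fun e he => hop e (of_decide_eq_true he)) le_rfl
  · intro h
    refine ⟨Finset.univ.filter (fun e => ω e = true), ?_, ?_⟩
    · intro i hi
      exact (mem_cu.1 (h i hi)).mono (fun e he => by simp [he]) le_rfl
    · intro e he
      exact (Finset.mem_filter.1 he).2

private lemma T2_nonneg (A : Set (Finset E)) (ω : E → Bool) : 0 ≤ opn A ω := by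
  unfold opn
  split_ifs <;> norm_num

private lemma T2_prod {ι : Type*} [DecidableEq ι] (y : ι → V) (x : V) (I : Finset ι) (ω : E → Bool) :
    opn (Cn ends y x I) ω = ∏ i ∈ I, (if y i ∈ cu ends ω x then (1 : ℝ) else 0) := by
  classical
  rw [T2_opn]
  by_cases h : ∀ i ∈ I, y i ∈ cu ends ω x
  · rw [if_pos h, Finset.prod_congr rfl (fun i hi => if_pos (h i hi)), Finset.prod_const_one]
  · rw [if_neg h]
    push Not at h
    obtain ⟨i, hi, hi'⟩ := h
    exact (Finset.prod_eq_zero hi (if_neg hi')).symm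

private lemma T2_card (B : Finset V) (ω : E → Bool) (w : V) :
    ∑ v ∈ B, (if v ∈ cu ends ω w then (1 : ℝ) else 0) = ((cu ends ω w ∩ B).card : ℝ) := by
  classical
  rw [Finset.sum_ite_mem, Finset.sum_const, nsmul_eq_mul, mul_one, Finset.inter_comm]

private lemma T2_mo (p : ℝ) (B : Finset V) (k : ℕ) (x : V) :
    mo ends p B k x = ∑ y ∈ Fintype.piFinset (fun _ : Fin k => B), Ex p (opn (Cn ends y x Finset.univ)) := by
  classical
  unfold mo
  rw [← Ex_sum]
  apply Ex_congr
  intro ω
  rw [Finset.sum_congr rfl (fun y _ => T2_prod (ends := ends) y x Finset.univ ω),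
    ← Finset.prod_univ_sum (t := fun _ : Fin k => B) (f := fun _ v => if v ∈ cu ends ω x then (1 : ℝ) else 0)]
  rw [T2_card, Finset.prod_const, Finset.card_univ, Fintype.card_fin]

private lemma T2_two (p : ℝ) (B : Finset V) (k : ℕ) (w : V) (I : Finset (Fin k)) :
    ∑ y ∈ Fintype.piFinset (fun _ : Fin k => B), Ex p (opn (Cn ends y w I)) * Ex p (opn (Cn ends y w (Finset.univ \ I))) =
      mo ends p B I.card w * mo ends p B (k - I.card) w := by
  classical
  have h1 : ∀ y : Fin k → V, Ex p (opn (Cn ends y w I)) * Ex p (opn (Cn ends y w (Finset.univ \ I))) =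
      Ex p (fun ω => Ex p (fun ω' => ∏ i, (if y i ∈ (if i ∈ I then cu ends ω w else cu ends ω' w) then (1 : ℝ) else 0))) := by
    intro y
    have e1 : ∀ ω ω' : E → Bool, ∏ i, (if y i ∈ (if i ∈ I then cu ends ω w else cu ends ω' w) then (1 : ℝ) else 0) =
        opn (Cn ends y w I) ω * opn (Cn ends y w (Finset.univ \ I)) ω' := by
      intro ω ω'
      rw [T2_prod, T2_prod, ← Finset.prod_mul_prod_compl I, Finset.compl_eq_univ_sdiff]
      congr 1
      · exact Finset.prod_congr rfl fun i hi => by rw [if_pos hi]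
      · exact Finset.prod_congr rfl fun i hi => by rw [if_neg (Finset.mem_sdiff.1 hi).2]
    rw [Ex_congr (fun ω => Ex_congr (fun ω' => e1 ω ω'))]
    rw [Ex_congr (fun ω => (Ex_mul_left (p := p) (opn (Cn ends y w I) ω) (opn (Cn ends y w (Finset.univ \ I)))))]
    rw [show (fun ω => opn (Cn ends y w I) ω * Ex p (opn (Cn ends y w (Finset.univ \ I)))) =
      (fun ω => Ex p (opn (Cn ends y w (Finset.univ \ I))) * opn (Cn ends y w I) ω) from funext fun ω => mul_comm _ _]
    rw [Ex_mul_left, mul_comm]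
  rw [Finset.sum_congr rfl (fun y _ => h1 y), ← Ex_sum]
  have h2 : ∀ ω ω' : E → Bool, ∑ y ∈ Fintype.piFinset (fun _ : Fin k => B),
      ∏ i, (if y i ∈ (if i ∈ I then cu ends ω w else cu ends ω' w) then (1 : ℝ) else 0) =
      ((cu ends ω w ∩ B).card : ℝ) ^ I.card * ((cu ends ω' w ∩ B).card : ℝ) ^ (k - I.card) := by
    intro ω ω'
    rw [← Finset.prod_univ_sum (t := fun _ : Fin k => B)
      (f := fun i v => if v ∈ (if i ∈ I then cu ends ω w else cu ends ω' w) then (1 : ℝ) else 0),
      ← Finset.prod_mul_prod_compl I]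
    have a1 : ∏ i ∈ I, ∑ v ∈ B, (if v ∈ (if i ∈ I then cu ends ω w else cu ends ω' w) then (1 : ℝ) else 0) =
        ∏ i ∈ I, ((cu ends ω w ∩ B).card : ℝ) :=
      Finset.prod_congr rfl fun i hi => by rw [if_pos hi, T2_card]
    have a2 : ∏ i ∈ Iᶜ, ∑ v ∈ B, (if v ∈ (if i ∈ I then cu ends ω w else cu ends ω' w) then (1 : ℝ) else 0) =
        ∏ i ∈ Iᶜ, ((cu ends ω' w ∩ B).card : ℝ) :=
      Finset.prod_congr rfl fun i hi => by rw [if_neg (Finset.mem_compl.1 hi), T2_card]
    rw [a1, a2, Finset.prod_const, Finset.prod_const, Finset.card_compl, Fintype.card_fin]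
  have h3 : ∀ ω : E → Bool, ∑ y ∈ Fintype.piFinset (fun _ : Fin k => B),
      Ex p (fun ω' => ∏ i, (if y i ∈ (if i ∈ I then cu ends ω w else cu ends ω' w) then (1 : ℝ) else 0)) =
      mo ends p B (k - I.card) w * ((cu ends ω w ∩ B).card : ℝ) ^ I.card := by
    intro ω
    rw [← Ex_sum, Ex_congr (fun ω' => h2 ω ω'), Ex_mul_left, mul_comm]
    rfl
  rw [Ex_congr h3, Ex_mul_left, mul_comm]
  rfl

private lemma T2_mo_nonneg {p : ℝ} (h0 : 0 ≤ p) (h1 : p ≤ 1) (B : Finset V) (k : ℕ) (w : V) : 0 ≤ mo ends p B k w :=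
  Ex_nonneg h0 h1 fun ω => by positivity

/-- Row T2. `mo p B k x = ∑ over y : Fin k → V with all y i ∈ B of the probability that x is joined to all y i` (`Ex p (opn (Cn ends y x univ))`; expand the power:
`Finset.sum_pow'` or `Finset.prod_univ_sum`). By `split` (`F` = the open edges) and the union bound over `w`, `I1` the probability is at most the sum over `w`, `I1` of
`Ex p (opn (dsj (dsj (Pth x w) (Cn y w I1)) (Cn y w I1ᶜ)))`, at most `ta x w * Ex p (opn (Cn y w I1)) * Ex p (opn (Cn y w I1ᶜ))` (`bk` twice, `opn_Pth`). The sum over `y` of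
the product is `mo p B I1.card w * mo p B (k - I1.card) w` (the first factor depends only on `y i`, `i ∈ I1`). There are at most `2^k` sets `I1` with a given number of elements. -/
theorem mo_rec {p : ℝ} (h0 : 0 ≤ p) (h1 : p ≤ 1) (B : Finset V) (k : ℕ) (hk : 2 ≤ k) (x : V) :
    mo ends p B k x ≤ (2 : ℝ) ^ k * ∑ i ∈ Finset.Ico 1 k, ∑ w, ta ends p x w * (mo ends p B i w * mo ends p B (k - i) w) := by
  classical
  set PP : Finset (Finset (Fin k)) := Finset.univ.filter (fun I => I.Nonempty ∧ (Finset.univ \ I).Nonempty) with hPP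
  set T : (Fin k → V) → V → Finset (Fin k) → Set (Finset E) := fun y w I =>
    dsj (dsj (Pth ends x w) (Cn ends y w I)) (Cn ends y w (Finset.univ \ I)) with hT
  have hpt : ∀ (y : Fin k → V) (ω : E → Bool), opn (Cn ends y x Finset.univ) ω ≤ ∑ w, ∑ I ∈ PP, opn (T y w I) ω := by
    intro y ω
    have hnn : 0 ≤ ∑ w, ∑ I ∈ PP, opn (T y w I) ω :=
      Finset.sum_nonneg fun w _ => Finset.sum_nonneg fun I _ => T2_nonneg _ _
    by_cases h : ∃ F ∈ Cn ends y x Finset.univ, ∀ e ∈ F, ω e = true
    · obtain ⟨F, hF, hop⟩ := h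
      obtain ⟨w, I1, _, hn1, hn2, F0, hF0, F1, hF1, F2, hF2, hd1, hd2, hsub⟩ :=
        split y Finset.univ (by rw [Finset.card_univ, Fintype.card_fin]; exact hk) F x hF
      have hI : I1 ∈ PP := Finset.mem_filter.2 ⟨Finset.mem_univ _, hn1, hn2⟩
      have h6 : opn (T y w I1) ω = 1 := by
        unfold opn
        rw [if_pos]
        exact ⟨F0 ∪ F1 ∪ F2, ⟨F0 ∪ F1, ⟨F0, hF0, F1, hF1, hd1, rfl⟩, F2, hF2, hd2, rfl⟩, fun e he => hop e (hsub he)⟩
      calc opn (Cn ends y x Finset.univ) ω ≤ 1 := by
            unfold opn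
            split_ifs <;> norm_num
        _ = opn (T y w I1) ω := h6.symm
        _ ≤ ∑ I ∈ PP, opn (T y w I) ω := Finset.single_le_sum (f := fun I => opn (T y w I) ω) (fun I _ => T2_nonneg _ _) hI
        _ ≤ ∑ w, ∑ I ∈ PP, opn (T y w I) ω := Finset.single_le_sum (f := fun w => ∑ I ∈ PP, opn (T y w I) ω)
            (fun w _ => Finset.sum_nonneg fun I _ => T2_nonneg _ _) (Finset.mem_univ w)
    · have : opn (Cn ends y x Finset.univ) ω = 0 := by
        unfold opn
        rw [if_neg h]
      rw [this]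
      exact hnn
  have hn : ∀ A : Set (Finset E), 0 ≤ Ex p (opn A) := fun A => Ex_nonneg h0 h1 fun ω => T2_nonneg A ω
  have hta : ∀ w, Ex p (opn (Pth ends x w)) = ta ends p x w := fun w => by
    unfold ta
    exact Ex_congr fun ω => opn_Pth x w ω
  have hbk : ∀ (y : Fin k → V) (w : V) (I : Finset (Fin k)), Ex p (opn (T y w I)) ≤
      ta ends p x w * (Ex p (opn (Cn ends y w I)) * Ex p (opn (Cn ends y w (Finset.univ \ I)))) := by
    intro y w I
    calc Ex p (opn (T y w I)) ≤ Ex p (opn (dsj (Pth ends x w) (Cn ends y w I))) * Ex p (opn (Cn ends y w (Finset.univ \ I))) :=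
          bk h0 h1 _ _
      _ ≤ (Ex p (opn (Pth ends x w)) * Ex p (opn (Cn ends y w I))) * Ex p (opn (Cn ends y w (Finset.univ \ I))) :=
          mul_le_mul_of_nonneg_right (bk h0 h1 _ _) (hn _)
      _ = _ := by rw [hta, mul_assoc]
  have hy : ∀ y : Fin k → V, Ex p (opn (Cn ends y x Finset.univ)) ≤ ∑ w, ∑ I ∈ PP,
      ta ends p x w * (Ex p (opn (Cn ends y w I)) * Ex p (opn (Cn ends y w (Finset.univ \ I)))) := by
    intro y
    calc Ex p (opn (Cn ends y x Finset.univ)) ≤ Ex p (fun ω => ∑ w, ∑ I ∈ PP, opn (T y w I) ω) := Ex_mono h0 h1 (hpt y)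
      _ = ∑ w, ∑ I ∈ PP, Ex p (opn (T y w I)) := by
          rw [Ex_sum]
          exact Finset.sum_congr rfl fun w _ => Ex_sum _ _ _
      _ ≤ _ := Finset.sum_le_sum fun w _ => Finset.sum_le_sum fun I _ => hbk y w I
  have hg : ∀ w i, 0 ≤ mo ends p B i w * mo ends p B (k - i) w := fun w i =>
    mul_nonneg (T2_mo_nonneg h0 h1 B i w) (T2_mo_nonneg h0 h1 B (k - i) w)
  have hI : ∀ w, ∑ I ∈ PP, mo ends p B I.card w * mo ends p B (k - I.card) w ≤
      (2 : ℝ) ^ k * ∑ i ∈ Finset.Ico 1 k, mo ends p B i w * mo ends p B (k - i) w := by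
    intro w
    have hs : 0 ≤ ∑ i ∈ Finset.Ico 1 k, mo ends p B i w * mo ends p B (k - i) w := Finset.sum_nonneg fun i _ => hg w i
    have hc : (PP.card : ℝ) ≤ (2 : ℝ) ^ k := by
      have h2 : PP.card ≤ 2 ^ k := by
        refine (Finset.card_filter_le _ _).trans ?_
        rw [Finset.card_univ, Fintype.card_finset, Fintype.card_fin]
      exact_mod_cast h2
    calc ∑ I ∈ PP, mo ends p B I.card w * mo ends p B (k - I.card) w
        ≤ ∑ I ∈ PP, ∑ i ∈ Finset.Ico 1 k, mo ends p B i w * mo ends p B (k - i) w := by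
          refine Finset.sum_le_sum fun I hI => ?_
          obtain ⟨_, hn1, hn2⟩ := Finset.mem_filter.1 hI
          have c1 : 1 ≤ I.card := Finset.card_pos.2 hn1
          have c2 : 1 ≤ (Finset.univ \ I).card := Finset.card_pos.2 hn2
          have c3 : (Finset.univ \ I).card = k - I.card := by
            rw [← Finset.compl_eq_univ_sdiff, Finset.card_compl, Fintype.card_fin]
          exact Finset.single_le_sum (f := fun i => mo ends p B i w * mo ends p B (k - i) w) (fun i _ => hg w i)
            (Finset.mem_Ico.2 ⟨c1, by omega⟩)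
      _ = (PP.card : ℝ) * ∑ i ∈ Finset.Ico 1 k, mo ends p B i w * mo ends p B (k - i) w := by
          rw [Finset.sum_const, nsmul_eq_mul]
      _ ≤ _ := mul_le_mul_of_nonneg_right hc hs
  calc mo ends p B k x = ∑ y ∈ Fintype.piFinset (fun _ : Fin k => B), Ex p (opn (Cn ends y x Finset.univ)) := T2_mo p B k x
    _ ≤ ∑ y ∈ Fintype.piFinset (fun _ : Fin k => B), ∑ w, ∑ I ∈ PP,
        ta ends p x w * (Ex p (opn (Cn ends y w I)) * Ex p (opn (Cn ends y w (Finset.univ \ I)))) :=
        Finset.sum_le_sum fun y _ => hy y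
    _ = ∑ w, ta ends p x w * ∑ I ∈ PP, mo ends p B I.card w * mo ends p B (k - I.card) w := by
        rw [Finset.sum_comm]
        refine Finset.sum_congr rfl fun w _ => ?_
        rw [Finset.sum_comm, Finset.mul_sum]
        refine Finset.sum_congr rfl fun I _ => ?_
        rw [← Finset.mul_sum, T2_two]
    _ ≤ ∑ w, ta ends p x w * ((2 : ℝ) ^ k * ∑ i ∈ Finset.Ico 1 k, mo ends p B i w * mo ends p B (k - i) w) :=
        Finset.sum_le_sum fun w _ => mul_le_mul_of_nonneg_left (hI w) (ta_nonneg h0 h1 x w)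
    _ = (2 : ℝ) ^ k * ∑ i ∈ Finset.Ico 1 k, ∑ w, ta ends p x w * (mo ends p B i w * mo ends p B (k - i) w) := by
        rw [Finset.sum_comm, Finset.mul_sum]
        refine Finset.sum_congr rfl fun w _ => ?_
        rw [← Finset.mul_sum]
        ring
end Pool.Agent.PERC29.GU
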